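import Pool.Agent.Work.MP_95d40a_an.CRow

set_option autoImplicit false

open MeasureTheory Filter Topology
open scoped ENNReal RealInnerProductSpace ComplexConjugate

namespace Pool.Agent.Work.MP_95d40a_an

/-! ### exponents near two, complex scalars -/

lemma abs_exp_sub_one (y : ℝ) : |Real.exp y - 1| ≤ |y| * Real.exp |y| := by
  rcases le_total 0 y with h | h
  · have h1 : 1 ≤ Real.exp y := Real.one_le_exp h
    rw [abs_of_nonneg (by linarith), abs_of_nonneg h]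
    have h2 := Real.add_one_le_exp (-y)
    have h3 : Real.exp (-y) * Real.exp y = 1 := by rw [← Real.exp_add]; simp
    have h4 := Real.exp_pos y
    nlinarith
  · have h1 : Real.exp y ≤ 1 := Real.exp_le_one_iff.2 h
    rw [abs_of_nonpos (by linarith), abs_of_nonpos h]
    have h2 := Real.add_one_le_exp y
    have h3 : 1 ≤ Real.exp (-y) := Real.one_le_exp (by linarith)
    nlinarith

lemma near_two {r s : ℝ} (hθ : |r - 2| ≤ 1 / 2) (hs0 : 0 ≤ s) (hs2 : s ≤ 2) : |s ^ (r - 1) - s| ≤ 4 * |r - 2| := by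
  obtain ⟨b1, b2⟩ := abs_le.1 hθ
  rcases hs0.eq_or_lt with rfl | hs
  · rw [Real.zero_rpow (by linarith), sub_zero, abs_zero]; positivity
  obtain ⟨θ, hθe⟩ : ∃ θ, θ = |r - 2| := ⟨_, rfl⟩
  have hθ0 : 0 ≤ θ := by rw [hθe]; positivity
  have hθ2 : θ ≤ 1 / 2 := by rw [hθe]; exact hθ
  obtain ⟨y, hy⟩ : ∃ y, y = Real.log s * (r - 2) := ⟨_, rfl⟩
  have e1 : s ^ (r - 1) = s * Real.exp y := by
    rw [hy, ← Real.rpow_def_of_pos hs, mul_comm, ← Real.rpow_add_one hs.ne']; congr 1; ring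
  have e2 : |s ^ (r - 1) - s| = s * |Real.exp y - 1| := by
    rw [e1, show s * Real.exp y - s = s * (Real.exp y - 1) by ring, abs_mul, abs_of_pos hs]
  have hya : |y| = |Real.log s| * θ := by rw [hy, abs_mul, hθe]
  rw [e2, ← hθe]
  have h0 := abs_exp_sub_one y
  rcases le_total s 1 with h | h
  · have hlog : Real.log s ≤ 0 := Real.log_nonpos hs0 h
    have h1 := Real.abs_log_mul_self_rpow_lt s (1 / 2) hs h (by norm_num)
    have h2 : s * Real.exp |y| ≤ s ^ (1 / 2 : ℝ) := by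
      have : Real.exp |y| = s ^ (-θ) := by
        rw [hya, abs_of_nonpos hlog, Real.rpow_def_of_pos hs]; congr 1; ring
      rw [this]
      calc s * s ^ (-θ) = s ^ (1 - θ) := by
            rw [Real.rpow_sub hs, Real.rpow_one, Real.rpow_neg hs.le]; field_simp
        _ ≤ s ^ (1 / 2 : ℝ) := Real.rpow_le_rpow_of_exponent_ge hs h (by linarith)
    have h3 : |Real.log s| * s ^ (1 / 2 : ℝ) ≤ 2 := by
      rw [abs_mul, abs_of_nonneg (by positivity : (0:ℝ) ≤ s ^ (1 / 2 : ℝ))] at h1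
      linarith
    calc s * |Real.exp y - 1| ≤ s * (|y| * Real.exp |y|) := by gcongr
      _ = |Real.log s| * θ * (s * Real.exp |y|) := by rw [hya]; ring
      _ ≤ |Real.log s| * θ * s ^ (1 / 2 : ℝ) := by gcongr
      _ = θ * (|Real.log s| * s ^ (1 / 2 : ℝ)) := by ring
      _ ≤ θ * 2 := by gcongr
      _ ≤ 4 * θ := by linarith
  · have hlog : 0 ≤ Real.log s := Real.log_nonneg h
    have hlog2 : Real.log s ≤ Real.log 2 := Real.log_le_log hs hs2
    have hl2 := Real.log_two_lt_d9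
    have hl0 := Real.log_pos (by norm_num : (1 : ℝ) < 2)
    have h2 : Real.exp |y| ≤ 2 := by
      have : |y| ≤ Real.log 2 := by
        rw [hya, abs_of_nonneg hlog]
        calc Real.log s * θ ≤ Real.log 2 * 1 := by gcongr; linarith
          _ = _ := mul_one _
      calc Real.exp |y| ≤ Real.exp (Real.log 2) := Real.exp_le_exp.2 this
        _ = 2 := Real.exp_log (by norm_num)
    calc s * |Real.exp y - 1| ≤ s * (|y| * Real.exp |y|) := by gcongr
      _ = (Real.log s * θ) * (s * Real.exp |y|) := by rw [hya, abs_of_nonneg hlog]; ring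
      _ ≤ (Real.log 2 * θ) * (2 * 2) := by gcongr
      _ ≤ (1 * θ) * (2 * 2) := by gcongr; linarith
      _ = 4 * θ := by ring

/-- `m^{r-2} n^2` against `n^r` -/
lemma near_sq {r m n : ℝ} (hθ : |r - 2| ≤ 1 / 2) (hm : 0 < m) (hn0 : 0 ≤ n) {C : ℝ} (hC0 : 0 ≤ C) (hC : C ≤ 2)
    (hn : n ≤ C * m) : |m ^ (r - 2) * n ^ 2 - n ^ r| ≤ C * (4 * |r - 2|) * m ^ r := by
  obtain ⟨b1, b2⟩ := abs_le.1 hθ
  obtain ⟨s, hs⟩ : ∃ s, s = n / m := ⟨_, rfl⟩
  have hs0 : 0 ≤ s := by rw [hs]; positivity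
  have hsC : s ≤ C := by rw [hs, div_le_iff₀ hm]; exact hn
  have key := near_two hθ hs0 (hsC.trans hC)
  have hne : n = s * m := by rw [hs]; field_simp
  have e1 : n ^ r = s ^ r * m ^ r := by rw [hne, Real.mul_rpow hs0 hm.le]
  have e2 : m ^ (r - 2) * n ^ 2 = s ^ 2 * m ^ r := by
    have : m ^ r = m ^ (r - 2) * m ^ 2 := by
      rw [← Real.rpow_two, ← Real.rpow_add hm]; congr 1; ring
    rw [hne, this]; ring
  have e3 : s ^ r = s ^ (r - 1) * s := by
    rcases hs0.eq_or_lt with h0 | h0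
    · rw [← h0, Real.zero_rpow (by linarith), mul_zero]
    · rw [← Real.rpow_add_one h0.ne']; congr 1; ring
  rw [e1, e2, e3, show s ^ 2 * m ^ r - s ^ (r - 1) * s * m ^ r = -(s * (s ^ (r - 1) - s)) * m ^ r by ring,
    abs_mul, abs_neg, abs_mul, abs_of_nonneg hs0, abs_of_nonneg (by positivity : 0 ≤ m ^ r)]
  gcongr

lemma near_lin {r m n : ℝ} (hθ : |r - 2| ≤ 1 / 2) (hm : 0 < m) (hn0 : 0 ≤ n) (hn : n ≤ 2 * m) :
    |n ^ (r - 2) - m ^ (r - 2)| * n ≤ 4 * |r - 2| * m ^ (r - 1) := by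
  obtain ⟨b1, b2⟩ := abs_le.1 hθ
  obtain ⟨s, hs⟩ : ∃ s, s = n / m := ⟨_, rfl⟩
  have hs0 : 0 ≤ s := by rw [hs]; positivity
  have hsC : s ≤ 2 := by rw [hs, div_le_iff₀ hm]; exact hn
  have key := near_two hθ hs0 hsC
  have hne : n = s * m := by rw [hs]; field_simp
  rcases hs0.eq_or_lt with h0 | h0
  · rw [hne, ← h0, zero_mul, mul_zero]; positivity
  · have e1 : |n ^ (r - 2) - m ^ (r - 2)| * n = |(s ^ (r - 1) - s) * m ^ (r - 1)| := by
      have hn0' : 0 < n := by rw [hne]; positivity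
      rw [show |n ^ (r - 2) - m ^ (r - 2)| * n = |(n ^ (r - 2) - m ^ (r - 2)) * n| by
        rw [abs_mul, abs_of_pos hn0']]
      congr 1
      rw [hne, Real.mul_rpow hs0 hm.le]
      have a1 : s ^ (r - 1) = s ^ (r - 2) * s := by rw [← Real.rpow_add_one h0.ne']; congr 1; ring
      have a2 : m ^ (r - 1) = m ^ (r - 2) * m := by rw [← Real.rpow_add_one hm.ne']; congr 1; ring
      rw [a1, a2]; ring
    rw [e1, abs_mul, abs_of_nonneg (by positivity : 0 ≤ m ^ (r - 1))]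
    gcongr

lemma four_sum (x y X Y : ℂ) :
    ∑ k ∈ Finset.range 4, Complex.I ^ k * (conj (x + Complex.I ^ k * y) * (X + Complex.I ^ k * Y)) = 4 * (conj y * X) := by
  have h3 : Complex.I ^ 3 = -Complex.I := by rw [pow_succ, Complex.I_sq]; ring
  simp only [Finset.sum_range_succ, Finset.sum_range_zero, pow_zero, pow_one, Complex.I_sq, h3, map_add, map_mul,
    map_one, map_neg, Complex.conj_I]
  linear_combination (-2 * conj y * X + 2 * conj y * X * 0 + 2 * conj x * Y) * Complex.I_sq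

lemma four_norm (x y : ℂ) :
    ∑ k ∈ Finset.range 4, ‖x + Complex.I ^ k * y‖ ^ 2 = 4 * (‖x‖ ^ 2 + ‖y‖ ^ 2) := by
  have h3 : Complex.I ^ 3 = -Complex.I := by rw [pow_succ, Complex.I_sq]; ring
  simp only [Finset.sum_range_succ, Finset.sum_range_zero, pow_zero, pow_one, Complex.I_sq, h3,
    Complex.sq_norm, Complex.normSq_apply, Complex.add_re, Complex.add_im, Complex.mul_re, Complex.mul_im,
    Complex.I_re, Complex.I_im, Complex.neg_re, Complex.neg_im, Complex.one_re, Complex.one_im]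
  ring

/-- the pointwise polarisation inequality -/
lemma pointwise_pol {r : ℝ} (hθ : |r - 2| ≤ 1 / 2) (x y X Y : ℂ) (m : ℝ) (hm : m = max ‖x‖ ‖y‖) :
    4 * (m ^ (r - 2) * (conj y * X).re) - 4 * |r - 2| * m ^ (r - 1) * ∑ k ∈ Finset.range 4, ‖X + Complex.I ^ k * Y‖ ≤
    ∑ k ∈ Finset.range 4, (Complex.I ^ k * (((‖x + Complex.I ^ k * y‖ ^ (r - 2) : ℝ) : ℂ) *
      (conj (x + Complex.I ^ k * y) * (X + Complex.I ^ k * Y)))).re := by
  obtain ⟨b1, b2⟩ := abs_le.1 hθ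
  have hm0 : 0 ≤ m := by rw [hm]; exact le_max_of_le_left (norm_nonneg _)
  rcases hm0.eq_or_lt with h0 | h0
  · have hx : x = 0 := by
      have := le_max_left ‖x‖ ‖y‖
      rw [← hm, ← h0] at this
      exact norm_le_zero_iff.1 this
    have hy : y = 0 := by
      have := le_max_right ‖x‖ ‖y‖
      rw [← hm, ← h0] at this
      exact norm_le_zero_iff.1 this
    subst hx; subst hy
    rw [← h0, Real.zero_rpow (by linarith : r - 1 ≠ 0)]
    simp
  have hfour := congrArg Complex.re (four_sum x y X Y)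
  rw [Complex.re_sum] at hfour
  have e4 : (4 * (conj y * X)).re = 4 * (conj y * X).re := by
    have : (4 : ℂ) = ((4 : ℝ) : ℂ) := by norm_num
    rw [this, Complex.re_ofReal_mul]
  rw [e4] at hfour
  have hterm : ∀ k, m ^ (r - 2) * (Complex.I ^ k * (conj (x + Complex.I ^ k * y) * (X + Complex.I ^ k * Y))).re -
      4 * |r - 2| * m ^ (r - 1) * ‖X + Complex.I ^ k * Y‖ ≤
      (Complex.I ^ k * (((‖x + Complex.I ^ k * y‖ ^ (r - 2) : ℝ) : ℂ) *
      (conj (x + Complex.I ^ k * y) * (X + Complex.I ^ k * Y)))).re := by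
    intro k
    obtain ⟨f, hf⟩ : ∃ f, f = x + Complex.I ^ k * y := ⟨_, rfl⟩
    obtain ⟨F, hF⟩ : ∃ F, F = X + Complex.I ^ k * Y := ⟨_, rfl⟩
    rw [← hf, ← hF]
    have hI : ‖Complex.I ^ k‖ = 1 := by rw [norm_pow, Complex.norm_I, one_pow]
    have hfm : ‖f‖ ≤ 2 * m := by
      rw [hf]
      refine (norm_add_le _ _).trans ?_
      rw [norm_mul, hI, one_mul]
      have := le_max_left ‖x‖ ‖y‖
      have := le_max_right ‖x‖ ‖y‖
      rw [hm]; linarith
    have hl := near_lin hθ h0 (norm_nonneg f) hfm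
    have e1 : Complex.I ^ k * (((‖f‖ ^ (r - 2) : ℝ) : ℂ) * (conj f * F)) = ((‖f‖ ^ (r - 2) : ℝ) : ℂ) * (Complex.I ^ k * (conj f * F)) := by
      ring
    rw [e1, Complex.re_ofReal_mul]
    obtain ⟨ρ, hρ⟩ : ∃ ρ, ρ = (Complex.I ^ k * (conj f * F)).re := ⟨_, rfl⟩
    have hρ1 : |ρ| ≤ ‖f‖ * ‖F‖ := by
      rw [hρ]
      refine (Complex.abs_re_le_norm _).trans (le_of_eq ?_)
      rw [norm_mul, norm_mul, hI, one_mul, RCLike.norm_conj]
    rw [← hρ]
    have h5 : |(‖f‖ ^ (r - 2) - m ^ (r - 2)) * ρ| ≤ 4 * |r - 2| * m ^ (r - 1) * ‖F‖ := by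
      rw [abs_mul]
      calc |‖f‖ ^ (r - 2) - m ^ (r - 2)| * |ρ| ≤ |‖f‖ ^ (r - 2) - m ^ (r - 2)| * (‖f‖ * ‖F‖) := by gcongr
        _ = (|‖f‖ ^ (r - 2) - m ^ (r - 2)| * ‖f‖) * ‖F‖ := by ring
        _ ≤ _ := by gcongr
    have h6 := (abs_le.1 h5).1
    linarith
  have hsum := Finset.sum_le_sum fun k (_ : k ∈ Finset.range 4) => hterm k
  rw [Finset.sum_sub_distrib, ← Finset.mul_sum, ← Finset.mul_sum, hfour] at hsum
  linarith

variable {Ω : Type*} [MeasurableSpace Ω] {μ : Measure Ω} {p : ℝ≥0∞}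

/-- polarisation in `L_p`, `p` near `2` -/
lemma polar_Lp [Fact (1 ≤ p)] (h1 : 1 < p) (h2 : p ≠ ∞) (hθ : |p.toReal - 2| ≤ 1 / 2)
    (T : Lp ℂ p μ →L[ℂ] Lp ℂ p μ) (hT : ‖T‖ ≤ 1) (x : Lp ℂ p μ) (hx : ‖x‖ = 1) :
    4 * (1 - 8 * |p.toReal - 2|) * ‖T x‖ ≤ numRadius T * (8 + 128 * |p.toReal - 2|) + 128 * |p.toReal - 2| := by
  have hpr := toReal_gt_one h1 h2
  have hn := numRadius_nonneg T
  set r := p.toReal with hr
  obtain ⟨b1, b2⟩ := abs_le.1 hθ
  obtain ⟨θ, hθe⟩ : ∃ θ, θ = |r - 2| := ⟨_, rfl⟩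
  have hθ0 : 0 ≤ θ := by rw [hθe]; positivity
  rw [← hθe]
  rcases eq_or_ne (T x) 0 with hTx | hTx
  · rw [hTx, norm_zero, mul_zero]; positivity
  have hN : 0 < ‖T x‖ := norm_pos_iff.2 hTx
  obtain ⟨N, hNe⟩ : ∃ N, N = ‖T x‖ := ⟨_, rfl⟩
  rw [← hNe] at hN ⊢
  obtain ⟨y, hy⟩ : ∃ y : Lp ℂ p μ, y = ((N⁻¹ : ℝ) : ℂ) • T x := ⟨_, rfl⟩
  have hy1 : ‖y‖ = 1 := by
    rw [hy, norm_smul, Complex.norm_real, Real.norm_of_nonneg (by positivity), ← hNe]; field_simp
  have hTxy : T x = ((N : ℝ) : ℂ) • y := by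
    rw [hy, smul_smul, ← Complex.ofReal_mul, mul_inv_cancel₀ hN.ne', Complex.ofReal_one, one_smul]
  obtain ⟨f, hf⟩ : ∃ f : ℕ → Lp ℂ p μ, f = fun k => x + (Complex.I ^ k) • y := ⟨_, rfl⟩
  have hI : ∀ k : ℕ, ‖Complex.I ^ k‖ = 1 := fun k => by rw [norm_pow, Complex.norm_I, one_pow]
  have hfn : ∀ k, ‖f k‖ ≤ 2 := by
    intro k
    rw [hf]
    refine (norm_add_le _ _).trans ?_
    rw [norm_smul, hI, hx, hy1]; norm_num
  have hTf : ∀ k, T (f k) = T x + (Complex.I ^ k) • T y := by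
    intro k; rw [hf]; simp only; rw [map_add, map_smul]
  -- pointwise data
  have hxm : Measurable (x : Ω → ℂ) := (Lp.stronglyMeasurable x).measurable
  have hym : Measurable (y : Ω → ℂ) := (Lp.stronglyMeasurable y).measurable
  set m : Ω → ℝ := fun ω => max ‖x ω‖ ‖y ω‖ with hm
  have hmm : Measurable m := hxm.norm.max hym.norm
  have hm0 : ∀ ω, 0 ≤ m ω := fun ω => le_max_of_le_left (norm_nonneg _)
  have ix := integrable_rpow h1 h2 x
  have iy := integrable_rpow h1 h2 y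
  rw [← hr] at ix iy
  have hmle : ∀ ω, m ω ^ r ≤ ‖x ω‖ ^ r + ‖y ω‖ ^ r := by
    intro ω
    have a1 : 0 ≤ ‖x ω‖ ^ r := by positivity
    have a2 : 0 ≤ ‖y ω‖ ^ r := by positivity
    rcases max_choice ‖x ω‖ ‖y ω‖ with h | h <;> rw [hm] <;> simp only <;> rw [h] <;> linarith
  have im : Integrable (fun ω => m ω ^ r) μ := by
    refine Integrable.mono' (ix.add iy) (hmm.pow_const r).aestronglyMeasurable (Eventually.of_forall fun ω => ?_)
    rw [Real.norm_of_nonneg (by have := hm0 ω; positivity)]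
    exact hmle ω
  have Ix : ∫ ω, ‖x ω‖ ^ r ∂μ = 1 := by rw [hr, ← norm_rpow_eq h1 h2, hx, Real.one_rpow]
  have Iy : ∫ ω, ‖y ω‖ ^ r ∂μ = 1 := by rw [hr, ← norm_rpow_eq h1 h2, hy1, Real.one_rpow]
  have Im : ∫ ω, m ω ^ r ∂μ ≤ 2 := by
    calc ∫ ω, m ω ^ r ∂μ ≤ ∫ ω, (‖x ω‖ ^ r + ‖y ω‖ ^ r) ∂μ := integral_mono im (ix.add iy) hmle
      _ = 2 := by rw [integral_add ix iy, Ix, Iy]; norm_num
  have hpt : ∀ᵐ ω ∂μ, (∀ k : ℕ, f k ω = x ω + Complex.I ^ k * y ω) ∧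
      (∀ k : ℕ, T (f k) ω = T x ω + Complex.I ^ k * T y ω) ∧ T x ω = ((N : ℝ) : ℂ) * y ω := by
    have c1 : ∀ᵐ ω ∂μ, ∀ k : ℕ, f k ω = x ω + Complex.I ^ k * y ω := by
      rw [ae_all_iff]; intro k
      filter_upwards [Lp.coeFn_add x ((Complex.I ^ k) • y), Lp.coeFn_smul (Complex.I ^ k) y] with ω e1 e2
      rw [hf]; simp only
      rw [e1, Pi.add_apply, e2, Pi.smul_apply, smul_eq_mul]
    have c2 : ∀ᵐ ω ∂μ, ∀ k : ℕ, T (f k) ω = T x ω + Complex.I ^ k * T y ω := by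
      rw [ae_all_iff]; intro k
      filter_upwards [Lp.coeFn_add (T x) ((Complex.I ^ k) • T y), Lp.coeFn_smul (Complex.I ^ k) (T y)] with ω e1 e2
      rw [hTf, e1, Pi.add_apply, e2, Pi.smul_apply, smul_eq_mul]
    filter_upwards [c1, c2, Lp.coeFn_smul ((N : ℝ) : ℂ) y] with ω e1 e2 e3
    refine ⟨e1, e2, ?_⟩
    rw [hTxy, e3, Pi.smul_apply, smul_eq_mul]
  -- lower bound
  have iT : ∀ k, Integrable (fun ω => ‖T (f k) ω‖ ^ r) μ := fun k => integrable_rpow h1 h2 (T (f k))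
  have hg : ∀ k, Integrable (fun ω => Complex.I ^ k * gi r (f k : Ω → ℂ) (T (f k)) ω) μ := fun k =>
    (integrable_gi h1 h2 (f k) (T (f k))).const_mul _
  have hgre : ∀ k, Integrable (fun ω => (Complex.I ^ k * gi r (f k : Ω → ℂ) (T (f k)) ω).re) μ := fun k => (hg k).re
  have low : 4 * N * (1 - 4 * θ * ∫ ω, m ω ^ r ∂μ) - 4 * θ * (4 * (∫ ω, m ω ^ r ∂μ) + ∑ k ∈ Finset.range 4, ∫ ω, ‖T (f k) ω‖ ^ r ∂μ) ≤
      ∑ k ∈ Finset.range 4, (Complex.I ^ k * JP r μ (f k : Ω → ℂ) (T (f k))).re := by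
    have e1 : ∑ k ∈ Finset.range 4, (Complex.I ^ k * JP r μ (f k : Ω → ℂ) (T (f k))).re =
        ∫ ω, ∑ k ∈ Finset.range 4, (Complex.I ^ k * gi r (f k : Ω → ℂ) (T (f k)) ω).re ∂μ := by
      rw [integral_finsetSum _ fun k _ => hgre k]
      apply Finset.sum_congr rfl
      intro k _
      rw [← re_integral (hg k), integral_const_mul]
      rfl
    have e2 : 4 * N * (1 - 4 * θ * ∫ ω, m ω ^ r ∂μ) - 4 * θ * (4 * (∫ ω, m ω ^ r ∂μ) + ∑ k ∈ Finset.range 4, ∫ ω, ‖T (f k) ω‖ ^ r ∂μ) =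
        ∫ ω, (4 * N * (‖y ω‖ ^ r - 4 * θ * m ω ^ r) - 4 * θ * (4 * m ω ^ r + ∑ k ∈ Finset.range 4, ‖T (f k) ω‖ ^ r)) ∂μ := by
      have j1 : Integrable (fun ω => 4 * N * (‖y ω‖ ^ r - 4 * θ * m ω ^ r)) μ := (iy.sub (im.const_mul _)).const_mul _
      have j2 : Integrable (fun ω => ∑ k ∈ Finset.range 4, ‖T (f k) ω‖ ^ r) μ := integrable_finsetSum _ fun k _ => iT k
      have j3 : Integrable (fun ω => 4 * θ * (4 * m ω ^ r + ∑ k ∈ Finset.range 4, ‖T (f k) ω‖ ^ r)) μ :=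
        ((im.const_mul 4).add j2).const_mul _
      rw [integral_sub j1 j3, integral_const_mul, integral_const_mul, integral_sub iy (im.const_mul _), integral_const_mul,
        integral_add (im.const_mul 4) j2, integral_const_mul, integral_finsetSum _ fun k _ => iT k, Iy]
    rw [e1, e2]
    apply integral_mono_ae
    · have j2 : Integrable (fun ω => ∑ k ∈ Finset.range 4, ‖T (f k) ω‖ ^ r) μ := integrable_finsetSum _ fun k _ => iT k
      exact ((iy.sub (im.const_mul _)).const_mul _).sub (((im.const_mul 4).add j2).const_mul _)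
    · exact integrable_finsetSum _ fun k _ => hgre k
    · filter_upwards [hpt] with ω hω
      obtain ⟨w1, w2, w3⟩ := hω
      have key := pointwise_pol hθ (x ω) (y ω) (T x ω) (T y ω) (m ω) rfl
      have e3 : ∑ k ∈ Finset.range 4, (Complex.I ^ k * gi r (f k : Ω → ℂ) (T (f k)) ω).re =
          ∑ k ∈ Finset.range 4, (Complex.I ^ k * (((‖x ω + Complex.I ^ k * y ω‖ ^ (r - 2) : ℝ) : ℂ) *
            (conj (x ω + Complex.I ^ k * y ω) * (T x ω + Complex.I ^ k * T y ω)))).re := by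
        apply Finset.sum_congr rfl
        intro k _
        unfold gi
        rw [w1 k, w2 k]
      rw [e3]
      refine le_trans ?_ key
      rw [← hθe]
      have e4 : (conj (y ω) * T x ω).re = N * ‖y ω‖ ^ 2 := by
        rw [w3, mul_left_comm, Complex.conj_mul', ← Complex.ofReal_pow, ← Complex.ofReal_mul, Complex.ofReal_re]
      have e5 : N * (‖y ω‖ ^ r - 4 * θ * m ω ^ r) ≤ m ω ^ (r - 2) * (conj (y ω) * T x ω).re := by
        rw [e4]
        have : ‖y ω‖ ^ r - 4 * θ * m ω ^ r ≤ m ω ^ (r - 2) * ‖y ω‖ ^ 2 := by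
          rcases (hm0 ω).eq_or_lt with h0 | h0
          · have hy0 : ‖y ω‖ = 0 := by
              have := le_max_right ‖x ω‖ ‖y ω‖
              have h5 : m ω = max ‖x ω‖ ‖y ω‖ := rfl
              rw [← h5, ← h0] at this
              exact le_antisymm this (norm_nonneg _)
            rw [hy0, ← h0, Real.zero_rpow (by linarith : r ≠ 0)]; simp
          · have h6 := near_sq hθ h0 (norm_nonneg (y ω)) zero_le_one (by norm_num : (1 : ℝ) ≤ 2)
              (by rw [one_mul]; exact le_max_right _ _)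
            have := (abs_le.1 h6).1
            rw [← hθe] at this
            linarith
        calc _ ≤ N * (m ω ^ (r - 2) * ‖y ω‖ ^ 2) := by gcongr
          _ = _ := by ring
      have e6 : m ω ^ (r - 1) * ∑ k ∈ Finset.range 4, ‖T x ω + Complex.I ^ k * T y ω‖ ≤
          4 * m ω ^ r + ∑ k ∈ Finset.range 4, ‖T (f k) ω‖ ^ r := by
        rw [Finset.mul_sum]
        have : 4 * m ω ^ r + ∑ k ∈ Finset.range 4, ‖T (f k) ω‖ ^ r = ∑ k ∈ Finset.range 4, (m ω ^ r + ‖T (f k) ω‖ ^ r) := by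
          rw [Finset.sum_add_distrib]; simp
        rw [this]
        apply Finset.sum_le_sum
        intro k _
        rw [← w2 k]
        exact aux_young hpr (hm0 ω) (norm_nonneg _)
      have e7 := mul_le_mul_of_nonneg_left e6 (by positivity : 0 ≤ 4 * θ)
      linarith
  -- upper bound
  have up : ∑ k ∈ Finset.range 4, (Complex.I ^ k * JP r μ (f k : Ω → ℂ) (T (f k))).re ≤
      numRadius T * ∑ k ∈ Finset.range 4, ‖f k‖ ^ r := by
    rw [Finset.mul_sum]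
    apply Finset.sum_le_sum
    intro k _
    refine (Complex.re_le_norm _).trans ?_
    rw [norm_mul, hI, one_mul]
    exact nr_bound h1 h2 T (f k)
  have hfs : ∑ k ∈ Finset.range 4, ‖f k‖ ^ r ≤ 8 + 128 * θ := by
    have e1 : ∑ k ∈ Finset.range 4, ‖f k‖ ^ r = ∫ ω, ∑ k ∈ Finset.range 4, ‖f k ω‖ ^ r ∂μ := by
      rw [integral_finsetSum _ fun k _ => integrable_rpow h1 h2 (f k)]
      exact Finset.sum_congr rfl fun k _ => norm_rpow_eq h1 h2 (f k)
    have e2 : ∫ ω, (4 * (‖x ω‖ ^ r + ‖y ω‖ ^ r) + 64 * θ * m ω ^ r) ∂μ ≤ 8 + 128 * θ := by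
      have ixy : Integrable (fun ω => ‖x ω‖ ^ r + ‖y ω‖ ^ r) μ := ix.add iy
      rw [integral_add (ixy.const_mul 4) (im.const_mul _), integral_const_mul, integral_const_mul,
        integral_add ix iy, Ix, Iy]
      nlinarith
    rw [e1]
    refine le_trans (integral_mono_ae (integrable_finsetSum _ fun k _ => integrable_rpow h1 h2 (f k))
      (((ix.add iy).const_mul 4).add (im.const_mul _)) ?_) e2
    filter_upwards [hpt] with ω hω
    obtain ⟨w1, -, -⟩ := hω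
    simp only [Pi.add_apply]
    rcases (hm0 ω).eq_or_lt with h0 | h0
    · have hx0 : x ω = 0 := by
        have := le_max_left ‖x ω‖ ‖y ω‖
        have h5 : m ω = max ‖x ω‖ ‖y ω‖ := rfl
        rw [← h5, ← h0] at this
        exact norm_le_zero_iff.1 this
      have hy0 : y ω = 0 := by
        have := le_max_right ‖x ω‖ ‖y ω‖
        have h5 : m ω = max ‖x ω‖ ‖y ω‖ := rfl
        rw [← h5, ← h0] at this
        exact norm_le_zero_iff.1 this
      have : ∑ k ∈ Finset.range 4, ‖f k ω‖ ^ r = 0 := by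
        apply Finset.sum_eq_zero
        intro k _
        rw [w1 k, hx0, hy0, mul_zero, add_zero, norm_zero, Real.zero_rpow (by linarith)]
      rw [this]
      have := hm0 ω
      positivity
    · have hsq := four_norm (x ω) (y ω)
      have hk : ∀ k ∈ Finset.range 4, ‖f k ω‖ ^ r ≤ m ω ^ (r - 2) * ‖x ω + Complex.I ^ k * y ω‖ ^ 2 + 8 * θ * m ω ^ r := by
        intro k _
        have hfm : ‖f k ω‖ ≤ 2 * m ω := by
          rw [w1 k]
          refine (norm_add_le _ _).trans ?_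
          rw [norm_mul, hI, one_mul]
          have := le_max_left ‖x ω‖ ‖y ω‖
          have := le_max_right ‖x ω‖ ‖y ω‖
          have h5 : m ω = max ‖x ω‖ ‖y ω‖ := rfl
          rw [h5]; linarith
        have h6 := near_sq hθ h0 (norm_nonneg (f k ω)) (by norm_num : (0 : ℝ) ≤ 2) le_rfl hfm
        have := (abs_le.1 h6).1
        rw [← hθe] at this
        rw [← w1 k]
        linarith
      have hx2 := near_sq hθ h0 (norm_nonneg (x ω)) zero_le_one (by norm_num : (1 : ℝ) ≤ 2)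
        (by rw [one_mul]; exact le_max_left _ _)
      have hy2 := near_sq hθ h0 (norm_nonneg (y ω)) zero_le_one (by norm_num : (1 : ℝ) ≤ 2)
        (by rw [one_mul]; exact le_max_right _ _)
      have hx3 := (abs_le.1 hx2).2
      have hy3 := (abs_le.1 hy2).2
      rw [← hθe] at hx3 hy3
      calc ∑ k ∈ Finset.range 4, ‖f k ω‖ ^ r ≤
          ∑ k ∈ Finset.range 4, (m ω ^ (r - 2) * ‖x ω + Complex.I ^ k * y ω‖ ^ 2 + 8 * θ * m ω ^ r) := Finset.sum_le_sum hk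
        _ = m ω ^ (r - 2) * (4 * (‖x ω‖ ^ 2 + ‖y ω‖ ^ 2)) + 32 * θ * m ω ^ r := by
          rw [Finset.sum_add_distrib, ← Finset.mul_sum, hsq]; simp; ring
        _ ≤ _ := by nlinarith
  have hTs : ∑ k ∈ Finset.range 4, ∫ ω, ‖T (f k) ω‖ ^ r ∂μ ≤ 24 := by
    have : ∀ k ∈ Finset.range 4, ∫ ω, ‖T (f k) ω‖ ^ r ∂μ ≤ 6 := by
      intro k _
      rw [hr, ← norm_rpow_eq h1 h2, ← hr]
      have a1 : ‖T (f k)‖ ≤ 2 := by
        calc ‖T (f k)‖ ≤ ‖T‖ * ‖f k‖ := T.le_opNorm _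
          _ ≤ 1 * 2 := by gcongr; exact hfn k
          _ = 2 := by norm_num
      calc ‖T (f k)‖ ^ r ≤ 2 ^ r := Real.rpow_le_rpow (norm_nonneg _) a1 (by linarith)
        _ ≤ 2 ^ (5 / 2 : ℝ) := Real.rpow_le_rpow_of_exponent_le (by norm_num) (by linarith)
        _ ≤ 6 := by
          have h6 : ((2 : ℝ) ^ (5 / 2 : ℝ)) ^ 2 = 32 := by
            rw [← Real.rpow_natCast, ← Real.rpow_mul (by norm_num)]; norm_num
          have h7 : (0 : ℝ) ≤ 2 ^ (5 / 2 : ℝ) := by positivity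
          nlinarith
    calc _ ≤ ∑ k ∈ Finset.range 4, (6 : ℝ) := Finset.sum_le_sum this
      _ = 24 := by simp; norm_num
  have hfin := low.trans up
  have h9 : numRadius T * ∑ k ∈ Finset.range 4, ‖f k‖ ^ r ≤ numRadius T * (8 + 128 * θ) := by gcongr
  obtain ⟨I0, hI0⟩ : ∃ I0, I0 = ∫ ω, m ω ^ r ∂μ := ⟨_, rfl⟩
  obtain ⟨S0, hS0⟩ : ∃ S0, S0 = ∑ k ∈ Finset.range 4, ∫ ω, ‖T (f k) ω‖ ^ r ∂μ := ⟨_, rfl⟩
  rw [← hI0, ← hS0] at hfin
  rw [← hI0] at Im
  rw [← hS0] at hTs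
  have h10 : 4 * N * (1 - 8 * θ) ≤ 4 * N * (1 - 4 * θ * I0) := by
    have h12 : 4 * θ * I0 ≤ 8 * θ := by nlinarith
    have h13 : 1 - 8 * θ ≤ 1 - 4 * θ * I0 := by linarith
    exact mul_le_mul_of_nonneg_left h13 (by positivity)
  have h11 : 4 * θ * (4 * I0 + S0) ≤ 128 * θ := by
    have : 4 * I0 + S0 ≤ 32 := by linarith
    nlinarith
  linarith

/-- lower bound near `p = 2` -/
theorem complex_near_two [Fact (1 ≤ p)] (h1 : 1 < p) (h2 : p ≠ ∞) (hθ : |p.toReal - 2| ≤ 1 / 2)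
    (T : Lp ℂ p μ →L[ℂ] Lp ℂ p μ) (hT : ‖T‖ = 1) :
    1 - 40 * |p.toReal - 2| ≤ numRadius T * (2 + 32 * |p.toReal - 2|) := by
  have hn := numRadius_nonneg T
  obtain ⟨θ, hθe⟩ : ∃ θ, θ = |p.toReal - 2| := ⟨_, rfl⟩
  have hθ0 : 0 ≤ θ := by rw [hθe]; positivity
  rw [← hθe]
  rcases le_total 1 (8 * θ) with h | h
  · have : 0 ≤ numRadius T * (2 + 32 * θ) := by positivity
    linarith
  rcases h.eq_or_lt with h8 | h8
  · have : 0 ≤ numRadius T * (2 + 32 * θ) := by positivity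
    linarith
  have hpos : 0 < 4 * (1 - 8 * θ) := by linarith
  have main : ‖T‖ ≤ (numRadius T * (8 + 128 * θ) + 128 * θ) / (4 * (1 - 8 * θ)) := by
    apply T.opNorm_le_bound (by positivity)
    intro x
    rcases eq_or_ne x 0 with rfl | hx
    · simp
    have hx0 : 0 < ‖x‖ := norm_pos_iff.2 hx
    obtain ⟨u, hu⟩ : ∃ u : Lp ℂ p μ, u = ((‖x‖⁻¹ : ℝ) : ℂ) • x := ⟨_, rfl⟩
    have hu1 : ‖u‖ = 1 := by
      rw [hu, norm_smul, Complex.norm_real, Real.norm_of_nonneg (by positivity)]; field_simp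
    have key := polar_Lp h1 h2 hθ T hT.le u hu1
    have e : ‖T u‖ = ‖T x‖ / ‖x‖ := by
      rw [hu, map_smul, norm_smul, Complex.norm_real, Real.norm_of_nonneg (by positivity)]; field_simp
    rw [e, ← hθe] at key
    rw [div_mul_eq_mul_div, le_div_iff₀ hpos]
    have e2 : 4 * (1 - 8 * θ) * (‖T x‖ / ‖x‖) = (‖T x‖ * (4 * (1 - 8 * θ))) / ‖x‖ := by ring
    rw [e2, div_le_iff₀ hx0] at key
    exact key
  rw [hT, le_div_iff₀ hpos] at main
  linarith

end Pool.Agent.Work.MP_95d40a_an
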