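import Pool.Agent.Work.MP_95d40a_an.CRow
import Pool.Agent.Work.MP_95d40a_an.CTwo

set_option autoImplicit false

open MeasureTheory Filter Topology Set
open scoped ENNReal

namespace Pool.Agent.Work.MP_95d40a_an

universe u

lemma kappa_two : kappa 2 = 1 / 2 := by
  unfold kappa
  have e1 : (2 : ℝ) / (2 - 1) = 2 := by norm_num
  have e2 : ((2 : ℝ) - 1) / 2 = 1 / 2 := by norm_num
  rw [e1, e2, ← Real.rpow_add (by norm_num)]
  norm_num

lemma continuousAt_kappa : ContinuousAt kappa 2 := by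
  unfold kappa
  have c1 : ContinuousAt (fun p : ℝ => p ^ (1 / p)) 2 :=
    continuousAt_id.rpow (continuousAt_const.div continuousAt_id (by norm_num)) (Or.inl (by norm_num))
  have c2 : ContinuousAt (fun p : ℝ => (p / (p - 1)) ^ ((p - 1) / p)) 2 := by
    apply ContinuousAt.rpow
    · exact continuousAt_id.div (continuousAt_id.sub continuousAt_const) (by norm_num)
    · exact (continuousAt_id.sub continuousAt_const).div continuousAt_id (by norm_num)
    · left; norm_num
  refine continuousAt_const.div (c1.mul c2) ?_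
  have : (0 : ℝ) < 2 ^ ((1 : ℝ) / 2) * (2 / (2 - 1)) ^ (((2 : ℝ) - 1) / 2) := by
    have e1 : (2 : ℝ) / (2 - 1) = 2 := by norm_num
    rw [e1]
    positivity
  exact this.ne'

lemma exists_K {e : ℝ} (he : 0 < e) : ∃ K : ℕ, 4 ≤ K ∧ 1 - e ≤ Real.cos (2 * Real.pi / K) := by
  have h1 : Tendsto (fun K : ℕ => Real.cos (2 * Real.pi / K)) atTop (𝓝 1) := by
    have := (Real.continuous_cos.tendsto 0).comp (tendsto_const_div_atTop_nhds_zero_nat (2 * Real.pi))
    rw [Real.cos_zero] at this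
    exact this
  have h2 := h1.eventually_const_lt (show 1 - e < 1 by linarith)
  obtain ⟨K, hK1, hK2⟩ := (h2.and (eventually_ge_atTop 4)).exists
  exact ⟨K, hK2, hK1.le⟩

lemma final_step {e κ v n a b c : ℝ} (he : 0 < e) (hκ : 0 < κ) (hn : 0 ≤ n) (hv : 0 ≤ v)
    (ha : 1 - e ≤ a) (hb : 1 - e ≤ b) (he1 : e ≤ 1) (hc : c ≤ e)
    (h : a * b * κ * n ≤ v * (1 + c)) : (1 - 4 * e) * κ * n ≤ v := by
  have h1 : (1 - e) * (1 - e) ≤ a * b := mul_le_mul ha hb (by linarith) (by linarith)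
  have h2 : (1 - e) * (1 - e) * (κ * n) ≤ a * b * (κ * n) := by gcongr
  have h3 : v * (1 + c) ≤ v * (1 + e) := by gcongr
  have h4 : (1 - 4 * e) * (1 + e) * (κ * n) ≤ (1 - e) * (1 - e) * (κ * n) := by
    have : 0 ≤ κ * n := by positivity
    apply mul_le_mul_of_nonneg_right _ this
    nlinarith
  have h5 : ((1 - 4 * e) * κ * n) * (1 + e) ≤ v * (1 + e) := by linarith
  exact le_of_mul_le_mul_right h5 (by linarith)

theorem asym {ε : ℝ} (hε : 0 < ε) : ∃ δ : ℝ, 0 < δ ∧ ∀ (p : ℝ≥0∞) [Fact (1 ≤ p)], 1 < p → p ≠ ∞ →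
    (p.toReal < 1 + δ ∨ |p.toReal - 2| < δ ∨ δ⁻¹ < p.toReal) →
    ∀ (Ω : Type u) [MeasurableSpace Ω] (μ : Measure Ω), Nontrivial (Lp ℂ p μ) →
    (1 - ε) * kappa p.toReal ≤ numIndex ℂ (Lp ℂ p μ) := by
  rcases le_or_gt 1 ε with h | h
  · refine ⟨1, one_pos, ?_⟩
    intro p _ h1 h2 _ Ω _ μ _
    have hpr := toReal_gt_one h1 h2
    have hk := kappa_pos hpr
    apply le_numIndex
    intro T
    have := numRadius_nonneg T
    have h4 : (1 - ε) * kappa p.toReal * ‖T‖ ≤ 0 :=
      mul_nonpos_of_nonpos_of_nonneg (mul_nonpos_of_nonpos_of_nonneg (by linarith) hk.le) (norm_nonneg _)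
    linarith
  obtain ⟨e, he⟩ : ∃ e, e = ε / 4 := ⟨_, rfl⟩
  have he0 : 0 < e := by rw [he]; linarith
  have he1 : e < 1 / 4 := by rw [he]; linarith
  obtain ⟨K, hK4, hK⟩ := exists_K he0
  have hKpos : (0 : ℝ) < 3 * (K + 1) := by positivity
  -- large exponents
  obtain ⟨P, hP⟩ : ∃ P : ℝ, ∀ s, P ≤ s → (1 - e) ^ s < e / (3 * (K + 1)) := by
    have := (tendsto_rpow_atTop_of_base_lt_one (1 - e) (by linarith) (by linarith)).eventually_lt_const
      (show (0 : ℝ) < e / (3 * (K + 1)) by positivity)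
    exact eventually_atTop.1 this
  -- small exponents
  obtain ⟨t, ht⟩ : ∃ t, t = e / (3 * (K + 1)) := ⟨_, rfl⟩
  have ht0 : 0 < t := by rw [ht]; positivity
  have ht1 : t ≤ 1 := by
    rw [ht, div_le_one hKpos]
    have : (0 : ℝ) ≤ K := by positivity
    linarith
  obtain ⟨d1, hd1, hd1'⟩ : ∃ d > 0, ∀ s : ℝ, 0 < s → s < d → 1 - e ≤ t ^ s := by
    have hc : ContinuousAt (fun s : ℝ => t ^ s) 0 := (Real.continuous_const_rpow ht0.ne').continuousAt
    have h4 : Tendsto (fun s : ℝ => t ^ s) (𝓝 0) (𝓝 1) := by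
      have := hc.tendsto
      simpa using this
    have h5 := h4.eventually_const_lt (show 1 - e < 1 by linarith)
    obtain ⟨d, hd, hd'⟩ := Metric.eventually_nhds_iff.1 h5
    refine ⟨d, hd, fun s hs hsd => (hd' ?_).le⟩
    rw [Real.dist_eq, sub_zero, abs_of_pos hs]
    exact hsd
  -- exponents near two
  obtain ⟨d2, hd2, hd2'⟩ : ∃ d > 0, ∀ r : ℝ, |r - 2| < d →
      (1 - ε) * kappa r < (1 - 40 * |r - 2|) / (2 + 32 * |r - 2|) := by
    have c1 : ContinuousAt (fun r : ℝ => (1 - ε) * kappa r) 2 := continuousAt_const.mul continuousAt_kappa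
    have c2 : ContinuousAt (fun r : ℝ => (1 - 40 * |r - 2|) / (2 + 32 * |r - 2|)) 2 := by
      have c3 : ContinuousAt (fun r : ℝ => |r - 2|) 2 := (continuousAt_id.sub continuousAt_const).abs
      refine (continuousAt_const.sub (c3.const_mul 40)).div (continuousAt_const.add (c3.const_mul 32)) ?_
      norm_num
    have h4 : (1 - ε) * kappa 2 < (1 - 40 * |(2 : ℝ) - 2|) / (2 + 32 * |(2 : ℝ) - 2|) := by
      rw [kappa_two, sub_self, abs_zero]
      linarith
    have h5 := c1.eventually_lt c2 h4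
    obtain ⟨d, hd, hd'⟩ := Metric.eventually_nhds_iff.1 h5
    exact ⟨d, hd, fun r hr => hd' (by rw [Real.dist_eq]; exact hr)⟩
  obtain ⟨P1, hP1⟩ : ∃ P1, P1 = max 1 (P + 1) := ⟨_, rfl⟩
  have hP1' : 0 < P1 := by rw [hP1]; exact lt_of_lt_of_le one_pos (le_max_left _ _)
  refine ⟨min (min d1 P1⁻¹) (min d2 (1 / 2)), by positivity, ?_⟩
  intro p _ h1 h2 hcase Ω _ μ _
  have hpr := toReal_gt_one h1 h2
  have hk := kappa_pos hpr
  have m1 : min (min d1 P1⁻¹) (min d2 (1 / 2)) ≤ d1 := (min_le_left _ _).trans (min_le_left _ _)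
  have m2 : min (min d1 P1⁻¹) (min d2 (1 / 2)) ≤ P1⁻¹ := (min_le_left _ _).trans (min_le_right _ _)
  have m3 : min (min d1 P1⁻¹) (min d2 (1 / 2)) ≤ d2 := (min_le_right _ _).trans (min_le_left _ _)
  have m4 : min (min d1 P1⁻¹) (min d2 (1 / 2)) ≤ 1 / 2 := (min_le_right _ _).trans (min_le_right _ _)
  have hm0 : 0 < min (min d1 P1⁻¹) (min d2 (1 / 2)) := by positivity
  have e4 : 1 - ε = 1 - 4 * e := by rw [he]; ring
  rcases hcase with hc | hc | hc
  · rw [e4]
    apply le_numIndex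
    intro T
    have hb := complex_lower_col h1 h2 T hK4 ht0 ht1
    refine final_step he0 hk (norm_nonneg T) (numRadius_nonneg T) (hd1' (p.toReal - 1) (by linarith) (by linarith)) hK
      (by linarith) ?_ hb
    rw [ht]
    apply le_of_eq
    field_simp
  · have k1 := hd2' p.toReal (by linarith)
    refine k1.le.trans ?_
    apply le_csInf
    · exact ⟨_, ContinuousLinearMap.id ℂ _, ContinuousLinearMap.norm_id, rfl⟩
    · rintro _ ⟨T, hT, rfl⟩
      have k2 := complex_near_two h1 h2 (by linarith) T hT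
      rw [div_le_iff₀ (by positivity)]
      exact k2
  · rw [e4]
    apply le_numIndex
    intro T
    have hb := complex_lower_row h1 h2 T hK4 (t := 1 - e) (by linarith) (by linarith)
    have hlarge : P ≤ p.toReal - 1 := by
      have k1 : P1 ≤ (min (min d1 P1⁻¹) (min d2 (1 / 2)))⁻¹ := by
        rw [le_inv_comm₀ hP1' hm0]; exact m2
      have k2 : P + 1 ≤ P1 := by rw [hP1]; exact le_max_right _ _
      linarith
    have k3 := hP (p.toReal - 1) hlarge
    refine final_step he0 hk (norm_nonneg T) (numRadius_nonneg T) le_rfl hK (by linarith) ?_ hb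
    rw [lt_div_iff₀ hKpos] at k3
    linarith

end Pool.Agent.Work.MP_95d40a_an
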