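import Pool.Agent.Work.MP_95d40a_an.DimTwo

set_option autoImplicit false

open MeasureTheory Filter Topology Set
open scoped ENNReal

namespace Pool.Agent.Work.MP_95d40a_an

section general

variable {X : Type*} [NormedAddCommGroup X] [NormedSpace ℂ X]

lemma numRadius_bdd (T : X →L[ℂ] X) :
    BddAbove {r : ℝ | ∃ (x : X) (φ : X →L[ℂ] ℂ), ‖x‖ = 1 ∧ ‖φ‖ = 1 ∧ φ x = 1 ∧ r = ‖φ (T x)‖} := by
  refine ⟨‖T‖, ?_⟩
  rintro _ ⟨x, φ, hx, hφ, _, rfl⟩
  calc ‖φ (T x)‖ ≤ ‖φ‖ * ‖T x‖ := φ.le_opNorm _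
    _ ≤ 1 * (‖T‖ * ‖x‖) := by rw [hφ]; gcongr; exact T.le_opNorm _
    _ = ‖T‖ := by rw [hx]; ring

lemma norming_le (T : X →L[ℂ] X) (x : X) (φ : X →L[ℂ] ℂ) (hφ : ‖φ‖ = 1) (hx : φ x = ‖x‖) :
    ‖φ (T x)‖ ≤ numRadius T * ‖x‖ := by
  rcases eq_or_ne x 0 with rfl | h0
  · simp
  have hx0 : 0 < ‖x‖ := norm_pos_iff.2 h0
  have : ‖φ (T (((‖x‖⁻¹ : ℝ) : ℂ) • x))‖ ≤ numRadius T := by
    apply le_csSup (numRadius_bdd T)
    refine ⟨((‖x‖⁻¹ : ℝ) : ℂ) • x, φ, ?_, hφ, ?_, rfl⟩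
    · rw [norm_smul, Complex.norm_real, Real.norm_of_nonneg (by positivity)]; field_simp
    · rw [map_smul, hx, smul_eq_mul, ← Complex.ofReal_mul, inv_mul_cancel₀ hx0.ne', Complex.ofReal_one]
  rw [map_smul, map_smul, norm_smul, Complex.norm_real, Real.norm_of_nonneg (by positivity)] at this
  rw [inv_mul_le_iff₀ hx0] at this
  linarith

lemma dissip (T : X →L[ℂ] X) (y : X) (w : ℂ) : ‖y‖ * (1 - ‖w‖ * numRadius T) ≤ ‖y - w • T y‖ := by
  rcases eq_or_ne y 0 with rfl | h0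
  · simp
  obtain ⟨φ, hφ, hy⟩ := exists_dual_vector ℂ y (norm_ne_zero_iff.2 h0)
  have h1 := norming_le T y φ hφ hy
  have h2 : φ (y - w • T y) = ((‖y‖ : ℝ) : ℂ) - w * φ (T y) := by
    rw [map_sub, map_smul, hy, smul_eq_mul]; rfl
  have h3 : ‖φ (y - w • T y)‖ ≤ ‖y - w • T y‖ := by
    have := φ.le_opNorm (y - w • T y); rwa [hφ, one_mul] at this
  have h4 : ‖y‖ - ‖w‖ * ‖φ (T y)‖ ≤ ‖φ (y - w • T y)‖ := by
    rw [h2]
    have := norm_sub_norm_le ((‖y‖ : ℝ) : ℂ) (w * φ (T y))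
    rw [Complex.norm_real, Real.norm_of_nonneg (norm_nonneg _), norm_mul] at this
    exact this
  have h5 : ‖w‖ * ‖φ (T y)‖ ≤ ‖w‖ * (numRadius T * ‖y‖) := by gcongr
  linarith

variable [CompleteSpace X]

lemma hasDerivAt_orbit (A : X →L[ℂ] X) (x : X) (z : ℂ) :
    HasDerivAt (fun s : ℂ => NormedSpace.exp (s • A) x) (A (NormedSpace.exp (z • A) x)) z := by
  have h := hasDerivAt_exp_smul_const' (𝕂 := ℂ) A z
  have h2 := (ContinuousLinearMap.apply ℂ X x).hasFDerivAt.comp_hasDerivAt z h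
  exact h2

lemma hasDerivAt_orbit_real (A : X →L[ℂ] X) (x : X) (t : ℝ) :
    HasDerivAt (fun s : ℝ => NormedSpace.exp ((s : ℂ) • A) x) (A (NormedSpace.exp ((t : ℂ) • A) x)) t := by
  have h := (hasDerivAt_orbit A x (t : ℂ)).scomp t (Complex.ofRealCLM.hasDerivAt (x := t))
  simpa [Function.comp_def] using h

lemma norm_exp_le (T : X →L[ℂ] X) (z : ℂ) (x : X) :
    ‖NormedSpace.exp (z • T) x‖ ≤ Real.exp (‖z‖ * numRadius T) * ‖x‖ := by
  obtain ⟨A, hA⟩ : ∃ A : X →L[ℂ] X, A = z • T := ⟨_, rfl⟩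
  obtain ⟨u, hu⟩ : ∃ u : ℝ → X, u = fun t : ℝ => NormedSpace.exp ((t : ℂ) • A) x := ⟨_, rfl⟩
  obtain ⟨K, hK⟩ : ∃ K, K = ‖z‖ * numRadius T := ⟨_, rfl⟩
  have hd : ∀ t : ℝ, HasDerivAt u (A (u t)) t := fun t => by rw [hu]; exact hasDerivAt_orbit_real A x t
  have hc : Continuous u := continuous_iff_continuousAt.2 fun t => (hd t).continuousAt
  have hslope : ∀ t : ℝ, ∀ r, K * ‖u t‖ < r → ∃ᶠ s in 𝓝[>] t, (s - t)⁻¹ * (‖u s‖ - ‖u t‖) < r := by
    intro t r hr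
    apply Eventually.frequently
    obtain ⟨g, hg⟩ : ∃ g : ℝ → X, g = fun s => u s - ((s - t : ℝ) : ℂ) • A (u s) := ⟨_, rfl⟩
    have hgd : HasDerivAt g 0 t := by
      have e1 : HasDerivAt (fun s : ℝ => ((s - t : ℝ) : ℂ)) 1 t := by
        have := ((hasDerivAt_id t).sub_const t).ofReal_comp
        simpa using this
      have e2 : HasDerivAt (fun s : ℝ => A (u s)) (A (A (u t))) t := by
        have h1 := (A.restrictScalars ℝ).hasFDerivAt.comp_hasDerivAt t (hd t)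
        exact h1
      have e3 : HasDerivAt (fun s => u s - ((s - t : ℝ) : ℂ) • A (u s))
          (A (u t) - (((t - t : ℝ) : ℂ) • A (A (u t)) + (1 : ℂ) • A (u t))) t := (hd t).sub (e1.smul e2)
      have e4 : A (u t) - (((t - t : ℝ) : ℂ) • A (A (u t)) + (1 : ℂ) • A (u t)) = 0 := by simp
      rw [e4] at e3
      rw [hg]
      exact e3
    have hgt : g t = u t := by rw [hg]; simp
    have hs : Tendsto (slope g t) (𝓝[>] t) (𝓝 0) :=
      (hasDerivAt_iff_tendsto_slope.1 hgd).mono_left (nhdsWithin_mono _ fun s hs => (ne_of_gt hs : s ≠ t))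
    have hs2 : Tendsto (fun s => K * ‖u s‖ + ‖slope g t s‖) (𝓝[>] t) (𝓝 (K * ‖u t‖ + ‖(0 : X)‖)) := by
      refine Tendsto.add ?_ hs.norm
      exact ((hc.norm.tendsto t).const_mul K).mono_left nhdsWithin_le_nhds
    have hs3 := hs2.eventually_lt_const (show K * ‖u t‖ + ‖(0 : X)‖ < r by rw [norm_zero, add_zero]; exact hr)
    filter_upwards [hs3, self_mem_nhdsWithin] with s h1 h2
    refine lt_of_le_of_lt ?_ h1
    have hst : 0 < s - t := sub_pos.2 h2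
    have d := dissip T (u s) (((s - t : ℝ) : ℂ) * z)
    rw [norm_mul, Complex.norm_real, Real.norm_of_nonneg hst.le] at d
    have e4 : u s - (((s - t : ℝ) : ℂ) * z) • T (u s) = g s := by
      rw [hg, hA]; simp only [smul_apply]; rw [mul_smul]
    rw [e4] at d
    have e5 : ‖slope g t s‖ = (s - t)⁻¹ * ‖g s - u t‖ := by
      rw [slope_def_module, norm_smul, norm_inv, Real.norm_of_nonneg hst.le, hgt]
    rw [e5, inv_mul_le_iff₀ hst, mul_add, mul_inv_cancel_left₀ hst.ne']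
    have e6 : ‖g s‖ ≤ ‖u t‖ + ‖g s - u t‖ := by
      have := norm_add_le (u t) (g s - u t)
      rwa [add_sub_cancel] at this
    have e7 : ‖u s‖ * (1 - (s - t) * ‖z‖ * numRadius T) = ‖u s‖ - (s - t) * (K * ‖u s‖) := by rw [hK]; ring
    rw [e7] at d
    linarith
  have hgr := le_gronwallBound_of_liminf_deriv_right_le (f := fun t => ‖u t‖) (f' := fun t => K * ‖u t‖)
    (δ := ‖x‖) (K := K) (ε := 0) (a := 0) (b := 1) hc.norm.continuousOn (fun t _ r hr => hslope t r hr)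
    (by rw [hu]; simp) (fun t _ => by simp) 1 (by simp)
  rw [gronwallBound_ε0] at hgr
  have e8 : u 1 = NormedSpace.exp (z • T) x := by rw [hu, hA]; simp
  simp only [e8] at hgr
  rw [hK] at hgr
  calc _ ≤ _ := hgr
    _ = _ := by rw [sub_zero, mul_one, mul_comm]

/-- the even part of `exp (z T)` -/
noncomputable def ch (T : X →L[ℂ] X) (z : ℂ) (x : X) : X :=
  (1 / 2 : ℂ) • (NormedSpace.exp (z • T) x + NormedSpace.exp ((-z) • T) x)

/-- the odd part of `exp (z T)` -/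
noncomputable def sh (T : X →L[ℂ] X) (z : ℂ) (x : X) : X :=
  (1 / 2 : ℂ) • (NormedSpace.exp (z • T) x - NormedSpace.exp ((-z) • T) x)

lemma hasDerivAt_neg_orbit (A : X →L[ℂ] X) (x : X) (z : ℂ) :
    HasDerivAt (fun s : ℂ => NormedSpace.exp ((-s) • A) x) (-A (NormedSpace.exp ((-z) • A) x)) z := by
  have h := (hasDerivAt_orbit A x (-z)).scomp z (hasDerivAt_neg z)
  simpa [Function.comp_def] using h

lemma hasDerivAt_ch (T : X →L[ℂ] X) (x : X) (z : ℂ) : HasDerivAt (fun s => ch T s x) (T (sh T z x)) z := by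
  have h := ((hasDerivAt_orbit T x z).add (hasDerivAt_neg_orbit T x z)).const_smul (1 / 2 : ℂ)
  have e : (1 / 2 : ℂ) • (T (NormedSpace.exp (z • T) x) + -T (NormedSpace.exp ((-z) • T) x)) = T (sh T z x) := by
    unfold sh; rw [map_smul, map_sub, sub_eq_add_neg]
  rw [e] at h
  exact h

lemma hasDerivAt_sh (T : X →L[ℂ] X) (x : X) (z : ℂ) : HasDerivAt (fun s => sh T s x) (T (ch T z x)) z := by
  have h := ((hasDerivAt_orbit T x z).sub (hasDerivAt_neg_orbit T x z)).const_smul (1 / 2 : ℂ)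
  have e : (1 / 2 : ℂ) • (T (NormedSpace.exp (z • T) x) - -T (NormedSpace.exp ((-z) • T) x)) = T (ch T z x) := by
    unfold ch; rw [map_smul, map_add, sub_neg_eq_add]
  rw [e] at h
  exact h

lemma ch_zero (T : X →L[ℂ] X) (x : X) : ch T 0 x = x := by
  unfold ch
  simp only [neg_zero, zero_smul, NormedSpace.exp_zero, one_apply_eq_self]
  rw [← two_smul ℂ x, smul_smul]; norm_num

lemma sh_zero (T : X →L[ℂ] X) (x : X) : sh T 0 x = 0 := by
  unfold sh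
  simp

lemma max_principle (T : X →L[ℂ] X) {R : ℝ} (hR : 0 < R) (a b : ℂ) (φ0 φ1 : X →L[ℂ] ℂ) (x0 x1 : X) {C : ℝ}
    (h : ∀ z : ℂ, ‖z‖ = R → ‖a * φ0 (ch T z x0) + b * (R / z) * φ1 (sh T z x1)‖ ≤ C) :
    ‖a * φ0 x0 + b * R * φ1 (T x1)‖ ≤ C := by
  obtain ⟨k, hk⟩ : ∃ k : ℂ → ℂ, k = fun z => φ1 (sh T z x1) := ⟨_, rfl⟩
  have hkd : ∀ z, HasDerivAt k (φ1 (T (ch T z x1))) z := by
    intro z; rw [hk]
    exact φ1.hasFDerivAt.comp_hasDerivAt z (hasDerivAt_sh T x1 z)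
  have hk0 : k 0 = 0 := by rw [hk]; simp only; rw [sh_zero, map_zero]
  have hk1 : deriv k 0 = φ1 (T x1) := by rw [(hkd 0).deriv, ch_zero]
  obtain ⟨H, hH⟩ : ∃ H : ℂ → ℂ, H = fun z => a * φ0 (ch T z x0) + b * R * dslope k 0 z := ⟨_, rfl⟩
  have hHd : Differentiable ℂ H := by
    have d1 : Differentiable ℂ (dslope k 0) := by
      rw [← differentiableOn_univ, Complex.differentiableOn_dslope univ_mem, differentiableOn_univ]
      exact fun z => (hkd z).differentiableAt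
    have d2 : Differentiable ℂ fun z => φ0 (ch T z x0) := fun z =>
      (φ0.hasFDerivAt.comp_hasDerivAt z (hasDerivAt_ch T x0 z)).differentiableAt
    rw [hH]
    exact (d2.const_mul a).add (d1.const_mul _)
  have hH0 : H 0 = a * φ0 x0 + b * R * φ1 (T x1) := by
    rw [hH]; simp only
    rw [ch_zero, dslope_same, hk1]
  rw [← hH0]
  apply Complex.norm_le_of_forall_mem_frontier_norm_le (U := Metric.ball (0 : ℂ) R) Metric.isBounded_ball
    hHd.diffContOnCl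
  · intro z hz
    rw [frontier_ball _ hR.ne', mem_sphere_zero_iff_norm] at hz
    have hz0 : z ≠ 0 := by
      intro h0; rw [h0, norm_zero] at hz; exact hR.ne hz
    have := h z hz
    rw [hH]; simp only
    rw [dslope_of_ne _ hz0, slope_def_field, hk0, sub_zero, sub_zero, hk]
    have e : b * (R : ℂ) * (φ1 (sh T z x1) / z) = b * (R / z) * φ1 (sh T z x1) := by ring
    simp only [e]
    exact this
  · exact subset_closure (Metric.mem_ball_self hR)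

end general

/-! ### Clarkson type inequalities -/

lemma para (a b : ℂ) : ‖a + b‖ ^ 2 + ‖a - b‖ ^ 2 = 2 * (‖a‖ ^ 2 + ‖b‖ ^ 2) := by
  have := parallelogram_law_with_norm ℝ a b
  linarith

lemma sq_half {r : ℝ} (c : ℂ) : (‖c‖ ^ 2) ^ (r / 2) = ‖c‖ ^ r := by
  rw [← Real.rpow_natCast, ← Real.rpow_mul (norm_nonneg _)]
  congr 1; push_cast; ring

lemma mean2 {s x y : ℝ} (hs : 1 ≤ s) (hx : 0 ≤ x) (hy : 0 ≤ y) :
    (1 / 2 * x + 1 / 2 * y) ^ s ≤ 1 / 2 * x ^ s + 1 / 2 * y ^ s := by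
  have := (convexOn_rpow hs).2 (Set.mem_Ici.2 hx) (Set.mem_Ici.2 hy) (by norm_num : (0 : ℝ) ≤ 1 / 2)
    (by norm_num : (0 : ℝ) ≤ 1 / 2) (by norm_num)
  simpa [smul_eq_mul] using this

lemma clk_ge {r : ℝ} (hr : 2 ≤ r) (a b : ℂ) : ‖a‖ ^ r + ‖b‖ ^ r ≤ (‖a + b‖ ^ r + ‖a - b‖ ^ r) / 2 := by
  have h1 := Real.add_rpow_le_rpow_add (sq_nonneg ‖a‖) (sq_nonneg ‖b‖) (show 1 ≤ r / 2 by linarith)
  have h2 := mean2 (show 1 ≤ r / 2 by linarith) (sq_nonneg ‖a + b‖) (sq_nonneg ‖a - b‖)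
  have h3 : ‖a‖ ^ 2 + ‖b‖ ^ 2 = 1 / 2 * ‖a + b‖ ^ 2 + 1 / 2 * ‖a - b‖ ^ 2 := by have := para a b; linarith
  rw [← h3, sq_half, sq_half] at h2
  rw [sq_half, sq_half] at h1
  linarith

lemma clk_le {r : ℝ} (hr1 : 1 < r) (hr : r ≤ 2) (a b : ℂ) : ‖a + b‖ ^ r + ‖a - b‖ ^ r ≤ 2 * (‖a‖ ^ r + ‖b‖ ^ r) := by
  have h1 := Real.rpow_add_le_add_rpow (sq_nonneg ‖a‖) (sq_nonneg ‖b‖) (show 0 ≤ r / 2 by linarith) (show r / 2 ≤ 1 by linarith)
  have h2 := mean2 (x := ‖a + b‖ ^ r) (y := ‖a - b‖ ^ r) (show 1 ≤ 2 / r by rw [le_div_iff₀ (by linarith)]; linarith)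
    (by positivity) (by positivity)
  have e : ∀ c : ℂ, (‖c‖ ^ r) ^ (2 / r) = ‖c‖ ^ 2 := by
    intro c
    rw [← Real.rpow_mul (norm_nonneg _), mul_div_cancel₀ _ (by linarith : r ≠ 0)]
    norm_cast
  rw [e, e] at h2
  have h3 : ‖a‖ ^ 2 + ‖b‖ ^ 2 = 1 / 2 * ‖a + b‖ ^ 2 + 1 / 2 * ‖a - b‖ ^ 2 := by have := para a b; linarith
  rw [← h3] at h2
  rw [sq_half, sq_half] at h1
  have h0 : 0 ≤ 1 / 2 * ‖a + b‖ ^ r + 1 / 2 * ‖a - b‖ ^ r := by positivity
  have h4 := Real.rpow_le_rpow (by positivity) h2 (show 0 ≤ r / 2 by linarith)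
  rw [← Real.rpow_mul h0] at h4
  have e2 : 2 / r * (r / 2) = 1 := by field_simp
  rw [e2, Real.rpow_one] at h4
  linarith

variable {Ω : Type*} [MeasurableSpace Ω] {μ : Measure Ω} {p : ℝ≥0∞}

lemma clkL_ge [Fact (1 ≤ p)] (h1 : 1 < p) (h2 : p ≠ ∞) (hr : 2 ≤ p.toReal) (f g : Lp ℂ p μ) :
    ‖f‖ ^ p.toReal + ‖g‖ ^ p.toReal ≤ (‖f + g‖ ^ p.toReal + ‖f - g‖ ^ p.toReal) / 2 := by
  rw [norm_rpow_eq h1 h2, norm_rpow_eq h1 h2, norm_rpow_eq h1 h2, norm_rpow_eq h1 h2,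
    ← integral_add (integrable_rpow h1 h2 f) (integrable_rpow h1 h2 g),
    ← integral_add (integrable_rpow h1 h2 (f + g)) (integrable_rpow h1 h2 (f - g)), ← integral_div]
  apply integral_mono_ae ((integrable_rpow h1 h2 f).add (integrable_rpow h1 h2 g))
    (((integrable_rpow h1 h2 (f + g)).add (integrable_rpow h1 h2 (f - g))).div_const 2)
  filter_upwards [Lp.coeFn_add f g, Lp.coeFn_sub f g] with ω e1 e2
  simp only [Pi.add_apply]
  rw [e1, e2, Pi.add_apply, Pi.sub_apply]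
  exact clk_ge hr _ _

lemma clkL_le [Fact (1 ≤ p)] (h1 : 1 < p) (h2 : p ≠ ∞) (hr : p.toReal ≤ 2) (f g : Lp ℂ p μ) :
    ‖f + g‖ ^ p.toReal + ‖f - g‖ ^ p.toReal ≤ 2 * (‖f‖ ^ p.toReal + ‖g‖ ^ p.toReal) := by
  rw [norm_rpow_eq h1 h2, norm_rpow_eq h1 h2, norm_rpow_eq h1 h2, norm_rpow_eq h1 h2,
    ← integral_add (integrable_rpow h1 h2 f) (integrable_rpow h1 h2 g),
    ← integral_add (integrable_rpow h1 h2 (f + g)) (integrable_rpow h1 h2 (f - g)), ← integral_const_mul]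
  apply integral_mono_ae ((integrable_rpow h1 h2 (f + g)).add (integrable_rpow h1 h2 (f - g)))
    (((integrable_rpow h1 h2 f).add (integrable_rpow h1 h2 g)).const_mul 2)
  filter_upwards [Lp.coeFn_add f g, Lp.coeFn_sub f g] with ω e1 e2
  simp only [Pi.add_apply]
  rw [e1, e2, Pi.add_apply, Pi.sub_apply]
  exact clk_le (toReal_gt_one h1 h2) hr _ _

lemma hol2 {r a b c d : ℝ} (hr : 1 < r) (ha : 0 ≤ a) (hb : 0 ≤ b) (hc : 0 ≤ c) (hd : 0 ≤ d) :
    a ^ (r - 1) * c + b ^ (r - 1) * d ≤ (a ^ r + b ^ r) ^ ((r - 1) / r) * (c ^ r + d ^ r) ^ (1 / r) := by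
  have hq : (r / (r - 1)).HolderConjugate r := (Real.HolderConjugate.conjExponent hr).symm
  have h := Real.inner_le_Lp_mul_Lq (Finset.univ : Finset (Fin 2)) ![a ^ (r - 1), b ^ (r - 1)] ![c, d] hq
  simp only [Fin.sum_univ_two, Matrix.cons_val_zero, Matrix.cons_val_one] at h
  have hr1 : r - 1 ≠ 0 := by linarith
  have e : ∀ x : ℝ, 0 ≤ x → |x ^ (r - 1)| ^ (r / (r - 1)) = x ^ r := by
    intro x hx
    rw [abs_of_nonneg (by positivity), ← Real.rpow_mul hx, mul_div_cancel₀ _ hr1]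
  rw [e a ha, e b hb, abs_of_nonneg hc, abs_of_nonneg hd, one_div_div] at h
  exact h

lemma split_pow {r S : ℝ} (hr : 1 < r) (hS : 0 < S) : S ^ ((r - 1) / r) * S ^ (1 / r) = S := by
  rw [← Real.rpow_add hS, ← add_div]
  have : (r - 1 + 1) / r = 1 := by rw [sub_add_cancel, div_self (by linarith)]
  rw [this, Real.rpow_one]

/-- `p ≥ 2` -/
lemma exp_ge [Fact (1 ≤ p)] (h1 : 1 < p) (h2 : p ≠ ∞) (hr : 2 ≤ p.toReal) (T : Lp ℂ p μ →L[ℂ] Lp ℂ p μ) {R : ℝ}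
    (hR : 0 < R) (x : Lp ℂ p μ) (hx : ‖x‖ = 1) :
    1 + (R * ‖T x‖) ^ p.toReal ≤ Real.exp (R * numRadius T) ^ p.toReal := by
  obtain ⟨r, hr0⟩ : ∃ r, r = p.toReal := ⟨_, rfl⟩
  rw [← hr0] at hr ⊢
  have hr1 : 1 < r := by linarith
  obtain ⟨E, hE⟩ : ∃ E, E = Real.exp (R * numRadius T) := ⟨_, rfl⟩
  have hE0 : 0 < E := by rw [hE]; positivity
  rw [← hE]
  rcases eq_or_ne (T x) 0 with h0 | h0
  · rw [h0, norm_zero, mul_zero, Real.zero_rpow (by linarith), add_zero]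
    have : 1 ≤ E := by rw [hE]; exact Real.one_le_exp (by have := numRadius_nonneg T; positivity)
    exact Real.one_le_rpow this (by linarith)
  have hx0 : x ≠ 0 := by intro h; rw [h, norm_zero] at hx; norm_num at hx
  obtain ⟨φ0, hφ0, h00⟩ := exists_dual_vector ℂ x (norm_ne_zero_iff.2 hx0)
  obtain ⟨φ1, hφ1, h11⟩ := exists_dual_vector ℂ (T x) (norm_ne_zero_iff.2 h0)
  obtain ⟨Y, hY⟩ : ∃ Y, Y = R * ‖T x‖ := ⟨_, rfl⟩
  have hY0 : 0 < Y := by rw [hY]; have := norm_pos_iff.2 h0; positivity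
  obtain ⟨S, hS⟩ : ∃ S, S = 1 + Y ^ r := ⟨_, rfl⟩
  have hS0 : 0 < S := by rw [hS]; positivity
  have hbd : ∀ z : ℂ, ‖z‖ = R →
      ‖(1 : ℂ) * φ0 (ch T z x) + ((Y ^ (r - 1) : ℝ) : ℂ) * (R / z) * φ1 (sh T z x)‖ ≤ S ^ ((r - 1) / r) * E := by
    intro z hz
    have a1 : ‖φ0 (ch T z x)‖ ≤ ‖ch T z x‖ := by
      have := φ0.le_opNorm (ch T z x); rwa [hφ0, one_mul] at this
    have a2 : ‖φ1 (sh T z x)‖ ≤ ‖sh T z x‖ := by
      have := φ1.le_opNorm (sh T z x); rwa [hφ1, one_mul] at this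
    have a3 : ‖(R : ℂ) / z‖ = 1 := by
      rw [norm_div, hz, Complex.norm_real, Real.norm_of_nonneg hR.le, div_self hR.ne']
    have a4 := hol2 (a := 1) (b := Y) hr1 zero_le_one hY0.le (norm_nonneg (ch T z x)) (norm_nonneg (sh T z x))
    rw [Real.one_rpow, Real.one_rpow, one_mul, ← hS] at a4
    have a5 : ‖ch T z x‖ ^ r + ‖sh T z x‖ ^ r ≤ E ^ r := by
      have b1 := clkL_ge h1 h2 (by rw [← hr0]; exact hr) (ch T z x) (sh T z x)
      have b2 : ch T z x + sh T z x = NormedSpace.exp (z • T) x := by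
        unfold ch sh
        rw [← smul_add]
        have : NormedSpace.exp (z • T) x + NormedSpace.exp ((-z) • T) x + (NormedSpace.exp (z • T) x - NormedSpace.exp ((-z) • T) x)
          = (2 : ℂ) • NormedSpace.exp (z • T) x := by rw [two_smul]; abel
        rw [this, smul_smul]; norm_num
      have b3 : ch T z x - sh T z x = NormedSpace.exp ((-z) • T) x := by
        unfold ch sh
        rw [← smul_sub]
        have : NormedSpace.exp (z • T) x + NormedSpace.exp ((-z) • T) x - (NormedSpace.exp (z • T) x - NormedSpace.exp ((-z) • T) x)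
          = (2 : ℂ) • NormedSpace.exp ((-z) • T) x := by rw [two_smul]; abel
        rw [this, smul_smul]; norm_num
      have b4 : ‖NormedSpace.exp (z • T) x‖ ≤ E := by
        have := norm_exp_le T z x
        rwa [hx, mul_one, hz, ← hE] at this
      have b5 : ‖NormedSpace.exp ((-z) • T) x‖ ≤ E := by
        have := norm_exp_le T (-z) x
        rwa [hx, mul_one, norm_neg, hz, ← hE] at this
      rw [b2, b3, ← hr0] at b1
      have b6 := Real.rpow_le_rpow (norm_nonneg _) b4 (show 0 ≤ r by linarith)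
      have b7 := Real.rpow_le_rpow (norm_nonneg _) b5 (show 0 ≤ r by linarith)
      linarith
    calc ‖(1 : ℂ) * φ0 (ch T z x) + ((Y ^ (r - 1) : ℝ) : ℂ) * (R / z) * φ1 (sh T z x)‖
        ≤ ‖(1 : ℂ) * φ0 (ch T z x)‖ + ‖((Y ^ (r - 1) : ℝ) : ℂ) * (R / z) * φ1 (sh T z x)‖ := norm_add_le _ _
      _ = ‖φ0 (ch T z x)‖ + Y ^ (r - 1) * ‖φ1 (sh T z x)‖ := by
        rw [one_mul, norm_mul, norm_mul, a3, Complex.norm_real, Real.norm_of_nonneg (by positivity), mul_one]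
      _ ≤ ‖ch T z x‖ + Y ^ (r - 1) * ‖sh T z x‖ := by gcongr
      _ ≤ S ^ ((r - 1) / r) * (‖ch T z x‖ ^ r + ‖sh T z x‖ ^ r) ^ (1 / r) := a4
      _ ≤ S ^ ((r - 1) / r) * (E ^ r) ^ (1 / r) := by gcongr
      _ = S ^ ((r - 1) / r) * E := by
        rw [← Real.rpow_mul hE0.le, mul_one_div_cancel (by linarith), Real.rpow_one]
  have hmax := max_principle T hR 1 ((Y ^ (r - 1) : ℝ) : ℂ) φ0 φ1 x x hbd
  rw [h00, h11, hx] at hmax
  have e1 : (1 : ℂ) * ((1 : ℝ) : ℂ) + ((Y ^ (r - 1) : ℝ) : ℂ) * (R : ℂ) * ((‖T x‖ : ℝ) : ℂ) = ((S : ℝ) : ℂ) := by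
    rw [hS]
    have : Y ^ r = Y ^ (r - 1) * Y := by
      rw [← Real.rpow_add_one hY0.ne']; congr 1; ring
    rw [this]
    nth_rewrite 3 [hY]
    push_cast
    ring
  have e2 : ‖(1 : ℂ) * ((1 : ℝ) : ℂ) + ((Y ^ (r - 1) : ℝ) : ℂ) * (R : ℂ) * ((‖T x‖ : ℝ) : ℂ)‖ = S := by
    rw [e1, Complex.norm_real, Real.norm_of_nonneg hS0.le]
  have hmax2 : S ≤ S ^ ((r - 1) / r) * E := e2.symm.le.trans hmax
  rw [← hY, ← hS]
  have hS3 : 0 < S ^ ((r - 1) / r) := by positivity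
  have h5 : S ^ (1 / r) ≤ E := by
    have := split_pow hr1 hS0
    rw [← mul_le_mul_iff_right₀ hS3]
    linarith
  have h6 := Real.rpow_le_rpow (by positivity) h5 (show 0 ≤ r by linarith)
  rwa [← Real.rpow_mul hS0.le, one_div_mul_cancel (by linarith), Real.rpow_one] at h6

/-- `p ≤ 2` -/
lemma exp_le [Fact (1 ≤ p)] (h1 : 1 < p) (h2 : p ≠ ∞) (hr : p.toReal ≤ 2) (T : Lp ℂ p μ →L[ℂ] Lp ℂ p μ) {R : ℝ}
    (hR : 0 < R) (x : Lp ℂ p μ) (hx : ‖x‖ = 1) :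
    1 + (R * ‖T x‖) ^ (p.toReal / (p.toReal - 1)) ≤ Real.exp (R * numRadius T) ^ (p.toReal / (p.toReal - 1)) := by
  have hr1 := toReal_gt_one h1 h2
  obtain ⟨r, hr0⟩ : ∃ r, r = p.toReal := ⟨_, rfl⟩
  rw [← hr0] at hr hr1 ⊢
  obtain ⟨q, hq⟩ : ∃ q, q = r / (r - 1) := ⟨_, rfl⟩
  have hrm : 0 < r - 1 := by linarith
  have hq1 : 1 < q := by rw [hq, lt_div_iff₀ hrm]; linarith
  have hqr : (q - 1) * r = q := by rw [hq]; field_simp; ring
  rw [← hq]
  obtain ⟨E, hE⟩ : ∃ E, E = Real.exp (R * numRadius T) := ⟨_, rfl⟩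
  have hE0 : 0 < E := by rw [hE]; positivity
  rw [← hE]
  rcases eq_or_ne (T x) 0 with h0 | h0
  · rw [h0, norm_zero, mul_zero, Real.zero_rpow (by linarith), add_zero]
    have : 1 ≤ E := by rw [hE]; exact Real.one_le_exp (by have := numRadius_nonneg T; positivity)
    exact Real.one_le_rpow this (by linarith)
  obtain ⟨φ, hφ, hφT⟩ := exists_dual_vector ℂ (T x) (norm_ne_zero_iff.2 h0)
  have hTx : 0 < ‖T x‖ := norm_pos_iff.2 h0
  obtain ⟨Y, hY⟩ : ∃ Y, Y = R * ‖T x‖ := ⟨_, rfl⟩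
  have hY0 : 0 < Y := by rw [hY]; positivity
  obtain ⟨S, hS⟩ : ∃ S, S = 1 + Y ^ q := ⟨_, rfl⟩
  have hS0 : 0 < S := by rw [hS]; positivity
  obtain ⟨b, hb⟩ : ∃ b, b = Y ^ (q - 1) := ⟨_, rfl⟩
  have hb0 : 0 < b := by rw [hb]; positivity
  have hbY : b * Y = Y ^ q := by rw [hb, ← Real.rpow_add_one hY0.ne']; congr 1; ring
  have hbr : b ^ r = Y ^ q := by rw [hb, ← Real.rpow_mul hY0.le, hqr]
  obtain ⟨x0, hx0⟩ : ∃ x0, x0 = ((‖T x‖⁻¹ : ℝ) : ℂ) • T x := ⟨_, rfl⟩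
  have hx0n : ‖x0‖ = 1 := by
    rw [hx0, norm_smul, Complex.norm_real, Real.norm_of_nonneg (by positivity)]; field_simp
  have hφ0 : φ x0 = 1 := by
    rw [hx0, map_smul, hφT, smul_eq_mul]
    have : ((‖T x‖ : ℂ)) ≠ 0 := by exact_mod_cast hTx.ne'
    push_cast
    exact inv_mul_cancel₀ this
  have hbd : ∀ z : ℂ, ‖z‖ = R →
      ‖(1 : ℂ) * φ (ch T z x0) + ((b : ℝ) : ℂ) * (R / z) * φ (sh T z x)‖ ≤ E * S ^ (1 / r) := by
    intro z hz
    obtain ⟨w, hw⟩ : ∃ w : ℂ, w = ((b : ℝ) : ℂ) * (R / z) := ⟨_, rfl⟩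
    have hwn : ‖w‖ = b := by
      rw [hw, norm_mul, norm_div, hz, Complex.norm_real, Complex.norm_real, Real.norm_of_nonneg hR.le, div_self hR.ne',
        Real.norm_of_nonneg hb0.le, mul_one]
    rw [← hw]
    have e1 : (1 : ℂ) * φ (ch T z x0) + w * φ (sh T z x) =
        (1 / 2 : ℂ) * (φ (NormedSpace.exp (z • T) (x0 + w • x)) + φ (NormedSpace.exp ((-z) • T) (x0 - w • x))) := by
      unfold ch sh
      simp only [map_add, map_sub, map_smul, smul_eq_mul]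
      ring
    have a0 : ∀ y, ‖φ y‖ ≤ ‖y‖ := fun y => by
      have := φ.le_opNorm y; rwa [hφ, one_mul] at this
    have a1 : ‖φ (NormedSpace.exp (z • T) (x0 + w • x))‖ ≤ E * ‖x0 + w • x‖ := by
      have := norm_exp_le T z (x0 + w • x)
      rw [hz, ← hE] at this
      exact (a0 _).trans this
    have a2 : ‖φ (NormedSpace.exp ((-z) • T) (x0 - w • x))‖ ≤ E * ‖x0 - w • x‖ := by
      have := norm_exp_le T (-z) (x0 - w • x)
      rw [norm_neg, hz, ← hE] at this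
      exact (a0 _).trans this
    have a3 := clkL_le h1 h2 (by rw [← hr0]; exact hr) x0 (w • x)
    rw [← hr0, hx0n, norm_smul, hwn, hx, mul_one, Real.one_rpow, hbr, ← hS] at a3
    have a4 := mean2 hr1.le (norm_nonneg (x0 + w • x)) (norm_nonneg (x0 - w • x))
    have a5 : (1 / 2 * ‖x0 + w • x‖ + 1 / 2 * ‖x0 - w • x‖) ^ r ≤ S := by linarith
    have a6 := Real.rpow_le_rpow (by positivity) a5 (show 0 ≤ 1 / r by positivity)
    rw [← Real.rpow_mul (by positivity), mul_one_div_cancel (by linarith), Real.rpow_one] at a6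
    rw [e1, norm_mul]
    have a7 := norm_add_le (φ (NormedSpace.exp (z • T) (x0 + w • x))) (φ (NormedSpace.exp ((-z) • T) (x0 - w • x)))
    have a8 : ‖(1 / 2 : ℂ)‖ = 1 / 2 := by simp
    rw [a8]
    calc 1 / 2 * ‖φ (NormedSpace.exp (z • T) (x0 + w • x)) + φ (NormedSpace.exp ((-z) • T) (x0 - w • x))‖
        ≤ 1 / 2 * (E * ‖x0 + w • x‖ + E * ‖x0 - w • x‖) := by
          gcongr
          linarith
      _ = E * (1 / 2 * ‖x0 + w • x‖ + 1 / 2 * ‖x0 - w • x‖) := by ring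
      _ ≤ E * S ^ (1 / r) := by gcongr
  have hmax := max_principle T hR 1 ((b : ℝ) : ℂ) φ φ x0 x hbd
  rw [hφ0, hφT] at hmax
  have e1 : (1 : ℂ) * 1 + ((b : ℝ) : ℂ) * (R : ℂ) * ((‖T x‖ : ℝ) : ℂ) = ((S : ℝ) : ℂ) := by
    rw [hS, ← hbY, hY]
    push_cast
    ring
  have hmax2 : S ≤ E * S ^ (1 / r) := by
    have e2 : ‖(1 : ℂ) * 1 + ((b : ℝ) : ℂ) * (R : ℂ) * ((‖T x‖ : ℝ) : ℂ)‖ = S := by
      rw [e1, Complex.norm_real, Real.norm_of_nonneg hS0.le]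
    exact e2.symm.le.trans hmax
  rw [← hY, ← hS]
  have hS3 : 0 < S ^ (1 / r) := by positivity
  have h5 : S ^ ((r - 1) / r) ≤ E := by
    have := split_pow hr1 hS0
    rw [← mul_le_mul_iff_left₀ hS3]
    linarith
  have h6 := Real.rpow_le_rpow (by positivity) h5 (show 0 ≤ q by linarith)
  have e3 : (r - 1) / r * q = 1 := by rw [hq]; field_simp
  rwa [← Real.rpow_mul hS0.le, e3, Real.rpow_one] at h6

lemma exp_both [Fact (1 ≤ p)] (h1 : 1 < p) (h2 : p ≠ ∞) (T : Lp ℂ p μ →L[ℂ] Lp ℂ p μ) {R : ℝ}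
    (hR : 0 < R) (x : Lp ℂ p μ) (hx : ‖x‖ = 1) :
    1 + (R * ‖T x‖) ^ (max p.toReal (p.toReal / (p.toReal - 1))) ≤
      Real.exp (R * numRadius T) ^ (max p.toReal (p.toReal / (p.toReal - 1))) := by
  have hr1 := toReal_gt_one h1 h2
  have hrm : 0 < p.toReal - 1 := by linarith
  rcases le_total p.toReal 2 with h | h
  · rw [max_eq_right]
    · exact exp_le h1 h2 h T hR x hx
    · rw [le_div_iff₀ hrm]; nlinarith
  · rw [max_eq_left]
    · exact exp_ge h1 h2 h T hR x hx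
    · rw [div_le_iff₀ hrm]; nlinarith

lemma exp_norm [Fact (1 ≤ p)] (h1 : 1 < p) (h2 : p ≠ ∞) (T : Lp ℂ p μ →L[ℂ] Lp ℂ p μ) {R : ℝ} (hR : 0 < R) :
    1 + (R * ‖T‖) ^ (max p.toReal (p.toReal / (p.toReal - 1))) ≤
      Real.exp (R * numRadius T) ^ (max p.toReal (p.toReal / (p.toReal - 1))) := by
  have hr1 := toReal_gt_one h1 h2
  obtain ⟨s, hs⟩ : ∃ s, s = max p.toReal (p.toReal / (p.toReal - 1)) := ⟨_, rfl⟩
  have hs0 : 0 < s := by rw [hs]; exact lt_of_lt_of_le (by linarith) (le_max_left _ _)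
  obtain ⟨E, hE⟩ : ∃ E, E = Real.exp (R * numRadius T) := ⟨_, rfl⟩
  have hE1 : 1 ≤ E := by rw [hE]; exact Real.one_le_exp (by have := numRadius_nonneg T; positivity)
  have hEs : 1 ≤ E ^ s := Real.one_le_rpow hE1 hs0.le
  rw [← hs, ← hE]
  have key : ‖T‖ ≤ (E ^ s - 1) ^ (1 / s) / R := by
    apply T.opNorm_le_bound (by have : 0 ≤ E ^ s - 1 := by linarith
                                positivity)
    intro x
    rcases eq_or_ne x 0 with rfl | hx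
    · simp
    have hx0 : 0 < ‖x‖ := norm_pos_iff.2 hx
    obtain ⟨u, hu⟩ : ∃ u : Lp ℂ p μ, u = ((‖x‖⁻¹ : ℝ) : ℂ) • x := ⟨_, rfl⟩
    have hu1 : ‖u‖ = 1 := by
      rw [hu, norm_smul, Complex.norm_real, Real.norm_of_nonneg (by positivity)]; field_simp
    have k1 := exp_both h1 h2 T hR u hu1
    rw [← hs, ← hE] at k1
    have k2 : (R * ‖T u‖) ^ s ≤ E ^ s - 1 := by linarith
    have k3 := Real.rpow_le_rpow (by positivity) k2 (show 0 ≤ 1 / s by positivity)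
    rw [← Real.rpow_mul (by positivity), mul_one_div_cancel hs0.ne', Real.rpow_one] at k3
    have e : ‖T u‖ = ‖T x‖ / ‖x‖ := by
      rw [hu, map_smul, norm_smul, Complex.norm_real, Real.norm_of_nonneg (by positivity)]; field_simp
    rw [e, ← le_div_iff₀' hR, div_le_iff₀ hx0] at k3
    exact k3
  rw [le_div_iff₀' hR] at key
  have h6 := Real.rpow_le_rpow (by positivity) key hs0.le
  rw [← Real.rpow_mul (by linarith), one_div_mul_cancel hs0.ne', Real.rpow_one] at h6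
  linarith

/-- A lower bound for complex `L_p` spaces for every `1 < p < ∞`; with `R = e` it is strictly larger than `1/e`. -/
theorem complex_exp_lower [Fact (1 ≤ p)] (h1 : 1 < p) (h2 : p ≠ ∞) [Nontrivial (Lp ℂ p μ)] {R : ℝ} (hR : 0 < R) :
    Real.log (1 + R ^ (max p.toReal (p.toReal / (p.toReal - 1)))) / (R * max p.toReal (p.toReal / (p.toReal - 1))) ≤
      numIndex ℂ (Lp ℂ p μ) := by
  have hr1 := toReal_gt_one h1 h2
  obtain ⟨s, hs⟩ : ∃ s, s = max p.toReal (p.toReal / (p.toReal - 1)) := ⟨_, rfl⟩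
  have hs0 : 0 < s := by rw [hs]; exact lt_of_lt_of_le (by linarith) (le_max_left _ _)
  rw [← hs]
  apply le_numIndex
  intro T
  have hn := numRadius_nonneg T
  rcases eq_or_ne T 0 with hT | hT
  · rw [hT, norm_zero, mul_zero]; exact numRadius_nonneg _
  have hT0 : 0 < ‖T‖ := norm_pos_iff.2 hT
  have k := exp_norm h1 h2 T (R := R / ‖T‖) (by positivity)
  rw [← hs, div_mul_cancel₀ _ hT0.ne', ← Real.exp_mul] at k
  have k2 := Real.log_le_log (by positivity) k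
  rw [Real.log_exp] at k2
  rw [div_mul_eq_mul_div, div_le_iff₀ (by positivity)]
  have e : R / ‖T‖ * numRadius T * s = (numRadius T * (R * s)) / ‖T‖ := by ring
  rwa [e, le_div_iff₀ hT0] at k2

end Pool.Agent.Work.MP_95d40a_an
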