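import Pool.Agent.Work.MP_95d40a_an.JP

set_option autoImplicit false

open MeasureTheory Filter Topology
open scoped ENNReal RealInnerProductSpace

namespace Pool.Agent.Work.MP_95d40a_an

variable {Ω : Type*} [MeasurableSpace Ω] {μ : Measure Ω} {p : ℝ≥0∞} {𝕜 : Type*} [RCLike 𝕜]

/-- restriction of an element of `L_p` to a measurable set -/
noncomputable def cut (x : Lp 𝕜 p μ) {A : Set Ω} (hA : MeasurableSet A) : Lp 𝕜 p μ :=
  ((Lp.memLp x).indicator hA).toLp _

lemma cut_coe (x : Lp 𝕜 p μ) {A : Set Ω} (hA : MeasurableSet A) :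
    (cut x hA : Ω → 𝕜) =ᵐ[μ] A.indicator x := MemLp.coeFn_toLp _

lemma cut_add_compl (x : Lp 𝕜 p μ) {A : Set Ω} (hA : MeasurableSet A) : cut x hA + cut x hA.compl = x := by
  apply Lp.ext
  filter_upwards [Lp.coeFn_add (cut x hA) (cut x hA.compl), cut_coe x hA, cut_coe x hA.compl] with ω e1 e2 e3
  rw [e1, Pi.add_apply, e2, e3]
  by_cases h : ω ∈ A
  · rw [Set.indicator_of_mem h, Set.indicator_of_notMem (by simpa using h), add_zero]
  · rw [Set.indicator_of_notMem h, Set.indicator_of_mem (by simpa using h), zero_add]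

lemma cut_disj (x : Lp 𝕜 p μ) {A : Set Ω} (hA : MeasurableSet A) (X Y : 𝕜) :
    ∀ᵐ ω ∂μ, (X • cut x hA : Lp 𝕜 p μ) ω = 0 ∨ (Y • cut x hA.compl : Lp 𝕜 p μ) ω = 0 := by
  filter_upwards [Lp.coeFn_smul X (cut x hA), Lp.coeFn_smul Y (cut x hA.compl), cut_coe x hA,
    cut_coe x hA.compl] with ω e1 e2 e3 e4
  rw [e1, e2, Pi.smul_apply, Pi.smul_apply, e3, e4]
  by_cases h : ω ∈ A
  · right; rw [Set.indicator_of_notMem (by simpa using h), smul_zero]
  · left; rw [Set.indicator_of_notMem h, smul_zero]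

/-- the two block inequality -/
lemma block_bound [Fact (1 ≤ p)] (h1 : 1 < p) (h2 : p ≠ ∞) (T : Lp 𝕜 p μ →L[𝕜] Lp 𝕜 p μ)
    (f g : Lp 𝕜 p μ) (hd : ∀ X Y : 𝕜, ∀ᵐ ω ∂μ, (X • f : Lp 𝕜 p μ) ω = 0 ∨ (Y • g : Lp 𝕜 p μ) ω = 0) (X Y : 𝕜) :
    ‖(((‖X‖ ^ (p.toReal - 2) : ℝ) : 𝕜) * starRingEnd 𝕜 X) *
        (X * JP p.toReal μ (f : Ω → 𝕜) (T f) + Y * JP p.toReal μ (f : Ω → 𝕜) (T g)) +
      (((‖Y‖ ^ (p.toReal - 2) : ℝ) : 𝕜) * starRingEnd 𝕜 Y) *
        (X * JP p.toReal μ (g : Ω → 𝕜) (T f) + Y * JP p.toReal μ (g : Ω → 𝕜) (T g))‖ ≤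
      numRadius T * (‖X‖ ^ p.toReal * ‖f‖ ^ p.toReal + ‖Y‖ ^ p.toReal * ‖g‖ ^ p.toReal) := by
  have hpr := toReal_gt_one h1 h2
  have key := nr_bound h1 h2 T (X • f + Y • g)
  rw [norm_add_disj h1 h2 _ _ (hd X Y), norm_smul, norm_smul, Real.mul_rpow (norm_nonneg _) (norm_nonneg _),
    Real.mul_rpow (norm_nonneg _) (norm_nonneg _)] at key
  have e : JP p.toReal μ (X • f + Y • g : Lp 𝕜 p μ) (T (X • f + Y • g)) =
      (((‖X‖ ^ (p.toReal - 2) : ℝ) : 𝕜) * starRingEnd 𝕜 X) *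
        (X * JP p.toReal μ (f : Ω → 𝕜) (T f) + Y * JP p.toReal μ (f : Ω → 𝕜) (T g)) +
      (((‖Y‖ ^ (p.toReal - 2) : ℝ) : 𝕜) * starRingEnd 𝕜 Y) *
        (X * JP p.toReal μ (g : Ω → 𝕜) (T f) + Y * JP p.toReal μ (g : Ω → 𝕜) (T g)) := by
    rw [JP_add_left h1 h2 _ _ _ (hd X Y), JP_smul_left, JP_smul_left, map_add, map_smul, map_smul,
      JP_add_right h1 h2, JP_add_right h1 h2, JP_smul_right, JP_smul_right, JP_smul_right, JP_smul_right]
  rwa [e] at key

/-- the scalar consequence of the two by two theorem -/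
lemma homog {r a b c d v α β : ℝ} (hr : 1 < r) (hr2 : r ≠ 2) (hv : 0 ≤ v) (hα : 0 ≤ α) (hβ : 0 ≤ β)
    (H : ∀ X Y : ℝ, |a * |X| ^ r + c * (jj r X * Y) + d * (jj r Y * X) + b * |Y| ^ r| ≤
      v * (|X| ^ r * α + |Y| ^ r * β)) :
    Mp r * (|a| + |c| + |d| + |b|) ≤ v * (α + β) := by
  have main : ∀ ε : ℝ, 0 < ε → Mp r * (|a| + |c| + |d| + |b|) ≤ v * ((α + ε) + (β + ε)) := by
    intro ε hε
    set α' := α + ε with hα'
    set β' := β + ε with hβ'
    have ha0 : 0 < α' := by positivity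
    have hb0 : 0 < β' := by positivity
    obtain ⟨q, hpq⟩ : ∃ q, r.HolderConjugate q := ⟨_, Real.HolderConjugate.conjExponent hr⟩
    have hq0 := hpq.symm.pos
    have hr0 := hpq.pos
    set A := α' ^ (1 / r) with hA
    set B := β' ^ (1 / r) with hB
    have hA0 : 0 < A := by positivity
    have hB0 : 0 < B := by positivity
    have eA : A ^ r = α' := by
      rw [hA, ← Real.rpow_mul ha0.le]; field_simp; rw [Real.rpow_one]
    have eB : B ^ r = β' := by
      rw [hB, ← Real.rpow_mul hb0.le]; field_simp; rw [Real.rpow_one]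
    have eA1 : A ^ (r - 1) * A = α' := by
      rw [← Real.rpow_add_one hA0.ne', ← eA]; congr 1; ring
    have eB1 : B ^ (r - 1) * B = β' := by
      rw [← Real.rpow_add_one hB0.ne', ← eB]; congr 1; ring
    have hA1 : 0 < A ^ (r - 1) := by positivity
    have hB1 : 0 < B ^ (r - 1) := by positivity
    have key := two_main (p := r) (q := q) (a := a / α') (b := b / β') (c := c / (A ^ (r - 1) * B))
      (d := d / (B ^ (r - 1) * A)) (v := v) hpq hr2 ?_ A B (A ^ (r - 1)) (B ^ (r - 1))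
    · have eq1 : |A ^ (r - 1)| ^ q = α' := by
        rw [abs_of_pos hA1, ← Real.rpow_mul hA0.le, ← eA]
        congr 1
        exact hpq.sub_one_mul_conj
      have eq2 : |B ^ (r - 1)| ^ q = β' := by
        rw [abs_of_pos hB1, ← Real.rpow_mul hB0.le, ← eB]
        congr 1
        exact hpq.sub_one_mul_conj
      rw [eq1, eq2, abs_of_pos hA0, abs_of_pos hB0, eA, eB, abs_of_pos hA1, abs_of_pos hB1, abs_div, abs_div, abs_div,
        abs_div, abs_of_pos ha0, abs_of_pos hb0, abs_of_pos (mul_pos hA1 hB0), abs_of_pos (mul_pos hB1 hA0), eA1, eB1] at key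
      have f1 : |a| / α' * α' = |a| := by field_simp
      have f2 : |b| / β' * β' = |b| := by field_simp
      have f3 : |c| / (A ^ (r - 1) * B) * (A ^ (r - 1) * B) = |c| := by field_simp
      have f4 : |d| / (B ^ (r - 1) * A) * (B ^ (r - 1) * A) = |d| := by field_simp
      rw [f1, f2, f3, f4] at key
      have f5 : (α' + β') / r + (α' + β') / q = α' + β' := by
        have := hpq.inv_add_inv_eq_one
        have : (α' + β') * (r⁻¹ + q⁻¹) = α' + β' := by rw [this, mul_one]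
        rw [div_eq_mul_inv, div_eq_mul_inv]; linarith
      rwa [f5] at key
    · intro X Y
      have h5 := H (X / A) (Y / B)
      have jx : ∀ z C : ℝ, 0 < C → jj r (z / C) = jj r z / C ^ (r - 1) := by
        intro z C hC
        have : jj r z = jj r (z / C) * jj r C := by rw [← jj_mul]; congr 1; field_simp
        rw [this, jj_nonneg_eq hr hC.le]; field_simp
      rw [jx X A hA0, jx Y B hB0, abs_div, abs_div, abs_of_pos hA0, abs_of_pos hB0,
        Real.div_rpow (abs_nonneg _) hA0.le, Real.div_rpow (abs_nonneg _) hB0.le, eA, eB] at h5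
      have e1 : a / α' * |X| ^ r + c / (A ^ (r - 1) * B) * (jj r X * Y) + d / (B ^ (r - 1) * A) * (jj r Y * X) +
          b / β' * |Y| ^ r = a * (|X| ^ r / α') + c * (jj r X / A ^ (r - 1) * (Y / B)) +
          d * (jj r Y / B ^ (r - 1) * (X / A)) + b * (|Y| ^ r / β') := by
        field_simp
      rw [e1]
      refine h5.trans ?_
      have g1 : |X| ^ r / α' * α ≤ |X| ^ r := by
        rw [div_mul_eq_mul_div, div_le_iff₀ ha0]
        have : 0 ≤ |X| ^ r := by positivity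
        have : α ≤ α' := by linarith
        gcongr
      have g2 : |Y| ^ r / β' * β ≤ |Y| ^ r := by
        rw [div_mul_eq_mul_div, div_le_iff₀ hb0]
        have : 0 ≤ |Y| ^ r := by positivity
        have : β ≤ β' := by linarith
        gcongr
      gcongr
  have hlim : Tendsto (fun ε : ℝ => v * ((α + ε) + (β + ε))) (𝓝[>] 0) (𝓝 (v * ((α + 0) + (β + 0)))) := by
    apply Tendsto.mono_left _ nhdsWithin_le_nhds
    exact (by fun_prop : Continuous fun ε : ℝ => v * ((α + ε) + (β + ε))).tendsto 0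
  rw [add_zero, add_zero] at hlim
  exact ge_of_tendsto hlim (by filter_upwards [self_mem_nhdsWithin] with ε hε using main ε hε)

lemma JP_real_eq {r : ℝ} (x y : Ω → ℝ) : JP r μ x y = ∫ ω, jj r (x ω) * y ω ∂μ := by
  unfold JP jj
  apply integral_congr_ae
  refine Eventually.of_forall fun ω => ?_
  simp only [RCLike.ofReal_real_eq_id, id, starRingEnd_apply, star_trivial, Real.norm_eq_abs]
  ring

/-- the two block inequality, real scalars -/
lemma real_block [Fact (1 ≤ p)] (h1 : 1 < p) (h2 : p ≠ ∞) (h3 : p ≠ 2) (T : Lp ℝ p μ →L[ℝ] Lp ℝ p μ)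
    (f g : Lp ℝ p μ) (hd : ∀ X Y : ℝ, ∀ᵐ ω ∂μ, (X • f : Lp ℝ p μ) ω = 0 ∨ (Y • g : Lp ℝ p μ) ω = 0) :
    Mp p.toReal * (|JP p.toReal μ (f : Ω → ℝ) (T f)| + |JP p.toReal μ (f : Ω → ℝ) (T g)| +
      |JP p.toReal μ (g : Ω → ℝ) (T f)| + |JP p.toReal μ (g : Ω → ℝ) (T g)|) ≤
      numRadius T * (‖f‖ ^ p.toReal + ‖g‖ ^ p.toReal) := by
  have hpr := toReal_gt_one h1 h2
  have hr2 : p.toReal ≠ 2 := by
    intro h; apply h3
    rw [← ENNReal.ofReal_toReal h2, h]; simp
  apply homog hpr hr2 (numRadius_nonneg T) (by positivity) (by positivity)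
  intro X Y
  have key := block_bound h1 h2 T f g hd X Y
  simp only [RCLike.ofReal_real_eq_id, id, starRingEnd_apply, star_trivial, Real.norm_eq_abs] at key
  have jX : |X| ^ (p.toReal - 2) * X = jj p.toReal X := rfl
  have jY : |Y| ^ (p.toReal - 2) * Y = jj p.toReal Y := rfl
  rw [jX, jY] at key
  have e := jj_mul_self (x := X) hpr
  have e' := jj_mul_self (x := Y) hpr
  rw [← e, ← e'] at key ⊢
  calc _ = |jj p.toReal X * (X * JP p.toReal μ (f : Ω → ℝ) (T f) + Y * JP p.toReal μ (f : Ω → ℝ) (T g)) +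
      jj p.toReal Y * (X * JP p.toReal μ (g : Ω → ℝ) (T f) + Y * JP p.toReal μ (g : Ω → ℝ) (T g))| := by
        congr 1; ring
    _ ≤ _ := key

/-- `v(T) ≥ M_p |v|(T)` for every operator on a real `L_p` space. -/
theorem abs_radius_le [Fact (1 ≤ p)] (h1 : 1 < p) (h2 : p ≠ ∞) (h3 : p ≠ 2) (T : Lp ℝ p μ →L[ℝ] Lp ℝ p μ)
    (x : Lp ℝ p μ) :
    Mp p.toReal * ∫ ω, ‖x ω‖ ^ (p.toReal - 1) * ‖T x ω‖ ∂μ ≤ numRadius T * ‖x‖ ^ p.toReal := by
  have hpr := toReal_gt_one h1 h2
  have hr2 : p.toReal ≠ 2 := by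
    intro h; apply h3
    rw [← ENNReal.ofReal_toReal h2, h]; simp
  have hM := Mp_pos hpr hr2
  have hA : MeasurableSet {ω | 0 ≤ x ω * (T x) ω} :=
    measurableSet_le measurable_const ((Lp.stronglyMeasurable x).measurable.mul (Lp.stronglyMeasurable (T x)).measurable)
  have key := real_block h1 h2 h3 T (cut x hA) (cut x hA.compl) (cut_disj x hA)
  have hnorm : ‖cut x hA‖ ^ p.toReal + ‖cut x hA.compl‖ ^ p.toReal = ‖x‖ ^ p.toReal := by
    have := norm_add_disj h1 h2 (cut x hA) (cut x hA.compl) (by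
      have := cut_disj x hA 1 1
      simpa only [one_smul] using this)
    rw [cut_add_compl] at this
    exact this.symm
  rw [hnorm] at key
  refine le_trans ?_ key
  apply mul_le_mul_of_nonneg_left _ hM.le
  have hT1 := JP_add_right h1 h2 (cut x hA) (T (cut x hA)) (T (cut x hA.compl))
  have hT2 := JP_add_right h1 h2 (cut x hA.compl) (T (cut x hA)) (T (cut x hA.compl))
  rw [← map_add, cut_add_compl] at hT1 hT2
  have e1 : ∫ ω, ‖x ω‖ ^ (p.toReal - 1) * ‖T x ω‖ ∂μ =
      JP p.toReal μ (cut x hA : Ω → ℝ) (T x) - JP p.toReal μ (cut x hA.compl : Ω → ℝ) (T x) := by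
    have i1 := integrable_JP h1 h2 (cut x hA) (T x)
    have i2 := integrable_JP h1 h2 (cut x hA.compl) (T x)
    unfold JP
    rw [← integral_sub i1 i2]
    apply integral_congr_ae
    filter_upwards [cut_coe x hA, cut_coe x hA.compl] with ω e2 e3
    rw [e2, e3]
    simp only [RCLike.ofReal_real_eq_id, id, starRingEnd_apply, star_trivial, Real.norm_eq_abs]
    have hab := abs_jj (x := x ω) hpr
    by_cases h : ω ∈ {ω | 0 ≤ x ω * (T x) ω}
    · rw [Set.indicator_of_mem h, Set.indicator_of_notMem (by simpa using h)]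
      have h' : 0 ≤ x ω * (T x) ω := h
      have : |x ω| ^ (p.toReal - 1) * |T x ω| = |x ω| ^ (p.toReal - 2) * (x ω * T x ω) := by
        rw [← hab, ← abs_mul]
        unfold jj
        rw [abs_of_nonneg (by
          have : 0 ≤ |x ω| ^ (p.toReal - 2) := by positivity
          calc 0 ≤ |x ω| ^ (p.toReal - 2) * (x ω * T x ω) := mul_nonneg this h'
            _ = _ := by ring)]
        ring
      rw [this]; simp
    · rw [Set.indicator_of_notMem h, Set.indicator_of_mem (by simpa using h)]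
      have h' : x ω * (T x) ω < 0 := not_le.1 h
      have : |x ω| ^ (p.toReal - 1) * |T x ω| = -(|x ω| ^ (p.toReal - 2) * (x ω * T x ω)) := by
        rw [← hab, ← abs_mul]
        unfold jj
        rw [abs_of_nonpos (by
          have : 0 ≤ |x ω| ^ (p.toReal - 2) := by positivity
          calc |x ω| ^ (p.toReal - 2) * x ω * T x ω = |x ω| ^ (p.toReal - 2) * (x ω * T x ω) := by ring
            _ ≤ 0 := mul_nonpos_of_nonneg_of_nonpos this h'.le)]
        ring
      rw [this]; simp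
  rw [e1, hT1, hT2]
  have a1 := le_abs_self (JP p.toReal μ (cut x hA : Ω → ℝ) (T (cut x hA)))
  have a2 := le_abs_self (JP p.toReal μ (cut x hA : Ω → ℝ) (T (cut x hA.compl)))
  have a3 := neg_abs_le (JP p.toReal μ (cut x hA.compl : Ω → ℝ) (T (cut x hA)))
  have a4 := neg_abs_le (JP p.toReal μ (cut x hA.compl : Ω → ℝ) (T (cut x hA.compl)))
  linarith

end Pool.Agent.Work.MP_95d40a_an
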