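import Pool.Agent.Work.MP_95d40a_an.DimTwo

set_option autoImplicit false

open MeasureTheory Filter Topology
open scoped ENNReal RealInnerProductSpace ComplexConjugate

namespace Pool.Agent.Work.MP_95d40a_an

/-! ### complex two block inequality -/

lemma exists_align (a c : ℂ) : ∃ u : ℂ, ‖u‖ = 1 ∧ ∀ t : ℝ, 0 ≤ t → ‖a + (t : ℂ) * (u * c)‖ = ‖a‖ + t * ‖c‖ := by
  rcases eq_or_ne a 0 with rfl | ha
  · exact ⟨1, norm_one, fun t ht => by
      rw [zero_add, norm_zero, zero_add, norm_mul, norm_mul, norm_one, one_mul, Complex.norm_real, Real.norm_of_nonneg ht]⟩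
  rcases eq_or_ne c 0 with rfl | hc
  · exact ⟨1, norm_one, fun t ht => by simp⟩
  have ha0 : 0 < ‖a‖ := norm_pos_iff.2 ha
  have hc0 : 0 < ‖c‖ := norm_pos_iff.2 hc
  have ha' : ((‖a‖ : ℝ) : ℂ) ≠ 0 := by exact_mod_cast ha0.ne'
  have hc' : ((‖c‖ : ℝ) : ℂ) ≠ 0 := by exact_mod_cast hc0.ne'
  refine ⟨(a / ((‖a‖ : ℝ) : ℂ)) * (conj c / ((‖c‖ : ℝ) : ℂ)), ?_, ?_⟩
  · rw [norm_mul, norm_div, norm_div, Complex.norm_real, Complex.norm_real, RCLike.norm_conj, norm_norm, norm_norm,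
      div_self ha0.ne', div_self hc0.ne', one_mul]
  · intro t ht
    have e1 : (a / ((‖a‖ : ℝ) : ℂ)) * (conj c / ((‖c‖ : ℝ) : ℂ)) * c = (a / ((‖a‖ : ℝ) : ℂ)) * ((‖c‖ : ℝ) : ℂ) := by
      have : conj c * c = ((‖c‖ : ℝ) : ℂ) * ((‖c‖ : ℝ) : ℂ) := by
        rw [Complex.conj_mul']; ring
      field_simp
      rw [this]; ring
    rw [e1]
    have e2 : a + (t : ℂ) * ((a / ((‖a‖ : ℝ) : ℂ)) * ((‖c‖ : ℝ) : ℂ)) =
        a * (((1 + t * ‖c‖ / ‖a‖ : ℝ)) : ℂ) := by
      push_cast; field_simp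
    rw [e2, norm_mul, Complex.norm_real, Real.norm_of_nonneg (by positivity)]
    field_simp

/-- consequences of the two block inequality for complex scalars -/
lemma cblock {a b c d : ℂ} {α β v r : ℝ} (hr : 1 < r) (hα : 0 ≤ α) (hβ : 0 ≤ β) (hv : 0 ≤ v)
    (H : ∀ X Y : ℂ, ‖(((‖X‖ ^ (r - 2) : ℝ) : ℂ) * conj X) * (X * a + Y * c) +
      (((‖Y‖ ^ (r - 2) : ℝ) : ℂ) * conj Y) * (X * d + Y * b)‖ ≤ v * (‖X‖ ^ r * α + ‖Y‖ ^ r * β))
    {t : ℝ} (ht0 : 0 < t) (ht1 : t ≤ 1) :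
    t * ‖a + c‖ ≤ v * (α + 3 * t ^ (r - 1) * (α + β)) ∧
      t ^ (r - 1) * ‖a + d‖ ≤ v * (α + 3 * t * (α + β)) := by
  have hu : ∀ u : ℂ, ‖u‖ = 1 → ∀ s : ℝ, 0 < s →
      ‖a + (s : ℂ) * (conj u * c) + ((s ^ (r - 1) : ℝ) : ℂ) * (u * d) + ((s ^ r : ℝ) : ℂ) * b‖ ≤
        v * (α + s ^ r * β) := by
    intro u hu s hs
    have key := H u (s : ℂ)
    rw [hu, Complex.norm_real, Real.norm_of_nonneg hs.le, Real.one_rpow, Real.one_rpow, Complex.conj_ofReal, one_mul] at key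
    have e1 : conj u * u = 1 := by rw [Complex.conj_mul', hu]; norm_num
    have e2 : ((s ^ (r - 2) : ℝ) : ℂ) * (s : ℂ) = ((s ^ (r - 1) : ℝ) : ℂ) := by
      rw [← Complex.ofReal_mul, ← Real.rpow_add_one hs.ne']; congr 2; ring
    have e3 : ((s ^ (r - 1) : ℝ) : ℂ) * (s : ℂ) = ((s ^ r : ℝ) : ℂ) := by
      rw [← Complex.ofReal_mul, ← Real.rpow_add_one hs.ne']; congr 2; ring
    rw [Complex.ofReal_one, one_mul, e2] at key
    calc _ = ‖conj u * (u * a + (s : ℂ) * c) + ((s ^ (r - 1) : ℝ) : ℂ) * (u * d + (s : ℂ) * b)‖ := by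
          congr 1
          calc _ = (conj u * u) * a + (s : ℂ) * (conj u * c) + ((s ^ (r - 1) : ℝ) : ℂ) * (u * d) +
              (((s ^ (r - 1) : ℝ) : ℂ) * (s : ℂ)) * b := by rw [e1, e3]; ring
            _ = _ := by ring
      _ ≤ _ := key
  have hb : ‖b‖ ≤ v * β := by
    have key := H 0 1
    rw [norm_zero, norm_one, Real.one_rpow, Real.one_rpow, Real.zero_rpow (by linarith : r ≠ 0)] at key
    simpa using key
  have h1 : ∀ u : ℂ, ‖u‖ = 1 → ‖a + conj u * c + u * d + b‖ ≤ v * (α + β) := by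
    intro u hu1
    have := hu u hu1 1 one_pos
    simpa using this
  have q1 := h1 1 (by simp)
  have q2 := h1 (-1) (by simp)
  have q3 := h1 Complex.I (by simp)
  have q4 := h1 (-Complex.I) (by simp)
  have hc : ‖c‖ ≤ v * (α + β) := by
    have e : (4 : ℂ) * c = (a + conj 1 * c + 1 * d + b) - (a + conj (-1) * c + (-1) * d + b) +
        Complex.I * (a + conj Complex.I * c + Complex.I * d + b) -
        Complex.I * (a + conj (-Complex.I) * c + (-Complex.I) * d + b) := by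
      simp only [map_one, map_neg, Complex.conj_I]
      linear_combination (2 * c - 2 * d) * Complex.I_mul_I
    have e2 : ‖(4 : ℂ) * c‖ = 4 * ‖c‖ := by rw [norm_mul]; norm_num
    have e3 : ‖(4 : ℂ) * c‖ ≤ 4 * (v * (α + β)) := by
      rw [e]
      refine (norm_sub_le _ _).trans ?_
      refine (add_le_add (norm_add_le _ _) le_rfl).trans ?_
      refine (add_le_add (add_le_add (norm_sub_le _ _) le_rfl) le_rfl).trans ?_
      rw [norm_mul, norm_mul, Complex.norm_I]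
      linarith
    linarith
  have hd : ‖d‖ ≤ v * (α + β) := by
    have e : (4 : ℂ) * d = (a + conj 1 * c + 1 * d + b) - (a + conj (-1) * c + (-1) * d + b) -
        Complex.I * (a + conj Complex.I * c + Complex.I * d + b) +
        Complex.I * (a + conj (-Complex.I) * c + (-Complex.I) * d + b) := by
      simp only [map_one, map_neg, Complex.conj_I]
      linear_combination (2 * d - 2 * c) * Complex.I_mul_I
    have e2 : ‖(4 : ℂ) * d‖ = 4 * ‖d‖ := by rw [norm_mul]; norm_num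
    have e3 : ‖(4 : ℂ) * d‖ ≤ 4 * (v * (α + β)) := by
      rw [e]
      refine (norm_add_le _ _).trans ?_
      refine (add_le_add (norm_sub_le _ _) le_rfl).trans ?_
      refine (add_le_add (add_le_add (norm_sub_le _ _) le_rfl) le_rfl).trans ?_
      rw [norm_mul, norm_mul, Complex.norm_I]
      linarith
    linarith
  have htr0 : 0 < t ^ (r - 1) := by positivity
  have htr : t ^ (r - 1) ≤ 1 := Real.rpow_le_one ht0.le ht1 (by linarith)
  have htre : t ^ r = t ^ (r - 1) * t := by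
    rw [← Real.rpow_add_one ht0.ne']; congr 1; ring
  have hW : 0 ≤ v * (α + β) := by positivity
  have hvβ : v * β ≤ v * (α + β) := by gcongr; linarith
  constructor
  · obtain ⟨w, hw1, hw⟩ := exists_align a c
    have k1 := hu (conj w) (by rw [RCLike.norm_conj]; exact hw1) t ht0
    rw [Complex.conj_conj] at k1
    have k2 : ‖a‖ + t * ‖c‖ ≤ v * (α + t ^ r * β) + t ^ (r - 1) * ‖d‖ + t ^ r * ‖b‖ := by
      rw [← hw t ht0.le]
      have e : a + (t : ℂ) * (w * c) = (a + (t : ℂ) * (w * c) + ((t ^ (r - 1) : ℝ) : ℂ) * (conj w * d) +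
          ((t ^ r : ℝ) : ℂ) * b) - ((t ^ (r - 1) : ℝ) : ℂ) * (conj w * d) - ((t ^ r : ℝ) : ℂ) * b := by ring
      rw [e]
      refine (norm_sub_le _ _).trans (add_le_add ((norm_sub_le _ _).trans (add_le_add k1 ?_)) ?_)
      · rw [norm_mul, norm_mul, RCLike.norm_conj, hw1, one_mul, Complex.norm_real, Real.norm_of_nonneg htr0.le]
      · rw [norm_mul, Complex.norm_real, Real.norm_of_nonneg (by positivity)]
    have k3 : t * ‖a + c‖ ≤ ‖a‖ + t * ‖c‖ := by
      calc t * ‖a + c‖ ≤ t * (‖a‖ + ‖c‖) := by gcongr; exact norm_add_le _ _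
        _ = t * ‖a‖ + t * ‖c‖ := by ring
        _ ≤ 1 * ‖a‖ + t * ‖c‖ := by gcongr
        _ = _ := by ring
    have k4 : t ^ r * (v * β) ≤ t ^ (r - 1) * (v * (α + β)) := by
      rw [htre]
      calc t ^ (r - 1) * t * (v * β) ≤ t ^ (r - 1) * 1 * (v * (α + β)) := by gcongr
        _ = _ := by ring
    have k5 : t ^ r * ‖b‖ ≤ t ^ (r - 1) * (v * (α + β)) := by
      calc t ^ r * ‖b‖ ≤ t ^ r * (v * β) := by gcongr
        _ ≤ _ := k4
    have k6 : t ^ (r - 1) * ‖d‖ ≤ t ^ (r - 1) * (v * (α + β)) := by gcongr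
    calc t * ‖a + c‖ ≤ _ := k3.trans k2
      _ = v * α + t ^ r * (v * β) + t ^ (r - 1) * ‖d‖ + t ^ r * ‖b‖ := by ring
      _ ≤ v * α + t ^ (r - 1) * (v * (α + β)) + t ^ (r - 1) * (v * (α + β)) + t ^ (r - 1) * (v * (α + β)) := by
        linarith
      _ = _ := by ring
  · obtain ⟨w, hw1, hw⟩ := exists_align a d
    have k1 := hu w hw1 t ht0
    have k2 : ‖a‖ + t ^ (r - 1) * ‖d‖ ≤ v * (α + t ^ r * β) + t * ‖c‖ + t ^ r * ‖b‖ := by
      rw [← hw _ htr0.le]
      have e : a + ((t ^ (r - 1) : ℝ) : ℂ) * (w * d) = (a + (t : ℂ) * (conj w * c) + ((t ^ (r - 1) : ℝ) : ℂ) * (w * d) +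
          ((t ^ r : ℝ) : ℂ) * b) - (t : ℂ) * (conj w * c) - ((t ^ r : ℝ) : ℂ) * b := by ring
      rw [e]
      refine (norm_sub_le _ _).trans (add_le_add ((norm_sub_le _ _).trans (add_le_add k1 ?_)) ?_)
      · rw [norm_mul, norm_mul, RCLike.norm_conj, hw1, one_mul, Complex.norm_real, Real.norm_of_nonneg ht0.le]
      · rw [norm_mul, Complex.norm_real, Real.norm_of_nonneg (by positivity)]
    have k3 : t ^ (r - 1) * ‖a + d‖ ≤ ‖a‖ + t ^ (r - 1) * ‖d‖ := by
      calc t ^ (r - 1) * ‖a + d‖ ≤ t ^ (r - 1) * (‖a‖ + ‖d‖) := by gcongr; exact norm_add_le _ _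
        _ = t ^ (r - 1) * ‖a‖ + t ^ (r - 1) * ‖d‖ := by ring
        _ ≤ 1 * ‖a‖ + t ^ (r - 1) * ‖d‖ := by gcongr
        _ = _ := by ring
    have k4 : t ^ r * (v * β) ≤ t * (v * (α + β)) := by
      rw [htre]
      calc t ^ (r - 1) * t * (v * β) ≤ 1 * t * (v * (α + β)) := by gcongr
        _ = _ := by ring
    have k5 : t ^ r * ‖b‖ ≤ t * (v * (α + β)) := by
      calc t ^ r * ‖b‖ ≤ t ^ r * (v * β) := by gcongr
        _ ≤ _ := k4
    have k6 : t * ‖c‖ ≤ t * (v * (α + β)) := by gcongr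
    calc t ^ (r - 1) * ‖a + d‖ ≤ _ := k3.trans k2
      _ = v * α + t ^ r * (v * β) + t * ‖c‖ + t ^ r * ‖b‖ := by ring
      _ ≤ v * α + t * (v * (α + β)) + t * (v * (α + β)) + t * (v * (α + β)) := by
        linarith
      _ = _ := by ring

/-! ### sectors -/

/-- index of the sector -/
noncomputable def sec (K : ℕ) (z : ℂ) : ℕ := ⌊(K : ℝ) * (z.arg + Real.pi) / (2 * Real.pi)⌋₊

/-- direction of the sector -/
noncomputable def dir (K k : ℕ) : ℂ := Complex.exp (((-Real.pi + 2 * Real.pi * k / K : ℝ) : ℂ) * Complex.I)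

lemma norm_dir (K k : ℕ) : ‖dir K k‖ = 1 := Complex.norm_exp_ofReal_mul_I _

lemma sec_le (K : ℕ) (z : ℂ) : sec K z ≤ K := by
  unfold sec
  apply Nat.floor_le_of_le
  have hpi := Real.pi_pos
  rw [div_le_iff₀ (by positivity)]
  have := (Complex.arg_mem_Ioc z).2
  have hK : (0 : ℝ) ≤ K := Nat.cast_nonneg K
  nlinarith

lemma measurable_sec (K : ℕ) : Measurable (sec K) := by
  unfold sec
  apply Nat.measurable_floor.comp
  exact ((Complex.measurable_arg.add_const _).const_mul _).div_const _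

lemma sec_re {K : ℕ} (hK : 2 ≤ K) (z : ℂ) :
    Real.cos (2 * Real.pi / K) * ‖z‖ ≤ (conj (dir K (sec K z)) * z).re := by
  have hpi := Real.pi_pos
  have hK0 : (0 : ℝ) < K := by
    have : 0 < K := by omega
    exact_mod_cast this
  have hK2 : (2 : ℝ) ≤ K := by exact_mod_cast hK
  obtain ⟨θ, hθ⟩ : ∃ θ : ℝ, θ = -Real.pi + 2 * Real.pi * (sec K z) / K := ⟨_, rfl⟩
  have hx0 : 0 ≤ (K : ℝ) * (z.arg + Real.pi) / (2 * Real.pi) := by
    have := (Complex.arg_mem_Ioc z).1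
    have : 0 ≤ z.arg + Real.pi := by linarith
    positivity
  have h1 : (sec K z : ℝ) ≤ (K : ℝ) * (z.arg + Real.pi) / (2 * Real.pi) := Nat.floor_le hx0
  have h2 : (K : ℝ) * (z.arg + Real.pi) / (2 * Real.pi) < sec K z + 1 := Nat.lt_floor_add_one _
  rw [le_div_iff₀ (by positivity)] at h1
  rw [div_lt_iff₀ (by positivity)] at h2
  have d1 : 0 ≤ z.arg - θ := by
    have : 2 * Real.pi * (sec K z) / K ≤ z.arg + Real.pi := by
      rw [div_le_iff₀ hK0]; linarith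
    rw [hθ]; linarith
  have d2 : z.arg - θ ≤ 2 * Real.pi / K := by
    have : z.arg + Real.pi ≤ 2 * Real.pi * (sec K z) / K + 2 * Real.pi / K := by
      rw [← add_div, le_div_iff₀ hK0]; linarith
    rw [hθ]; linarith
  have d3 : 2 * Real.pi / K ≤ Real.pi := by
    rw [div_le_iff₀ hK0]; nlinarith
  have hcos := Real.cos_le_cos_of_nonneg_of_le_pi d1 d3 d2
  have e1 : conj (dir K (sec K z)) * z = ((‖z‖ : ℝ) : ℂ) * Complex.exp (((z.arg - θ : ℝ) : ℂ) * Complex.I) := by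
    have e2 : dir K (sec K z) = Complex.exp ((θ : ℂ) * Complex.I) := by
      unfold dir; rw [hθ]
    have hz := Complex.norm_mul_exp_arg_mul_I z
    rw [e2, ← Complex.exp_conj, map_mul, Complex.conj_ofReal, Complex.conj_I]
    calc Complex.exp ((θ : ℂ) * -Complex.I) * z =
        Complex.exp ((θ : ℂ) * -Complex.I) * (((‖z‖ : ℝ) : ℂ) * Complex.exp ((z.arg : ℂ) * Complex.I)) := by rw [hz]
      _ = ((‖z‖ : ℝ) : ℂ) * (Complex.exp ((θ : ℂ) * -Complex.I) * Complex.exp ((z.arg : ℂ) * Complex.I)) := by ring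
      _ = _ := by
        rw [← Complex.exp_add]
        congr 2
        push_cast; ring
  rw [e1, Complex.re_ofReal_mul, Complex.exp_ofReal_mul_I_re, mul_comm]
  gcongr

end Pool.Agent.Work.MP_95d40a_an
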