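import Pool.Agent.Work.MP_95d40a_an.CBlock

set_option autoImplicit false

open MeasureTheory Filter Topology
open scoped ENNReal RealInnerProductSpace ComplexConjugate

namespace Pool.Agent.Work.MP_95d40a_an

variable {Ω : Type*} [MeasurableSpace Ω] {μ : Measure Ω} {p : ℝ≥0∞}

lemma Lp_sum_coe {ι : Type*} (s : Finset ι) (f : ι → Lp ℂ p μ) :
    ((∑ i ∈ s, f i : Lp ℂ p μ) : Ω → ℂ) =ᵐ[μ] fun ω => ∑ i ∈ s, f i ω := by
  classical
  induction s using Finset.induction_on with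
  | empty =>
    simp only [Finset.sum_empty]
    exact Lp.coeFn_zero ℂ p μ
  | insert i s hi ih =>
    rw [Finset.sum_insert hi]
    filter_upwards [Lp.coeFn_add (f i) (∑ j ∈ s, f j), ih] with ω e1 e2
    rw [e1, Pi.add_apply, e2, Finset.sum_insert hi]

lemma JP_sum_right [Fact (1 ≤ p)] (h1 : 1 < p) (h2 : p ≠ ∞) {ι : Type*} (s : Finset ι) (x : Lp ℂ p μ)
    (f : ι → Lp ℂ p μ) :
    JP p.toReal μ (x : Ω → ℂ) (∑ i ∈ s, f i : Lp ℂ p μ) = ∑ i ∈ s, JP p.toReal μ (x : Ω → ℂ) (f i) := by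
  classical
  induction s using Finset.induction_on with
  | empty =>
    rw [Finset.sum_empty, Finset.sum_empty]
    have := JP_smul_right (μ := μ) (p := p) p.toReal (0 : ℂ) (x : Ω → ℂ) (0 : Lp ℂ p μ)
    simpa using this
  | insert i s hi ih => rw [Finset.sum_insert hi, JP_add_right h1 h2, ih, Finset.sum_insert hi]

/-- the integrand of `JP` -/
noncomputable def gi (r : ℝ) (x y : Ω → ℂ) (ω : Ω) : ℂ := ((‖x ω‖ ^ (r - 2) : ℝ) : ℂ) * (conj (x ω) * y ω)

lemma JP_eq_gi {r : ℝ} (x y : Ω → ℂ) : JP r μ x y = ∫ ω, gi r x y ω ∂μ := rfl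

lemma norm_gi {r : ℝ} (hr : 1 < r) (x y : Ω → ℂ) (ω : Ω) : ‖gi r x y ω‖ = ‖x ω‖ ^ (r - 1) * ‖y ω‖ :=
  norm_JP_integrand hr _ _

lemma integrable_gi [Fact (1 ≤ p)] (h1 : 1 < p) (h2 : p ≠ ∞) (x y : Lp ℂ p μ) :
    Integrable (gi p.toReal (x : Ω → ℂ) y) μ := integrable_JP h1 h2 x y

lemma gi_cut {r : ℝ} (hr : 1 < r) (x : Lp ℂ p μ) (y : Ω → ℂ) {A : Set Ω} (hA : MeasurableSet A) :
    gi r (cut x hA : Ω → ℂ) y =ᵐ[μ] A.indicator (gi r (x : Ω → ℂ) y) := by
  filter_upwards [cut_coe x hA] with ω e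
  unfold gi
  rw [e]
  by_cases h : ω ∈ A
  · rw [Set.indicator_of_mem h, Set.indicator_of_mem h]
  · rw [Set.indicator_of_notMem h, Set.indicator_of_notMem h]; simp

lemma sum_cut_norm [Fact (1 ≤ p)] (h1 : 1 < p) (h2 : p ≠ ∞) (K : ℕ) (kf : Ω → ℕ) (hkf : ∀ k, MeasurableSet {ω | kf ω = k})
    (hK : ∀ ω, kf ω ≤ K) (x : Lp ℂ p μ) :
    ∑ k ∈ Finset.range (K + 1), ‖cut x (hkf k)‖ ^ p.toReal = ‖x‖ ^ p.toReal := by
  have hpr := toReal_gt_one h1 h2
  have e : ∀ k, ‖cut x (hkf k)‖ ^ p.toReal = ∫ ω, ‖cut x (hkf k) ω‖ ^ p.toReal ∂μ := fun k => norm_rpow_eq h1 h2 _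
  simp_rw [e]
  rw [norm_rpow_eq h1 h2, ← integral_finsetSum _ (fun k _ => integrable_rpow h1 h2 _)]
  apply integral_congr_ae
  have hall : ∀ᵐ ω ∂μ, ∀ k : ℕ, cut x (hkf k) ω = ({ω | kf ω = k} : Set Ω).indicator x ω := by
    rw [ae_all_iff]
    exact fun k => cut_coe x (hkf k)
  filter_upwards [hall] with ω h
  simp_rw [h]
  rw [Finset.sum_eq_single (kf ω)]
  · rw [Set.indicator_of_mem (by simp)]
  · intro k _ hk
    rw [Set.indicator_of_notMem (by simpa using hk.symm), norm_zero, Real.zero_rpow (by linarith)]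
  · intro h5
    exact absurd (Finset.mem_range.2 (Nat.lt_succ_of_le (hK ω))) h5

lemma re_integral {f : Ω → ℂ} (hf : Integrable f μ) : (∫ ω, f ω ∂μ).re = ∫ ω, (f ω).re ∂μ := by
  have := Complex.reCLM.integral_comp_comm hf
  simpa using this.symm

section main

variable [Fact (1 ≤ p)]

/-- both block inequalities for a set `A` -/
lemma cut_block (h1 : 1 < p) (h2 : p ≠ ∞) (T : Lp ℂ p μ →L[ℂ] Lp ℂ p μ) (x : Lp ℂ p μ) {A : Set Ω}
    (hA : MeasurableSet A) {t : ℝ} (ht0 : 0 < t) (ht1 : t ≤ 1) :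
    t * ‖JP p.toReal μ (cut x hA : Ω → ℂ) (T x)‖ ≤
      numRadius T * (‖cut x hA‖ ^ p.toReal + 3 * t ^ (p.toReal - 1) * ‖x‖ ^ p.toReal) ∧
    t ^ (p.toReal - 1) * ‖JP p.toReal μ (x : Ω → ℂ) (T (cut x hA))‖ ≤
      numRadius T * (‖cut x hA‖ ^ p.toReal + 3 * t * ‖x‖ ^ p.toReal) := by
  have hpr := toReal_gt_one h1 h2
  have key := cblock (a := JP p.toReal μ (cut x hA : Ω → ℂ) (T (cut x hA)))
    (c := JP p.toReal μ (cut x hA : Ω → ℂ) (T (cut x hA.compl)))
    (d := JP p.toReal μ (cut x hA.compl : Ω → ℂ) (T (cut x hA)))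
    (b := JP p.toReal μ (cut x hA.compl : Ω → ℂ) (T (cut x hA.compl)))
    (α := ‖cut x hA‖ ^ p.toReal) (β := ‖cut x hA.compl‖ ^ p.toReal) (v := numRadius T) hpr (by positivity)
    (by positivity) (numRadius_nonneg T) (fun X Y => block_bound h1 h2 T (cut x hA) (cut x hA.compl) (cut_disj x hA) X Y)
    ht0 ht1
  have hnorm : ‖cut x hA‖ ^ p.toReal + ‖cut x hA.compl‖ ^ p.toReal = ‖x‖ ^ p.toReal := by
    have := norm_add_disj h1 h2 (cut x hA) (cut x hA.compl) (by
      have := cut_disj x hA 1 1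
      simpa only [one_smul] using this)
    rw [cut_add_compl] at this
    exact this.symm
  have e1 : JP p.toReal μ (cut x hA : Ω → ℂ) (T x) = JP p.toReal μ (cut x hA : Ω → ℂ) (T (cut x hA)) +
      JP p.toReal μ (cut x hA : Ω → ℂ) (T (cut x hA.compl)) := by
    rw [← JP_add_right h1 h2, ← map_add, cut_add_compl]
  have e2 : JP p.toReal μ (x : Ω → ℂ) (T (cut x hA)) = JP p.toReal μ (cut x hA : Ω → ℂ) (T (cut x hA)) +
      JP p.toReal μ (cut x hA.compl : Ω → ℂ) (T (cut x hA)) := by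
    rw [← JP_add_left h1 h2 _ _ _ (by
      have := cut_disj x hA 1 1
      simpa only [one_smul] using this), cut_add_compl]
  rw [hnorm] at key
  rw [e1, e2]
  exact key

/-- row version -/
lemma crow (h1 : 1 < p) (h2 : p ≠ ∞) (T : Lp ℂ p μ →L[ℂ] Lp ℂ p μ) (x : Lp ℂ p μ) {K : ℕ} (hK : 2 ≤ K)
    {t : ℝ} (ht0 : 0 < t) (ht1 : t ≤ 1) :
    t * Real.cos (2 * Real.pi / K) * ∫ ω, ‖x ω‖ ^ (p.toReal - 1) * ‖T x ω‖ ∂μ ≤
      numRadius T * (1 + 3 * (K + 1) * t ^ (p.toReal - 1)) * ‖x‖ ^ p.toReal := by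
  have hpr := toReal_gt_one h1 h2
  set r := p.toReal with hr
  set g : Ω → ℂ := gi r (x : Ω → ℂ) (T x) with hg
  have hxm : Measurable (x : Ω → ℂ) := (Lp.stronglyMeasurable x).measurable
  have hTm : Measurable (T x : Ω → ℂ) := (Lp.stronglyMeasurable (T x)).measurable
  have hgm : Measurable g := by
    have c1 : Measurable fun ω => ((‖x ω‖ ^ (r - 2) : ℝ) : ℂ) := Complex.measurable_ofReal.comp (hxm.norm.pow_const _)
    have c2 : Measurable fun ω => conj (x ω) := Complex.continuous_conj.measurable.comp hxm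
    exact c1.mul (c2.mul hTm)
  set kf : Ω → ℕ := fun ω => sec K (g ω) with hkf
  have hkfm : Measurable kf := (measurable_sec K).comp hgm
  have hA : ∀ k, MeasurableSet {ω | kf ω = k} := fun k => hkfm (measurableSet_singleton k)
  have hkK : ∀ ω, kf ω ≤ K := fun ω => sec_le K _
  have hint : Integrable g μ := integrable_gi h1 h2 x (T x)
  have s1 : Real.cos (2 * Real.pi / K) * ∫ ω, ‖x ω‖ ^ (r - 1) * ‖T x ω‖ ∂μ ≤
      ∑ k ∈ Finset.range (K + 1), ‖JP r μ (cut x (hA k) : Ω → ℂ) (T x)‖ := by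
    have hind : ∀ k, Integrable (fun ω => conj (dir K k) * ({ω | kf ω = k} : Set Ω).indicator g ω) μ := fun k =>
      (hint.indicator (hA k)).const_mul _
    calc Real.cos (2 * Real.pi / K) * ∫ ω, ‖x ω‖ ^ (r - 1) * ‖T x ω‖ ∂μ
        = ∫ ω, Real.cos (2 * Real.pi / K) * ‖g ω‖ ∂μ := by
          rw [← integral_const_mul]
          apply integral_congr_ae
          refine Eventually.of_forall fun ω => ?_
          simp only
          rw [hg, norm_gi hpr]
      _ ≤ ∫ ω, ∑ k ∈ Finset.range (K + 1), (conj (dir K k) * ({ω | kf ω = k} : Set Ω).indicator g ω).re ∂μ := by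
          apply integral_mono (hint.norm.const_mul _) (integrable_finsetSum _ fun k _ => (hind k).re)
          intro ω
          simp only
          rw [Finset.sum_eq_single (kf ω)]
          · rw [Set.indicator_of_mem (by simp)]
            exact sec_re hK (g ω)
          · intro k _ hk
            rw [Set.indicator_of_notMem (by simpa using hk.symm)]; simp
          · intro h5
            exact absurd (Finset.mem_range.2 (Nat.lt_succ_of_le (hkK ω))) h5
      _ = ∑ k ∈ Finset.range (K + 1), ∫ ω, (conj (dir K k) * ({ω | kf ω = k} : Set Ω).indicator g ω).re ∂μ :=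
          integral_finsetSum _ fun k _ => (hind k).re
      _ ≤ _ := by
          apply Finset.sum_le_sum
          intro k _
          rw [← re_integral (hind k), integral_const_mul]
          have e : ∫ ω, ({ω | kf ω = k} : Set Ω).indicator g ω ∂μ = JP r μ (cut x (hA k) : Ω → ℂ) (T x) := by
            rw [JP_eq_gi]
            exact (integral_congr_ae (gi_cut hpr x _ (hA k))).symm
          rw [e]
          refine (Complex.re_le_norm _).trans ?_
          rw [norm_mul, RCLike.norm_conj, norm_dir, one_mul]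
  have s2 := sum_cut_norm h1 h2 K kf hA hkK x
  rw [← hr] at s2
  calc t * Real.cos (2 * Real.pi / K) * ∫ ω, ‖x ω‖ ^ (r - 1) * ‖T x ω‖ ∂μ
      = t * (Real.cos (2 * Real.pi / K) * ∫ ω, ‖x ω‖ ^ (r - 1) * ‖T x ω‖ ∂μ) := by ring
    _ ≤ t * ∑ k ∈ Finset.range (K + 1), ‖JP r μ (cut x (hA k) : Ω → ℂ) (T x)‖ := by gcongr
    _ = ∑ k ∈ Finset.range (K + 1), t * ‖JP r μ (cut x (hA k) : Ω → ℂ) (T x)‖ := Finset.mul_sum _ _ _
    _ ≤ ∑ k ∈ Finset.range (K + 1), numRadius T * (‖cut x (hA k)‖ ^ r + 3 * t ^ (r - 1) * ‖x‖ ^ r) :=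
        Finset.sum_le_sum fun k _ => (cut_block h1 h2 T x (hA k) ht0 ht1).1
    _ = numRadius T * ((∑ k ∈ Finset.range (K + 1), ‖cut x (hA k)‖ ^ r) + (K + 1) * (3 * t ^ (r - 1) * ‖x‖ ^ r)) := by
        rw [← Finset.mul_sum, Finset.sum_add_distrib]
        simp
    _ = _ := by rw [s2]; ring

/-- column version -/
lemma ccol (h1 : 1 < p) (h2 : p ≠ ∞) (T : Lp ℂ p μ →L[ℂ] Lp ℂ p μ) (x : Lp ℂ p μ) {K : ℕ} (hK : 2 ≤ K)
    {t : ℝ} (ht0 : 0 < t) (ht1 : t ≤ 1) :
    t ^ (p.toReal - 1) * Real.cos (2 * Real.pi / K) * ∫ ω, ‖x ω‖ ^ (p.toReal - 1) * ‖T x ω‖ ∂μ ≤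
      numRadius T * (1 + 3 * (K + 1) * t) * ‖x‖ ^ p.toReal := by
  have hpr := toReal_gt_one h1 h2
  set r := p.toReal with hr
  set g : Ω → ℂ := gi r (x : Ω → ℂ) (T x) with hg
  have hxm : Measurable (x : Ω → ℂ) := (Lp.stronglyMeasurable x).measurable
  have hTm : Measurable (T x : Ω → ℂ) := (Lp.stronglyMeasurable (T x)).measurable
  have hgm : Measurable g := by
    have c1 : Measurable fun ω => ((‖x ω‖ ^ (r - 2) : ℝ) : ℂ) := Complex.measurable_ofReal.comp (hxm.norm.pow_const _)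
    have c2 : Measurable fun ω => conj (x ω) := Complex.continuous_conj.measurable.comp hxm
    exact c1.mul (c2.mul hTm)
  set kf : Ω → ℕ := fun ω => sec K (g ω) with hkf
  have hkfm : Measurable kf := (measurable_sec K).comp hgm
  have hA : ∀ k, MeasurableSet {ω | kf ω = k} := fun k => hkfm (measurableSet_singleton k)
  have hkK : ∀ ω, kf ω ≤ K := fun ω => sec_le K _
  have hint : Integrable g μ := integrable_gi h1 h2 x (T x)
  -- the twisted function
  have hdm : Measurable fun ω => dir K (kf ω) := (measurable_from_nat (f := dir K)).comp hkfm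
  have hmem : MemLp (fun ω => dir K (kf ω) * x ω) p μ := by
    refine MemLp.of_le_mul (c := 1) (Lp.memLp x) (hdm.mul hxm).aestronglyMeasurable (Eventually.of_forall fun ω => ?_)
    rw [norm_mul, norm_dir]
  obtain ⟨x', hx'⟩ : ∃ x' : Lp ℂ p μ, (x' : Ω → ℂ) =ᵐ[μ] fun ω => dir K (kf ω) * x ω := ⟨hmem.toLp _, MemLp.coeFn_toLp _⟩
  have hnx : ‖x'‖ ^ r = ‖x‖ ^ r := by
    rw [hr, norm_rpow_eq h1 h2, norm_rpow_eq h1 h2]
    apply integral_congr_ae
    filter_upwards [hx'] with ω e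
    rw [e, norm_mul, norm_dir, one_mul]
  have hxsum : x = ∑ k ∈ Finset.range (K + 1), conj (dir K k) • cut x' (hA k) := by
    apply Lp.ext
    have hall : ∀ᵐ ω ∂μ, ∀ k : ℕ, (conj (dir K k) • cut x' (hA k) : Lp ℂ p μ) ω =
        conj (dir K k) * ({ω | kf ω = k} : Set Ω).indicator x' ω := by
      rw [ae_all_iff]
      intro k
      filter_upwards [Lp.coeFn_smul (conj (dir K k)) (cut x' (hA k)), cut_coe x' (hA k)] with ω e1 e2
      rw [e1, Pi.smul_apply, e2, smul_eq_mul]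
    filter_upwards [Lp_sum_coe (Finset.range (K + 1)) fun k => conj (dir K k) • cut x' (hA k), hall, hx'] with ω e1 e2 e3
    rw [e1, Finset.sum_congr rfl fun k _ => e2 k, Finset.sum_eq_single (kf ω)]
    · rw [Set.indicator_of_mem (by simp), e3, ← mul_assoc, Complex.conj_mul', norm_dir]; simp
    · intro k _ hk
      rw [Set.indicator_of_notMem (by simpa using hk.symm), mul_zero]
    · intro h5
      exact absurd (Finset.mem_range.2 (Nat.lt_succ_of_le (hkK ω))) h5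
  have hJ : JP r μ (x' : Ω → ℂ) (T x) = ∑ k ∈ Finset.range (K + 1), conj (dir K k) * JP r μ (x' : Ω → ℂ) (T (cut x' (hA k))) := by
    have e : T x = ∑ k ∈ Finset.range (K + 1), conj (dir K k) • T (cut x' (hA k)) := by
      nth_rewrite 1 [hxsum]
      rw [map_sum]
      exact Finset.sum_congr rfl fun k _ => map_smul _ _ _
    nth_rewrite 1 [e]
    rw [JP_sum_right h1 h2]
    exact Finset.sum_congr rfl fun k _ => JP_smul_right _ _ _ _
  have s1 : Real.cos (2 * Real.pi / K) * ∫ ω, ‖x ω‖ ^ (r - 1) * ‖T x ω‖ ∂μ ≤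
      ∑ k ∈ Finset.range (K + 1), ‖JP r μ (x' : Ω → ℂ) (T (cut x' (hA k)))‖ := by
    have hgi : gi r (x' : Ω → ℂ) (T x) =ᵐ[μ] fun ω => conj (dir K (kf ω)) * g ω := by
      filter_upwards [hx'] with ω e
      rw [hg]
      unfold gi
      rw [e, norm_mul, norm_dir, one_mul, map_mul]; ring
    have hint' := integrable_gi h1 h2 x' (T x)
    calc Real.cos (2 * Real.pi / K) * ∫ ω, ‖x ω‖ ^ (r - 1) * ‖T x ω‖ ∂μ
        = ∫ ω, Real.cos (2 * Real.pi / K) * ‖g ω‖ ∂μ := by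
          rw [← integral_const_mul]
          apply integral_congr_ae
          refine Eventually.of_forall fun ω => ?_
          simp only
          rw [hg, norm_gi hpr]
      _ ≤ ∫ ω, (gi r (x' : Ω → ℂ) (T x) ω).re ∂μ := by
          apply integral_mono_ae (hint.norm.const_mul _) hint'.re
          filter_upwards [hgi] with ω e
          rw [e]
          exact sec_re hK (g ω)
      _ = (JP r μ (x' : Ω → ℂ) (T x)).re := (re_integral hint').symm
      _ ≤ ‖JP r μ (x' : Ω → ℂ) (T x)‖ := Complex.re_le_norm _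
      _ ≤ _ := by
          rw [hJ]
          refine (norm_sum_le _ _).trans (le_of_eq (Finset.sum_congr rfl fun k _ => ?_))
          rw [norm_mul, RCLike.norm_conj, norm_dir, one_mul]
  have s2 := sum_cut_norm h1 h2 K kf hA hkK x'
  rw [← hr, hnx] at s2
  have ht : 0 < t ^ (r - 1) := by positivity
  calc t ^ (r - 1) * Real.cos (2 * Real.pi / K) * ∫ ω, ‖x ω‖ ^ (r - 1) * ‖T x ω‖ ∂μ
      = t ^ (r - 1) * (Real.cos (2 * Real.pi / K) * ∫ ω, ‖x ω‖ ^ (r - 1) * ‖T x ω‖ ∂μ) := by ring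
    _ ≤ t ^ (r - 1) * ∑ k ∈ Finset.range (K + 1), ‖JP r μ (x' : Ω → ℂ) (T (cut x' (hA k)))‖ := by gcongr
    _ = ∑ k ∈ Finset.range (K + 1), t ^ (r - 1) * ‖JP r μ (x' : Ω → ℂ) (T (cut x' (hA k)))‖ := Finset.mul_sum _ _ _
    _ ≤ ∑ k ∈ Finset.range (K + 1), numRadius T * (‖cut x' (hA k)‖ ^ r + 3 * t * ‖x'‖ ^ r) :=
        Finset.sum_le_sum fun k _ => (cut_block h1 h2 T x' (hA k) ht0 ht1).2
    _ = numRadius T * ((∑ k ∈ Finset.range (K + 1), ‖cut x' (hA k)‖ ^ r) + (K + 1) * (3 * t * ‖x'‖ ^ r)) := by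
        rw [← Finset.mul_sum, Finset.sum_add_distrib]
        simp
    _ = _ := by rw [s2, hnx]; ring

/-- lower bounds for the numerical radius, complex scalars -/
theorem complex_lower_row (h1 : 1 < p) (h2 : p ≠ ∞) (T : Lp ℂ p μ →L[ℂ] Lp ℂ p μ) {K : ℕ} (hK : 4 ≤ K)
    {t : ℝ} (ht0 : 0 < t) (ht1 : t ≤ 1) :
    t * Real.cos (2 * Real.pi / K) * kappa p.toReal * ‖T‖ ≤ numRadius T * (1 + 3 * (K + 1) * t ^ (p.toReal - 1)) := by
  have hn := numRadius_nonneg T
  apply step_kappa h1 h2 T _ (by positivity) (fun f => crow h1 h2 T f (by omega) ht0 ht1)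
  apply mul_nonneg ht0.le
  apply Real.cos_nonneg_of_neg_pi_div_two_le_of_le
  · have := Real.pi_pos
    have : 0 ≤ 2 * Real.pi / K := by positivity
    linarith
  · have hK0 : (0 : ℝ) < K := by
      have : 0 < K := by omega
      exact_mod_cast this
    have hK4 : (4 : ℝ) ≤ K := by exact_mod_cast hK
    rw [div_le_iff₀ hK0]
    have := Real.pi_pos
    nlinarith

theorem complex_lower_col (h1 : 1 < p) (h2 : p ≠ ∞) (T : Lp ℂ p μ →L[ℂ] Lp ℂ p μ) {K : ℕ} (hK : 4 ≤ K)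
    {t : ℝ} (ht0 : 0 < t) (ht1 : t ≤ 1) :
    t ^ (p.toReal - 1) * Real.cos (2 * Real.pi / K) * kappa p.toReal * ‖T‖ ≤ numRadius T * (1 + 3 * (K + 1) * t) := by
  have hn := numRadius_nonneg T
  apply step_kappa h1 h2 T _ (by positivity) (fun f => ccol h1 h2 T f (by omega) ht0 ht1)
  apply mul_nonneg (by positivity)
  apply Real.cos_nonneg_of_neg_pi_div_two_le_of_le
  · have := Real.pi_pos
    have : 0 ≤ 2 * Real.pi / K := by positivity
    linarith
  · have hK0 : (0 : ℝ) < K := by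
      have : 0 < K := by omega
      exact_mod_cast this
    have hK4 : (4 : ℝ) ≤ K := by exact_mod_cast hK
    rw [div_le_iff₀ hK0]
    have := Real.pi_pos
    nlinarith

end main

end Pool.Agent.Work.MP_95d40a_an
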