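import Pool.Agent.Work.MP_95d40a_an.Oper

set_option autoImplicit false

open MeasureTheory Filter Topology
open scoped ENNReal RealInnerProductSpace ComplexConjugate

namespace Pool.Agent.Work.MP_95d40a_an

/-! ### the two asymptotic contradictions -/

lemma tendsto_small {s L : ℝ} (hs : 0 < s) : Tendsto (fun δ : ℝ => L * δ ^ s) (𝓝[>] 0) (𝓝 0) := by
  have h1 : Tendsto (fun δ : ℝ => δ ^ s) (𝓝 0) (𝓝 (0 ^ s)) :=
    (Real.continuousAt_rpow_const 0 s (Or.inr hs.le)).tendsto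
  rw [Real.zero_rpow hs.ne'] at h1
  have h2 := (h1.mono_left nhdsWithin_le_nhds : Tendsto (fun δ : ℝ => δ ^ s) (𝓝[>] 0) (𝓝 0)).const_mul L
  simpa using h2

lemma no_small_gt {r c C K δ0 : ℝ} (hr : 2 < r) (hc : 0 < c) (hC : 0 ≤ C) (hK : 0 ≤ K) (hδ0 : 0 < δ0)
    (h : ∀ δ, 0 < δ → δ ≤ δ0 → 1 + c * δ ^ (r / 2) * δ ≤ (1 + C * (δ ^ (r / 2)) ^ 2) * (1 + K * δ ^ r)) :
    False := by
  have h1 : ∀ᶠ δ : ℝ in 𝓝[>] 0, c ≤ (C + K + C * K) * δ ^ (r / 2 - 1) := by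
    have h2 : ∀ᶠ δ : ℝ in 𝓝[>] 0, δ ∈ Set.Ioo 0 (min δ0 1) := Ioo_mem_nhdsGT (lt_min hδ0 one_pos)
    filter_upwards [h2] with δ hδ
    have hδ1 : 0 < δ := hδ.1
    have hδ2 : δ ≤ δ0 := hδ.2.le.trans (min_le_left _ _)
    have hδ3 : δ ≤ 1 := hδ.2.le.trans (min_le_right _ _)
    have h3 := h δ hδ1 hδ2
    have e1 : (δ ^ (r / 2)) ^ 2 = δ ^ r := by
      rw [← Real.rpow_natCast, ← Real.rpow_mul hδ1.le]; congr 1; push_cast; ring
    rw [e1] at h3
    have h4 : 0 < δ ^ r := by positivity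
    have h5 : δ ^ r ≤ 1 := Real.rpow_le_one hδ1.le hδ3 (by linarith)
    have e2 : δ ^ r = δ ^ (r / 2 - 1) * (δ ^ (r / 2) * δ) := by
      rw [← Real.rpow_add_one hδ1.ne', ← Real.rpow_add hδ1]; congr 1; ring
    have h6 : c * (δ ^ (r / 2) * δ) ≤ (C + K + C * K) * δ ^ r := by
      nlinarith [mul_nonneg hC hK, mul_nonneg (mul_nonneg hC hK) (mul_nonneg h4.le (sub_nonneg.2 h5))]
    rw [e2] at h6
    have h7 : 0 < δ ^ (r / 2) * δ := by positivity
    have h8 : c * (δ ^ (r / 2) * δ) ≤ ((C + K + C * K) * δ ^ (r / 2 - 1)) * (δ ^ (r / 2) * δ) := by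
      linarith
    exact le_of_mul_le_mul_right h8 h7
  have h9 := ge_of_tendsto (tendsto_small (by linarith : 0 < r / 2 - 1)) h1
  linarith

lemma no_small_lt {r c C ε0 : ℝ} (hr1 : 1 < r) (hr : r < 2) (hc : 0 < c) (hC : 0 ≤ C) (hε0 : 0 < ε0)
    (h : ∀ ε, 0 < ε → ε ≤ ε0 → 1 + c * ε ^ r ≤ (1 + C * ε ^ 2) ^ r) :
    False := by
  have h1 : ∀ᶠ ε : ℝ in 𝓝[>] 0, c ≤ (2 * C + C ^ 2) * ε ^ (2 - r) := by
    have h2 : ∀ᶠ ε : ℝ in 𝓝[>] 0, ε ∈ Set.Ioo 0 (min ε0 1) := Ioo_mem_nhdsGT (lt_min hε0 one_pos)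
    filter_upwards [h2] with ε hδ
    have hδ1 : 0 < ε := hδ.1
    have hδ2 : ε ≤ ε0 := hδ.2.le.trans (min_le_left _ _)
    have hδ3 : ε ≤ 1 := hδ.2.le.trans (min_le_right _ _)
    have h3 := h ε hδ1 hδ2
    have h4 : (1 + C * ε ^ 2) ^ r ≤ (1 + C * ε ^ 2) ^ (2 : ℝ) := by
      apply Real.rpow_le_rpow_of_exponent_le _ hr.le
      have : 0 ≤ C * ε ^ 2 := by positivity
      linarith
    rw [Real.rpow_two] at h4
    have h5 : (ε ^ 2) ^ 2 ≤ ε ^ 2 := by
      have : ε ^ 2 ≤ 1 := by nlinarith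
      nlinarith [sq_nonneg ε]
    have h6 : c * ε ^ r ≤ (2 * C + C ^ 2) * ε ^ 2 := by nlinarith [sq_nonneg C]
    have e2 : ε ^ 2 = ε ^ (2 - r) * ε ^ r := by
      rw [← Real.rpow_add hδ1, ← Real.rpow_two]; congr 1; ring
    rw [e2, ← mul_assoc] at h6
    exact le_of_mul_le_mul_right h6 (by positivity)
  have h9 := ge_of_tendsto (tendsto_small (by linarith : 0 < 2 - r)) h1
  linarith

variable {Ω : Type*} [MeasurableSpace Ω] {μ : Measure Ω} {p : ℝ≥0∞}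

/-! ### the norming functional, complex scalars -/

lemma re_norming [Fact (1 ≤ p)] (h1 : 1 < p) (h2 : p ≠ ∞) (x y : Lp ℂ p μ) (φ : Lp ℂ p μ →L[ℂ] ℂ)
    (hx : ‖x‖ = 1) (hφ : ‖φ‖ = 1) (hφx : φ x = 1) :
    (φ y).re = ∫ a, ‖x a‖ ^ (p.toReal - 2) * ⟪x a, y a⟫ ∂μ := by
  apply norming_eq h1 h2 x y hx
  intro t
  have h3 : φ (x + t • y) = 1 + (t : ℂ) * φ y := by
    rw [map_add, hφx]
    congr 1
    have : t • y = (t : ℂ) • y := (RCLike.real_smul_eq_coe_smul t y)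
    rw [this, map_smul, smul_eq_mul]
  have h4 : (φ (x + t • y)).re = 1 + t * (φ y).re := by
    rw [h3]; simp
  rw [← h4]
  calc (φ (x + t • y)).re ≤ ‖φ (x + t • y)‖ := Complex.re_le_norm _
    _ ≤ ‖φ‖ * ‖x + t • y‖ := φ.le_opNorm _
    _ = ‖x + t • y‖ := by rw [hφ, one_mul]

lemma norm_pow_mul_sq {E : Type*} [NormedAddCommGroup E] {r : ℝ} (hr : 1 < r) (z : E) :
    ‖z‖ ^ (r - 2) * ‖z‖ ^ 2 = ‖z‖ ^ r := by
  rcases eq_or_ne ‖z‖ 0 with h | h
  · rw [h, Real.zero_rpow (by linarith : r ≠ 0)]; simp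
  · have : 0 < ‖z‖ := lt_of_le_of_ne (norm_nonneg _) (Ne.symm h)
    rw [← Real.rpow_two, ← Real.rpow_add this]; congr 1; ring

lemma norm_pow_mul_self {E : Type*} [NormedAddCommGroup E] {r : ℝ} (hr : 1 < r) (z : E) :
    ‖z‖ ^ (r - 2) * ‖z‖ = ‖z‖ ^ (r - 1) := by
  rcases eq_or_ne ‖z‖ 0 with h | h
  · rw [h, Real.zero_rpow (by linarith : r - 1 ≠ 0)]; simp
  · rw [← Real.rpow_add_one h]; congr 1; ring

lemma norming_proj [Fact (1 ≤ p)] (h1 : 1 < p) (h2 : p ≠ ∞) (x : Lp ℂ p μ) (φ : Lp ℂ p μ →L[ℂ] ℂ)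
    (hx : ‖x‖ = 1) (hφ : ‖φ‖ = 1) (hφx : φ x = 1) {A : Set Ω} (hA : MeasurableSet A)
    {P : Lp ℂ p μ →L[ℂ] Lp ℂ p μ} (hP : ∀ x : Lp ℂ p μ, (P x : Ω → ℂ) =ᵐ[μ] A.indicator x) :
    φ (P x) = ((∫ ω in A, ‖x ω‖ ^ p.toReal ∂μ : ℝ) : ℂ) := by
  have hpr := toReal_gt_one h1 h2
  apply Complex.ext
  · rw [re_norming h1 h2 x (P x) φ hx hφ hφx, Complex.ofReal_re, ← integral_indicator hA]
    apply integral_congr_ae
    filter_upwards [hP x] with ω hω
    rw [hω]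
    by_cases h : ω ∈ A
    · rw [Set.indicator_of_mem h, Set.indicator_of_mem h, real_inner_self_eq_norm_sq, norm_pow_mul_sq hpr]
    · rw [Set.indicator_of_notMem h, Set.indicator_of_notMem h, inner_zero_right, mul_zero]
  · have h3 : (φ (P x)).im = -(φ (Complex.I • P x)).re := by
      rw [map_smul, smul_eq_mul]; simp
    rw [h3, re_norming h1 h2 x (Complex.I • P x) φ hx hφ hφx, Complex.ofReal_im, neg_eq_zero]
    have : ∫ a, ‖x a‖ ^ (p.toReal - 2) * ⟪x a, (Complex.I • P x : Lp ℂ p μ) a⟫ ∂μ = ∫ a, (0 : ℝ) ∂μ := by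
      apply integral_congr_ae
      filter_upwards [hP x, Lp.coeFn_smul Complex.I (P x)] with ω hω hω2
      rw [hω2, Pi.smul_apply, hω]
      by_cases h : ω ∈ A
      · rw [Set.indicator_of_mem h]
        have : ⟪x ω, Complex.I • x ω⟫ = 0 := by
          rw [Complex.inner]; simp; ring
        rw [this, mul_zero]
      · rw [Set.indicator_of_notMem h, smul_zero, inner_zero_right, mul_zero]
    rw [this]; simp

lemma norming_ee [Fact (1 ≤ p)] (h1 : 1 < p) (h2 : p ≠ ∞) (x : Lp ℂ p μ) (φ : Lp ℂ p μ →L[ℂ] ℂ)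
    (hx : ‖x‖ = 1) (hφ : ‖φ‖ = 1) (hφx : φ x = 1) {A : Set Ω} (hA : MeasurableSet A) (hμA : μ A ≠ ∞) (h0 : μ A ≠ 0)
    (hint : IntegrableOn (fun ω => ‖x ω‖ ^ (p.toReal - 1)) A μ) :
    ‖φ (ee ℂ p hA hμA)‖ ≤ (μ.real A) ^ (-(1 / p.toReal)) * ∫ ω in A, ‖x ω‖ ^ (p.toReal - 1) ∂μ := by
  have hpr := toReal_gt_one h1 h2
  have hm : 0 < μ.real A := ENNReal.toReal_pos h0 hμA
  set z := φ (ee ℂ p hA hμA) with hz
  rcases eq_or_ne z 0 with h | h
  · rw [h, norm_zero]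
    have : 0 ≤ ∫ ω in A, ‖x ω‖ ^ (p.toReal - 1) ∂μ := integral_nonneg (fun ω => by positivity)
    positivity
  -- rotate
  set l : ℂ := conj z / ‖z‖ with hl
  have hnz : (‖z‖ : ℂ) ≠ 0 := by exact_mod_cast (norm_ne_zero_iff.2 h)
  have hlz : l * z = (‖z‖ : ℂ) := by
    rw [hl, div_mul_eq_mul_div, mul_comm, Complex.mul_conj, Complex.normSq_eq_norm_sq]
    push_cast
    field_simp
  have hl1 : ‖l‖ = 1 := by
    rw [hl, norm_div, Complex.norm_conj, Complex.norm_real, norm_norm, div_self (norm_ne_zero_iff.2 h)]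
  have h3 : (φ (l • ee ℂ p hA hμA)).re = ‖z‖ := by
    rw [map_smul, smul_eq_mul, ← hz, hlz, Complex.ofReal_re]
  rw [← h3, re_norming h1 h2 x _ φ hx hφ hφx, ← integral_const_mul, ← integral_indicator hA]
  have hfin : Integrable (A.indicator fun ω => (μ.real A) ^ (-(1 / p.toReal)) * ‖x ω‖ ^ (p.toReal - 1)) μ :=
    (integrable_indicator_iff hA).2 (hint.const_mul _)
  refine (le_abs_self _).trans ?_
  rw [← Real.norm_eq_abs]
  refine norm_integral_le_of_norm_le hfin ?_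
  filter_upwards [Lp.coeFn_smul l (ee ℂ p hA hμA), ee_coeFn (𝕜 := ℂ) (p := p) hA hμA] with ω hω hω2
  rw [hω, Pi.smul_apply, hω2]
  by_cases h5 : ω ∈ A
  · rw [Set.indicator_of_mem h5, Set.indicator_of_mem h5, norm_mul, Real.norm_of_nonneg (by positivity)]
    have h6 := norm_inner_le_norm (𝕜 := ℝ) (x ω) (l • (((μ.real A) ^ (-(1 / p.toReal)) : ℝ) : ℂ))
    have h7 : ‖l • (((μ.real A) ^ (-(1 / p.toReal)) : ℝ) : ℂ)‖ = (μ.real A) ^ (-(1 / p.toReal)) := by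
      rw [norm_smul, hl1, one_mul, Complex.norm_real, Real.norm_of_nonneg (by positivity)]
    rw [h7] at h6
    calc ‖x ω‖ ^ (p.toReal - 2) * ‖⟪x ω, l • (((μ.real A) ^ (-(1 / p.toReal)) : ℝ) : ℂ)⟫‖
        ≤ ‖x ω‖ ^ (p.toReal - 2) * (‖x ω‖ * (μ.real A) ^ (-(1 / p.toReal))) := by gcongr
      _ = (μ.real A) ^ (-(1 / p.toReal)) * (‖x ω‖ ^ (p.toReal - 2) * ‖x ω‖) := by ring
      _ = _ := by rw [norm_pow_mul_self hpr]
  · rw [Set.indicator_of_notMem h5, Set.indicator_of_notMem h5, smul_zero, inner_zero_right, mul_zero, norm_zero]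

lemma intOn_rpow {E : Type*} [NormedAddCommGroup E] [Fact (1 ≤ p)] (h1 : 1 < p) (h2 : p ≠ ∞) (x : Lp E p μ)
    {s : ℝ} (hs0 : 0 ≤ s) (hs : s ≤ p.toReal) {A : Set Ω} (hμA : μ A ≠ ∞) :
    IntegrableOn (fun ω => ‖x ω‖ ^ s) A μ := by
  have i1 : IntegrableOn (fun ω => 1 + ‖x ω‖ ^ p.toReal) A μ :=
    (integrableOn_const hμA).add (integrable_rpow h1 h2 x).integrableOn
  refine Integrable.mono' i1 ?_ ?_
  · exact ((Lp.memLp x).1.norm.aemeasurable.pow_const s).aestronglyMeasurable.restrict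
  · refine Eventually.of_forall (fun ω => ?_)
    rw [Real.norm_of_nonneg (by positivity)]
    have h0 : 0 ≤ ‖x ω‖ := norm_nonneg _
    have hr : 0 ≤ ‖x ω‖ ^ p.toReal := by positivity
    rcases le_total ‖x ω‖ 1 with h | h
    · have := Real.rpow_le_one h0 h hs0
      linarith
    · have := Real.rpow_le_rpow_of_exponent_le h hs
      linarith

/-- the two halves of the mass -/
lemma sum_mass_le {E : Type*} [NormedAddCommGroup E] [Fact (1 ≤ p)] (h1 : 1 < p) (h2 : p ≠ ∞) (x : Lp E p μ)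
    (hx : ‖x‖ = 1) {A B : Set Ω} (hB : MeasurableSet B) (hd : Disjoint A B) :
    (∫ ω in A, ‖x ω‖ ^ p.toReal ∂μ) + (∫ ω in B, ‖x ω‖ ^ p.toReal ∂μ) ≤ 1 := by
  have hi := integrable_rpow h1 h2 x
  rw [← setIntegral_union hd hB hi.integrableOn hi.integrableOn]
  calc _ ≤ ∫ ω, ‖x ω‖ ^ p.toReal ∂μ :=
        setIntegral_le_integral hi (Eventually.of_forall fun ω => by positivity)
    _ = 1 := by rw [← norm_rpow_eq h1 h2, hx, Real.one_rpow]

theorem complex_main [Fact (1 ≤ p)] (h1 : 1 < p) (h2 : p ≠ ∞) (h3 : p ≠ 2) {A B : Set Ω}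
    (hA : MeasurableSet A) (hμA : μ A ≠ ∞) (hA0 : μ A ≠ 0)
    (hB : MeasurableSet B) (hμB : μ B ≠ ∞) (hB0 : μ B ≠ 0) (hd : Disjoint A B) :
    numIndex ℂ (Lp ℂ p μ) < kappa p.toReal := by
  have hpr := toReal_gt_one h1 h2
  have hr2 : p.toReal ≠ 2 := by
    intro h; apply h3
    rw [← ENNReal.ofReal_toReal h2, h]; simp
  obtain ⟨C, hC, hkey⟩ := complex_key hpr
  have hk := kappa_pos hpr
  obtain ⟨aB, haB⟩ := exists_alpha (𝕜 := ℂ) (p := p) hB hμB
  obtain ⟨PA, hPA⟩ := exists_proj (𝕜 := ℂ) (p := p) hA hμA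
  obtain ⟨PB, hPB⟩ := exists_proj (𝕜 := ℂ) (p := p) hB hμB
  set r := p.toReal with hr
  have hmA : 0 < μ.real A := ENNReal.toReal_pos hA0 hμA
  have hmB : 0 < μ.real B := ENNReal.toReal_pos hB0 hμB
  set T : ℝ → (Lp ℂ p μ →L[ℂ] Lp ℂ p μ) := fun ε =>
    aB.smulRight (ee ℂ p hA hμA) + (ε : ℂ) • (PA - ((r - 1 : ℝ) : ℂ) • PB) with hT
  have hTapp : ∀ ε x, T ε x = aB x • ee ℂ p hA hμA + (ε : ℂ) • (PA x - ((r - 1 : ℝ) : ℂ) • PB x) := fun ε x => rfl
  -- the numerical radius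
  have hrad : ∀ ε : ℝ, numIndex ℂ (Lp ℂ p μ) * ‖T ε‖ ≤ kappa r + C * ε ^ 2 := by
    intro ε
    apply numIndex_mul_norm_le _ _ (by positivity)
    intro x φ hx hφ hφx
    have iA1 := intOn_rpow h1 h2 x (s := r - 1) (by linarith) (by linarith) hμA
    have iA2 := intOn_rpow h1 h2 x (s := r) (by linarith) le_rfl hμA
    have iB1 := intOn_rpow h1 h2 x (s := 1) (by linarith) hpr.le hμB
    have iB2 := intOn_rpow h1 h2 x (s := r) (by linarith) le_rfl hμB
    have eA := norming_ee h1 h2 x φ hx hφ hφx hA hμA hA0 iA1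
    have nA := norming_proj h1 h2 x φ hx hφ hφx hA hPA
    have nB := norming_proj h1 h2 x φ hx hφ hφx hB hPB
    set NA := ∫ ω in A, ‖x ω‖ ^ r ∂μ with hNA
    set NB := ∫ ω in B, ‖x ω‖ ^ r ∂μ with hNB
    set bA := (μ.real A) ^ (-(1 / r)) * ∫ ω in A, ‖x ω‖ ^ (r - 1) ∂μ with hbA
    set sB := (μ.real B) ^ (1 / r - 1) * ∫ ω in B, ‖x ω‖ ∂μ with hsB
    have hsum : NA + NB ≤ 1 := sum_mass_le h1 h2 x hx hB hd
    have haBx : ‖aB x‖ ≤ sB := by
      rw [haB, norm_mul, RCLike.norm_ofReal, abs_of_nonneg (by positivity)]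
      have := norm_integral_le_integral_norm (μ := μ.restrict B) (fun ω => x ω)
      exact mul_le_mul_of_nonneg_left this (by positivity)
    have hbA0 : 0 ≤ bA := (norm_nonneg _).trans eA
    -- the integrated scalar inequality
    have hint : ∀ e : ℝ, bA * sB + e * (NA - (r - 1) * NB) ≤ (kappa r + C * e ^ 2) * (NA + NB) := by
      intro e
      -- integrate over A
      have s1 : ∀ b : ℝ, 0 ≤ b → bA * b + e * (NA - (r - 1) * b ^ r) ≤ (kappa r + C * e ^ 2) * (NA + b ^ r) := by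
        intro b hb
        have := avg_nonneg (μ := μ) hμA hA0 (g1 := fun ω => (μ.real A) ^ ((r - 1) / r) * ‖x ω‖ ^ (r - 1))
          (g2 := fun ω => μ.real A * ‖x ω‖ ^ r) (g3 := fun _ => 0) (iA1.const_mul _) (iA2.const_mul _)
          integrableOn_zero ((kappa r + C * e ^ 2) * b ^ r + e * ((r - 1) * b ^ r)) (-b) (kappa r + C * e ^ 2 - e) 0
          (fun ω => by
            have hk := hkey e ((μ.real A) ^ (1 / r) * ‖x ω‖) b (by positivity) hb
            have e1 : ((μ.real A) ^ (1 / r) * ‖x ω‖) ^ (r - 1) = (μ.real A) ^ ((r - 1) / r) * ‖x ω‖ ^ (r - 1) := by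
              rw [Real.mul_rpow (by positivity) (norm_nonneg _), ← Real.rpow_mul hmA.le]
              congr 2; ring
            have e2 : ((μ.real A) ^ (1 / r) * ‖x ω‖) ^ r = μ.real A * ‖x ω‖ ^ r := by
              rw [Real.mul_rpow (by positivity) (norm_nonneg _), ← Real.rpow_mul hmA.le]
              have : 1 / r * r = 1 := by field_simp
              rw [this, Real.rpow_one]
            rw [e1, e2] at hk
            linarith)
        rw [integral_const_mul, integral_const_mul] at this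
        have e3 : (μ.real A)⁻¹ * ((μ.real A) ^ ((r - 1) / r) * ∫ ω in A, ‖x ω‖ ^ (r - 1) ∂μ) = bA := by
          rw [hbA, ← mul_assoc, ← Real.rpow_neg_one, ← Real.rpow_add hmA]
          congr 2; field_simp; ring
        have e4 : (μ.real A)⁻¹ * (μ.real A * ∫ ω in A, ‖x ω‖ ^ r ∂μ) = NA := by
          rw [← mul_assoc, inv_mul_cancel₀ hmA.ne', one_mul]
        rw [e3, e4] at this
        linarith
      -- integrate over B
      have := avg_nonneg (μ := μ) hμB hB0 (g1 := fun ω => (μ.real B) ^ (1 / r) * ‖x ω‖ ^ (1 : ℝ))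
        (g2 := fun ω => μ.real B * ‖x ω‖ ^ r) (g3 := fun _ => 0) (iB1.const_mul _) (iB2.const_mul _)
        integrableOn_zero ((kappa r + C * e ^ 2) * NA - e * NA) (-bA) (kappa r + C * e ^ 2 + e * (r - 1)) 0
        (fun ω => by
          have hk := s1 ((μ.real B) ^ (1 / r) * ‖x ω‖) (by positivity)
          have e2 : ((μ.real B) ^ (1 / r) * ‖x ω‖) ^ r = μ.real B * ‖x ω‖ ^ r := by
            rw [Real.mul_rpow (by positivity) (norm_nonneg _), ← Real.rpow_mul hmB.le]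
            have : 1 / r * r = 1 := by field_simp
            rw [this, Real.rpow_one]
          rw [e2] at hk
          rw [Real.rpow_one]
          linarith)
      rw [integral_const_mul, integral_const_mul] at this
      have e3 : (μ.real B)⁻¹ * ((μ.real B) ^ (1 / r) * ∫ ω in B, ‖x ω‖ ^ (1 : ℝ) ∂μ) = sB := by
        simp only [Real.rpow_one]
        rw [hsB, ← mul_assoc, ← Real.rpow_neg_one, ← Real.rpow_add hmB]
        congr 2; ring
      have e4 : (μ.real B)⁻¹ * (μ.real B * ∫ ω in B, ‖x ω‖ ^ r ∂μ) = NB := by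
        rw [← mul_assoc, inv_mul_cancel₀ hmB.ne', one_mul]
      rw [e3, e4] at this
      linarith
    have hNA0 : 0 ≤ NA := integral_nonneg (fun ω => by positivity)
    have hNB0 : 0 ≤ NB := integral_nonneg (fun ω => by positivity)
    have hfin : bA * sB + |ε * (NA - (r - 1) * NB)| ≤ kappa r + C * ε ^ 2 := by
      have hle : (kappa r + C * ε ^ 2) * (NA + NB) ≤ kappa r + C * ε ^ 2 := by
        have : 0 ≤ kappa r + C * ε ^ 2 := by positivity
        nlinarith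
      rcases abs_cases (ε * (NA - (r - 1) * NB)) with ⟨h, _⟩ | ⟨h, _⟩
      · rw [h]; exact (hint ε).trans hle
      · rw [h]
        have := hint (-ε)
        rw [neg_sq] at this
        linarith
    rw [hTapp, map_add, map_smul, map_smul, map_sub, map_smul, nA, nB, smul_eq_mul, smul_eq_mul, smul_eq_mul]
    refine (norm_add_le _ _).trans ?_
    have g1 : ‖aB x * φ (ee ℂ p hA hμA)‖ ≤ bA * sB := by
      rw [norm_mul, mul_comm]; gcongr
    have g2 : ‖(ε : ℂ) * ((NA : ℂ) - ((r - 1 : ℝ) : ℂ) * (NB : ℂ))‖ = |ε * (NA - (r - 1) * NB)| := by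
      rw [← Complex.ofReal_mul, ← Complex.ofReal_sub, ← Complex.ofReal_mul, Complex.norm_real, Real.norm_eq_abs]
    rw [g2]
    linarith
  -- contradiction
  by_contra hcon
  push Not at hcon
  have hnorm : ∀ ε : ℝ, ‖T ε‖ ≤ 1 + C / kappa r * ε ^ 2 := by
    intro ε
    have h4 := hrad ε
    have h5 : kappa r * ‖T ε‖ ≤ numIndex ℂ (Lp ℂ p μ) * ‖T ε‖ := by gcongr
    have h6 : kappa r * ‖T ε‖ ≤ kappa r * (1 + C / kappa r * ε ^ 2) := by
      calc _ ≤ _ := h5.trans h4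
        _ = _ := by field_simp
    exact le_of_mul_le_mul_left h6 hk
  have hC' : 0 ≤ C / kappa r := by positivity
  have hAA := alpha_ee_self (𝕜 := ℂ) (p := p) hB hμB hB0
  have hAB : aB (ee ℂ p hA hμA) = 0 := by
    rw [haB, alpha_ee_disj (𝕜 := ℂ) (p := p) hA hB hμA hd, mul_zero]
  have hBB : aB (ee ℂ p hB hμB) = 1 := by rw [haB]; exact hAA
  have p1 : PA (ee ℂ p hA hμA) = ee ℂ p hA hμA := proj_ee_self hA hμA hPA
  have p2 : PB (ee ℂ p hB hμB) = ee ℂ p hB hμB := proj_ee_self hB hμB hPB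
  have p3 : PA (ee ℂ p hB hμB) = 0 := proj_ee_disj hB hμB hd.symm hPA
  have p4 : PB (ee ℂ p hA hμA) = 0 := proj_ee_disj hA hμA hd hPB
  rcases lt_or_gt_of_ne hr2 with hlt | hgt
  · -- exponent below two
    apply no_small_lt hpr hlt (c := (r - 1) ^ r) (C := C / kappa r) (ε0 := 1) (by
      have : 0 < r - 1 := by linarith
      positivity) hC' one_pos
    intro ε hε _
    have e1 : T ε (ee ℂ p hB hμB) = (1 : ℂ) • ee ℂ p hA hμA + (-(ε * (r - 1) : ℝ) : ℂ) • ee ℂ p hB hμB := by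
      rw [hTapp, hBB, p2, p3, zero_sub, smul_neg, smul_smul]
      push_cast
      rw [neg_smul]
    have e2 : ‖T ε (ee ℂ p hB hμB)‖ ^ r = 1 + (r - 1) ^ r * ε ^ r := by
      rw [e1, norm_two h1 h2 hA hμA hA0 hB hμB hB0 hd, norm_one, Real.one_rpow, norm_neg, Complex.norm_real,
        Real.norm_of_nonneg (mul_nonneg hε.le (by linarith)), Real.mul_rpow hε.le (by linarith)]
      ring
    rw [← e2]
    have e3 : ‖T ε (ee ℂ p hB hμB)‖ ≤ 1 + C / kappa r * ε ^ 2 := by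
      calc _ ≤ ‖T ε‖ * ‖ee ℂ p hB hμB‖ := (T ε).le_opNorm _
        _ = ‖T ε‖ := by rw [norm_ee h1 h2 hB hμB hB0, mul_one]
        _ ≤ _ := hnorm ε
    exact Real.rpow_le_rpow (norm_nonneg _) e3 (by linarith)
  · -- exponent above two
    apply no_small_gt (r := r) (c := 1) (C := C / kappa r) (K := 1) (δ0 := 1) hgt one_pos hC' zero_le_one one_pos
    intro δ hδ _
    set ε := δ ^ (r / 2) with hε
    have hε0 : 0 < ε := by positivity
    set x := (δ : ℂ) • ee ℂ p hA hμA + (1 : ℂ) • ee ℂ p hB hμB with hx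
    have e1 : T ε x = ((1 + ε * δ : ℝ) : ℂ) • ee ℂ p hA hμA + (-(ε * (r - 1) : ℝ) : ℂ) • ee ℂ p hB hμB := by
      rw [hTapp, hx]
      simp only [map_add, map_smul, hAB, hBB, p1, p2, p3, p4, smul_zero, smul_eq_mul, mul_zero, zero_add, add_zero,
        one_smul]
      push_cast
      module
    have e2 : (1 + ε * δ) ^ r ≤ ‖T ε x‖ ^ r := by
      rw [e1, norm_two h1 h2 hA hμA hA0 hB hμB hB0 hd, Complex.norm_real, Real.norm_of_nonneg (by positivity)]
      have : 0 ≤ ‖(-(ε * (r - 1) : ℝ) : ℂ)‖ ^ r := by positivity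
      linarith
    have e3 : 1 + ε * δ ≤ ‖T ε x‖ := by
      by_contra hh
      push Not at hh
      have := Real.rpow_lt_rpow (norm_nonneg _) hh (by linarith : 0 < r)
      linarith
    have e4 : ‖x‖ ≤ 1 + 1 * δ ^ r := by
      have : ‖x‖ ^ r = δ ^ r + 1 := by
        rw [hx, norm_two h1 h2 hA hμA hA0 hB hμB hB0 hd, norm_one, Real.one_rpow, Complex.norm_real,
          Real.norm_of_nonneg hδ.le]
      by_contra hh
      push Not at hh
      have h5 : (1 + 1 * δ ^ r) ^ r < ‖x‖ ^ r := Real.rpow_lt_rpow (by positivity) hh (by linarith)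
      have h6 : 1 + 1 * δ ^ r ≤ (1 + 1 * δ ^ r) ^ r := by
        have h8 : 1 ≤ 1 + 1 * δ ^ r := by
          have : 0 ≤ δ ^ r := by positivity
          linarith
        calc 1 + 1 * δ ^ r = (1 + 1 * δ ^ r) ^ (1 : ℝ) := (Real.rpow_one _).symm
          _ ≤ _ := Real.rpow_le_rpow_of_exponent_le h8 (by linarith)
      linarith
    calc 1 + 1 * ε * δ = 1 + ε * δ := by ring
      _ ≤ ‖T ε x‖ := e3
      _ ≤ ‖T ε‖ * ‖x‖ := (T ε).le_opNorm _
      _ ≤ (1 + C / kappa r * ε ^ 2) * (1 + 1 * δ ^ r) := by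
        have := hnorm ε
        gcongr

end Pool.Agent.Work.MP_95d40a_an
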