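import Mathlib

set_option autoImplicit false

open MeasureTheory

namespace Pool.Agent.Work.MP_95d40a_an

/-- The numerical radius `v(T) = sup {|x*(Tx)| : ‖x‖ = 1, ‖x*‖ = 1, x*(x) = 1}`. -/
noncomputable def numRadius {𝕜 X : Type*} [RCLike 𝕜] [NormedAddCommGroup X] [NormedSpace 𝕜 X]
    (T : X →L[𝕜] X) : ℝ :=
  sSup {r : ℝ | ∃ (x : X) (φ : X →L[𝕜] 𝕜), ‖x‖ = 1 ∧ ‖φ‖ = 1 ∧ φ x = 1 ∧ r = ‖φ (T x)‖}

/-- The numerical index `n(X) = inf {v(T) : ‖T‖ = 1}`. -/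
noncomputable def numIndex (𝕜 X : Type*) [RCLike 𝕜] [NormedAddCommGroup X] [NormedSpace 𝕜 X] : ℝ :=
  sInf {r : ℝ | ∃ T : X →L[𝕜] X, ‖T‖ = 1 ∧ r = numRadius T}

/-- `M_p = max_{t ∈ [0,1]} |t^{p-1} - t| / (1 + t^p)`. -/
noncomputable def Mp (p : ℝ) : ℝ :=
  sSup ((fun t : ℝ => |t ^ (p - 1) - t| / (1 + t ^ p)) '' Set.Icc 0 1)

/-- `κ_p = 1 / (p^{1/p} q^{1/q})` with `q = p / (p - 1)`. -/
noncomputable def kappa (p : ℝ) : ℝ :=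
  1 / (p ^ (1 / p) * (p / (p - 1)) ^ ((p - 1) / p))

end Pool.Agent.Work.MP_95d40a_an
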