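import Pool.Agent.Work.MP_95d40a_an.RealMain

set_option autoImplicit false

open MeasureTheory Filter Topology
open scoped ENNReal

namespace Pool.Agent.Work.MP_95d40a_an

/-! ### an `L_p` space of dimension at least `n` contains `n` disjoint sets of finite positive
measure -/

variable {Ω : Type*} [MeasurableSpace Ω] {μ : Measure Ω} {p : ℝ≥0∞} {𝕜 : Type*} [RCLike 𝕜]

/-- `n` pairwise disjoint measurable sets of finite positive measure -/
def Dis (μ : Measure Ω) (n : ℕ) : Prop :=
  ∃ A : Fin n → Set Ω, (∀ i, MeasurableSet (A i)) ∧ (∀ i, μ (A i) ≠ ∞) ∧ (∀ i, μ (A i) ≠ 0) ∧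
    ∀ i j, i ≠ j → Disjoint (A i) (A j)

lemma dis_snoc {n : ℕ} {A : Fin n → Set Ω} {B : Set Ω} (h1 : ∀ i, MeasurableSet (A i)) (h2 : ∀ i, μ (A i) ≠ ∞)
    (h3 : ∀ i, μ (A i) ≠ 0) (h4 : ∀ i j, i ≠ j → Disjoint (A i) (A j)) (b1 : MeasurableSet B) (b2 : μ B ≠ ∞)
    (b3 : μ B ≠ 0) (b4 : ∀ i, Disjoint (A i) B) : Dis μ (n + 1) := by
  refine ⟨Fin.snoc A B, ?_, ?_, ?_, ?_⟩
  · intro i
    induction i using Fin.lastCases with
    | last => simpa using b1
    | cast i => simpa using h1 i
  · intro i
    induction i using Fin.lastCases with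
    | last => simpa using b2
    | cast i => simpa using h2 i
  · intro i
    induction i using Fin.lastCases with
    | last => simpa using b3
    | cast i => simpa using h3 i
  · intro i j hij
    induction i using Fin.lastCases with
    | last =>
      induction j using Fin.lastCases with
      | last => exact absurd rfl hij
      | cast j => simpa using (b4 j).symm
    | cast i =>
      induction j using Fin.lastCases with
      | last => simpa using b4 i
      | cast j =>
        have : i ≠ j := fun h => hij (by rw [h])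
        simpa using h4 i j this

lemma rank_le_of_not_dis [Fact (1 ≤ p)] (hp : p ≠ ∞) {n : ℕ} (hn : Dis μ n) (hn1 : ¬ Dis μ (n + 1)) :
    Module.rank 𝕜 (Lp 𝕜 p μ) ≤ n := by
  classical
  obtain ⟨A, h1, h2, h3, h4⟩ := hn
  set g : Fin n → Lp 𝕜 p μ := fun i => indicatorConstLp p (h1 i) (h2 i) (1 : 𝕜) with hg
  set W := Submodule.span 𝕜 (Set.range g) with hW
  have hfd : FiniteDimensional 𝕜 W := FiniteDimensional.span_of_finite 𝕜 (Set.finite_range g)
  -- every set of finite measure is, up to a null set, a union of some of the `A i`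
  have key : ∀ (s : Set Ω), MeasurableSet s → μ s ≠ ∞ → ∃ S : Finset (Fin n), ∀ᵐ ω ∂μ,
      (ω ∈ s ↔ ∃ i ∈ S, ω ∈ A i) := by
    intro s hs hμs
    have k1 : μ (s \ ⋃ i, A i) = 0 := by
      by_contra hne
      apply hn1
      refine dis_snoc h1 h2 h3 h4 (hs.diff (MeasurableSet.iUnion h1)) ?_ hne ?_
      · exact ne_top_of_le_ne_top hμs (measure_mono Set.sdiff_subset)
      · intro i
        exact Set.disjoint_left.2 (fun ω h5 h6 => h6.2 (Set.mem_iUnion.2 ⟨i, h5⟩))
    have k2 : ∀ i, μ (A i ∩ s) = 0 ∨ μ (A i \ s) = 0 := by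
      intro i
      by_contra hcon
      push Not at hcon
      apply hn1
      have hup : ∀ j, Function.update A i (A i ∩ s) j ⊆ A j := by
        intro j
        rcases eq_or_ne j i with rfl | hj
        · simp
        · rw [Function.update_of_ne hj]
      refine dis_snoc (A := Function.update A i (A i ∩ s)) (B := A i \ s) ?_ ?_ ?_ ?_ ((h1 i).diff hs) ?_ hcon.2 ?_
      · intro j
        rcases eq_or_ne j i with rfl | hj
        · rw [Function.update_self]; exact (h1 j).inter hs
        · rw [Function.update_of_ne hj]; exact h1 j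
      · intro j
        exact ne_top_of_le_ne_top (h2 j) (measure_mono (hup j))
      · intro j
        rcases eq_or_ne j i with rfl | hj
        · rw [Function.update_self]; exact hcon.1
        · rw [Function.update_of_ne hj]; exact h3 j
      · intro j k hjk
        exact Set.disjoint_of_subset (hup j) (hup k) (h4 j k hjk)
      · exact ne_top_of_le_ne_top (h2 i) (measure_mono Set.sdiff_subset)
      · intro j
        rcases eq_or_ne j i with rfl | hj
        · rw [Function.update_self]
          exact Set.disjoint_left.2 (fun ω h5 h6 => h6.2 h5.2)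
        · rw [Function.update_of_ne hj]
          exact Set.disjoint_of_subset_right Set.sdiff_subset (h4 j i hj)
    refine ⟨Finset.univ.filter (fun i => μ (A i \ s) = 0), ?_⟩
    have a1 : ∀ᵐ ω ∂μ, ω ∉ s \ ⋃ i, A i := measure_eq_zero_iff_ae_notMem.1 k1
    have a2 : ∀ᵐ ω ∂μ, ∀ i, (μ (A i ∩ s) = 0 → ω ∉ A i ∩ s) ∧ (μ (A i \ s) = 0 → ω ∉ A i \ s) := by
      rw [ae_all_iff]
      intro i
      by_cases c1 : μ (A i ∩ s) = 0 <;> by_cases c2 : μ (A i \ s) = 0
      · filter_upwards [measure_eq_zero_iff_ae_notMem.1 c1, measure_eq_zero_iff_ae_notMem.1 c2] with ω w1 w2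
        exact ⟨fun _ => w1, fun _ => w2⟩
      · filter_upwards [measure_eq_zero_iff_ae_notMem.1 c1] with ω w1
        exact ⟨fun _ => w1, fun h => absurd h c2⟩
      · filter_upwards [measure_eq_zero_iff_ae_notMem.1 c2] with ω w2
        exact ⟨fun h => absurd h c1, fun _ => w2⟩
      · exact Eventually.of_forall fun ω => ⟨fun h => absurd h c1, fun h => absurd h c2⟩
    filter_upwards [a1, a2] with ω w1 w2
    constructor
    · intro hω
      have : ω ∈ ⋃ i, A i := by
        by_contra h5; exact w1 ⟨hω, h5⟩
      obtain ⟨i, hi⟩ := Set.mem_iUnion.1 this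
      refine ⟨i, ?_, hi⟩
      simp only [Finset.mem_filter, Finset.mem_univ, true_and]
      rcases k2 i with h6 | h6
      · exact absurd ⟨hi, hω⟩ ((w2 i).1 h6)
      · exact h6
    · rintro ⟨i, hi, hωi⟩
      simp only [Finset.mem_filter, Finset.mem_univ, true_and] at hi
      by_contra h5
      exact (w2 i).2 hi ⟨hωi, h5⟩
  have hall : ∀ f : Lp 𝕜 p μ, f ∈ W := by
    intro f
    induction f using Lp.induction hp with
    | indicatorConst c hs hμs =>
      rename_i s
      rw [Lp.simpleFunc.coe_indicatorConst]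
      obtain ⟨S, hS⟩ := key s hs hμs.ne
      have : indicatorConstLp p hs hμs.ne c = ∑ i ∈ S, c • g i := by
        apply Lp.ext
        have hsum : (⇑(∑ i ∈ S, c • g i : Lp 𝕜 p μ) : Ω → 𝕜) =ᵐ[μ] fun ω => ∑ i ∈ S, c * (A i).indicator (fun _ => (1 : 𝕜)) ω := by
          clear hS
          induction S using Finset.induction_on with
          | empty =>
            simp only [Finset.sum_empty]
            exact Lp.coeFn_zero 𝕜 p μ
          | insert i S hi ih =>
            rw [Finset.sum_insert hi]
            filter_upwards [Lp.coeFn_add (c • g i) (∑ j ∈ S, c • g j), ih, Lp.coeFn_smul c (g i),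
              indicatorConstLp_coeFn (p := p) (hs := h1 i) (hμs := h2 i) (c := (1 : 𝕜))] with ω u1 u2 u3 u4
            rw [u1, Pi.add_apply, u2, u3, Finset.sum_insert hi, Pi.smul_apply, hg, u4, smul_eq_mul]
        filter_upwards [hS, hsum, indicatorConstLp_coeFn (p := p) (hs := hs) (hμs := hμs.ne) (c := c)] with ω w1 w2 w3
        rw [w2, w3]
        by_cases hω : ω ∈ s
        · rw [Set.indicator_of_mem hω]
          obtain ⟨i, hi, hωi⟩ := w1.1 hω
          rw [Finset.sum_eq_single i]
          · rw [Set.indicator_of_mem hωi, mul_one]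
          · intro j _ hj
            rw [Set.indicator_of_notMem (fun h5 => Set.disjoint_left.1 (h4 j i hj) h5 hωi), mul_zero]
          · exact fun h5 => absurd hi h5
        · rw [Set.indicator_of_notMem hω]
          symm
          refine Finset.sum_eq_zero (fun i hi => ?_)
          rw [Set.indicator_of_notMem (fun h5 => hω (w1.2 ⟨i, hi, h5⟩)), mul_zero]
      rw [this]
      exact Submodule.sum_mem _ (fun i _ => Submodule.smul_mem _ _ (Submodule.subset_span ⟨i, rfl⟩))
    | add hf hg' hd h5 h6 => exact Submodule.add_mem _ h5 h6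
    | isClosed => exact W.closed_of_finiteDimensional
  have htop : W = ⊤ := by
    rw [eq_top_iff]; exact fun f _ => hall f
  rw [← rank_top 𝕜 (Lp 𝕜 p μ), ← htop]
  have h7 : Module.finrank 𝕜 W ≤ n := by
    have := finrank_range_le_card (R := 𝕜) (b := g)
    rw [Fintype.card_fin] at this
    exact this
  rw [← Module.finrank_eq_rank 𝕜 W]
  exact_mod_cast h7

lemma dis_of_rank [Fact (1 ≤ p)] (hp : p ≠ ∞) (n : ℕ) (h : (n : Cardinal) ≤ Module.rank 𝕜 (Lp 𝕜 p μ)) : Dis μ n := by
  induction n with
  | zero => exact ⟨Fin.elim0, fun i => i.elim0, fun i => i.elim0, fun i => i.elim0, fun i => i.elim0⟩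
  | succ n ih =>
    have hn : Dis μ n := ih (le_trans (by exact_mod_cast Nat.le_succ n) h)
    by_contra hcon
    have := rank_le_of_not_dis (𝕜 := 𝕜) (p := p) hp hn hcon
    have h2 := h.trans this
    have h3 : n + 1 ≤ n := by exact_mod_cast h2
    omega

end Pool.Agent.Work.MP_95d40a_an
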