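import Pool.Agent.Work.MP_95d40a_an.JP

set_option autoImplicit false

open MeasureTheory Filter Topology
open scoped ENNReal RealInnerProductSpace

namespace Pool.Agent.Work.MP_95d40a_an

variable {Ω : Type*} [MeasurableSpace Ω] {μ : Measure Ω} {p : ℝ≥0∞} {𝕜 : Type*} [RCLike 𝕜]

lemma JP_bound [Fact (1 ≤ p)] (h1 : 1 < p) (h2 : p ≠ ∞) (x y : Lp 𝕜 p μ) :
    ‖JP p.toReal μ (x : Ω → 𝕜) y‖ ≤ ‖x‖ ^ (p.toReal - 1) * ‖y‖ := by
  have hpr := toReal_gt_one h1 h2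
  rcases eq_or_ne x 0 with rfl | hx
  · have hle := norm_JP_le h1 h2 (0 : Lp 𝕜 p μ) y
    have : ∫ ω, ‖(0 : Lp 𝕜 p μ) ω‖ ^ (p.toReal - 1) * ‖y ω‖ ∂μ = ∫ ω, (0 : ℝ) ∂μ := by
      apply integral_congr_ae
      filter_upwards [Lp.coeFn_zero 𝕜 p μ] with ω h
      rw [h, Pi.zero_apply, norm_zero, Real.zero_rpow (by linarith), zero_mul]
    rw [this, integral_zero] at hle
    exact hle.trans (by positivity)
  have hn : 0 < ‖x‖ := norm_pos_iff.2 hx
  obtain ⟨u, hu⟩ : ∃ u : Lp 𝕜 p μ, u = ((‖x‖⁻¹ : ℝ) : 𝕜) • x := ⟨_, rfl⟩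
  have hu1 : ‖u‖ = 1 := by
    rw [hu, norm_smul, RCLike.norm_ofReal, abs_of_pos (by positivity)]; field_simp
  obtain ⟨c, hc⟩ : ∃ c : ℝ, c = ‖x‖ := ⟨_, rfl⟩
  have hxu : x = (c : 𝕜) • u := by
    rw [hu, hc, smul_smul, ← RCLike.ofReal_mul, mul_inv_cancel₀ hn.ne', RCLike.ofReal_one, one_smul]
  have hc0 : 0 < c := by rw [hc]; exact hn
  have hxn : ‖x‖ = c := hc.symm
  obtain ⟨φ, hφ, hφu⟩ := exists_dual_vector 𝕜 u (by rw [hu1]; norm_num)
  rw [hu1, RCLike.ofReal_one] at hφu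
  have key : ‖JP p.toReal μ (u : Ω → 𝕜) y‖ ≤ ‖y‖ := by
    rw [← gen_norming h1 h2 u y φ hu1 hφ hφu]
    calc ‖φ y‖ ≤ ‖φ‖ * ‖y‖ := φ.le_opNorm _
      _ = ‖y‖ := by rw [hφ, one_mul]
  rw [hxn, hxu, JP_smul_left, norm_mul, norm_mul, RCLike.norm_conj,
    RCLike.norm_ofReal, RCLike.norm_ofReal, abs_of_pos hc0, abs_of_nonneg (by positivity : 0 ≤ c ^ (p.toReal - 2))]
  have e3 : c ^ (p.toReal - 2) * c = c ^ (p.toReal - 1) := by
    rw [← Real.rpow_add_one hc0.ne']; congr 1; ring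
  rw [e3]
  gcongr

section simple

variable {m : Ω → ℝ}

lemma memLp_simple_mul (s : SimpleFunc Ω 𝕜) (hm : MemLp m p μ) :
    MemLp (fun ω => s ω * ((m ω : ℝ) : 𝕜)) p μ := by
  obtain ⟨C, hC⟩ := s.exists_forall_norm_le
  refine MemLp.of_le_mul (c := C) hm ?_ ?_
  · exact s.aestronglyMeasurable.mul ((RCLike.continuous_ofReal (K := 𝕜)).comp_aestronglyMeasurable hm.1)
  · refine Eventually.of_forall fun ω => ?_
    rw [norm_mul, RCLike.norm_ofReal, ← Real.norm_eq_abs]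
    gcongr
    exact hC ω

/-- the function `s * m` -/
noncomputable def Lf (s : SimpleFunc Ω 𝕜) (hm : MemLp m p μ) : Lp 𝕜 p μ := (memLp_simple_mul s hm).toLp _

lemma Lf_coe (s : SimpleFunc Ω 𝕜) (hm : MemLp m p μ) :
    (Lf s hm : Ω → 𝕜) =ᵐ[μ] fun ω => s ω * ((m ω : ℝ) : 𝕜) := MemLp.coeFn_toLp _

/-- replacing the values of a simple function by unimodular ones -/
lemma exists_unimod (s : SimpleFunc Ω 𝕜) (hs : ∀ ω, ‖s ω‖ ≤ 1) (hm : MemLp m p μ) (G : Lp 𝕜 p μ → 𝕜)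
    (hadd : ∀ f g, G (f + g) = G f + G g) (hsmul : ∀ (c : 𝕜) f, G (c • f) = c * G f) :
    ∃ u : SimpleFunc Ω 𝕜, (∀ ω, ‖u ω‖ = 1) ∧ ‖G (Lf s hm)‖ ≤ ‖G (Lf u hm)‖ := by
  classical
  set Λ : (𝕜 → 𝕜) → 𝕜 := fun η => G (Lf (s.map η) hm) with hΛ
  have l1 : ∀ η η' : 𝕜 → 𝕜, Λ (fun w => η w + η' w) = Λ η + Λ η' := by
    intro η η'
    rw [hΛ]
    simp only
    rw [← hadd]
    congr 1
    apply Lp.ext
    filter_upwards [Lf_coe (s.map fun w => η w + η' w) hm, Lf_coe (s.map η) hm, Lf_coe (s.map η') hm,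
      Lp.coeFn_add (Lf (s.map η) hm) (Lf (s.map η') hm)] with ω e1 e2 e3 e4
    rw [e1, e4, Pi.add_apply, e2, e3]
    simp only [SimpleFunc.map_apply]; ring
  have l2 : ∀ (c : 𝕜) (η : 𝕜 → 𝕜), Λ (fun w => c * η w) = c * Λ η := by
    intro c η
    rw [hΛ]
    simp only
    rw [← hsmul]
    congr 1
    apply Lp.ext
    filter_upwards [Lf_coe (s.map fun w => c * η w) hm, Lf_coe (s.map η) hm, Lp.coeFn_smul c (Lf (s.map η) hm)]
      with ω e1 e2 e3
    rw [e1, e3, Pi.smul_apply, e2, smul_eq_mul]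
    simp only [SimpleFunc.map_apply]; ring
  have l0 : Λ (fun _ => 0) = 0 := by
    have := l2 0 (fun _ => 0)
    simpa using this
  set δ : 𝕜 → 𝕜 → 𝕜 := fun z w => if w = z then 1 else 0 with hδ
  have lsum : ∀ (η : 𝕜 → 𝕜) (S : Finset 𝕜), Λ (fun w => ∑ z ∈ S, η z * δ z w) = ∑ z ∈ S, η z * Λ (δ z) := by
    intro η S
    induction S using Finset.induction_on with
    | empty => simpa using l0
    | insert z S hz ih =>
      have : (fun w => ∑ y ∈ insert z S, η y * δ y w) = fun w => (η z * δ z w) + ∑ y ∈ S, η y * δ y w := by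
        funext w; rw [Finset.sum_insert hz]
      rw [this, l1 (fun w => η z * δ z w) (fun w => ∑ y ∈ S, η y * δ y w), l2, ih, Finset.sum_insert hz]
  have lrep : ∀ η : 𝕜 → 𝕜, Λ η = ∑ z ∈ s.range, η z * Λ (δ z) := by
    intro η
    rw [← lsum]
    rw [hΛ]
    simp only
    congr 1
    apply Lp.ext
    filter_upwards [Lf_coe (s.map η) hm, Lf_coe (s.map fun w => ∑ z ∈ s.range, η z * δ z w) hm] with ω e1 e2
    rw [e1, e2]
    simp only [SimpleFunc.map_apply]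
    congr 1
    rw [Finset.sum_eq_single (s ω)]
    · simp [hδ]
    · intro z _ hz
      simp [hδ, Ne.symm hz]
    · intro h
      exact absurd (SimpleFunc.mem_range_self s ω) h
  have hid : G (Lf s hm) = Λ (fun w => w) := by
    rw [hΛ]
    simp only
    congr 1
  set ε : 𝕜 → 𝕜 := fun z => if Λ (δ z) = 0 then 1 else starRingEnd 𝕜 (Λ (δ z)) / ((‖Λ (δ z)‖ : ℝ) : 𝕜) with hε
  have hε1 : ∀ z, ‖ε z‖ = 1 := by
    intro z
    rw [hε]
    simp only
    split_ifs with h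
    · exact norm_one
    · rw [norm_div, RCLike.norm_conj, RCLike.norm_ofReal, abs_of_nonneg (norm_nonneg _), div_self]
      exact norm_ne_zero_iff.2 h
  have hε2 : ∀ z, ε z * Λ (δ z) = ((‖Λ (δ z)‖ : ℝ) : 𝕜) := by
    intro z
    rw [hε]
    simp only
    split_ifs with h
    · rw [h]; simp
    · have h' : ((‖Λ (δ z)‖ : ℝ) : 𝕜) ≠ 0 := by
        rw [Ne, RCLike.ofReal_eq_zero]; exact norm_ne_zero_iff.2 h
      rw [div_mul_eq_mul_div, RCLike.conj_mul, div_eq_iff h']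
      ring
  refine ⟨s.map ε, fun ω => hε1 _, ?_⟩
  have e1 : G (Lf (s.map ε) hm) = ((∑ z ∈ s.range, ‖Λ (δ z)‖ : ℝ) : 𝕜) := by
    have : G (Lf (s.map ε) hm) = Λ ε := rfl
    rw [this, lrep ε]
    push_cast
    exact Finset.sum_congr rfl fun z _ => hε2 z
  rw [e1, RCLike.norm_ofReal, abs_of_nonneg (Finset.sum_nonneg fun z _ => norm_nonneg _), hid, lrep]
  refine (norm_sum_le _ _).trans (Finset.sum_le_sum fun z hz => ?_)
  obtain ⟨ω, rfl⟩ := SimpleFunc.mem_range.1 hz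
  rw [norm_mul]
  calc _ ≤ 1 * ‖Λ (δ (s ω))‖ := by gcongr; exact hs ω
    _ = _ := one_mul _

end simple

/-- the order interval inequality -/
lemma interval_le [Fact (1 ≤ p)] (h1 : 1 < p) (h2 : p ≠ ∞) (T : Lp 𝕜 p μ →L[𝕜] Lp 𝕜 p μ) {c V : ℝ}
    (hc : 0 ≤ c) (hV : 0 ≤ V)
    (H : ∀ f : Lp 𝕜 p μ, c * ∫ ω, ‖f ω‖ ^ (p.toReal - 1) * ‖T f ω‖ ∂μ ≤ V * ‖f‖ ^ p.toReal)
    (x : Lp 𝕜 p μ) {m : Ω → ℝ} (hmm : Measurable m) (hm : MemLp m p μ) (hxm : ∀ ω, ‖x ω‖ ≤ m ω) :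
    c * ∫ ω, m ω ^ (p.toReal - 1) * ‖T x ω‖ ∂μ ≤ V * ∫ ω, m ω ^ p.toReal ∂μ := by
  have hpr := toReal_gt_one h1 h2
  set r := p.toReal with hr
  have hm0 : ∀ ω, 0 ≤ m ω := fun ω => (norm_nonneg _).trans (hxm ω)
  have hmint : Integrable (fun ω => m ω ^ r) μ := by
    have := hm.integrable_norm_rpow (zero_lt_one.trans h1).ne' h2
    refine this.congr (Eventually.of_forall fun ω => ?_)
    simp only
    rw [Real.norm_of_nonneg (hm0 ω)]
  -- the function `m * sign(Tx)`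
  set sg : Ω → 𝕜 := fun ω => if T x ω = 0 then 1 else T x ω / ((‖T x ω‖ : ℝ) : 𝕜) with hsg
  have hTm : Measurable (T x : Ω → 𝕜) := (Lp.stronglyMeasurable (T x)).measurable
  have hsgm : Measurable sg := by
    apply Measurable.ite (hTm (measurableSet_singleton 0)) measurable_const
    exact hTm.div (RCLike.measurable_ofReal.comp hTm.norm)
  have hsg1 : ∀ ω, ‖sg ω‖ = 1 := by
    intro ω
    rw [hsg]; simp only
    split_ifs with h
    · exact norm_one
    · rw [norm_div, RCLike.norm_ofReal, abs_of_nonneg (norm_nonneg _), div_self]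
      exact norm_ne_zero_iff.2 h
  have hMmem : MemLp (fun ω => ((m ω : ℝ) : 𝕜) * sg ω) p μ := by
    refine MemLp.of_le_mul (c := 1) hm ?_ ?_
    · exact ((RCLike.measurable_ofReal.comp hmm).mul hsgm).aestronglyMeasurable
    · refine Eventually.of_forall fun ω => ?_
      rw [norm_mul, RCLike.norm_ofReal, hsg1, mul_one, one_mul, Real.norm_eq_abs]
  set Mf : Lp 𝕜 p μ := hMmem.toLp _ with hMf
  have hMc : (Mf : Ω → 𝕜) =ᵐ[μ] fun ω => ((m ω : ℝ) : 𝕜) * sg ω := MemLp.coeFn_toLp _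
  set G : Lp 𝕜 p μ → 𝕜 := fun f => JP r μ (Mf : Ω → 𝕜) (T f) with hG
  have hGadd : ∀ f g, G (f + g) = G f + G g := by
    intro f g
    rw [hG]; simp only
    rw [map_add, JP_add_right h1 h2]
  have hGsmul : ∀ (a : 𝕜) f, G (a • f) = a * G f := by
    intro a f
    rw [hG]; simp only
    rw [map_smul, JP_smul_right]
  have hGb : ∀ f, ‖G f‖ ≤ ‖Mf‖ ^ (r - 1) * ‖T‖ * ‖f‖ := by
    intro f
    calc ‖G f‖ ≤ ‖Mf‖ ^ (r - 1) * ‖T f‖ := JP_bound h1 h2 Mf (T f)
      _ ≤ ‖Mf‖ ^ (r - 1) * (‖T‖ * ‖f‖) := by gcongr; exact T.le_opNorm f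
      _ = _ := by ring
  have hnM : ∀ᵐ ω ∂μ, ‖Mf ω‖ = m ω := by
    filter_upwards [hMc] with ω e
    rw [e, norm_mul, RCLike.norm_ofReal, hsg1, mul_one, abs_of_nonneg (hm0 ω)]
  -- functions of modulus `m`
  have hfull : ∀ u : SimpleFunc Ω 𝕜, (∀ ω, ‖u ω‖ = 1) → c * ‖G (Lf u hm)‖ ≤ V * ∫ ω, m ω ^ r ∂μ := by
    intro u hu
    have k1 := H (Lf u hm)
    have hnf : ∀ᵐ ω ∂μ, ‖Lf u hm ω‖ = m ω := by
      filter_upwards [Lf_coe u hm] with ω e
      rw [e, norm_mul, RCLike.norm_ofReal, hu, one_mul, abs_of_nonneg (hm0 ω)]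
    have k2 : ‖Lf u hm‖ ^ r = ∫ ω, m ω ^ r ∂μ := by
      rw [norm_rpow_eq h1 h2]
      apply integral_congr_ae
      filter_upwards [hnf] with ω e
      rw [e]
    have k3 : ‖G (Lf u hm)‖ ≤ ∫ ω, ‖Lf u hm ω‖ ^ (r - 1) * ‖T (Lf u hm) ω‖ ∂μ := by
      refine (norm_JP_le h1 h2 Mf (T (Lf u hm))).trans (le_of_eq ?_)
      apply integral_congr_ae
      filter_upwards [hnf, hnM] with ω e e'
      rw [e, e']
    rw [k2] at k1
    exact (mul_le_mul_of_nonneg_left k3 hc).trans k1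
  -- approximation
  set h : Ω → 𝕜 := fun ω => x ω / ((m ω : ℝ) : 𝕜) with hh
  have hxmeas : Measurable (x : Ω → 𝕜) := (Lp.stronglyMeasurable x).measurable
  have hhm : Measurable h := hxmeas.div (RCLike.measurable_ofReal.comp hmm)
  have hh1 : ∀ ω, ‖h ω‖ ≤ 1 := by
    intro ω
    rw [hh]; simp only
    rw [norm_div, RCLike.norm_ofReal, abs_of_nonneg (hm0 ω)]
    exact div_le_one_of_le₀ (hxm ω) (hm0 ω)
  have hhx : ∀ ω, h ω * ((m ω : ℝ) : 𝕜) = x ω := by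
    intro ω
    rw [hh]; simp only
    rcases (hm0 ω).eq_or_lt with h0 | h0
    · have : x ω = 0 := by
        have := hxm ω
        rw [← h0] at this
        exact norm_le_zero_iff.1 this
      rw [this, ← h0]; simp
    · rw [div_mul_cancel₀]
      rw [Ne, RCLike.ofReal_eq_zero]; exact h0.ne'
  have hball : (0 : 𝕜) ∈ Metric.closedBall (0 : 𝕜) 1 := by simp
  set s : ℕ → SimpleFunc Ω 𝕜 := fun n => SimpleFunc.approxOn h hhm (Metric.closedBall (0 : 𝕜) 1) 0 hball n with hs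
  have hs1 : ∀ n ω, ‖s n ω‖ ≤ 1 := by
    intro n ω
    have := SimpleFunc.approxOn_mem hhm hball n ω
    simpa using this
  have hslim : ∀ ω, Tendsto (fun n => s n ω) atTop (𝓝 (h ω)) := by
    intro ω
    apply SimpleFunc.tendsto_approxOn hhm hball
    apply subset_closure
    simpa using hh1 ω
  have hdiff : Tendsto (fun n => ‖Lf (s n) hm - x‖ ^ r) atTop (𝓝 0) := by
    have e1 : ∀ n, ‖Lf (s n) hm - x‖ ^ r = ∫ ω, ‖s n ω * ((m ω : ℝ) : 𝕜) - x ω‖ ^ r ∂μ := by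
      intro n
      rw [norm_rpow_eq h1 h2]
      apply integral_congr_ae
      filter_upwards [Lp.coeFn_sub (Lf (s n) hm) x, Lf_coe (s n) hm] with ω e e'
      rw [e, Pi.sub_apply, e']
    simp_rw [e1]
    have : (0 : ℝ) = ∫ ω, (0 : ℝ) ∂μ := by simp
    rw [this]
    apply tendsto_integral_of_dominated_convergence (fun ω => 2 ^ r * m ω ^ r)
    · intro n
      have a1 : Measurable fun ω => s n ω * ((m ω : ℝ) : 𝕜) - x ω :=
        ((s n).measurable.mul (RCLike.measurable_ofReal.comp hmm)).sub hxmeas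
      exact (a1.norm.pow_const r).aestronglyMeasurable
    · exact hmint.const_mul _
    · intro n
      refine Eventually.of_forall fun ω => ?_
      rw [Real.norm_of_nonneg (by positivity), ← Real.mul_rpow (by norm_num) (hm0 ω)]
      apply Real.rpow_le_rpow (norm_nonneg _) _ (by linarith)
      calc ‖s n ω * ((m ω : ℝ) : 𝕜) - x ω‖ ≤ ‖s n ω * ((m ω : ℝ) : 𝕜)‖ + ‖x ω‖ := norm_sub_le _ _
        _ ≤ 1 * m ω + m ω := by
          rw [norm_mul, RCLike.norm_ofReal, abs_of_nonneg (hm0 ω)]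
          have := hs1 n ω
          have := hm0 ω
          gcongr
          exact hxm ω
        _ = 2 * m ω := by ring
    · refine Eventually.of_forall fun ω => ?_
      have a1 : Tendsto (fun n => s n ω * ((m ω : ℝ) : 𝕜) - x ω) atTop (𝓝 (h ω * ((m ω : ℝ) : 𝕜) - x ω)) :=
        ((hslim ω).mul_const _).sub_const _
      rw [hhx, sub_self] at a1
      have a2 := (a1.norm).rpow_const (p := r) (Or.inr (by linarith))
      rwa [norm_zero, Real.zero_rpow (by linarith)] at a2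
  have hdiff1 : Tendsto (fun n => ‖Lf (s n) hm - x‖) atTop (𝓝 0) := by
    have := hdiff.rpow_const (p := 1 / r) (Or.inr (by positivity))
    rw [Real.zero_rpow (by positivity)] at this
    refine this.congr fun n => ?_
    rw [← Real.rpow_mul (norm_nonneg _)]
    have : r * (1 / r) = 1 := by field_simp
    rw [this, Real.rpow_one]
  have hle : ∀ n, c * ‖G x‖ ≤ V * (∫ ω, m ω ^ r ∂μ) + c * (‖Mf‖ ^ (r - 1) * ‖T‖ * ‖Lf (s n) hm - x‖) := by
    intro n
    obtain ⟨u, hu1, hu2⟩ := exists_unimod (s n) (hs1 n) hm G hGadd hGsmul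
    have k1 := hfull u hu1
    have k2 : ‖G x‖ ≤ ‖G (Lf (s n) hm)‖ + ‖Mf‖ ^ (r - 1) * ‖T‖ * ‖Lf (s n) hm - x‖ := by
      have e1 : G (Lf (s n) hm) = G (Lf (s n) hm - x) + G x := by
        rw [← hGadd, sub_add_cancel]
      have e2 : G x = G (Lf (s n) hm) - G (Lf (s n) hm - x) := by rw [e1]; ring
      calc ‖G x‖ = ‖G (Lf (s n) hm) - G (Lf (s n) hm - x)‖ := by rw [← e2]
        _ ≤ ‖G (Lf (s n) hm)‖ + ‖G (Lf (s n) hm - x)‖ := norm_sub_le _ _
        _ ≤ _ := by gcongr; exact hGb _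
    have k3 : c * ‖G (Lf (s n) hm)‖ ≤ V * ∫ ω, m ω ^ r ∂μ := (mul_le_mul_of_nonneg_left hu2 hc).trans k1
    have k4 := mul_le_mul_of_nonneg_left k2 hc
    rw [mul_add] at k4
    linarith
  have hlim : Tendsto (fun n => V * (∫ ω, m ω ^ r ∂μ) + c * (‖Mf‖ ^ (r - 1) * ‖T‖ * ‖Lf (s n) hm - x‖)) atTop
      (𝓝 (V * (∫ ω, m ω ^ r ∂μ) + c * (‖Mf‖ ^ (r - 1) * ‖T‖ * 0))) :=
    ((hdiff1.const_mul _).const_mul _).const_add _
  rw [mul_zero, mul_zero, add_zero] at hlim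
  have hfin := ge_of_tendsto' hlim hle
  have hGx : ∫ ω, m ω ^ (r - 1) * ‖T x ω‖ ∂μ = ‖G x‖ := by
    have e1 : G x = ((∫ ω, m ω ^ (r - 1) * ‖T x ω‖ ∂μ : ℝ) : 𝕜) := by
      rw [hG]; simp only
      unfold JP
      rw [← integral_ofReal]
      apply integral_congr_ae
      filter_upwards [hMc, hnM] with ω e e'
      rw [e']
      rw [e, map_mul, RCLike.conj_ofReal]
      have e2 : starRingEnd 𝕜 (sg ω) * T x ω = ((‖T x ω‖ : ℝ) : 𝕜) := by
        rw [hsg]; simp only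
        split_ifs with h0
        · rw [h0]; simp
        · have h' : ((‖T x ω‖ : ℝ) : 𝕜) ≠ 0 := by
            rw [Ne, RCLike.ofReal_eq_zero]; exact norm_ne_zero_iff.2 h0
          rw [map_div₀, RCLike.conj_ofReal, div_mul_eq_mul_div, RCLike.conj_mul, div_eq_iff h']
          ring
      rw [mul_assoc, e2]
      have e3 := norm_pow_mul_self hpr (m ω)
      rw [Real.norm_of_nonneg (hm0 ω)] at e3
      rw [← e3]
      push_cast
      ring
    rw [e1, RCLike.norm_ofReal, abs_of_nonneg]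
    exact integral_nonneg fun ω => mul_nonneg (Real.rpow_nonneg (hm0 ω) _) (norm_nonneg _)
  rw [hGx]
  exact hfin

/-- `‖T‖ κ_p` is bounded by the absolute numerical radius. -/
theorem step_kappa [Fact (1 ≤ p)] (h1 : 1 < p) (h2 : p ≠ ∞) (T : Lp 𝕜 p μ →L[𝕜] Lp 𝕜 p μ) {c V : ℝ}
    (hc : 0 ≤ c) (hV : 0 ≤ V)
    (H : ∀ f : Lp 𝕜 p μ, c * ∫ ω, ‖f ω‖ ^ (p.toReal - 1) * ‖T f ω‖ ∂μ ≤ V * ‖f‖ ^ p.toReal) :
    c * kappa p.toReal * ‖T‖ ≤ V := by
  have hpr := toReal_gt_one h1 h2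
  have hk := kappa_pos hpr
  set r := p.toReal with hr
  have hr0 : 0 < r := by linarith
  rcases hc.eq_or_lt with rfl | hc0
  · rw [zero_mul, zero_mul]; exact hV
  have main : ∀ x : Lp 𝕜 p μ, c * kappa r * ‖T x‖ ≤ V * ‖x‖ := by
    intro x
    rcases eq_or_ne (T x) 0 with hT | hT
    · rw [hT, norm_zero, mul_zero]; positivity
    have hN : 0 < ‖T x‖ := norm_pos_iff.2 hT
    have hx : 0 < ‖x‖ := by
      rw [norm_pos_iff]; rintro rfl; exact hT (map_zero T)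
    obtain ⟨τ, hτ⟩ : ∃ τ : ℝ, τ = (r - 1) ^ (1 / r) * ‖x‖ / ‖T x‖ := ⟨_, rfl⟩
    have hr1 : 0 < r - 1 := by linarith
    have hτ0 : 0 < τ := by rw [hτ]; positivity
    have hτr : τ ^ r * ‖T x‖ ^ r = (r - 1) * ‖x‖ ^ r := by
      rw [← Real.mul_rpow hτ0.le hN.le]
      have : τ * ‖T x‖ = (r - 1) ^ (1 / r) * ‖x‖ := by rw [hτ]; field_simp
      rw [this, Real.mul_rpow (by positivity) hx.le, ← Real.rpow_mul hr1.le]
      have : 1 / r * r = 1 := by field_simp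
      rw [this, Real.rpow_one]
    have hxmeas : Measurable (x : Ω → 𝕜) := (Lp.stronglyMeasurable x).measurable
    have hTm : Measurable (T x : Ω → 𝕜) := (Lp.stronglyMeasurable (T x)).measurable
    set m : Ω → ℝ := fun ω => max ‖x ω‖ (τ * ‖T x ω‖) with hmdef
    have hmm : Measurable m := hxmeas.norm.max (hTm.norm.const_mul τ)
    have hm : MemLp m p μ := by
      have h3 : MemLp (fun ω => ‖x ω‖ + τ * ‖T x ω‖) p μ := (Lp.memLp x).norm.add ((Lp.memLp (T x)).norm.const_mul τ)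
      refine h3.mono hmm.aestronglyMeasurable (Eventually.of_forall fun ω => ?_)
      have a1 : 0 ≤ m ω := le_max_of_le_left (norm_nonneg _)
      have a2 : 0 ≤ τ * ‖T x ω‖ := by positivity
      rw [Real.norm_of_nonneg a1, Real.norm_of_nonneg (by positivity)]
      exact max_le (by linarith) (by linarith [norm_nonneg (x ω)])
    have key := interval_le h1 h2 T hc hV H x hmm hm (fun ω => le_max_left _ _)
    rw [← hr] at key
    have i1 := integrable_rpow h1 h2 x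
    have i2 := integrable_rpow h1 h2 (T x)
    rw [← hr] at i1 i2
    have hmint : Integrable (fun ω => m ω ^ r) μ := by
      have := hm.integrable_norm_rpow (zero_lt_one.trans h1).ne' h2
      refine this.congr (Eventually.of_forall fun ω => ?_)
      simp only
      rw [Real.norm_of_nonneg (le_max_of_le_left (norm_nonneg _))]
    have u1 : ∫ ω, m ω ^ r ∂μ ≤ r * ‖x‖ ^ r := by
      have e1 : r * ‖x‖ ^ r = ‖x‖ ^ r + τ ^ r * ‖T x‖ ^ r := by rw [hτr]; ring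
      rw [e1, hr, norm_rpow_eq h1 h2, norm_rpow_eq h1 h2, ← hr, ← integral_const_mul, ← integral_add i1 (i2.const_mul _)]
      apply integral_mono hmint (i1.add (i2.const_mul _))
      intro ω
      simp only [Pi.add_apply]
      have a1 : 0 ≤ ‖x ω‖ ^ r := by positivity
      have a2 : 0 ≤ τ ^ r * ‖T x ω‖ ^ r := by positivity
      rcases max_choice ‖x ω‖ (τ * ‖T x ω‖) with h | h
      · rw [hmdef]; simp only; rw [h]; linarith
      · rw [hmdef]; simp only; rw [h, Real.mul_rpow hτ0.le (norm_nonneg _)]; linarith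
    have u2 : τ ^ (r - 1) * ‖T x‖ ^ r ≤ ∫ ω, m ω ^ (r - 1) * ‖T x ω‖ ∂μ := by
      rw [hr, norm_rpow_eq h1 h2, ← hr, ← integral_const_mul]
      have hint : Integrable (fun ω => m ω ^ (r - 1) * ‖T x ω‖) μ := by
        refine Integrable.mono' (hmint.add i2) ?_ ?_
        · exact ((hmm.pow_const (r - 1)).mul hTm.norm).aestronglyMeasurable
        · refine Eventually.of_forall fun ω => ?_
          have a1 : 0 ≤ m ω := le_max_of_le_left (norm_nonneg _)
          rw [Real.norm_of_nonneg (by positivity)]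
          exact aux_young hpr a1 (norm_nonneg _)
      apply integral_mono (i2.const_mul _) hint
      intro ω
      simp only
      have a1 : (τ * ‖T x ω‖) ^ (r - 1) ≤ m ω ^ (r - 1) := Real.rpow_le_rpow (by positivity) (le_max_right _ _) (by linarith)
      rw [Real.mul_rpow hτ0.le (norm_nonneg _)] at a1
      have a2 : ‖T x ω‖ ^ r = ‖T x ω‖ ^ (r - 1) * ‖T x ω‖ := by
        rcases eq_or_ne ‖T x ω‖ 0 with h0 | h0
        · rw [h0, Real.zero_rpow (by linarith), mul_zero]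
        · rw [← Real.rpow_add_one h0]; congr 1; ring
      rw [a2, ← mul_assoc]
      gcongr
    have u3 : c * (τ ^ (r - 1) * ‖T x‖ ^ r) ≤ V * (r * ‖x‖ ^ r) := by
      calc _ ≤ c * ∫ ω, m ω ^ (r - 1) * ‖T x ω‖ ∂μ := by gcongr
        _ ≤ V * ∫ ω, m ω ^ r ∂μ := key
        _ ≤ _ := by gcongr
    have u4 : τ ^ (r - 1) * ‖T x‖ ^ r = (r - 1) ^ ((r - 1) / r) * ‖x‖ ^ (r - 1) * ‖T x‖ := by
      have e1 : ‖T x‖ ^ r = ‖T x‖ ^ (r - 1) * ‖T x‖ := by
        rw [← Real.rpow_add_one hN.ne']; congr 1; ring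
      rw [e1, ← mul_assoc, ← Real.mul_rpow hτ0.le hN.le]
      have : τ * ‖T x‖ = (r - 1) ^ (1 / r) * ‖x‖ := by rw [hτ]; field_simp
      rw [this, Real.mul_rpow (by positivity) hx.le, ← Real.rpow_mul hr1.le]
      congr 3; field_simp
    have hkap : kappa r = (r - 1) ^ ((r - 1) / r) / r := by
      unfold kappa
      rw [Real.div_rpow hr0.le hr1.le, div_eq_div_iff (by positivity) hr0.ne']
      have : r ^ (1 / r) * r ^ ((r - 1) / r) = r := by
        rw [← Real.rpow_add hr0]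
        have : 1 / r + (r - 1) / r = 1 := by field_simp; ring
        rw [this, Real.rpow_one]
      field_simp
      rw [this]
    have e4 : ‖x‖ ^ r = ‖x‖ ^ (r - 1) * ‖x‖ := by
      rw [← Real.rpow_add_one hx.ne']; congr 1; ring
    rw [u4, e4] at u3
    rw [hkap]
    have hx1 : 0 < ‖x‖ ^ (r - 1) := by positivity
    have u5 : (c * (r - 1) ^ ((r - 1) / r) * ‖T x‖) * ‖x‖ ^ (r - 1) ≤ (V * r * ‖x‖) * ‖x‖ ^ (r - 1) := by
      calc _ = c * ((r - 1) ^ ((r - 1) / r) * ‖x‖ ^ (r - 1) * ‖T x‖) := by ring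
        _ ≤ _ := u3
        _ = _ := by ring
    have u6 := le_of_mul_le_mul_right u5 hx1
    have : c * ((r - 1) ^ ((r - 1) / r) / r) * ‖T x‖ = (c * (r - 1) ^ ((r - 1) / r) * ‖T x‖) / r := by ring
    rw [this, div_le_iff₀ hr0]
    linarith
  have hck : 0 < c * kappa r := by positivity
  have : ‖T‖ ≤ V / (c * kappa r) := by
    apply T.opNorm_le_bound (by positivity)
    intro x
    rw [div_mul_eq_mul_div, le_div_iff₀ hck]
    linarith [main x]
  rw [le_div_iff₀ hck] at this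
  linarith

end Pool.Agent.Work.MP_95d40a_an
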