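import Pool.Agent.Work.MP_95d40a_an.Block
import Pool.Agent.Work.MP_95d40a_an.StepK
import Pool.Agent.Work.MP_95d40a_an.Dim

set_option autoImplicit false

open MeasureTheory Filter Topology
open scoped ENNReal RealInnerProductSpace

namespace Pool.Agent.Work.MP_95d40a_an

variable {Ω : Type*} [MeasurableSpace Ω] {μ : Measure Ω} {p : ℝ≥0∞} {𝕜 : Type*} [RCLike 𝕜]

lemma rot_bound {r : ℝ} (hr : 1 < r) (X Y : ℝ) : |jj r X * Y - jj r Y * X| ≤ Mp r * (|X| ^ r + |Y| ^ r) := by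
  wlog h : |Y| ≤ |X| generalizing X Y
  · rw [abs_sub_comm, add_comm (|X| ^ r)]
    exact this Y X (le_of_not_ge h)
  rcases eq_or_ne X 0 with rfl | hX
  · have : Y = 0 := by simpa using h
    subst this
    have : jj r 0 = 0 := by unfold jj; simp
    rw [this]
    simp only [abs_zero, mul_zero, sub_self]
    rw [Real.zero_rpow (by linarith)]; simp
  have hX0 : 0 < |X| := abs_pos.2 hX
  obtain ⟨t, ht⟩ : ∃ t : ℝ, t = |Y| / |X| := ⟨_, rfl⟩
  have ht0 : 0 ≤ t := by rw [ht]; positivity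
  have ht1 : t ≤ 1 := by rw [ht]; exact div_le_one_of_le₀ h hX0.le
  have hY : |Y| = t * |X| := by rw [ht]; field_simp
  have key := le_Mp hr ht0 ht1
  have e0 : jj r X * Y - jj r Y * X = X * Y * (|X| ^ (r - 2) - |Y| ^ (r - 2)) := by unfold jj; ring
  have e1 : |jj r X * Y - jj r Y * X| = |X| ^ r * |t ^ (r - 1) - t| := by
    rw [e0, abs_mul, abs_mul]
    rcases ht0.eq_or_lt with h0 | h0
    · rw [hY, ← h0]
      rw [Real.zero_rpow (by linarith : r - 1 ≠ 0)]; simp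
    · have hY0 : 0 < |Y| := by rw [hY]; positivity
      have e2 : |X| * |Y| * |(|X| ^ (r - 2) - |Y| ^ (r - 2))| = |(|X| * |Y| * (|X| ^ (r - 2) - |Y| ^ (r - 2)))| := by
        rw [abs_mul, abs_mul, abs_abs, abs_abs]
      have e3 : |X| ^ r * |t ^ (r - 1) - t| = |(|X| ^ r * (t ^ (r - 1) - t))| := by
        rw [abs_mul, abs_of_nonneg (by positivity : 0 ≤ |X| ^ r)]
      rw [e2, e3, abs_eq_abs]
      right
      have a1 : |X| ^ r = |X| ^ (r - 2) * |X| * |X| := by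
        rw [← Real.rpow_add_one hX0.ne', ← Real.rpow_add_one hX0.ne']; congr 1; ring
      have a2 : t ^ (r - 1) = t ^ (r - 2) * t := by
        rw [← Real.rpow_add_one h0.ne']; congr 1; ring
      rw [hY, Real.mul_rpow h0.le hX0.le, a1, a2]
      ring
  have e4 : |Y| ^ r = t ^ r * |X| ^ r := by rw [hY, Real.mul_rpow ht0 hX0.le]
  rw [e1, e4]
  have : 0 ≤ |X| ^ r := by positivity
  calc |X| ^ r * |t ^ (r - 1) - t| ≤ |X| ^ r * (Mp r * (1 + t ^ r)) := by gcongr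
    _ = _ := by ring

lemma JP_disj {r : ℝ} (x y : Lp 𝕜 p μ) (h : ∀ᵐ ω ∂μ, x ω = 0 ∨ y ω = 0) : JP r μ (x : Ω → 𝕜) y = 0 := by
  unfold JP
  have : ∫ ω, ((‖x ω‖ ^ (r - 2) : ℝ) : 𝕜) * (starRingEnd 𝕜 (x ω) * y ω) ∂μ = ∫ ω, (0 : 𝕜) ∂μ := by
    apply integral_congr_ae
    filter_upwards [h] with ω h'
    rcases h' with h0 | h0 <;> rw [h0] <;> simp
  rw [this, integral_zero]

lemma le_numIndex {X : Type*} [NormedAddCommGroup X] [NormedSpace 𝕜 X] [Nontrivial X] {c : ℝ}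
    (h : ∀ T : X →L[𝕜] X, c * ‖T‖ ≤ numRadius T) : c ≤ numIndex 𝕜 X := by
  apply le_csInf
  · exact ⟨_, ContinuousLinearMap.id 𝕜 X, ContinuousLinearMap.norm_id, rfl⟩
  · rintro _ ⟨T, hT, rfl⟩
    have := h T
    rwa [hT, mul_one] at this

/-- lower bound for real scalars -/
theorem real_lower [Fact (1 ≤ p)] (h1 : 1 < p) (h2 : p ≠ ∞) (h3 : p ≠ 2) [Nontrivial (Lp ℝ p μ)] :
    kappa p.toReal * Mp p.toReal ≤ numIndex ℝ (Lp ℝ p μ) := by
  have hpr := toReal_gt_one h1 h2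
  have hr2 : p.toReal ≠ 2 := by
    intro h; apply h3
    rw [← ENNReal.ofReal_toReal h2, h]; simp
  apply le_numIndex
  intro T
  have := step_kappa h1 h2 T (Mp_pos hpr hr2).le (numRadius_nonneg T) (abs_radius_le h1 h2 h3 T)
  linarith

section two

variable {A B : Set Ω}

/-- Two dimensional real `L_p` spaces have numerical index `M_p`. -/
theorem dim_two [Fact (1 ≤ p)] (h1 : 1 < p) (h2 : p ≠ ∞) (h3 : p ≠ 2) (hrank : Module.rank ℝ (Lp ℝ p μ) = 2) :
    numIndex ℝ (Lp ℝ p μ) = Mp p.toReal := by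
  have hpr := toReal_gt_one h1 h2
  have hr2 : p.toReal ≠ 2 := by
    intro h; apply h3
    rw [← ENNReal.ofReal_toReal h2, h]; simp
  have hM := Mp_pos hpr hr2
  obtain ⟨S, a1, a2, a3, a4⟩ := dis_of_rank (𝕜 := ℝ) (p := p) (μ := μ) h2 2 (by rw [hrank]; norm_num)
  obtain ⟨A, hAe⟩ : ∃ A, A = S 0 := ⟨_, rfl⟩
  obtain ⟨B, hBe⟩ : ∃ B, B = S 1 := ⟨_, rfl⟩
  have hA : MeasurableSet A := by rw [hAe]; exact a1 0
  have hB : MeasurableSet B := by rw [hBe]; exact a1 1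
  have hμA : μ A ≠ ∞ := by rw [hAe]; exact a2 0
  have hμB : μ B ≠ ∞ := by rw [hBe]; exact a2 1
  have hA0 : μ A ≠ 0 := by rw [hAe]; exact a3 0
  have hB0 : μ B ≠ 0 := by rw [hBe]; exact a3 1
  have hd : Disjoint A B := by rw [hAe, hBe]; exact a4 0 1 (by decide)
  set r := p.toReal with hr
  have hr0 : 0 < r := by linarith
  set eA := ee ℝ p hA hμA with heA
  set eB := ee ℝ p hB hμB with heB
  have hnA : ‖eA‖ = 1 := norm_ee h1 h2 hA hμA hA0
  have hnB : ‖eB‖ = 1 := norm_ee h1 h2 hB hμB hB0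
  have hn2 : ∀ X Y : ℝ, ‖X • eA + Y • eB‖ ^ r = |X| ^ r + |Y| ^ r := fun X Y =>
    norm_two h1 h2 hA hμA hA0 hB hμB hB0 hd X Y
  have hdis : ∀ᵐ ω ∂μ, (eA : Ω → ℝ) ω = 0 ∨ (eB : Ω → ℝ) ω = 0 := ee_disj hA hμA hB hμB hd
  have hdis2 : ∀ X Y : ℝ, ∀ᵐ ω ∂μ, (X • eA : Lp ℝ p μ) ω = 0 ∨ (Y • eB : Lp ℝ p μ) ω = 0 := by
    intro X Y
    filter_upwards [hdis, Lp.coeFn_smul X eA, Lp.coeFn_smul Y eB] with ω e1 e2 e3
    rw [e2, e3, Pi.smul_apply, Pi.smul_apply]
    rcases e1 with h | h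
    · left; rw [h, smul_zero]
    · right; rw [h, smul_zero]
  have jAA : JP r μ (eA : Ω → ℝ) eA = 1 := by rw [JP_self h1 h2, hnA, Real.one_rpow]; simp
  have jBB : JP r μ (eB : Ω → ℝ) eB = 1 := by rw [JP_self h1 h2, hnB, Real.one_rpow]; simp
  have jAB : JP r μ (eA : Ω → ℝ) eB = 0 := JP_disj _ _ hdis
  have jBA : JP r μ (eB : Ω → ℝ) eA = 0 := JP_disj _ _ (hdis.mono fun ω h => h.symm)
  -- coordinates
  have hspan : ∀ x : Lp ℝ p μ, ∃ X Y : ℝ, x = X • eA + Y • eB := by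
    have hli : LinearIndependent ℝ ![eA, eB] := by
      rw [LinearIndependent.pair_iff]
      intro X Y h0
      have h5 := hn2 X Y
      rw [h0, norm_zero, Real.zero_rpow hr0.ne'] at h5
      have n1 : 0 ≤ |X| ^ r := by positivity
      have n2 : 0 ≤ |Y| ^ r := by positivity
      have z1 : |X| ^ r = 0 := by linarith
      have z2 : |Y| ^ r = 0 := by linarith
      rw [Real.rpow_eq_zero (abs_nonneg _) hr0.ne', abs_eq_zero] at z1 z2
      exact ⟨z1, z2⟩
    have hfin : Module.finrank ℝ (Lp ℝ p μ) = 2 := by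
      unfold Module.finrank; rw [hrank]; simp
    have hfd : FiniteDimensional ℝ (Lp ℝ p μ) := Module.finite_of_finrank_eq_succ hfin
    have htop := hli.span_eq_top_of_card_eq_finrank' (by rw [hfin]; simp)
    intro x
    have hx : x ∈ Submodule.span ℝ (Set.range ![eA, eB]) := by rw [htop]; trivial
    have hrange : Set.range ![eA, eB] = {eA, eB} := by
      ext z; simp [or_comm]
    rw [hrange, Submodule.mem_span_pair] at hx
    obtain ⟨X, Y, h⟩ := hx
    exact ⟨X, Y, h.symm⟩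
  have hnt : Nontrivial (Lp ℝ p μ) := ⟨⟨eA, 0, fun h => by
    rw [h, norm_zero] at hnA; exact zero_ne_one hnA⟩⟩
  apply le_antisymm
  · -- the rotation
    obtain ⟨aA, haA⟩ := exists_alpha (𝕜 := ℝ) (p := p) hA hμA
    obtain ⟨aB, haB⟩ := exists_alpha (𝕜 := ℝ) (p := p) hB hμB
    have v1 : aA eA = 1 := by rw [haA]; exact alpha_ee_self (𝕜 := ℝ) (p := p) hA hμA hA0
    have v2 : aB eB = 1 := by rw [haB]; exact alpha_ee_self (𝕜 := ℝ) (p := p) hB hμB hB0
    have v4 : aA eB = 0 := by rw [haA, heB, alpha_ee_disj (𝕜 := ℝ) (p := p) hB hA hμB hd.symm, mul_zero]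
    have v6 : aB eA = 0 := by rw [haB, heA, alpha_ee_disj (𝕜 := ℝ) (p := p) hA hB hμA hd, mul_zero]
    obtain ⟨T, hT⟩ : ∃ T : Lp ℝ p μ →L[ℝ] Lp ℝ p μ, T = aB.smulRight eA - aA.smulRight eB := ⟨_, rfl⟩
    have hTx : ∀ X Y : ℝ, T (X • eA + Y • eB) = Y • eA - X • eB := by
      intro X Y
      have : T (X • eA + Y • eB) = aB (X • eA + Y • eB) • eA - aA (X • eA + Y • eB) • eB := by rw [hT]; rfl
      rw [this, map_add, map_add, map_smul, map_smul, map_smul, map_smul, v1, v2, v4, v6]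
      simp
    have hrad := numIndex_mul_norm_le (𝕜 := ℝ) T (Mp r) hM.le (by
      intro x φ hx hφ hφx
      obtain ⟨X, Y, rfl⟩ := hspan x
      have h5 := hn2 X Y
      rw [hx, Real.one_rpow] at h5
      rw [gen_norming h1 h2 _ _ φ hx hφ hφx, JP_add_left h1 h2 _ _ _ (hdis2 X Y), JP_smul_left, JP_smul_left, hTx]
      have e1 : JP r μ (eA : Ω → ℝ) (Y • eA - X • eB : Lp ℝ p μ) = Y := by
        rw [sub_eq_add_neg, ← neg_smul, JP_add_right h1 h2, JP_smul_right, JP_smul_right, jAA, jAB]; ring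
      have e2 : JP r μ (eB : Ω → ℝ) (Y • eA - X • eB : Lp ℝ p μ) = -X := by
        rw [sub_eq_add_neg, ← neg_smul, JP_add_right h1 h2, JP_smul_right, JP_smul_right, jBA, jBB]; ring
      rw [e1, e2]
      simp only [RCLike.ofReal_real_eq_id, id, starRingEnd_apply, star_trivial, Real.norm_eq_abs]
      have := rot_bound hpr X Y
      rw [← h5, mul_one] at this
      calc _ = |jj r X * Y - jj r Y * X| := by unfold jj; congr 1; ring
        _ ≤ _ := this)
    have hT1 : 1 ≤ ‖T‖ := by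
      have h5 : T eA = -eB := by
        have := hTx 1 0
        simpa using this
      have h6 := T.le_opNorm eA
      rw [h5, norm_neg, hnA, hnB, mul_one] at h6
      exact h6
    have h0 : 0 ≤ numIndex ℝ (Lp ℝ p μ) := by
      apply Real.sInf_nonneg
      rintro _ ⟨T', _, rfl⟩
      exact numRadius_nonneg T'
    calc numIndex ℝ (Lp ℝ p μ) = numIndex ℝ (Lp ℝ p μ) * 1 := (mul_one _).symm
      _ ≤ numIndex ℝ (Lp ℝ p μ) * ‖T‖ := by gcongr
      _ ≤ Mp r := hrad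
  · -- every operator
    apply le_numIndex
    intro T
    obtain ⟨a, d, hTA⟩ := hspan (T eA)
    obtain ⟨c, b, hTB⟩ := hspan (T eB)
    obtain ⟨v, hv⟩ : ∃ v, v = numRadius T := ⟨_, rfl⟩
    have hv0 : 0 ≤ v := by rw [hv]; exact numRadius_nonneg T
    have k1 : JP r μ (eA : Ω → ℝ) (T eA) = a := by
      rw [hTA, JP_add_right h1 h2, JP_smul_right, JP_smul_right, jAA, jAB]; ring
    have k2 : JP r μ (eB : Ω → ℝ) (T eA) = d := by
      rw [hTA, JP_add_right h1 h2, JP_smul_right, JP_smul_right, jBA, jBB]; ring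
    have k3 : JP r μ (eA : Ω → ℝ) (T eB) = c := by
      rw [hTB, JP_add_right h1 h2, JP_smul_right, JP_smul_right, jAA, jAB]; ring
    have k4 : JP r μ (eB : Ω → ℝ) (T eB) = b := by
      rw [hTB, JP_add_right h1 h2, JP_smul_right, JP_smul_right, jBA, jBB]; ring
    have H : ∀ X Y : ℝ, |a * |X| ^ r + c * (jj r X * Y) + d * (jj r Y * X) + b * |Y| ^ r| ≤ v * (|X| ^ r + |Y| ^ r) := by
      intro X Y
      have key := block_bound h1 h2 T eA eB hdis2 X Y
      simp only [RCLike.ofReal_real_eq_id, id, starRingEnd_apply, star_trivial, Real.norm_eq_abs] at key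
      rw [← hr, k1, k2, k3, k4, hnA, hnB, Real.one_rpow, mul_one, mul_one, ← hv] at key
      have jX : |X| ^ (r - 2) * X = jj r X := rfl
      have jY : |Y| ^ (r - 2) * Y = jj r Y := rfl
      rw [jX, jY] at key
      have e := jj_mul_self (x := X) hpr
      have e' := jj_mul_self (x := Y) hpr
      rw [← e, ← e'] at key ⊢
      calc _ = |jj r X * (X * a + Y * c) + jj r Y * (X * d + Y * b)| := by congr 1; ring
        _ ≤ _ := key
    obtain ⟨q, hpq⟩ : ∃ q, r.HolderConjugate q := ⟨_, Real.HolderConjugate.conjExponent hpr⟩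
    have two := two_main hpq hr2 H
    have main : ∀ x : Lp ℝ p μ, Mp r * ‖T x‖ ≤ v * ‖x‖ := by
      intro x
      rcases eq_or_ne (T x) 0 with hT | hT
      · rw [hT, norm_zero, mul_zero]; positivity
      have hW : 0 < ‖T x‖ := norm_pos_iff.2 hT
      have hx : 0 < ‖x‖ := by
        rw [norm_pos_iff]; rintro rfl; exact hT (map_zero T)
      obtain ⟨X, Y, hxe⟩ := hspan x
      obtain ⟨P, hP⟩ : ∃ P, P = a * X + c * Y := ⟨_, rfl⟩
      obtain ⟨Q, hQ⟩ : ∃ Q, Q = d * X + b * Y := ⟨_, rfl⟩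
      have hTx : T x = P • eA + Q • eB := by
        rw [hxe, map_add, map_smul, map_smul, hTA, hTB, hP, hQ]
        module
      have n1 : |X| ^ r + |Y| ^ r = ‖x‖ ^ r := by rw [hxe]; exact (hn2 X Y).symm
      have n2 : |P| ^ r + |Q| ^ r = ‖T x‖ ^ r := by rw [hTx]; exact (hn2 P Q).symm
      have hW1 : 0 < ‖T x‖ ^ (r - 1) := by positivity
      have key := two (X / ‖x‖) (Y / ‖x‖) (jj r P / ‖T x‖ ^ (r - 1)) (jj r Q / ‖T x‖ ^ (r - 1))
      have e1 : |X / ‖x‖| ^ r + |Y / ‖x‖| ^ r = 1 := by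
        rw [abs_div, abs_div, abs_of_pos hx, Real.div_rpow (abs_nonneg _) hx.le, Real.div_rpow (abs_nonneg _) hx.le,
          ← add_div, n1, div_self (by positivity)]
      have hqc : ∀ z : ℝ, |jj r z / ‖T x‖ ^ (r - 1)| ^ q = |z| ^ r / ‖T x‖ ^ r := by
        intro z
        rw [abs_div, abs_of_pos hW1, Real.div_rpow (abs_nonneg _) hW1.le, abs_jj_q hpr hpq.conjugate_eq,
          ← Real.rpow_mul hW.le, hpq.sub_one_mul_conj]
      have e2 : |jj r P / ‖T x‖ ^ (r - 1)| ^ q + |jj r Q / ‖T x‖ ^ (r - 1)| ^ q = 1 := by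
        rw [hqc, hqc, ← add_div, n2, div_self (by positivity)]
      rw [e1, e2] at key
      have e3 : 1 / r + 1 / q = 1 := by
        have := hpq.inv_add_inv_eq_one
        rw [one_div, one_div]; exact this
      rw [e3, mul_one] at key
      have e4 : ‖T x‖ / ‖x‖ ≤ |a| * (|jj r P / ‖T x‖ ^ (r - 1)| * |X / ‖x‖|) +
          |c| * (|jj r P / ‖T x‖ ^ (r - 1)| * |Y / ‖x‖|) + |d| * (|jj r Q / ‖T x‖ ^ (r - 1)| * |X / ‖x‖|) +
          |b| * (|jj r Q / ‖T x‖ ^ (r - 1)| * |Y / ‖x‖|) := by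
        have s1 : ‖T x‖ / ‖x‖ = a * (jj r P / ‖T x‖ ^ (r - 1) * (X / ‖x‖)) +
          c * (jj r P / ‖T x‖ ^ (r - 1) * (Y / ‖x‖)) + d * (jj r Q / ‖T x‖ ^ (r - 1) * (X / ‖x‖)) +
          b * (jj r Q / ‖T x‖ ^ (r - 1) * (Y / ‖x‖)) := by
          have s2 : a * (jj r P / ‖T x‖ ^ (r - 1) * (X / ‖x‖)) +
            c * (jj r P / ‖T x‖ ^ (r - 1) * (Y / ‖x‖)) + d * (jj r Q / ‖T x‖ ^ (r - 1) * (X / ‖x‖)) +
            b * (jj r Q / ‖T x‖ ^ (r - 1) * (Y / ‖x‖)) =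
            (jj r P * (a * X + c * Y) + jj r Q * (d * X + b * Y)) / (‖T x‖ ^ (r - 1) * ‖x‖) := by
            field_simp; ring
          rw [s2, ← hP, ← hQ, jj_mul_self hpr, jj_mul_self hpr, n2, div_eq_div_iff hx.ne' (by positivity)]
          have : ‖T x‖ ^ r = ‖T x‖ ^ (r - 1) * ‖T x‖ := by
            rw [← Real.rpow_add_one hW.ne']; congr 1; ring
          rw [this]; ring
        have hab : ∀ u w z : ℝ, u * (w * z) ≤ |u| * (|w| * |z|) := fun u w z => by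
          rw [← abs_mul, ← abs_mul]; exact le_abs_self _
        rw [s1]
        linarith [hab a (jj r P / ‖T x‖ ^ (r - 1)) (X / ‖x‖), hab c (jj r P / ‖T x‖ ^ (r - 1)) (Y / ‖x‖),
          hab d (jj r Q / ‖T x‖ ^ (r - 1)) (X / ‖x‖), hab b (jj r Q / ‖T x‖ ^ (r - 1)) (Y / ‖x‖)]
      have e5 : Mp r * (‖T x‖ / ‖x‖) ≤ v := (mul_le_mul_of_nonneg_left e4 hM.le).trans key
      have e6 : Mp r * (‖T x‖ / ‖x‖) = Mp r * ‖T x‖ / ‖x‖ := by ring
      rwa [e6, div_le_iff₀ hx] at e5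
    have : ‖T‖ ≤ v / Mp r := by
      apply T.opNorm_le_bound (by positivity)
      intro x
      rw [div_mul_eq_mul_div, le_div_iff₀ hM]
      linarith [main x]
    rw [le_div_iff₀ hM] at this
    rw [← hv]; linarith

end two

end Pool.Agent.Work.MP_95d40a_an
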