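import Pool.Agent.Work.MP_95d40a_an.Two

set_option autoImplicit false

namespace Pool.Agent.Work.MP_95d40a_an

lemma abs_add_abs_le_of {u P V : ℝ} (h1 : |u + P| ≤ V) (h2 : |u - P| ≤ V) : |u| + |P| ≤ V := by
  obtain ⟨a1, a2⟩ := abs_le.1 h1
  obtain ⟨b1, b2⟩ := abs_le.1 h2
  rcases abs_cases u with ⟨e, _⟩ | ⟨e, _⟩ <;> rcases abs_cases P with ⟨e', _⟩ | ⟨e', _⟩ <;> rw [e, e'] <;> linarith

lemma two_gen {p q l a b c d v x1 x2 y1 y2 : ℝ} (hpq : p.HolderConjugate q) (hl0 : 0 < l) (hl1 : l < 1)
    (hrt : l ^ p < l ^ q) (ha : |a| ≤ v) (hb : |b| ≤ v)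
    (h3 : |a + b * (l ^ q * l ^ p)| + |c * l ^ q + d * l ^ p| ≤ v * (1 + l ^ q * l ^ p))
    (h4 : |a * (l ^ q * l ^ p) + b| + |c * l ^ p + d * l ^ q| ≤ v * (1 + l ^ q * l ^ p)) :
    (l ^ q - l ^ p) / (1 + l ^ q * l ^ p) * (|a| * (|y1| * |x1|) + |c| * (|y1| * |x2|) + |d| * (|y2| * |x1|) +
      |b| * (|y2| * |x2|)) ≤ v * ((|x1| ^ p + |x2| ^ p) / p + (|y1| ^ q + |y2| ^ q) / q) := by
  have hp := hpq.pos
  have hq := hpq.symm.pos
  have k1 := schur hpq hl0 hl1.le (abs_nonneg x1) (abs_nonneg x2) (abs_nonneg y1) (abs_nonneg y2) hrt.le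
  have k2 := schur hpq hl0 hl1.le (abs_nonneg x2) (abs_nonneg x1) (abs_nonneg y2) (abs_nonneg y1) hrt.le
  have yg : ∀ x y : ℝ, |y| * |x| ≤ |x| ^ p / p + |y| ^ q / q := fun x y => by
    have := Real.young_inequality_of_nonneg (abs_nonneg x) (abs_nonneg y) hpq
    linarith
  refine two_core' (by positivity) hrt (Real.rpow_lt_one hl0.le hl1 hq) ha hb h3 h4 (by positivity) (by positivity)
    (by positivity) (by positivity) (by positivity) k1 ?_ ?_ ?_
  · have e : (|x1| ^ p + |x2| ^ p) / p + (|y1| ^ q + |y2| ^ q) / q =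
      (|x2| ^ p + |x1| ^ p) / p + (|y2| ^ q + |y1| ^ q) / q := by rw [add_comm (|x1| ^ p), add_comm (|y1| ^ q)]
    rw [e]
    linarith
  · have e : (|x1| ^ p + |x2| ^ p) / p + (|y1| ^ q + |y2| ^ q) / q =
      (|x2| ^ p / p + |y1| ^ q / q) + (|x1| ^ p / p + |y2| ^ q / q) := by ring
    rw [e]
    linarith [yg x2 y1, yg x1 y2]
  · have e : (|x1| ^ p + |x2| ^ p) / p + (|y1| ^ q + |y2| ^ q) / q =
      (|x1| ^ p / p + |y1| ^ q / q) + (|x2| ^ p / p + |y2| ^ q / q) := by ring
    rw [e]
    linarith [yg x1 y1, yg x2 y2]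

/-- Every operator on the real space `ℓ_p^2` has norm at most `v / M_p`. -/
theorem two_main {p q a b c d v : ℝ} (hpq : p.HolderConjugate q) (hp2 : p ≠ 2)
    (H : ∀ X Y : ℝ, |a * |X| ^ p + c * (jj p X * Y) + d * (jj p Y * X) + b * |Y| ^ p| ≤ v * (|X| ^ p + |Y| ^ p))
    (x1 x2 y1 y2 : ℝ) :
    Mp p * (|a| * (|y1| * |x1|) + |c| * (|y1| * |x2|) + |d| * (|y2| * |x1|) + |b| * (|y2| * |x2|)) ≤
      v * ((|x1| ^ p + |x2| ^ p) / p + (|y1| ^ q + |y2| ^ q) / q) := by
  have hp := hpq.lt
  have hq := hpq.symm.lt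
  have hp0 : 0 < p := hpq.pos
  have hq0 : 0 < q := hpq.symm.pos
  have hj0 : jj p 0 = 0 := by rw [jj_nonneg_eq hp le_rfl, Real.zero_rpow (by linarith)]
  have hj1 : jj p 1 = 1 := by rw [jj_nonneg_eq hp zero_le_one, Real.one_rpow]
  have ha : |a| ≤ v := by
    have := H 1 0
    rw [hj0, abs_one, abs_zero, Real.one_rpow, Real.zero_rpow hp0.ne'] at this
    simpa using this
  have hb : |b| ≤ v := by
    have := H 0 1
    rw [hj0, abs_one, abs_zero, Real.one_rpow, Real.zero_rpow hp0.ne'] at this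
    simpa using this
  rcases lt_or_gt_of_ne hp2 with hlt | hgt
  · -- p < 2
    have hq2 : 2 < q := by
      have h1 := hpq.conjugate_eq
      rw [h1, lt_div_iff₀ (by linarith)]; linarith
    obtain ⟨t, ht0, ht1, hM, -⟩ := exists_data hq2
    have hMe : Mp p = Mp q := le_antisymm (Mp_conj_le hq hpq.symm.conjugate_eq) (Mp_conj_le hp hpq.conjugate_eq)
    set l := t ^ (1 / p) with hl
    have hl0 : 0 < l := by positivity
    have hl1 : l < 1 := Real.rpow_lt_one ht0.le ht1 (by positivity)
    have e1 : l ^ p = t := by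
      rw [hl, ← Real.rpow_mul ht0.le]; field_simp; rw [Real.rpow_one]
    have e2 : l ^ q = t ^ (q - 1) := by
      rw [hl, ← Real.rpow_mul ht0.le, ← hpq.symm.div_conj_eq_sub_one]; congr 1; field_simp
    set r := t ^ (q - 1) with hr
    have hr0 : 0 < r := by positivity
    have hrt : r < t := by
      calc r < t ^ (1 : ℝ) := Real.rpow_lt_rpow_of_exponent_gt ht0 ht1 (by linarith)
        _ = t := Real.rpow_one t
    have hrp1 : r ^ (p - 1) = t := by
      rw [hr, ← Real.rpow_mul ht0.le]
      have : (q - 1) * (p - 1) = 1 := by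
        rw [hpq.conjugate_eq]
        have : p - 1 ≠ 0 := by linarith
        field_simp; ring
      rw [this, Real.rpow_one]
    have hrp : r ^ p = t * r := by
      rw [← hrp1, ← Real.rpow_add_one hr0.ne']; congr 1; ring
    have htq : t ^ q = t * r := by
      rw [hr]
      nth_rewrite 2 [← Real.rpow_one t]
      rw [← Real.rpow_add ht0]; congr 1; ring
    have hMq : Mp q = (t - r) / (1 + t * r) := by
      rw [eq_div_iff (by positivity), ← htq]; exact hM
    have jr : jj p r = t := by rw [jj_nonneg_eq hp hr0.le, hrp1]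
    have key := two_gen (p := q) (q := p) (l := l) (a := a) (b := b) (c := d) (d := c) (v := v) (x1 := y1) (x2 := y2)
      (y1 := x1) (y2 := x2) hpq.symm hl0 hl1 (by rw [e1, e2]; exact hrt) ha hb
    rw [e1, e2, ← hMq, ← hMe] at key
    have k3 : |a + b * (t * r)| + |d * t + c * r| ≤ v * (1 + t * r) := by
      apply abs_add_abs_le_of
      · have := H 1 r
        rw [hj1, jr, abs_one, abs_of_pos hr0, Real.one_rpow, hrp] at this
        calc _ = |a * 1 + c * (1 * r) + d * (t * 1) + b * (t * r)| := by congr 1; ring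
          _ ≤ _ := this
      · have := H 1 (-r)
        rw [hj1, jj_neg, jr, abs_one, abs_neg, abs_of_pos hr0, Real.one_rpow, hrp] at this
        calc _ = |a * 1 + c * (1 * -r) + d * (-t * 1) + b * (t * r)| := by congr 1; ring
          _ ≤ _ := this
    have k4 : |a * (t * r) + b| + |d * r + c * t| ≤ v * (1 + t * r) := by
      apply abs_add_abs_le_of
      · have := H r 1
        rw [hj1, jr, abs_one, abs_of_pos hr0, Real.one_rpow, hrp] at this
        calc _ = |a * (t * r) + c * (t * 1) + d * (1 * r) + b * 1| := by congr 1; ring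
          _ ≤ _ := this
          _ = _ := by ring
      · have := H (-r) 1
        rw [hj1, jj_neg, jr, abs_one, abs_neg, abs_of_pos hr0, Real.one_rpow, hrp] at this
        calc _ = |a * (t * r) + c * (-t * 1) + d * (1 * -r) + b * 1| := by congr 1; ring
          _ ≤ _ := this
          _ = _ := by ring
    have key2 := key k3 k4
    calc _ = Mp p * (|a| * (|x1| * |y1|) + |d| * (|x1| * |y2|) + |c| * (|x2| * |y1|) + |b| * (|x2| * |y2|)) := by ring
      _ ≤ _ := key2
      _ = _ := by ring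
  · -- p > 2
    obtain ⟨t, ht0, ht1, hM, -⟩ := exists_data hgt
    set l := t ^ (1 / q) with hl
    have hl0 : 0 < l := by positivity
    have hl1 : l < 1 := Real.rpow_lt_one ht0.le ht1 (by positivity)
    have e1 : l ^ q = t := by
      rw [hl, ← Real.rpow_mul ht0.le]; field_simp; rw [Real.rpow_one]
    have e2 : l ^ p = t ^ (p - 1) := by
      rw [hl, ← Real.rpow_mul ht0.le, ← hpq.div_conj_eq_sub_one]; congr 1; field_simp
    set r := t ^ (p - 1) with hr
    have hr0 : 0 < r := by positivity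
    have hrt : r < t := by
      calc r < t ^ (1 : ℝ) := Real.rpow_lt_rpow_of_exponent_gt ht0 ht1 (by linarith)
        _ = t := Real.rpow_one t
    have htp : t ^ p = t * r := by
      rw [hr]
      nth_rewrite 2 [← Real.rpow_one t]
      rw [← Real.rpow_add ht0]; congr 1; ring
    have hMq : Mp p = (t - r) / (1 + t * r) := by
      rw [eq_div_iff (by positivity), ← htp]; exact hM
    have jt : jj p t = r := by rw [jj_nonneg_eq hp ht0.le]
    have key := two_gen (p := p) (q := q) (l := l) (a := a) (b := b) (c := c) (d := d) (v := v) (x1 := x1) (x2 := x2)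
      (y1 := y1) (y2 := y2) hpq hl0 hl1 (by rw [e1, e2]; exact hrt) ha hb
    rw [e1, e2, ← hMq] at key
    apply key
    · apply abs_add_abs_le_of
      · have := H 1 t
        rw [hj1, jt, abs_one, abs_of_pos ht0, Real.one_rpow, htp] at this
        calc _ = |a * 1 + c * (1 * t) + d * (r * 1) + b * (t * r)| := by congr 1; ring
          _ ≤ _ := this
      · have := H 1 (-t)
        rw [hj1, jj_neg, jt, abs_one, abs_neg, abs_of_pos ht0, Real.one_rpow, htp] at this
        calc _ = |a * 1 + c * (1 * -t) + d * (-r * 1) + b * (t * r)| := by congr 1; ring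
          _ ≤ _ := this
    · apply abs_add_abs_le_of
      · have := H t 1
        rw [hj1, jt, abs_one, abs_of_pos ht0, Real.one_rpow, htp] at this
        calc _ = |a * (t * r) + c * (r * 1) + d * (1 * t) + b * 1| := by congr 1; ring
          _ ≤ _ := this
          _ = _ := by ring
      · have := H (-t) 1
        rw [hj1, jj_neg, jt, abs_one, abs_neg, abs_of_pos ht0, Real.one_rpow, htp] at this
        calc _ = |a * (t * r) + c * (-r * 1) + d * (1 * -t) + b * 1| := by congr 1; ring
          _ ≤ _ := this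
          _ = _ := by ring

end Pool.Agent.Work.MP_95d40a_an
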