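import Pool.Agent.Work.MP_95d40a_an.RealMain
import Pool.Agent.Work.MP_95d40a_an.TwoMain

set_option autoImplicit false

open MeasureTheory Filter Topology
open scoped ENNReal RealInnerProductSpace

namespace Pool.Agent.Work.MP_95d40a_an

variable {Ω : Type*} [MeasurableSpace Ω] {μ : Measure Ω} {p : ℝ≥0∞} {𝕜 : Type*} [RCLike 𝕜]

/-! ### the duality map of `L_p`, general scalars -/

/-- the pairing of `y` with the functional `|x|^{r-2} conj x` -/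
noncomputable def JP (r : ℝ) (μ : Measure Ω) (x y : Ω → 𝕜) : 𝕜 :=
  ∫ ω, ((‖x ω‖ ^ (r - 2) : ℝ) : 𝕜) * (starRingEnd 𝕜 (x ω) * y ω) ∂μ

lemma norm_JP_integrand {r : ℝ} (hr : 1 < r) (a b : 𝕜) :
    ‖((‖a‖ ^ (r - 2) : ℝ) : 𝕜) * (starRingEnd 𝕜 a * b)‖ = ‖a‖ ^ (r - 1) * ‖b‖ := by
  rw [norm_mul, norm_mul, RCLike.norm_ofReal, RCLike.norm_conj, abs_of_nonneg (by positivity), ← mul_assoc,
    norm_pow_mul_self hr]

lemma aux_young {r a b : ℝ} (hr : 1 < r) (ha : 0 ≤ a) (hb : 0 ≤ b) : a ^ (r - 1) * b ≤ a ^ r + b ^ r := by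
  have e : ∀ m : ℝ, 0 ≤ m → m ^ r = m ^ (r - 1) * m := by
    intro m hm
    rcases eq_or_ne m 0 with rfl | h0
    · rw [Real.zero_rpow (by linarith)]; simp
    · rw [← Real.rpow_add_one h0]; congr 1; ring
  have n1 : 0 ≤ a ^ r := by positivity
  have n2 : 0 ≤ b ^ r := by positivity
  rcases le_total a b with h | h
  · have : a ^ (r - 1) * b ≤ b ^ (r - 1) * b := by
      have : a ^ (r - 1) ≤ b ^ (r - 1) := Real.rpow_le_rpow ha h (by linarith)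
      gcongr
    rw [← e b hb] at this
    linarith
  · have : a ^ (r - 1) * b ≤ a ^ (r - 1) * a := by gcongr
    rw [← e a ha] at this
    linarith

lemma integrable_rpow_mul [Fact (1 ≤ p)] (h1 : 1 < p) (h2 : p ≠ ∞) (x y : Lp 𝕜 p μ) :
    Integrable (fun ω => ‖x ω‖ ^ (p.toReal - 1) * ‖y ω‖) μ := by
  have hpr := toReal_gt_one h1 h2
  refine Integrable.mono' ((integrable_rpow h1 h2 x).add (integrable_rpow h1 h2 y)) ?_ ?_
  · exact (((Lp.memLp x).1.norm.aemeasurable.pow_const _).mul (Lp.memLp y).1.norm.aemeasurable).aestronglyMeasurable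
  · refine Eventually.of_forall fun ω => ?_
    rw [Real.norm_of_nonneg (by positivity)]
    exact aux_young hpr (norm_nonneg _) (norm_nonneg _)

lemma integrable_JP [Fact (1 ≤ p)] (h1 : 1 < p) (h2 : p ≠ ∞) (x y : Lp 𝕜 p μ) :
    Integrable (fun ω => ((‖x ω‖ ^ (p.toReal - 2) : ℝ) : 𝕜) * (starRingEnd 𝕜 (x ω) * y ω)) μ := by
  have hpr := toReal_gt_one h1 h2
  refine Integrable.mono' (integrable_rpow_mul h1 h2 x y) ?_ ?_
  · have m1 : AEStronglyMeasurable (fun ω => ((‖x ω‖ ^ (p.toReal - 2) : ℝ) : 𝕜)) μ :=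
      (RCLike.continuous_ofReal (K := 𝕜)).comp_aestronglyMeasurable
        ((Lp.memLp x).1.norm.aemeasurable.pow_const _).aestronglyMeasurable
    have m2 : AEStronglyMeasurable (fun ω => starRingEnd 𝕜 (x ω)) μ :=
      (RCLike.continuous_conj (K := 𝕜)).comp_aestronglyMeasurable (Lp.memLp x).1
    exact m1.mul (m2.mul (Lp.memLp y).1)
  · exact Eventually.of_forall fun ω => (norm_JP_integrand hpr _ _).le

lemma JP_congr {r : ℝ} {x x' y y' : Ω → 𝕜} (hx : x =ᵐ[μ] x') (hy : y =ᵐ[μ] y') : JP r μ x y = JP r μ x' y' := by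
  unfold JP
  apply integral_congr_ae
  filter_upwards [hx, hy] with ω h1 h2
  rw [h1, h2]

lemma norm_JP_le [Fact (1 ≤ p)] (h1 : 1 < p) (h2 : p ≠ ∞) (x y : Lp 𝕜 p μ) :
    ‖JP p.toReal μ (x : Ω → 𝕜) y‖ ≤ ∫ ω, ‖x ω‖ ^ (p.toReal - 1) * ‖y ω‖ ∂μ := by
  have hpr := toReal_gt_one h1 h2
  unfold JP
  refine (norm_integral_le_integral_norm _).trans (le_of_eq ?_)
  exact integral_congr_ae (Eventually.of_forall fun ω => norm_JP_integrand hpr _ _)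

lemma JP_add_right [Fact (1 ≤ p)] (h1 : 1 < p) (h2 : p ≠ ∞) (x y z : Lp 𝕜 p μ) :
    JP p.toReal μ (x : Ω → 𝕜) (y + z : Lp 𝕜 p μ) = JP p.toReal μ (x : Ω → 𝕜) y + JP p.toReal μ (x : Ω → 𝕜) z := by
  unfold JP
  rw [← integral_add (integrable_JP h1 h2 x y) (integrable_JP h1 h2 x z)]
  apply integral_congr_ae
  filter_upwards [Lp.coeFn_add y z] with ω h
  rw [h, Pi.add_apply]; ring

lemma JP_smul_right (r : ℝ) (c : 𝕜) (x : Ω → 𝕜) (y : Lp 𝕜 p μ) :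
    JP r μ x (c • y : Lp 𝕜 p μ) = c * JP r μ x y := by
  unfold JP
  rw [← integral_const_mul]
  apply integral_congr_ae
  filter_upwards [Lp.coeFn_smul c y] with ω h
  rw [h, Pi.smul_apply, smul_eq_mul]; ring

lemma JP_smul_left (r : ℝ) (c : 𝕜) (x : Lp 𝕜 p μ) (y : Ω → 𝕜) :
    JP r μ (c • x : Lp 𝕜 p μ) y = (((‖c‖ ^ (r - 2) : ℝ) : 𝕜) * starRingEnd 𝕜 c) * JP r μ x y := by
  unfold JP
  rw [← integral_const_mul]
  apply integral_congr_ae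
  filter_upwards [Lp.coeFn_smul c x] with ω h
  rw [h, Pi.smul_apply, smul_eq_mul, norm_mul, Real.mul_rpow (norm_nonneg _) (norm_nonneg _), map_mul]
  push_cast
  ring

lemma JP_add_left [Fact (1 ≤ p)] (h1 : 1 < p) (h2 : p ≠ ∞) (x x' y : Lp 𝕜 p μ)
    (hd : ∀ᵐ ω ∂μ, x ω = 0 ∨ x' ω = 0) :
    JP p.toReal μ (x + x' : Lp 𝕜 p μ) y = JP p.toReal μ (x : Ω → 𝕜) y + JP p.toReal μ (x' : Ω → 𝕜) y := by
  unfold JP
  rw [← integral_add (integrable_JP h1 h2 x y) (integrable_JP h1 h2 x' y)]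
  apply integral_congr_ae
  filter_upwards [Lp.coeFn_add x x', hd] with ω h h'
  rw [h, Pi.add_apply]
  rcases h' with h0 | h0 <;> rw [h0] <;> simp

lemma JP_self [Fact (1 ≤ p)] (h1 : 1 < p) (h2 : p ≠ ∞) (x : Lp 𝕜 p μ) :
    JP p.toReal μ (x : Ω → 𝕜) x = ((‖x‖ ^ p.toReal : ℝ) : 𝕜) := by
  have hpr := toReal_gt_one h1 h2
  rw [norm_rpow_eq h1 h2, ← integral_ofReal]
  unfold JP
  apply integral_congr_ae
  refine Eventually.of_forall fun ω => ?_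
  show ((‖x ω‖ ^ (p.toReal - 2) : ℝ) : 𝕜) * (starRingEnd 𝕜 (x ω) * x ω) = ((‖x ω‖ ^ p.toReal : ℝ) : 𝕜)
  rw [RCLike.conj_mul, ← norm_pow_mul_sq hpr (x ω)]
  push_cast
  ring

/-- real part of a norming functional -/
lemma gen_re_norming [Fact (1 ≤ p)] (h1 : 1 < p) (h2 : p ≠ ∞) (x y : Lp 𝕜 p μ) (φ : Lp 𝕜 p μ →L[𝕜] 𝕜)
    (hx : ‖x‖ = 1) (hφ : ‖φ‖ = 1) (hφx : φ x = 1) :
    RCLike.re (φ y) = ∫ a, ‖x a‖ ^ (p.toReal - 2) * ⟪x a, y a⟫ ∂μ := by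
  apply norming_eq h1 h2 x y hx
  intro t
  have h3 : φ (x + t • y) = 1 + (t : 𝕜) * φ y := by
    have : t • y = (t : 𝕜) • y := by
      apply Lp.ext
      filter_upwards [Lp.coeFn_smul t y, Lp.coeFn_smul (t : 𝕜) y] with ω e1 e2
      rw [e1, e2, Pi.smul_apply, Pi.smul_apply, RCLike.real_smul_eq_coe_mul, smul_eq_mul]
    rw [this, map_add, hφx, map_smul, smul_eq_mul]
  have h4 : 1 + t * RCLike.re (φ y) = RCLike.re (φ (x + t • y)) := by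
    rw [h3, map_add, RCLike.one_re, RCLike.re_ofReal_mul]
  rw [h4]
  calc RCLike.re (φ (x + t • y)) ≤ ‖φ (x + t • y)‖ := RCLike.re_le_norm _
    _ ≤ ‖φ‖ * ‖x + t • y‖ := φ.le_opNorm _
    _ = ‖x + t • y‖ := by rw [hφ, one_mul]

lemma inner_eq_re (a b : 𝕜) : (⟪a, b⟫ : ℝ) = RCLike.re (starRingEnd 𝕜 a * b) := by
  have : (⟪a, b⟫ : ℝ) = RCLike.re (b * starRingEnd 𝕜 a) := rfl
  rw [this, mul_comm]

lemma re_JP [Fact (1 ≤ p)] (h1 : 1 < p) (h2 : p ≠ ∞) (x y : Lp 𝕜 p μ) :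
    RCLike.re (JP p.toReal μ (x : Ω → 𝕜) y) = ∫ a, ‖x a‖ ^ (p.toReal - 2) * ⟪x a, y a⟫ ∂μ := by
  unfold JP
  rw [← RCLike.reCLM_apply, ← ContinuousLinearMap.integral_comp_comm _ (integrable_JP h1 h2 x y)]
  apply integral_congr_ae
  refine Eventually.of_forall fun ω => ?_
  show RCLike.reCLM (((‖x ω‖ ^ (p.toReal - 2) : ℝ) : 𝕜) * (starRingEnd 𝕜 (x ω) * y ω)) =
    ‖x ω‖ ^ (p.toReal - 2) * ⟪x ω, y ω⟫
  rw [RCLike.reCLM_apply, RCLike.re_ofReal_mul, inner_eq_re]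

/-- A norming functional is given by `JP`. -/
lemma gen_norming [Fact (1 ≤ p)] (h1 : 1 < p) (h2 : p ≠ ∞) (x y : Lp 𝕜 p μ) (φ : Lp 𝕜 p μ →L[𝕜] 𝕜)
    (hx : ‖x‖ = 1) (hφ : ‖φ‖ = 1) (hφx : φ x = 1) :
    φ y = JP p.toReal μ (x : Ω → 𝕜) y := by
  have e1 : ∀ z : Lp 𝕜 p μ, RCLike.re (φ z) = RCLike.re (JP p.toReal μ (x : Ω → 𝕜) z) := fun z => by
    rw [gen_re_norming h1 h2 x z φ hx hφ hφx, re_JP h1 h2]
  apply RCLike.ext (e1 y)
  have e2 := e1 ((RCLike.I : 𝕜) • y)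
  rw [map_smul, JP_smul_right, smul_eq_mul, RCLike.I_mul_re, RCLike.I_mul_re] at e2
  linarith

/-- The numerical radius bounds `JP(x, Tx)`. -/
lemma nr_bound [Fact (1 ≤ p)] (h1 : 1 < p) (h2 : p ≠ ∞) (T : Lp 𝕜 p μ →L[𝕜] Lp 𝕜 p μ) (x : Lp 𝕜 p μ) :
    ‖JP p.toReal μ (x : Ω → 𝕜) (T x)‖ ≤ numRadius T * ‖x‖ ^ p.toReal := by
  have hpr := toReal_gt_one h1 h2
  rcases eq_or_ne x 0 with rfl | hx
  · have : JP p.toReal μ ((0 : Lp 𝕜 p μ) : Ω → 𝕜) (T 0) = 0 := by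
      rw [map_zero]
      have := JP_self (μ := μ) h1 h2 (0 : Lp 𝕜 p μ)
      rw [this, norm_zero, Real.zero_rpow (by linarith)]; simp
    rw [this, norm_zero, norm_zero, Real.zero_rpow (by linarith), mul_zero]
  have hn : 0 < ‖x‖ := norm_pos_iff.2 hx
  have hunit : ∀ u : Lp 𝕜 p μ, ‖u‖ = 1 → ‖JP p.toReal μ (u : Ω → 𝕜) (T u)‖ ≤ numRadius T := by
    intro u hu
    obtain ⟨φ, hφ, hφu⟩ := exists_dual_vector 𝕜 u (by rw [hu]; norm_num)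
    rw [hu, RCLike.ofReal_one] at hφu
    rw [← gen_norming h1 h2 u (T u) φ hu hφ hφu]
    apply le_csSup
    · refine ⟨‖T‖, ?_⟩
      rintro _ ⟨z, ψ, hz, hψ, _, rfl⟩
      calc ‖ψ (T z)‖ ≤ ‖ψ‖ * ‖T z‖ := ψ.le_opNorm _
        _ ≤ 1 * (‖T‖ * ‖z‖) := by rw [hψ]; gcongr; exact T.le_opNorm _
        _ = ‖T‖ := by rw [hz]; ring
    · exact ⟨u, φ, hu, hφ, hφu, rfl⟩
  obtain ⟨u, hu⟩ : ∃ u : Lp 𝕜 p μ, u = ((‖x‖⁻¹ : ℝ) : 𝕜) • x := ⟨_, rfl⟩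
  have hu1 : ‖u‖ = 1 := by
    rw [hu, norm_smul, RCLike.norm_ofReal, abs_of_pos (by positivity)]; field_simp
  obtain ⟨c, hc⟩ : ∃ c : ℝ, c = ‖x‖ := ⟨_, rfl⟩
  have hxu : x = (c : 𝕜) • u := by
    rw [hu, hc, smul_smul, ← RCLike.ofReal_mul, mul_inv_cancel₀ hn.ne', RCLike.ofReal_one, one_smul]
  have hc0 : 0 < c := by rw [hc]; exact hn
  have hxn : ‖x‖ = c := hc.symm
  rw [hxn, hxu, map_smul, JP_smul_right, JP_smul_left, norm_mul, norm_mul, norm_mul, RCLike.norm_conj,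
    RCLike.norm_ofReal, RCLike.norm_ofReal, abs_of_pos hc0, abs_of_nonneg (by positivity : 0 ≤ c ^ (p.toReal - 2))]
  have e3 : c * (c ^ (p.toReal - 2) * c * ‖JP p.toReal μ (u : Ω → 𝕜) (T u)‖) =
      c ^ p.toReal * ‖JP p.toReal μ (u : Ω → 𝕜) (T u)‖ := by
    have := norm_pow_mul_sq hpr c
    rw [Real.norm_of_nonneg hc0.le] at this
    rw [← this]; ring
  rw [e3, mul_comm (numRadius T)]
  have := hunit u hu1
  gcongr

end Pool.Agent.Work.MP_95d40a_an
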