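import Pool.Agent.Work.MP_95d40a_an.Scalar

set_option autoImplicit false

open MeasureTheory Filter Topology

namespace Pool.Agent.Work.MP_95d40a_an

/-! ### the inequality behind the complex case -/

lemma kappa_pos {p : ℝ} (hp : 1 < p) : 0 < kappa p := by
  unfold kappa
  have h1 : 0 < p := by linarith
  have h2 : 0 < p / (p - 1) := div_pos h1 (by linarith)
  positivity

lemma amgm_min {α β U V : ℝ} (hα : 0 ≤ α) (hβ : 0 ≤ β) (h : α + β = 1) (hU : 0 ≤ U) (hV : 0 ≤ V) :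
    U ^ α * V ^ β ≤ α * U + β * V - min α β * (Real.sqrt U - Real.sqrt V) ^ 2 := by
  rcases le_total β α with hle | hle
  · rw [min_eq_right hle]; exact amgm_deficit hβ h hle hU hV
  · rw [min_eq_left hle]
    have := amgm_deficit (α := β) (β := α) hα (by linarith) hle hV hU
    calc U ^ α * V ^ β = V ^ β * U ^ α := mul_comm _ _
      _ ≤ _ := this
      _ = _ := by ring

lemma young_sq {c x y : ℝ} (hc : 0 < c) : x * y ≤ c * x ^ 2 + y ^ 2 / (4 * c) := by
  have h : 0 ≤ (2 * c * x - y) ^ 2 / (4 * c) := by positivity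
  have e : (2 * c * x - y) ^ 2 / (4 * c) = c * x ^ 2 + y ^ 2 / (4 * c) - x * y := by
    field_simp; ring
  linarith

lemma complex_key {p : ℝ} (hp : 1 < p) : ∃ C : ℝ, 0 ≤ C ∧ ∀ ε a b : ℝ, 0 ≤ a → 0 ≤ b →
    a ^ (p - 1) * b + ε * (a ^ p - (p - 1) * b ^ p) ≤ (kappa p + C * ε ^ 2) * (a ^ p + b ^ p) := by
  have hp0 : 0 < p := by linarith
  have hp1 : 0 < p - 1 := by linarith
  set q := p / (p - 1) with hq
  have hq0 : 0 < q := by positivity
  set α := (p - 1) / p with hα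
  set β := 1 / p with hβ
  have hα0 : 0 < α := by positivity
  have hβ0 : 0 < β := by positivity
  have hαβ : α + β = 1 := by rw [hα, hβ]; field_simp; ring
  have hk := kappa_pos hp
  set γ := min α β with hγ
  have hγ0 : 0 < γ := lt_min hα0 hβ0
  set c := kappa p * γ with hc
  have hc0 : 0 < c := by positivity
  refine ⟨(p + q) / (2 * c * q ^ 2), by positivity, fun ε a b ha hb => ?_⟩
  set U := q * a ^ p with hU
  set V := p * b ^ p with hV
  have hap : 0 ≤ a ^ p := by positivity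
  have hbp : 0 ≤ b ^ p := by positivity
  have hU0 : 0 ≤ U := by positivity
  have hV0 : 0 ≤ V := by positivity
  have e1 : a ^ (p - 1) * b = kappa p * (U ^ α * V ^ β) := by
    rw [hU, hV, Real.mul_rpow hq0.le hap, Real.mul_rpow hp0.le hbp, ← Real.rpow_mul ha, ← Real.rpow_mul hb]
    have h1 : p * α = p - 1 := by rw [hα]; field_simp
    have h2 : p * β = 1 := by rw [hβ]; field_simp
    rw [h1, h2, Real.rpow_one]
    have h3 : 0 < q ^ α := by positivity
    have h4 : 0 < p ^ β := by positivity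
    have h5 : kappa p = 1 / (p ^ β * q ^ α) := rfl
    rw [h5]
    field_simp
  have e2 := amgm_min hα0.le hβ0.le hαβ hU0 hV0
  have e3 : α * U = a ^ p := by rw [hα, hU, hq]; field_simp
  have e4 : β * V = b ^ p := by rw [hβ, hV]; field_simp
  rw [e3, e4] at e2
  set u := Real.sqrt U with hu
  set v := Real.sqrt V with hv
  have hu0 : 0 ≤ u := Real.sqrt_nonneg _
  have hv0 : 0 ≤ v := Real.sqrt_nonneg _
  have hu2 : u ^ 2 = U := Real.sq_sqrt hU0
  have hv2 : v ^ 2 = V := Real.sq_sqrt hV0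
  have e5 : a ^ p - (p - 1) * b ^ p = (u - v) * (u + v) / q := by
    have : (u - v) * (u + v) = U - V := by rw [← hu2, ← hv2]; ring
    rw [this, hU, hV, hq]; field_simp
  have e6 : ε * (a ^ p - (p - 1) * b ^ p) ≤ c * (u - v) ^ 2 + (ε * (u + v) / q) ^ 2 / (4 * c) := by
    rw [e5]
    have := young_sq (x := u - v) (y := ε * (u + v) / q) hc0
    calc ε * ((u - v) * (u + v) / q) = (u - v) * (ε * (u + v) / q) := by ring
      _ ≤ _ := this
  have e7 : (ε * (u + v) / q) ^ 2 / (4 * c) ≤ (p + q) / (2 * c * q ^ 2) * ε ^ 2 * (a ^ p + b ^ p) := by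
    have h1 : (u + v) ^ 2 ≤ 2 * (p + q) * (a ^ p + b ^ p) := by
      have : (u + v) ^ 2 ≤ 2 * (u ^ 2 + v ^ 2) := by nlinarith [sq_nonneg (u - v)]
      rw [hu2, hv2, hU, hV] at this
      have h2 : 0 ≤ p * a ^ p := by positivity
      have h3 : 0 ≤ q * b ^ p := by positivity
      nlinarith
    calc (ε * (u + v) / q) ^ 2 / (4 * c) = ε ^ 2 * (u + v) ^ 2 / (4 * c * q ^ 2) := by
          field_simp
      _ ≤ ε ^ 2 * (2 * (p + q) * (a ^ p + b ^ p)) / (4 * c * q ^ 2) := by gcongr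
      _ = _ := by field_simp; ring
  have e8 : a ^ (p - 1) * b ≤ kappa p * (a ^ p + b ^ p) - c * (u - v) ^ 2 := by
    rw [e1]
    calc kappa p * (U ^ α * V ^ β) ≤ kappa p * (a ^ p + b ^ p - γ * (u - v) ^ 2) := by gcongr
      _ = _ := by rw [hc]; ring
  calc _ ≤ kappa p * (a ^ p + b ^ p) - c * (u - v) ^ 2 + (c * (u - v) ^ 2 + (ε * (u + v) / q) ^ 2 / (4 * c)) :=
        add_le_add e8 e6
    _ ≤ kappa p * (a ^ p + b ^ p) - c * (u - v) ^ 2 + (c * (u - v) ^ 2 + (p + q) / (2 * c * q ^ 2) * ε ^ 2 * (a ^ p + b ^ p)) := by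
        gcongr
    _ = _ := by ring

/-! ### the extremal point for `M_p`, `p > 2` -/

lemma Mp_bdd {p : ℝ} (hp : 1 < p) :
    BddAbove ((fun t : ℝ => |t ^ (p - 1) - t| / (1 + t ^ p)) '' Set.Icc 0 1) := by
  refine ⟨1, ?_⟩
  rintro _ ⟨t, ⟨ht0, ht1⟩, rfl⟩
  have h1 : 0 ≤ t ^ p := by positivity
  have h2 : 0 ≤ t ^ (p - 1) := by positivity
  have h3 : t ^ (p - 1) ≤ 1 := Real.rpow_le_one ht0 ht1 (by linarith)
  show |t ^ (p - 1) - t| / (1 + t ^ p) ≤ 1
  rw [div_le_one (by linarith), abs_le]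
  constructor <;> linarith

lemma le_Mp {p t : ℝ} (hp : 1 < p) (ht0 : 0 ≤ t) (ht1 : t ≤ 1) :
    |t ^ (p - 1) - t| ≤ Mp p * (1 + t ^ p) := by
  have h1 : |t ^ (p - 1) - t| / (1 + t ^ p) ≤ Mp p := le_csSup (Mp_bdd hp) ⟨t, ⟨ht0, ht1⟩, rfl⟩
  have h2 : 0 < 1 + t ^ p := by positivity
  rwa [div_le_iff₀ h2] at h1

lemma exists_Mp {p : ℝ} (hp : 1 < p) :
    ∃ t : ℝ, 0 ≤ t ∧ t ≤ 1 ∧ |t ^ (p - 1) - t| = Mp p * (1 + t ^ p) := by
  have hcont : ContinuousOn (fun t : ℝ => |t ^ (p - 1) - t| / (1 + t ^ p)) (Set.Icc 0 1) := by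
    apply ContinuousOn.div
    · apply ContinuousOn.abs
      apply ContinuousOn.sub _ continuousOn_id
      exact fun t _ => (Real.continuousAt_rpow_const _ _ (Or.inr (by linarith))).continuousWithinAt
    · apply ContinuousOn.add continuousOn_const
      exact fun t _ => (Real.continuousAt_rpow_const _ _ (Or.inr (by linarith))).continuousWithinAt
    · rintro t ⟨ht0, _⟩
      have : 0 ≤ t ^ p := by positivity
      linarith
  obtain ⟨t, ⟨ht0, ht1⟩, ht⟩ := isCompact_Icc.exists_sSup_image_eq (Set.nonempty_Icc.2 zero_le_one) hcont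
  refine ⟨t, ht0, ht1, ?_⟩
  have h2 : 0 < 1 + t ^ p := by positivity
  have h3 : Mp p = |t ^ (p - 1) - t| / (1 + t ^ p) := ht
  rw [h3]; field_simp

lemma Mp_pos {p : ℝ} (hp : 1 < p) (hp2 : p ≠ 2) : 0 < Mp p := by
  have h1 := le_Mp hp (t := 1 / 2) (by norm_num) (by norm_num)
  have h2 : 0 < |(1 / 2 : ℝ) ^ (p - 1) - 1 / 2| := by
    rw [abs_pos, sub_ne_zero]
    intro h
    have h3 : (1 / 2 : ℝ) ^ (p - 1) = (1 / 2 : ℝ) ^ (1 : ℝ) := by rw [h, Real.rpow_one]
    have h4 := (Real.rpow_right_inj (x := (1 / 2 : ℝ)) (by norm_num) (by norm_num)).1 h3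
    apply hp2; linarith
  have h5 : 0 < 1 + (1 / 2 : ℝ) ^ p := by positivity
  by_contra hneg
  push Not at hneg
  nlinarith

/-- the data at the maximum, for `p > 2` -/
lemma exists_data {p : ℝ} (hp : 2 < p) : ∃ t : ℝ, 0 < t ∧ t < 1 ∧
    Mp p * (1 + t ^ p) = t - t ^ (p - 1) ∧
    Mp p * p * t ^ (p - 1) + (p - 1) * t ^ (p - 2) = 1 := by
  have hM := Mp_pos (p := p) (by linarith) (by linarith)
  obtain ⟨t, ht0, ht1, ht⟩ := exists_Mp (p := p) (by linarith)
  have hne0 : t ≠ 0 := by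
    rintro rfl
    rw [Real.zero_rpow (by linarith), Real.zero_rpow (by linarith)] at ht
    norm_num at ht
    linarith
  have hne1 : t ≠ 1 := by
    rintro rfl
    rw [Real.one_rpow, Real.one_rpow] at ht
    norm_num at ht
    linarith
  have ht0' : 0 < t := lt_of_le_of_ne ht0 (Ne.symm hne0)
  have ht1' : t < 1 := lt_of_le_of_ne ht1 hne1
  have habs : ∀ s : ℝ, 0 ≤ s → s ≤ 1 → |s ^ (p - 1) - s| = s - s ^ (p - 1) := by
    intro s hs0 hs1
    rw [abs_sub_comm, abs_of_nonneg]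
    rw [sub_nonneg]
    rcases hs0.eq_or_lt with rfl | hs
    · rw [Real.zero_rpow (by linarith)]
    · calc s ^ (p - 1) ≤ s ^ (1 : ℝ) := Real.rpow_le_rpow_of_exponent_ge hs hs1 (by linarith)
        _ = s := Real.rpow_one s
  rw [habs t ht0 ht1] at ht
  refine ⟨t, ht0', ht1', ht.symm, ?_⟩
  have hder : HasDerivAt (fun s : ℝ => Mp p * (1 + s ^ p) - (s - s ^ (p - 1)))
      (Mp p * (p * t ^ (p - 1)) - (1 - (p - 1) * t ^ (p - 1 - 1))) t := by
    have h1 : HasDerivAt (fun s : ℝ => s ^ p) (p * t ^ (p - 1)) t := Real.hasDerivAt_rpow_const (Or.inl hne0)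
    have h2 : HasDerivAt (fun s : ℝ => s ^ (p - 1)) ((p - 1) * t ^ (p - 1 - 1)) t :=
      Real.hasDerivAt_rpow_const (Or.inl hne0)
    exact ((h1.const_add 1).const_mul (Mp p)).sub ((hasDerivAt_id t).sub h2)
  have hmin : IsLocalMin (fun s : ℝ => Mp p * (1 + s ^ p) - (s - s ^ (p - 1))) t := by
    filter_upwards [Ioo_mem_nhds ht0' ht1'] with s hs
    have h1 := le_Mp (p := p) (by linarith) hs.1.le hs.2.le
    rw [habs s hs.1.le hs.2.le] at h1
    linarith
  have h3 := hmin.hasDerivAt_eq_zero hder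
  rw [show p - 1 - 1 = p - 2 by ring] at h3
  linarith

end Pool.Agent.Work.MP_95d40a_an
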