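import Pool.Agent.Work.MP_95d40a_an.RealKey3

set_option autoImplicit false

open MeasureTheory Filter Topology
open scoped ENNReal RealInnerProductSpace

namespace Pool.Agent.Work.MP_95d40a_an

variable {Ω : Type*} [MeasurableSpace Ω] {μ : Measure Ω} {p : ℝ≥0∞}

lemma toReal_gt_one (h1 : 1 < p) (h2 : p ≠ ∞) : 1 < p.toReal := by
  rw [← ENNReal.toReal_one]
  exact (ENNReal.toReal_lt_toReal ENNReal.one_ne_top h2).2 h1

/-! ### norms and integrals -/

section general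

variable {E : Type*} [NormedAddCommGroup E]

lemma norm_rpow_eq [Fact (1 ≤ p)] (h1 : 1 < p) (h2 : p ≠ ∞) (f : Lp E p μ) :
    ‖f‖ ^ p.toReal = ∫ a, ‖f a‖ ^ p.toReal ∂μ := by
  have hp0 : p ≠ 0 := (zero_lt_one.trans h1).ne'
  have hpr := toReal_gt_one h1 h2
  rw [Lp.norm_def, (Lp.memLp f).eLpNorm_eq_integral_rpow_norm hp0 h2]
  have hnn : 0 ≤ ∫ a, ‖f a‖ ^ p.toReal ∂μ := integral_nonneg (fun a => by positivity)
  rw [ENNReal.toReal_ofReal (by positivity), ← Real.rpow_mul hnn, inv_mul_cancel₀ (by linarith), Real.rpow_one]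

lemma integrable_rpow [Fact (1 ≤ p)] (h1 : 1 < p) (h2 : p ≠ ∞) (f : Lp E p μ) :
    Integrable (fun a => ‖f a‖ ^ p.toReal) μ :=
  (Lp.memLp f).integrable_norm_rpow (zero_lt_one.trans h1).ne' h2

end general

section gateaux

variable {E : Type*} [NormedAddCommGroup E] [InnerProductSpace ℝ E]

/-- derivative of `t ↦ ∫ ‖x + t y‖^p` at `0` -/
lemma hasDerivAt_norm_pow [Fact (1 ≤ p)] (h1 : 1 < p) (h2 : p ≠ ∞) (x y : Lp E p μ) :
    HasDerivAt (fun t : ℝ => ∫ a, ‖x a + t • y a‖ ^ p.toReal ∂μ)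
      (∫ a, p.toReal * ‖x a‖ ^ (p.toReal - 2) * ⟪x a, y a⟫ ∂μ) 0 := by
  have hpr := toReal_gt_one h1 h2
  set r := p.toReal with hr
  have hxm := (Lp.memLp x).1
  have hym := (Lp.memLp y).1
  have hF'meas : AEStronglyMeasurable (fun a => r * ‖x a + (0 : ℝ) • y a‖ ^ (r - 2) * ⟪x a + (0 : ℝ) • y a, y a⟫) μ := by
    have h3 : AEStronglyMeasurable (fun a => x a + (0 : ℝ) • y a) μ := hxm.add (hym.const_smul _)
    have h4 : AEStronglyMeasurable (fun a => ‖x a + (0 : ℝ) • y a‖ ^ (r - 2)) μ :=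
      (h3.norm.aemeasurable.pow_const (r - 2)).aestronglyMeasurable
    have h5 : AEStronglyMeasurable (fun a => ⟪x a + (0 : ℝ) • y a, y a⟫) μ := h3.inner hym
    exact (h4.const_mul r).mul h5
  have hbint : Integrable (fun a => r * (2 * (‖x a‖ ^ r + ‖y a‖ ^ r) * 2 ^ r)) μ := by
    have := (integrable_rpow h1 h2 x).add (integrable_rpow h1 h2 y)
    exact (((this.const_mul 2).mul_const (2 ^ r)).const_mul r)
  have key := (hasDerivAt_integral_of_dominated_loc_of_deriv_le (𝕜 := ℝ) (μ := μ)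
    (F := fun t a => ‖x a + t • y a‖ ^ r)
    (F' := fun t a => r * ‖x a + t • y a‖ ^ (r - 2) * ⟪x a + t • y a, y a⟫)
    (x₀ := 0) (s := Metric.ball 0 1) (bound := fun a => r * (2 * (‖x a‖ ^ r + ‖y a‖ ^ r) * 2 ^ r))
    (Metric.ball_mem_nhds 0 one_pos) ?_ ?_ hF'meas ?_ hbint ?_).2
  · simpa using key
  · refine Eventually.of_forall (fun t => ?_)
    exact ((hxm.add (hym.const_smul t)).norm.aemeasurable.pow_const r).aestronglyMeasurable
  · simpa using integrable_rpow h1 h2 x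
  · refine Eventually.of_forall (fun a t ht => ?_)
    have ht1 : |t| ≤ 1 := by
      rw [Metric.mem_ball, dist_zero_right, Real.norm_eq_abs] at ht
      exact ht.le
    set z := x a + t • y a with hz
    have hz1 : ‖z‖ ≤ ‖x a‖ + ‖y a‖ := by
      refine (norm_add_le _ _).trans ?_
      rw [norm_smul, Real.norm_eq_abs]
      have : |t| * ‖y a‖ ≤ 1 * ‖y a‖ := by gcongr
      linarith
    have hn : ‖r * ‖z‖ ^ (r - 2) * ⟪z, y a⟫‖ ≤ r * (‖z‖ ^ (r - 1) * ‖y a‖) := by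
      rw [norm_mul, norm_mul, Real.norm_of_nonneg (by linarith : 0 ≤ r),
        Real.norm_of_nonneg (by positivity : 0 ≤ ‖z‖ ^ (r - 2)), mul_assoc]
      have h3 : ‖⟪z, y a⟫‖ ≤ ‖z‖ * ‖y a‖ := norm_inner_le_norm z (y a)
      have h4 : ‖z‖ ^ (r - 2) * (‖z‖ * ‖y a‖) = ‖z‖ ^ (r - 1) * ‖y a‖ := by
        rcases eq_or_ne ‖z‖ 0 with h0 | h0
        · rw [h0, Real.zero_rpow (by linarith : r - 1 ≠ 0)]; ring
        · rw [← mul_assoc, ← Real.rpow_add_one h0]; congr 2; ring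
      calc r * (‖z‖ ^ (r - 2) * ‖⟪z, y a⟫‖) ≤ r * (‖z‖ ^ (r - 2) * (‖z‖ * ‖y a‖)) := by gcongr
        _ = _ := by rw [h4]
    refine hn.trans ?_
    have hmax : ‖z‖ ^ (r - 1) * ‖y a‖ ≤ 2 * (‖x a‖ ^ r + ‖y a‖ ^ r) * 2 ^ r := by
      set m := max ‖x a‖ ‖y a‖ with hm
      have hm0 : 0 ≤ m := le_max_of_le_left (norm_nonneg _)
      have h5 : ‖z‖ ≤ 2 * m := by
        have := le_max_left ‖x a‖ ‖y a‖
        have := le_max_right ‖x a‖ ‖y a‖
        linarith
      have h6 : ‖y a‖ ≤ 2 * m := by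
        have := le_max_right ‖x a‖ ‖y a‖
        linarith
      have h7 : ‖z‖ ^ (r - 1) * ‖y a‖ ≤ (2 * m) ^ (r - 1) * (2 * m) := by
        have : ‖z‖ ^ (r - 1) ≤ (2 * m) ^ (r - 1) := Real.rpow_le_rpow (norm_nonneg _) h5 (by linarith)
        gcongr
      have h8 : (2 * m) ^ (r - 1) * (2 * m) = 2 ^ r * m ^ r := by
        rcases eq_or_ne m 0 with h0 | h0
        · rw [h0, Real.zero_rpow (by linarith)]; simp
        · rw [← Real.rpow_add_one (by positivity), Real.mul_rpow (by norm_num) hm0]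
          ring_nf
      have h9 : m ^ r ≤ ‖x a‖ ^ r + ‖y a‖ ^ r := by
        have a1 : 0 ≤ ‖x a‖ ^ r := by positivity
        have a2 : 0 ≤ ‖y a‖ ^ r := by positivity
        rcases max_choice ‖x a‖ ‖y a‖ with h | h <;> rw [hm, h] <;> linarith
      have h10 : (0 : ℝ) < 2 ^ r := by positivity
      have h11 : 0 ≤ ‖x a‖ ^ r + ‖y a‖ ^ r := by positivity
      calc ‖z‖ ^ (r - 1) * ‖y a‖ ≤ 2 ^ r * m ^ r := h7.trans h8.le
        _ ≤ 2 ^ r * (‖x a‖ ^ r + ‖y a‖ ^ r) := by gcongr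
        _ ≤ _ := by nlinarith [mul_nonneg h10.le h11]
    gcongr
  · refine Eventually.of_forall (fun a t _ => ?_)
    have hf := hasFDerivAt_norm_rpow (x a + t • y a) hpr
    have hg : HasDerivAt (fun t : ℝ => x a + t • y a) (y a) t := by
      simpa using ((hasDerivAt_id t).smul_const (y a)).const_add (x a)
    have := hf.comp_hasDerivAt t hg
    exact this

/-- A norming functional of a norm-one element `x` of `L_p` is integration against
`‖x‖^{p-2} x`. -/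
lemma norming_eq [Fact (1 ≤ p)] (h1 : 1 < p) (h2 : p ≠ ∞) (x y : Lp E p μ) (hx : ‖x‖ = 1) (c : ℝ)
    (h : ∀ t : ℝ, 1 + t * c ≤ ‖x + t • y‖) :
    c = ∫ a, ‖x a‖ ^ (p.toReal - 2) * ⟪x a, y a⟫ ∂μ := by
  have hpr := toReal_gt_one h1 h2
  set r := p.toReal with hr
  have hd := hasDerivAt_norm_pow h1 h2 x y
  have hpow : ∀ t : ℝ, ∫ a, ‖x a + t • y a‖ ^ r ∂μ = ‖x + t • y‖ ^ r := by
    intro t
    rw [hr, norm_rpow_eq h1 h2]
    apply integral_congr_ae
    filter_upwards [Lp.coeFn_add x (t • y), Lp.coeFn_smul t y] with a ha hb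
    rw [ha, Pi.add_apply, hb, Pi.smul_apply]
  have hd2 : HasDerivAt (fun t : ℝ => (1 + t * c) ^ r) (r * c) 0 := by
    have h3 : HasDerivAt (fun t : ℝ => 1 + t * c) c 0 := by
      simpa using ((hasDerivAt_id (0 : ℝ)).mul_const c).const_add 1
    have := h3.rpow_const (p := r) (Or.inl (by simp))
    simpa [mul_comm] using this
  have hmin : IsLocalMin (fun t : ℝ => (∫ a, ‖x a + t • y a‖ ^ r ∂μ) - (1 + t * c) ^ r) 0 := by
    have hnear : ∀ᶠ t : ℝ in 𝓝 0, 0 < 1 + t * c := by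
      have : Tendsto (fun t : ℝ => 1 + t * c) (𝓝 0) (𝓝 (1 + 0 * c)) := by
        exact (continuous_const.add (continuous_id.mul continuous_const)).tendsto 0
      rw [zero_mul, add_zero] at this
      exact this.eventually (lt_mem_nhds one_pos)
    filter_upwards [hnear] with t ht
    rw [hpow, hpow, zero_smul, add_zero, hx, zero_mul, add_zero, Real.one_rpow, sub_self, sub_nonneg]
    exact Real.rpow_le_rpow ht.le (h t) (by linarith)
  have hz := hmin.hasDerivAt_eq_zero (hd.sub hd2)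
  have hsplit : ∫ a, r * ‖x a‖ ^ (r - 2) * ⟪x a, y a⟫ ∂μ = r * ∫ a, ‖x a‖ ^ (r - 2) * ⟪x a, y a⟫ ∂μ := by
    rw [← integral_const_mul]
    congr 1; funext a; ring
  rw [hsplit] at hz
  have hr0 : r ≠ 0 := by linarith
  have : r * (∫ a, ‖x a‖ ^ (r - 2) * ⟪x a, y a⟫ ∂μ) = r * c := by linarith
  exact (mul_left_cancel₀ hr0 this).symm

end gateaux

end Pool.Agent.Work.MP_95d40a_an
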