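import Pool.Agent.Work.MP_95d40a_an.LpPart

set_option autoImplicit false

open MeasureTheory Filter Topology
open scoped ENNReal RealInnerProductSpace

namespace Pool.Agent.Work.MP_95d40a_an

/-! ### numerical index and a family of operators -/

lemma numRadius_nonneg {𝕜 X : Type*} [RCLike 𝕜] [NormedAddCommGroup X] [NormedSpace 𝕜 X]
    (T : X →L[𝕜] X) : 0 ≤ numRadius T := by
  apply Real.sSup_nonneg
  rintro _ ⟨x, φ, _, _, _, rfl⟩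
  exact norm_nonneg _

lemma numIndex_mul_norm_le {𝕜 X : Type*} [RCLike 𝕜] [NormedAddCommGroup X] [NormedSpace 𝕜 X]
    (T : X →L[𝕜] X) (V : ℝ) (hV : 0 ≤ V)
    (h : ∀ (x : X) (φ : X →L[𝕜] 𝕜), ‖x‖ = 1 → ‖φ‖ = 1 → φ x = 1 → ‖φ (T x)‖ ≤ V) :
    numIndex 𝕜 X * ‖T‖ ≤ V := by
  rcases eq_or_ne T 0 with rfl | hT
  · simpa using hV
  have hn : 0 < ‖T‖ := norm_pos_iff.2 hT
  set S : X →L[𝕜] X := ((‖T‖⁻¹ : ℝ) : 𝕜) • T with hS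
  have hS1 : ‖S‖ = 1 := by
    rw [hS, norm_smul, RCLike.norm_ofReal, abs_of_pos (by positivity)]
    field_simp
  have hle : numIndex 𝕜 X ≤ numRadius S := by
    apply csInf_le
    · refine ⟨0, ?_⟩
      rintro _ ⟨T', _, rfl⟩
      exact numRadius_nonneg T'
    · exact ⟨S, hS1, rfl⟩
  have hr : numRadius S ≤ V / ‖T‖ := by
    apply Real.sSup_le _ (by positivity)
    rintro _ ⟨x, φ, hx, hφ, hφx, rfl⟩
    have := h x φ hx hφ hφx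
    have e : φ (S x) = ((‖T‖⁻¹ : ℝ) : 𝕜) * φ (T x) := by
      rw [hS, smul_apply, map_smul, smul_eq_mul]
    rw [e, norm_mul, RCLike.norm_ofReal, abs_of_pos (by positivity), div_eq_inv_mul]
    gcongr
  rw [← le_div_iff₀ hn]
  exact hle.trans hr

variable {Ω : Type*} [MeasurableSpace Ω] {μ : Measure Ω} {p : ℝ≥0∞} {𝕜 : Type*} [RCLike 𝕜]

lemma exists_intFun [Fact (1 ≤ p)] {A : Set Ω} (hA : MeasurableSet A) (hμA : μ A ≠ ∞) :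
    ∃ a : Lp 𝕜 p μ →L[𝕜] 𝕜, ∀ x : Lp 𝕜 p μ, a x = ∫ ω in A, x ω ∂μ := by
  have := (ENNReal.HolderConjugate.inv_one_sub_inv' (Fact.out : 1 ≤ p)).symm
  have : Fact (1 ≤ (1 - p⁻¹)⁻¹) := by simp [fact_iff]
  refine ⟨(ContinuousLinearMap.mul 𝕜 𝕜).lpPairing μ (1 - p⁻¹)⁻¹ p
    (indicatorConstLp (1 - p⁻¹)⁻¹ hA hμA 1), fun x => ?_⟩
  rw [ContinuousLinearMap.lpPairing_eq_integral, ← integral_indicator hA]
  apply integral_congr_ae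
  filter_upwards [indicatorConstLp_coeFn (p := (1 - p⁻¹)⁻¹) (hs := hA) (hμs := hμA) (c := (1 : 𝕜))] with ω hω
  rw [hω]
  by_cases h : ω ∈ A
  · simp [h]
  · simp [h]

lemma exists_proj [Fact (1 ≤ p)] {A : Set Ω} (hA : MeasurableSet A) (hμA : μ A ≠ ∞) :
    ∃ P : Lp 𝕜 p μ →L[𝕜] Lp 𝕜 p μ, ∀ x : Lp 𝕜 p μ, (P x : Ω → 𝕜) =ᵐ[μ] A.indicator x := by
  refine ⟨(ContinuousLinearMap.mul 𝕜 𝕜).holderL μ ∞ p p (indicatorConstLp ∞ hA hμA 1), fun x => ?_⟩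
  have h1 := (ContinuousLinearMap.mul 𝕜 𝕜).coeFn_holder (r := p) (indicatorConstLp ∞ hA hμA (1 : 𝕜)) x
  rw [ContinuousLinearMap.holderL_apply_apply]
  filter_upwards [h1, indicatorConstLp_coeFn (p := ∞) (hs := hA) (hμs := hμA) (c := (1 : 𝕜))] with ω h2 h3
  rw [h2, h3]
  by_cases h : ω ∈ A
  · simp [h]
  · simp [h]

/-- additivity of the `p`-th power of the norm on disjointly supported functions -/
lemma norm_add_disj [Fact (1 ≤ p)] (h1 : 1 < p) (h2 : p ≠ ∞) (f g : Lp 𝕜 p μ)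
    (h : ∀ᵐ a ∂μ, f a = 0 ∨ g a = 0) :
    ‖f + g‖ ^ p.toReal = ‖f‖ ^ p.toReal + ‖g‖ ^ p.toReal := by
  have hpr := toReal_gt_one h1 h2
  rw [norm_rpow_eq h1 h2, norm_rpow_eq h1 h2, norm_rpow_eq h1 h2,
    ← integral_add (integrable_rpow h1 h2 f) (integrable_rpow h1 h2 g)]
  apply integral_congr_ae
  filter_upwards [h, Lp.coeFn_add f g] with a ha hb
  rw [hb, Pi.add_apply]
  rcases ha with h0 | h0
  · rw [h0, zero_add, norm_zero, Real.zero_rpow (by linarith), zero_add]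
  · rw [h0, add_zero, norm_zero, Real.zero_rpow (by linarith), add_zero]

variable (𝕜) in
/-- the normalised indicator function of `A` -/
noncomputable def ee (p : ℝ≥0∞) {A : Set Ω} (hA : MeasurableSet A) (hμA : μ A ≠ ∞) : Lp 𝕜 p μ :=
  indicatorConstLp p hA hμA (((μ.real A) ^ (-(1 / p.toReal)) : ℝ) : 𝕜)

lemma ee_coeFn {A : Set Ω} (hA : MeasurableSet A) (hμA : μ A ≠ ∞) :
    (ee 𝕜 p hA hμA : Ω → 𝕜) =ᵐ[μ] A.indicator (fun _ => (((μ.real A) ^ (-(1 / p.toReal)) : ℝ) : 𝕜)) :=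
  indicatorConstLp_coeFn

lemma norm_ee (h1 : 1 < p) (h2 : p ≠ ∞) {A : Set Ω} (hA : MeasurableSet A) (hμA : μ A ≠ ∞) (h0 : μ A ≠ 0) :
    ‖ee 𝕜 p hA hμA‖ = 1 := by
  have hm : 0 < μ.real A := ENNReal.toReal_pos h0 hμA
  unfold ee
  rw [norm_indicatorConstLp (zero_lt_one.trans h1).ne' h2, RCLike.norm_ofReal, abs_of_nonneg (by positivity),
    ← Real.rpow_add hm]
  simp

/-- integrating an inequality over a set of finite positive measure -/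
lemma avg_nonneg {A : Set Ω} (hμA : μ A ≠ ∞) (h0 : μ A ≠ 0) {g1 g2 g3 : Ω → ℝ}
    (i1 : IntegrableOn g1 A μ) (i2 : IntegrableOn g2 A μ) (i3 : IntegrableOn g3 A μ) (c0 c1 c2 c3 : ℝ)
    (h : ∀ ω, 0 ≤ c0 + c1 * g1 ω + c2 * g2 ω + c3 * g3 ω) :
    0 ≤ c0 + c1 * ((μ.real A)⁻¹ * ∫ ω in A, g1 ω ∂μ) + c2 * ((μ.real A)⁻¹ * ∫ ω in A, g2 ω ∂μ) +
      c3 * ((μ.real A)⁻¹ * ∫ ω in A, g3 ω ∂μ) := by
  have hm : 0 < μ.real A := ENNReal.toReal_pos h0 hμA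
  have hc : IntegrableOn (fun _ : Ω => c0) A μ := integrableOn_const hμA
  have h3 : 0 ≤ ∫ ω in A, (c0 + c1 * g1 ω + c2 * g2 ω + c3 * g3 ω) ∂μ := integral_nonneg h
  have e : ∫ ω in A, (c0 + c1 * g1 ω + c2 * g2 ω + c3 * g3 ω) ∂μ =
      μ.real A * c0 + c1 * ∫ ω in A, g1 ω ∂μ + c2 * ∫ ω in A, g2 ω ∂μ + c3 * ∫ ω in A, g3 ω ∂μ := by
    have k3 : ∫ ω in A, (c0 + c1 * g1 ω + c2 * g2 ω + c3 * g3 ω) ∂μ =
        (∫ ω in A, (c0 + c1 * g1 ω + c2 * g2 ω) ∂μ) + ∫ ω in A, c3 * g3 ω ∂μ :=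
      integral_add (f := fun ω => c0 + c1 * g1 ω + c2 * g2 ω) (g := fun ω => c3 * g3 ω)
        ((hc.add (i1.const_mul c1)).add (i2.const_mul c2)) (i3.const_mul c3)
    have k2 : ∫ ω in A, (c0 + c1 * g1 ω + c2 * g2 ω) ∂μ =
        (∫ ω in A, (c0 + c1 * g1 ω) ∂μ) + ∫ ω in A, c2 * g2 ω ∂μ :=
      integral_add (f := fun ω => c0 + c1 * g1 ω) (g := fun ω => c2 * g2 ω)
        (hc.add (i1.const_mul c1)) (i2.const_mul c2)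
    have k1 : ∫ ω in A, (c0 + c1 * g1 ω) ∂μ = (∫ ω in A, c0 ∂μ) + ∫ ω in A, c1 * g1 ω ∂μ :=
      integral_add (f := fun _ => c0) (g := fun ω => c1 * g1 ω) hc (i1.const_mul c1)
    rw [k3, k2, k1, integral_const_mul, integral_const_mul, integral_const_mul]
    simp
  rw [e] at h3
  have h4 := mul_nonneg (inv_nonneg.2 hm.le) h3
  calc 0 ≤ _ := h4
    _ = _ := by field_simp


/-! ### values on normalised indicator functions -/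

/-- the normalised integral over `A`, as a functional -/
lemma exists_alpha [Fact (1 ≤ p)] {A : Set Ω} (hA : MeasurableSet A) (hμA : μ A ≠ ∞) :
    ∃ a : Lp 𝕜 p μ →L[𝕜] 𝕜, ∀ x : Lp 𝕜 p μ,
      a x = (((μ.real A) ^ (1 / p.toReal - 1) : ℝ) : 𝕜) * ∫ ω in A, x ω ∂μ := by
  obtain ⟨a, ha⟩ := exists_intFun (𝕜 := 𝕜) (p := p) hA hμA
  exact ⟨(((μ.real A) ^ (1 / p.toReal - 1) : ℝ) : 𝕜) • a, fun x => by
    rw [smul_apply, ha, smul_eq_mul]⟩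

lemma alpha_ee_self [Fact (1 ≤ p)] {A : Set Ω} (hA : MeasurableSet A) (hμA : μ A ≠ ∞) (h0 : μ A ≠ 0) :
    (((μ.real A) ^ (1 / p.toReal - 1) : ℝ) : 𝕜) * ∫ ω in A, (ee 𝕜 p hA hμA : Ω → 𝕜) ω ∂μ = 1 := by
  have hm : 0 < μ.real A := ENNReal.toReal_pos h0 hμA
  have h1 : ∫ ω in A, (ee 𝕜 p hA hμA : Ω → 𝕜) ω ∂μ = ∫ ω in A, (((μ.real A) ^ (-(1 / p.toReal)) : ℝ) : 𝕜) ∂μ := by
    apply integral_congr_ae
    filter_upwards [ae_restrict_of_ae (ee_coeFn (𝕜 := 𝕜) (p := p) hA hμA), ae_restrict_mem hA] with ω h2 h3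
    rw [h2, Set.indicator_of_mem h3]
  rw [h1, setIntegral_const, RCLike.real_smul_eq_coe_mul, ← RCLike.ofReal_mul, ← RCLike.ofReal_mul]
  have : (μ.real A) ^ (1 / p.toReal - 1) * (μ.real A * (μ.real A) ^ (-(1 / p.toReal))) = 1 := by
    calc _ = (μ.real A) ^ (1 / p.toReal - 1) * ((μ.real A) ^ (1 : ℝ) * (μ.real A) ^ (-(1 / p.toReal))) := by
          rw [Real.rpow_one]
      _ = (μ.real A) ^ ((1 / p.toReal - 1) + (1 + -(1 / p.toReal))) := by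
          rw [← Real.rpow_add hm, ← Real.rpow_add hm]
      _ = (μ.real A) ^ (0 : ℝ) := by congr 1; ring
      _ = 1 := Real.rpow_zero _
  rw [this, RCLike.ofReal_one]

lemma alpha_ee_disj [Fact (1 ≤ p)] {A B : Set Ω} (hA : MeasurableSet A) (hB : MeasurableSet B)
    (hμA : μ A ≠ ∞) (hd : Disjoint A B) : ∫ ω in B, (ee 𝕜 p hA hμA : Ω → 𝕜) ω ∂μ = 0 := by
  have h1 : ∫ ω in B, (ee 𝕜 p hA hμA : Ω → 𝕜) ω ∂μ = ∫ ω in B, (0 : 𝕜) ∂μ := by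
    apply integral_congr_ae
    filter_upwards [ae_restrict_of_ae (ee_coeFn (𝕜 := 𝕜) (p := p) hA hμA), ae_restrict_mem hB] with ω h2 h3
    rw [h2, Set.indicator_of_notMem (fun h4 => Set.disjoint_left.1 hd h4 h3)]
  rw [h1]; simp

lemma proj_ee_self [Fact (1 ≤ p)] {A : Set Ω} (hA : MeasurableSet A) (hμA : μ A ≠ ∞)
    {P : Lp 𝕜 p μ →L[𝕜] Lp 𝕜 p μ} (hP : ∀ x : Lp 𝕜 p μ, (P x : Ω → 𝕜) =ᵐ[μ] A.indicator x) :
    P (ee 𝕜 p hA hμA) = ee 𝕜 p hA hμA := by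
  apply Lp.ext
  filter_upwards [hP (ee 𝕜 p hA hμA), ee_coeFn (𝕜 := 𝕜) (p := p) hA hμA] with ω h1 h2
  rw [h1]
  by_cases h : ω ∈ A
  · rw [Set.indicator_of_mem h]
  · rw [Set.indicator_of_notMem h, h2, Set.indicator_of_notMem h]

lemma proj_ee_disj [Fact (1 ≤ p)] {A B : Set Ω} (hA : MeasurableSet A) (hμA : μ A ≠ ∞) (hd : Disjoint A B)
    {P : Lp 𝕜 p μ →L[𝕜] Lp 𝕜 p μ} (hP : ∀ x : Lp 𝕜 p μ, (P x : Ω → 𝕜) =ᵐ[μ] B.indicator x) :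
    P (ee 𝕜 p hA hμA) = 0 := by
  apply Lp.ext
  filter_upwards [hP (ee 𝕜 p hA hμA), ee_coeFn (𝕜 := 𝕜) (p := p) hA hμA, Lp.coeFn_zero 𝕜 p μ] with ω h1 h2 h3
  rw [h1, h3]
  by_cases h : ω ∈ B
  · rw [Set.indicator_of_mem h, h2, Set.indicator_of_notMem (fun h4 => Set.disjoint_left.1 hd h4 h)]; rfl
  · rw [Set.indicator_of_notMem h]; rfl

lemma ee_disj [Fact (1 ≤ p)] {A B : Set Ω} (hA : MeasurableSet A) (hμA : μ A ≠ ∞)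
    (hB : MeasurableSet B) (hμB : μ B ≠ ∞) (hd : Disjoint A B) :
    ∀ᵐ ω ∂μ, (ee 𝕜 p hA hμA : Ω → 𝕜) ω = 0 ∨ (ee 𝕜 p hB hμB : Ω → 𝕜) ω = 0 := by
  filter_upwards [ee_coeFn (𝕜 := 𝕜) (p := p) hA hμA, ee_coeFn (𝕜 := 𝕜) (p := p) hB hμB] with ω h1 h2
  rw [h1, h2]
  by_cases h : ω ∈ A
  · right; rw [Set.indicator_of_notMem (fun h4 => Set.disjoint_left.1 hd h h4)]
  · left; rw [Set.indicator_of_notMem h]

/-- norm of `a e_A + b e_B` -/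
lemma norm_two [Fact (1 ≤ p)] (h1 : 1 < p) (h2 : p ≠ ∞) {A B : Set Ω} (hA : MeasurableSet A) (hμA : μ A ≠ ∞)
    (hA0 : μ A ≠ 0) (hB : MeasurableSet B) (hμB : μ B ≠ ∞) (hB0 : μ B ≠ 0) (hd : Disjoint A B) (a b : 𝕜) :
    ‖a • ee 𝕜 p hA hμA + b • ee 𝕜 p hB hμB‖ ^ p.toReal = ‖a‖ ^ p.toReal + ‖b‖ ^ p.toReal := by
  rw [norm_add_disj h1 h2, norm_smul, norm_smul, norm_ee h1 h2 hA hμA hA0, norm_ee h1 h2 hB hμB hB0, mul_one, mul_one]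
  filter_upwards [ee_disj (𝕜 := 𝕜) (p := p) hA hμA hB hμB hd, Lp.coeFn_smul a (ee 𝕜 p hA hμA),
    Lp.coeFn_smul b (ee 𝕜 p hB hμB)] with ω h3 h4 h5
  rw [h4, h5, Pi.smul_apply, Pi.smul_apply]
  rcases h3 with h | h
  · left; rw [h, smul_zero]
  · right; rw [h, smul_zero]

lemma norm_three [Fact (1 ≤ p)] (h1 : 1 < p) (h2 : p ≠ ∞) {A B C : Set Ω} (hA : MeasurableSet A) (hμA : μ A ≠ ∞)
    (hA0 : μ A ≠ 0) (hB : MeasurableSet B) (hμB : μ B ≠ ∞) (hB0 : μ B ≠ 0)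
    (hC : MeasurableSet C) (hμC : μ C ≠ ∞) (hC0 : μ C ≠ 0) (hAB : Disjoint A B) (hAC : Disjoint A C)
    (hBC : Disjoint B C) (a b c : 𝕜) :
    ‖a • ee 𝕜 p hA hμA + b • ee 𝕜 p hB hμB + c • ee 𝕜 p hC hμC‖ ^ p.toReal =
      ‖a‖ ^ p.toReal + ‖b‖ ^ p.toReal + ‖c‖ ^ p.toReal := by
  rw [norm_add_disj h1 h2, norm_two h1 h2 hA hμA hA0 hB hμB hB0 hAB, norm_smul, norm_ee h1 h2 hC hμC hC0, mul_one]
  filter_upwards [ee_disj (𝕜 := 𝕜) (p := p) hA hμA hC hμC hAC, ee_disj (𝕜 := 𝕜) (p := p) hB hμB hC hμC hBC,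
    Lp.coeFn_smul a (ee 𝕜 p hA hμA), Lp.coeFn_smul b (ee 𝕜 p hB hμB), Lp.coeFn_smul c (ee 𝕜 p hC hμC),
    Lp.coeFn_add (a • ee 𝕜 p hA hμA) (b • ee 𝕜 p hB hμB)] with ω h3 h3' h4 h5 h6 h7
  rw [h7, h6, Pi.add_apply, h4, h5, Pi.smul_apply, Pi.smul_apply, Pi.smul_apply]
  rcases h3 with h | h
  · rcases h3' with h' | h'
    · left; rw [h, h', smul_zero, smul_zero, add_zero]
    · right; rw [h', smul_zero]
  · right; rw [h, smul_zero]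

end Pool.Agent.Work.MP_95d40a_an
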