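import Pool.Agent.Work.MP_95d40a_an.RealKey

set_option autoImplicit false

open MeasureTheory Filter Topology

namespace Pool.Agent.Work.MP_95d40a_an

/-- the full form -/
noncomputable def FF (p κ ε x1 x2 x3 : ℝ) : ℝ :=
  (2 : ℝ) ^ (1 / p) / 2 * (x1 + x2) * jj p x3 - ((2 : ℝ) ^ (1 / p))⁻¹ * x3 * (jj p x1 + jj p x2) +
    ε * GG p κ x1 x2

lemma key_gt_two {p : ℝ} (hp : 2 < p) : ∃ κ : ℝ, κ ≠ 1 ∧ ∃ C : ℝ, 0 ≤ C ∧ ∃ ε0 : ℝ, 0 < ε0 ∧
    ∀ ε : ℝ, |ε| ≤ ε0 → ∀ x1 x2 x3 : ℝ,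
      FF p κ ε x1 x2 x3 ≤ (Mp p + C * ε ^ 2) * (|x1| ^ p + |x2| ^ p + |x3| ^ p) := by
  obtain ⟨t, ht0, ht1, h1, h2⟩ := exists_data hp
  have hM := Mp_pos (p := p) (by linarith) (by linarith)
  obtain ⟨C, hC, ε0, hε0, hkey⟩ := key_z1 hp ht0 ht1 h1 h2
  set κ := kk p t with hκ
  have hκ1 : 1 < κ := one_lt_kk hp ht0 ht1
  refine ⟨κ, by linarith, C, hC, min ε0 (Mp p / (2 + 2 * κ)), lt_min hε0 (by positivity), ?_⟩
  intro ε hε x1 x2 x3
  have hε1 : |ε| ≤ ε0 := hε.trans (min_le_left _ _)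
  have hε2 : |ε| ≤ Mp p / (2 + 2 * κ) := hε.trans (min_le_right _ _)
  have hCε : 0 ≤ C * ε ^ 2 := by positivity
  have n1 : 0 ≤ |x1| ^ p := by positivity
  have n2 : 0 ≤ |x2| ^ p := by positivity
  rcases eq_or_ne x3 0 with rfl | hx3
  · have hj0 : jj p 0 = 0 := by unfold jj; rw [mul_zero]
    unfold FF
    rw [hj0, abs_zero, Real.zero_rpow (by linarith)]
    have hle : ε * GG p κ x1 x2 ≤ |ε| * |GG p κ x1 x2| := by
      rw [← abs_mul]; exact le_abs_self _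
    have h3 : |ε| * |GG p κ x1 x2| ≤ Mp p * (|x1| ^ p + |x2| ^ p) := by
      rcases eq_or_ne (max |x1| |x2|) 0 with h0 | h0
      · have a1 : x1 = 0 := by
          have := le_max_left |x1| |x2|
          rw [h0] at this
          exact abs_nonpos_iff.1 this
        have a2 : x2 = 0 := by
          have := le_max_right |x1| |x2|
          rw [h0] at this
          exact abs_nonpos_iff.1 this
        rw [a1, a2]
        unfold GG
        rw [hj0, abs_zero, Real.zero_rpow (by linarith)]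
        simp
      · have hm0 : 0 < max |x1| |x2| := lt_of_le_of_ne (le_max_of_le_left (abs_nonneg _)) (Ne.symm h0)
        have g := GG_bound (p := p) (κ := κ) (by linarith) (by linarith) (le_max_left |x1| |x2|) (le_max_right |x1| |x2|) hm0
        have hmp : (max |x1| |x2|) ^ p ≤ |x1| ^ p + |x2| ^ p := by
          rcases max_choice |x1| |x2| with h | h <;> rw [h] <;> linarith
        calc |ε| * |GG p κ x1 x2| ≤ (Mp p / (2 + 2 * κ)) * ((2 + 2 * κ) * (max |x1| |x2|) ^ p) := by gcongr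
          _ = Mp p * (max |x1| |x2|) ^ p := by field_simp
          _ ≤ _ := by gcongr
    have h4 : 0 ≤ C * ε ^ 2 * (|x1| ^ p + |x2| ^ p) := by positivity
    nlinarith
  · set c : ℝ := (2 : ℝ) ^ (1 / p) with hc
    have hc0 : 0 < c := by positivity
    have hcp : c ^ p = 2 := by
      rw [hc, ← Real.rpow_mul (by norm_num)]
      have : 1 / p * p = 1 := by field_simp
      rw [this, Real.rpow_one]
    set l := x3 / c with hl
    have hl0 : l ≠ 0 := by positivity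
    have e3 : x3 = l * c := by rw [hl]; field_simp
    obtain ⟨y1, hy1⟩ : ∃ y1, x1 = l * y1 := ⟨x1 / l, by field_simp⟩
    obtain ⟨y2, hy2⟩ : ∃ y2, x2 = l * y2 := ⟨x2 / l, by field_simp⟩
    have hjc : jj p c * c = 2 := by rw [jj_mul_self (by linarith), abs_of_pos hc0, hcp]
    have hll : jj p l * l = |l| ^ p := jj_mul_self (by linarith)
    have hlp : 0 < |l| ^ p := by
      have : 0 < |l| := abs_pos.2 hl0
      positivity
    have a1 : |x1| ^ p = |l| ^ p * |y1| ^ p := by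
      rw [hy1, abs_mul, Real.mul_rpow (abs_nonneg _) (abs_nonneg _)]
    have a2 : |x2| ^ p = |l| ^ p * |y2| ^ p := by
      rw [hy2, abs_mul, Real.mul_rpow (abs_nonneg _) (abs_nonneg _)]
    have a3 : |x3| ^ p = |l| ^ p * 2 := by
      rw [e3, abs_mul, Real.mul_rpow (abs_nonneg _) (abs_nonneg _), abs_of_pos hc0, hcp]
    have hG : GG p κ x1 x2 = |l| ^ p * GG p κ y1 y2 := by
      unfold GG
      rw [a1, a2, hy1, hy2, jj_mul, jj_mul, ← hll]; ring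
    have hF : FF p κ ε x1 x2 x3 = |l| ^ p * ((y1 - jj p y1) + (y2 - jj p y2) + ε * GG p κ y1 y2) := by
      unfold FF
      rw [hG, hy1, hy2, e3, jj_mul, jj_mul, jj_mul, ← hll]
      have : jj p c = 2 / c := by field_simp; linarith
      rw [← hc, this]
      field_simp
      ring
    rw [hF, a1, a2, a3]
    have hk := hkey ε hε1 y1 y2
    unfold DD at hk
    have m1 : 0 ≤ |y1| ^ p := by positivity
    have m2 : 0 ≤ |y2| ^ p := by positivity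
    have h5 : (y1 - jj p y1) + (y2 - jj p y2) + ε * GG p κ y1 y2 ≤ (Mp p + C * ε ^ 2) * (|y1| ^ p + |y2| ^ p + 2) := by
      nlinarith [mul_nonneg hCε (add_nonneg m1 m2)]
    calc _ ≤ |l| ^ p * ((Mp p + C * ε ^ 2) * (|y1| ^ p + |y2| ^ p + 2)) := by gcongr
      _ = _ := by ring

/-! ### transfer to exponents below two -/

lemma jj_jj {p q x : ℝ} (hp : 1 < p) (hq : q = p / (p - 1)) : jj q (jj p x) = x := by
  have hp1 : 0 < p - 1 := by linarith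
  rcases eq_or_ne x 0 with rfl | hx
  · unfold jj; simp
  · have hx0 : 0 < |x| := abs_pos.2 hx
    have : jj q (jj p x) = |jj p x| ^ (q - 2) * jj p x := rfl
    rw [this, abs_jj hp]
    unfold jj
    rw [← Real.rpow_mul hx0.le, ← mul_assoc, ← Real.rpow_add hx0]
    have : (p - 1) * (q - 2) + (p - 2) = 0 := by rw [hq]; field_simp; ring
    rw [this, Real.rpow_zero, one_mul]

lemma abs_jj_q {p q x : ℝ} (hp : 1 < p) (hq : q = p / (p - 1)) : |jj p x| ^ q = |x| ^ p := by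
  have hp1 : 0 < p - 1 := by linarith
  rw [abs_jj hp, ← Real.rpow_mul (abs_nonneg _)]
  congr 1; rw [hq]; field_simp

lemma Mp_conj_le {p q : ℝ} (hp : 1 < p) (hq : q = p / (p - 1)) : Mp q ≤ Mp p := by
  have hp1 : 0 < p - 1 := by linarith
  have hq1 : 1 < q := by rw [hq, lt_div_iff₀ hp1]; linarith
  obtain ⟨s, hs0, hs1, hs⟩ := exists_Mp hq1
  have hq1' : 0 < q - 1 := by linarith
  have ht0 : 0 ≤ s ^ (q - 1) := by positivity
  have ht1 : s ^ (q - 1) ≤ 1 := Real.rpow_le_one hs0 hs1 hq1'.le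
  have h := le_Mp hp ht0 ht1
  have e1 : (s ^ (q - 1)) ^ (p - 1) = s := by
    rw [← Real.rpow_mul hs0]
    have : (q - 1) * (p - 1) = 1 := by rw [hq]; field_simp; ring
    rw [this, Real.rpow_one]
  have e2 : (s ^ (q - 1)) ^ p = s ^ q := by
    rw [← Real.rpow_mul hs0]
    congr 1; rw [hq]; field_simp; ring
  rw [e1, e2, abs_sub_comm, hs] at h
  have h5 : 0 < 1 + s ^ q := by positivity
  exact le_of_mul_le_mul_right h h5

lemma key_lt_two {p : ℝ} (hp1 : 1 < p) (hp : p < 2) : ∃ κ : ℝ, κ ≠ -1 ∧ ∃ C : ℝ, 0 ≤ C ∧ ∃ ε0 : ℝ, 0 < ε0 ∧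
    ∀ ε : ℝ, |ε| ≤ ε0 → ∀ x1 x2 x3 : ℝ,
      FF p κ ε x1 x2 x3 ≤ (Mp p + C * ε ^ 2) * (|x1| ^ p + |x2| ^ p + |x3| ^ p) := by
  have hp1' : 0 < p - 1 := by linarith
  obtain ⟨q, hq⟩ : ∃ q, q = p / (p - 1) := ⟨_, rfl⟩
  have hq2 : 2 < q := by rw [hq, lt_div_iff₀ hp1']; linarith
  obtain ⟨κ, hκ, C, hC, ε0, hε0, h⟩ := key_gt_two hq2
  refine ⟨-κ, fun hh => hκ (by linarith), C, hC, ε0, hε0, fun ε hε x1 x2 x3 => ?_⟩
  have h1 := h ε hε (jj p x1) (jj p x2) (jj p (-x3))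
  rw [abs_jj_q hp1 hq, abs_jj_q hp1 hq, abs_jj_q hp1 hq, abs_neg] at h1
  have e : FF q κ ε (jj p x1) (jj p x2) (jj p (-x3)) = FF p (-κ) ε x1 x2 x3 := by
    unfold FF GG
    rw [abs_jj_q hp1 hq, abs_jj_q hp1 hq, jj_jj hp1 hq, jj_jj hp1 hq, jj_jj hp1 hq, jj_neg]
    have hc : (2 : ℝ) ^ (1 / q) / 2 = ((2 : ℝ) ^ (1 / p))⁻¹ := by
      rw [← Real.rpow_neg (by norm_num), ← Real.rpow_sub_one (by norm_num)]
      congr 1; rw [hq]; field_simp; ring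
    have hc' : ((2 : ℝ) ^ (1 / q))⁻¹ = (2 : ℝ) ^ (1 / p) / 2 := by
      rw [← Real.rpow_neg (by norm_num), ← Real.rpow_sub_one (by norm_num)]
      congr 1; rw [hq]; field_simp; ring
    rw [hc, hc']
    ring
  rw [e] at h1
  refine h1.trans ?_
  have := Mp_conj_le hp1 hq
  gcongr

lemma key_all {p : ℝ} (hp1 : 1 < p) (hp : p ≠ 2) : ∃ κ : ℝ, (2 < p → κ ≠ 1) ∧ (p < 2 → κ ≠ -1) ∧
    ∃ C : ℝ, 0 ≤ C ∧ ∃ ε0 : ℝ, 0 < ε0 ∧
    ∀ ε : ℝ, |ε| ≤ ε0 → ∀ x1 x2 x3 : ℝ,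
      |FF p κ ε x1 x2 x3| ≤ (Mp p + C * ε ^ 2) * (|x1| ^ p + |x2| ^ p + |x3| ^ p) := by
  have main : ∃ κ : ℝ, (2 < p → κ ≠ 1) ∧ (p < 2 → κ ≠ -1) ∧
    ∃ C : ℝ, 0 ≤ C ∧ ∃ ε0 : ℝ, 0 < ε0 ∧
    ∀ ε : ℝ, |ε| ≤ ε0 → ∀ x1 x2 x3 : ℝ,
      FF p κ ε x1 x2 x3 ≤ (Mp p + C * ε ^ 2) * (|x1| ^ p + |x2| ^ p + |x3| ^ p) := by
    rcases lt_or_gt_of_ne hp with h | h
    · obtain ⟨κ, hκ, hr⟩ := key_lt_two hp1 h
      exact ⟨κ, fun h' => absurd h' (by linarith), fun _ => hκ, hr⟩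
    · obtain ⟨κ, hκ, hr⟩ := key_gt_two h
      exact ⟨κ, fun _ => hκ, fun h' => absurd h' (by linarith), hr⟩
  obtain ⟨κ, hκ1, hκ2, C, hC, ε0, hε0, h⟩ := main
  refine ⟨κ, hκ1, hκ2, C, hC, ε0, hε0, fun ε hε x1 x2 x3 => ?_⟩
  rw [abs_le']
  refine ⟨h ε hε x1 x2 x3, ?_⟩
  have h1 := h (-ε) (by rwa [abs_neg]) x1 x2 (-x3)
  have e : FF p κ (-ε) x1 x2 (-x3) = - FF p κ ε x1 x2 x3 := by
    unfold FF; rw [jj_neg]; ring
  rw [e, abs_neg, neg_sq] at h1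
  exact h1

end Pool.Agent.Work.MP_95d40a_an
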