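import Pool.Agent.Work.MP_95d40a_an.Keys

set_option autoImplicit false

open MeasureTheory Filter Topology

namespace Pool.Agent.Work.MP_95d40a_an

/-- signed power `|x|^{p-2} x` -/
noncomputable def jj (p x : ℝ) : ℝ := |x| ^ (p - 2) * x

lemma jj_nonneg_eq {p x : ℝ} (hp : 1 < p) (hx : 0 ≤ x) : jj p x = x ^ (p - 1) := by
  unfold jj
  rw [abs_of_nonneg hx]
  rcases hx.eq_or_lt with rfl | hx
  · rw [Real.zero_rpow (by linarith : p - 1 ≠ 0), mul_zero]
  · rw [← Real.rpow_add_one hx.ne']; congr 1; ring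

lemma jj_neg (p x : ℝ) : jj p (-x) = - jj p x := by
  unfold jj; rw [abs_neg]; ring

lemma jj_mul {p : ℝ} (a x : ℝ) : jj p (a * x) = jj p a * jj p x := by
  unfold jj
  rw [abs_mul, Real.mul_rpow (abs_nonneg _) (abs_nonneg _)]; ring

lemma abs_jj {p x : ℝ} (hp : 1 < p) : |jj p x| = |x| ^ (p - 1) := by
  rw [← jj_nonneg_eq hp (abs_nonneg x)]
  unfold jj
  rw [abs_mul, abs_abs, abs_of_nonneg (by positivity : 0 ≤ |x| ^ (p - 2))]

lemma jj_mul_self {p x : ℝ} (hp : 1 < p) : jj p x * x = |x| ^ p := by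
  unfold jj
  rcases eq_or_ne x 0 with rfl | hx
  · rw [abs_zero, mul_zero, Real.zero_rpow (by linarith)]
  · have h1 : 0 < |x| := abs_pos.2 hx
    have h2 : |x| ^ p = |x| ^ (p - 2) * |x| ^ (2 : ℝ) := by
      rw [← Real.rpow_add h1]; congr 1; ring
    rw [h2, Real.rpow_two, sq_abs]; ring

/-- the extremal form and its perturbation -/
noncomputable def F0 (cp cq a1 b1 a2 b2 a3 b3 : ℝ) : ℝ :=
  cq * (a1 + a2) * b3 - cp * a3 * (b1 + b2)

noncomputable def G0 (κ a1 b1 n1 a2 b2 n2 : ℝ) : ℝ :=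
  n1 - n2 + κ * (b1 * a2 - b2 * a1)

section data

variable {p t : ℝ} (hp : 2 < p) (ht0 : 0 < t) (ht1 : t < 1)
  (h1 : Mp p * (1 + t ^ p) = t - t ^ (p - 1))
  (h2 : Mp p * p * t ^ (p - 1) + (p - 1) * t ^ (p - 2) = 1)

include hp ht0 h1 h2 in
lemma D_nonneg_side (y : ℝ) (hy : 0 ≤ y) :
    Mp p * (p / 2) * t ^ (p - 2) * (y - t) ^ 2 ≤ Mp p * (1 + y ^ p) - (y - y ^ (p - 1)) := by
  have hM := Mp_pos (p := p) (by linarith) (by linarith)
  have b1 := bern1 (r := p - 1) (by linarith) hy ht0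
  have b2 := bern2 (p := p) (by linarith) hy ht0
  rw [show p - 1 - 1 = p - 2 by ring] at b1
  have b3 := mul_le_mul_of_nonneg_left b2 hM.le
  nlinarith [congrArg (fun z => z * (y - t)) h2]

include hp ht0 h1 h2 in
lemma D_neg_side (w : ℝ) (hw : 0 ≤ w) :
    Mp p * (1 - t * w) ^ 2 ≤ Mp p * (1 + w ^ p) + w - w ^ (p - 1) := by
  have hM := Mp_pos (p := p) (by linarith) (by linarith)
  rcases hw.eq_or_lt with rfl | hw
  · rw [Real.zero_rpow (by linarith), Real.zero_rpow (by linarith)]; simp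
  have hτ : 0 ≤ t * w := by positivity
  have y1 := young1 (r := p - 1) (by linarith) hτ
  have y2 := young2 (p := p) (by linarith) hτ
  rw [show p - 1 - 1 = p - 2 by ring] at y1
  have e1 : (t * w) ^ p = t ^ p * w ^ p := Real.mul_rpow ht0.le hw.le
  have e2 : (t * w) ^ (p - 1) = t ^ (p - 1) * w ^ (p - 1) := Real.mul_rpow ht0.le hw.le
  have e3 : (t * w) ^ (p - 2) = t ^ (p - 2) * w ^ (p - 2) := Real.mul_rpow ht0.le hw.le
  have f1 : w ^ p = w ^ (p - 2) * w ^ 2 := by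
    rw [← Real.rpow_two, ← Real.rpow_add hw]; congr 1; ring
  have f2 : w ^ (p - 1) = w ^ (p - 2) * w := by
    rw [← Real.rpow_add_one hw.ne']; congr 1; ring
  have f3 : t ^ p = t ^ (p - 2) * t ^ 2 := by
    rw [← Real.rpow_two, ← Real.rpow_add ht0]; congr 1; ring
  have f4 : t ^ (p - 1) = t ^ (p - 2) * t := by
    rw [← Real.rpow_add_one ht0.ne']; congr 1; ring
  rw [e2, e3] at y1
  rw [e1, e2] at y2
  rw [f4] at h2
  rw [f3, f4] at h1
  rw [f2, f4] at y1
  rw [f1, f2, f3, f4] at y2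
  rw [f1, f2]
  set s := t ^ (p - 2) with hs
  set v := w ^ (p - 2) with hv
  have hs0 : 0 < s := by positivity
  have hv0 : 0 < v := by positivity
  have m1 := mul_le_mul_of_nonneg_left y2 hM.le
  have m2 := mul_nonneg hw.le y1
  -- combine
  have g1 : (p - 2) * (s * t) = Mp p * (1 - (p - 1) * (s * t ^ 2)) := by
    have := congrArg (fun z => z * t) h2
    beta_reduce at this
    linarith
  have g2 : v * w ^ 2 * ((p - 2) * (s * t)) = v * w ^ 2 * (Mp p * (1 - (p - 1) * (s * t ^ 2))) := by rw [g1]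
  have g3 : v * w * (Mp p * p * (s * t) + (p - 1) * s) = v * w := by rw [h2, mul_one]
  nlinarith


/-- the deficit of the scalar inequality -/
noncomputable def DD (p y : ℝ) : ℝ := Mp p * (1 + |y| ^ p) - y + jj p y

/-- nearest critical point on the side of `y` -/
noncomputable def cc (t y : ℝ) : ℝ := if 0 ≤ y then t else -t⁻¹

include hp ht0 h1 h2 in
lemma DD_lower (y : ℝ) : Mp p * min (t ^ (p - 2)) (t ^ 2) * (y - cc t y) ^ 2 ≤ DD p y := by
  have hM := Mp_pos (p := p) (by linarith) (by linarith)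
  unfold DD cc
  split_ifs with hy
  · have := D_nonneg_side hp ht0 h1 h2 y hy
    rw [abs_of_nonneg hy, jj_nonneg_eq (by linarith) hy]
    have h3 : Mp p * min (t ^ (p - 2)) (t ^ 2) * (y - t) ^ 2 ≤ Mp p * (p / 2) * t ^ (p - 2) * (y - t) ^ 2 := by
      have h4 : min (t ^ (p - 2)) (t ^ 2) ≤ p / 2 * t ^ (p - 2) := by
        have h5 : 0 < t ^ (p - 2) := by positivity
        have h6 : min (t ^ (p - 2)) (t ^ 2) ≤ t ^ (p - 2) := min_le_left _ _
        nlinarith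
      calc Mp p * min (t ^ (p - 2)) (t ^ 2) * (y - t) ^ 2 ≤ Mp p * (p / 2 * t ^ (p - 2)) * (y - t) ^ 2 := by gcongr
        _ = _ := by ring
    linarith
  · push Not at hy
    have := D_neg_side hp ht0 h1 h2 (-y) (by linarith)
    rw [abs_of_neg hy]
    have h3 : jj p y = -(-y) ^ (p - 1) := by
      rw [← jj_nonneg_eq (by linarith) (by linarith : 0 ≤ -y), jj_neg, neg_neg]
    rw [h3]
    have h4 : Mp p * min (t ^ (p - 2)) (t ^ 2) * (y - -t⁻¹) ^ 2 ≤ Mp p * (1 - t * -y) ^ 2 := by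
      have h5 : Mp p * (1 - t * -y) ^ 2 = Mp p * t ^ 2 * (y - -t⁻¹) ^ 2 := by field_simp; ring
      rw [h5]
      have : min (t ^ (p - 2)) (t ^ 2) ≤ t ^ 2 := min_le_right _ _
      gcongr
    linarith

include hp in
lemma DD_large (y : ℝ) (hy : 1 + 2 / Mp p ≤ |y|) : Mp p / 2 * |y| ^ p ≤ DD p y := by
  have hM := Mp_pos (p := p) (by linarith) (by linarith)
  have hM2 : 0 < 2 / Mp p := by positivity
  unfold DD
  have hy0 : 0 < |y| := by linarith
  have e : |y| ^ p = |y| ^ (p - 1) * |y| := by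
    rw [← Real.rpow_add_one hy0.ne']; congr 1; ring
  have hpos : 0 < |y| ^ (p - 1) := by positivity
  rcases le_or_gt 0 y with h | h
  · rw [jj_nonneg_eq (by linarith) h]
    rw [abs_of_nonneg h] at *
    have h3 : y ≤ y ^ (p - 1) := by
      calc y = y ^ (1 : ℝ) := (Real.rpow_one y).symm
        _ ≤ y ^ (p - 1) := Real.rpow_le_rpow_of_exponent_le (by linarith) (by linarith)
    have h4 : 0 < y ^ p := by positivity
    nlinarith
  · have h3 : jj p y = -|y| ^ (p - 1) := by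
      rw [abs_of_neg h, ← jj_nonneg_eq (by linarith) (by linarith : 0 ≤ -y), jj_neg, neg_neg]
    rw [h3, e]
    have h5 : 2 ≤ Mp p * |y| := by
      have : 2 / Mp p ≤ |y| := by linarith
      rw [div_le_iff₀ hM] at this
      linarith
    nlinarith [mul_nonneg hpos.le (sub_nonneg.2 h5)]

include hp ht0 h1 h2 in
lemma DD_nonneg (y : ℝ) : 0 ≤ DD p y := by
  have hM := Mp_pos (p := p) (by linarith) (by linarith)
  refine le_trans ?_ (DD_lower hp ht0 h1 h2 y)
  have : 0 < min (t ^ (p - 2)) (t ^ 2) := lt_min (by positivity) (by positivity)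
  positivity

/-- the constant of the perturbation -/
noncomputable def kk (p t : ℝ) : ℝ := (t ^ (-p) - t ^ p) / (t ^ (2 - p) - t ^ (p - 2))

include hp ht0 ht1 in
lemma kk_den_pos : 0 < t ^ (2 - p) - t ^ (p - 2) := by
  rw [sub_pos]
  exact Real.rpow_lt_rpow_of_exponent_gt ht0 ht1 (by linarith)

include hp ht0 ht1 in
lemma one_lt_kk : 1 < kk p t := by
  unfold kk
  rw [one_lt_div (kk_den_pos hp ht0 ht1)]
  have e1 : t ^ p < t ^ (p - 2) := Real.rpow_lt_rpow_of_exponent_gt ht0 ht1 (by linarith)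
  have e2 : t ^ (2 - p) < t ^ (-p) := Real.rpow_lt_rpow_of_exponent_gt ht0 ht1 (by linarith)
  linarith

lemma abs_cc (ht0 : 0 < t) (y : ℝ) : |cc t y| = t ∨ |cc t y| = t⁻¹ := by
  unfold cc
  split_ifs
  · left; exact abs_of_pos ht0
  · right; rw [abs_neg]; exact abs_of_pos (by positivity)

/-- the perturbation form at a pair of reals -/
noncomputable def GG (p κ y1 y2 : ℝ) : ℝ := |y1| ^ p - |y2| ^ p + κ * (jj p y1 * y2 - jj p y2 * y1)

include hp ht0 ht1 in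
lemma GG_crit (y1 y2 : ℝ) : GG p (kk p t) (cc t y1) (cc t y2) = 0 := by
  have key : |t| ^ p - |-t⁻¹| ^ p + kk p t * (jj p t * (-t⁻¹) - jj p (-t⁻¹) * t) = 0 := by
    rw [abs_neg, abs_of_pos ht0, abs_of_pos (by positivity : 0 < t⁻¹), jj_neg,
      jj_nonneg_eq (by linarith) ht0.le, jj_nonneg_eq (by linarith) (by positivity : 0 ≤ t⁻¹)]
    have e1 : (t⁻¹) ^ p = t ^ (-p) := by rw [Real.rpow_neg ht0.le, Real.inv_rpow ht0.le]
    have e2 : t ^ (p - 1) * (-t⁻¹) = - t ^ (p - 2) := by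
      have : t ^ (p - 2) * t = t ^ (p - 1) := by
        rw [← Real.rpow_add_one ht0.ne']; congr 1; ring
      rw [← this]; field_simp
    have e3 : (t⁻¹) ^ (p - 1) * t = t ^ (2 - p) := by
      rw [Real.inv_rpow ht0.le, ← Real.rpow_neg ht0.le, ← Real.rpow_add_one ht0.ne']; congr 1; ring
    have e4 := kk_den_pos hp ht0 ht1
    rw [e1, e2, neg_mul, e3, sub_neg_eq_add]
    unfold kk
    rw [show -t ^ (p - 2) + t ^ (2 - p) = t ^ (2 - p) - t ^ (p - 2) by ring]
    field_simp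
    ring
  unfold GG cc
  split_ifs
  · ring
  · exact key
  · have := key
    linarith
  · ring

include ht0 in
lemma lip_abs {Y y : ℝ} (hp : 1 ≤ p) (hy : |y| ≤ Y) (htY : t ≤ Y) (hTY : t⁻¹ ≤ Y) :
    abs (|y| ^ p - |cc t y| ^ p) ≤ p * Y ^ (p - 1) * |y - cc t y| := by
  have hcY : |cc t y| ≤ Y := by rcases abs_cc ht0 y with h | h <;> rw [h] <;> assumption
  refine (pow_lip hp (abs_nonneg _) (abs_nonneg _) hy hcY).trans ?_
  have hY : 0 ≤ Y := (abs_nonneg y).trans hy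
  have := abs_abs_sub_abs_le y (cc t y)
  gcongr

include ht0 in
lemma lip_jj {Y y : ℝ} (hp : 2 < p) (hy : |y| ≤ Y) (htY : t ≤ Y) (hTY : t⁻¹ ≤ Y) :
    |jj p y - jj p (cc t y)| ≤ (p - 1) * Y ^ (p - 2) * |y - cc t y| := by
  have hcY : |cc t y| ≤ Y := by rcases abs_cc ht0 y with h | h <;> rw [h] <;> assumption
  have hY : 0 ≤ Y := (abs_nonneg y).trans hy
  have e : |jj p y - jj p (cc t y)| = abs (|y| ^ (p - 1) - |cc t y| ^ (p - 1)) := by
    unfold cc
    split_ifs with h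
    · rw [jj_nonneg_eq (by linarith) h, jj_nonneg_eq (by linarith) ht0.le, abs_of_nonneg h, abs_of_pos ht0]
    · push Not at h
      have e1 : jj p y = -|y| ^ (p - 1) := by
        rw [abs_of_neg h, ← jj_nonneg_eq (by linarith) (by linarith : 0 ≤ -y), jj_neg, neg_neg]
      have e2 : jj p (-t⁻¹) = -|-t⁻¹| ^ (p - 1) := by
        rw [jj_neg, abs_neg, abs_of_pos (by positivity : 0 < t⁻¹), jj_nonneg_eq (by linarith) (by positivity)]
      rw [e1, e2, ← abs_neg]; congr 1; ring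
  rw [e]
  refine (pow_lip (by linarith) (abs_nonneg _) (abs_nonneg _) hy hcY).trans ?_
  have := abs_abs_sub_abs_le y (cc t y)
  rw [show p - 1 - 1 = p - 2 by ring]
  have hp1 : 0 ≤ p - 1 := by linarith
  gcongr

include hp ht0 ht1 in
lemma GG_small {Y y1 y2 : ℝ} (hy1 : |y1| ≤ Y) (hy2 : |y2| ≤ Y) (htY : t ≤ Y) (hTY : t⁻¹ ≤ Y) (hY1 : 1 ≤ Y) :
    |GG p (kk p t) y1 y2| ≤ p * (1 + kk p t) * Y ^ (p - 1) * (|y1 - cc t y1| + |y2 - cc t y2|) := by
  have hk := one_lt_kk hp ht0 ht1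
  have hY : 0 < Y := by linarith
  have hc1 : |cc t y1| ≤ Y := by rcases abs_cc ht0 y1 with h | h <;> rw [h] <;> assumption
  have hc2 : |cc t y2| ≤ Y := by rcases abs_cc ht0 y2 with h | h <;> rw [h] <;> assumption
  have l1 := lip_abs ht0 (by linarith : 1 ≤ p) hy1 htY hTY
  have l2 := lip_abs ht0 (by linarith : 1 ≤ p) hy2 htY hTY
  have j1 := lip_jj ht0 hp hy1 htY hTY
  have j2 := lip_jj ht0 hp hy2 htY hTY
  have e := GG_crit hp ht0 ht1 y1 y2
  set c1 := cc t y1 with hc1d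
  set c2 := cc t y2 with hc2d
  set κ := kk p t with hκ
  have hj1 : |jj p c1| ≤ Y ^ (p - 1) := by
    rw [abs_jj (by linarith)]; exact Real.rpow_le_rpow (abs_nonneg _) hc1 (by linarith)
  have hj2 : |jj p c2| ≤ Y ^ (p - 1) := by
    rw [abs_jj (by linarith)]; exact Real.rpow_le_rpow (abs_nonneg _) hc2 (by linarith)
  have hYp : Y ^ (p - 2) * Y = Y ^ (p - 1) := by
    rw [← Real.rpow_add_one hY.ne']; congr 1; ring
  have hdec : GG p κ y1 y2 = (|y1| ^ p - |c1| ^ p) - (|y2| ^ p - |c2| ^ p) +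
      κ * ((jj p y1 - jj p c1) * y2 + jj p c1 * (y2 - c2) - (jj p y2 - jj p c2) * y1 - jj p c2 * (y1 - c1)) := by
    have : GG p κ y1 y2 = GG p κ y1 y2 - GG p κ c1 c2 := by rw [e, sub_zero]
    rw [this]; unfold GG; ring
  rw [hdec]
  have m1 : |(jj p y1 - jj p c1) * y2| ≤ (p - 1) * Y ^ (p - 1) * |y1 - c1| := by
    rw [abs_mul]
    have hp1 : 0 ≤ p - 1 := by linarith
    calc |jj p y1 - jj p c1| * |y2| ≤ ((p - 1) * Y ^ (p - 2) * |y1 - c1|) * Y := by gcongr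
      _ = (p - 1) * (Y ^ (p - 2) * Y) * |y1 - c1| := by ring
      _ = _ := by rw [hYp]
  have m2 : |(jj p y2 - jj p c2) * y1| ≤ (p - 1) * Y ^ (p - 1) * |y2 - c2| := by
    rw [abs_mul]
    have hp1 : 0 ≤ p - 1 := by linarith
    calc |jj p y2 - jj p c2| * |y1| ≤ ((p - 1) * Y ^ (p - 2) * |y2 - c2|) * Y := by gcongr
      _ = (p - 1) * (Y ^ (p - 2) * Y) * |y2 - c2| := by ring
      _ = _ := by rw [hYp]
  have m3 : |jj p c1 * (y2 - c2)| ≤ Y ^ (p - 1) * |y2 - c2| := by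
    rw [abs_mul]; gcongr
  have m4 : |jj p c2 * (y1 - c1)| ≤ Y ^ (p - 1) * |y1 - c1| := by
    rw [abs_mul]; gcongr
  have m5 : |(jj p y1 - jj p c1) * y2 + jj p c1 * (y2 - c2) - (jj p y2 - jj p c2) * y1 - jj p c2 * (y1 - c1)| ≤
      p * Y ^ (p - 1) * (|y1 - c1| + |y2 - c2|) := by
    refine (abs_sub _ _).trans ?_
    refine (add_le_add_left ((abs_sub _ _).trans (add_le_add_left (abs_add_le _ _) _)) _).trans ?_
    linarith
  refine (abs_add_le _ _).trans ?_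
  rw [abs_mul, abs_of_pos (by linarith : 0 < κ)]
  have m6 : |(|y1| ^ p - |c1| ^ p) - (|y2| ^ p - |c2| ^ p)| ≤ p * Y ^ (p - 1) * (|y1 - c1| + |y2 - c2|) := by
    refine (abs_sub _ _).trans ?_
    linarith
  have m7 := mul_le_mul_of_nonneg_left m5 (by linarith : 0 ≤ κ)
  calc _ ≤ p * Y ^ (p - 1) * (|y1 - c1| + |y2 - c2|) + κ * (p * Y ^ (p - 1) * (|y1 - c1| + |y2 - c2|)) := add_le_add m6 m7
    _ = _ := by ring

lemma GG_bound {κ y1 y2 m : ℝ} (hp : 1 < p) (hκ : 0 ≤ κ) (h1 : |y1| ≤ m) (h2 : |y2| ≤ m) (hm : 0 < m) :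
    |GG p κ y1 y2| ≤ (2 + 2 * κ) * m ^ p := by
  have a1 : |y1| ^ p ≤ m ^ p := Real.rpow_le_rpow (abs_nonneg _) h1 (by linarith)
  have a2 : |y2| ^ p ≤ m ^ p := Real.rpow_le_rpow (abs_nonneg _) h2 (by linarith)
  have e : m ^ p = m ^ (p - 1) * m := by
    rw [← Real.rpow_add_one hm.ne']; congr 1; ring
  have b1 : |jj p y1 * y2| ≤ m ^ p := by
    rw [abs_mul, abs_jj hp, e]
    have : |y1| ^ (p - 1) ≤ m ^ (p - 1) := Real.rpow_le_rpow (abs_nonneg _) h1 (by linarith)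
    gcongr
  have b2 : |jj p y2 * y1| ≤ m ^ p := by
    rw [abs_mul, abs_jj hp, e]
    have : |y2| ^ (p - 1) ≤ m ^ (p - 1) := Real.rpow_le_rpow (abs_nonneg _) h2 (by linarith)
    gcongr
  unfold GG
  have c1 : 0 ≤ |y1| ^ p := by positivity
  have c2 : 0 ≤ |y2| ^ p := by positivity
  have d1 : |(|y1| ^ p - |y2| ^ p)| ≤ m ^ p := by rw [abs_le]; constructor <;> linarith
  have d2 : |jj p y1 * y2 - jj p y2 * y1| ≤ 2 * m ^ p := by
    refine (abs_sub _ _).trans ?_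
    linarith
  refine (abs_add_le _ _).trans ?_
  rw [abs_mul, abs_of_nonneg hκ]
  have hmp : 0 ≤ m ^ p := by positivity
  nlinarith [mul_le_mul_of_nonneg_left d2 hκ]

include hp ht0 ht1 h1 h2 in
lemma key_z1 : ∃ C : ℝ, 0 ≤ C ∧ ∃ ε0 : ℝ, 0 < ε0 ∧ ∀ ε : ℝ, |ε| ≤ ε0 → ∀ y1 y2 : ℝ,
    ε * GG p (kk p t) y1 y2 ≤ DD p y1 + DD p y2 + C * ε ^ 2 := by
  have hM := Mp_pos (p := p) (by linarith) (by linarith)
  have hk := one_lt_kk hp ht0 ht1
  set Y := 1 + 2 / Mp p + t⁻¹ with hY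
  have hT : 0 < t⁻¹ := by positivity
  have hT1 : 1 ≤ t⁻¹ := (one_le_inv₀ ht0).2 ht1.le
  have h2M : 0 < 2 / Mp p := by positivity
  have hY1 : 1 ≤ Y := by linarith
  have htY : t ≤ Y := by linarith
  have hTY : t⁻¹ ≤ Y := by linarith
  set L := p * (1 + kk p t) * Y ^ (p - 1) with hL
  have hL0 : 0 ≤ L := by positivity
  set c0 := Mp p * min (t ^ (p - 2)) (t ^ 2) with hc0
  have hc0pos : 0 < c0 := by
    have : 0 < min (t ^ (p - 2)) (t ^ 2) := lt_min (by positivity) (by positivity)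
    positivity
  refine ⟨L ^ 2 / (2 * c0), by positivity, Mp p / (2 * (2 + 2 * kk p t)), by positivity, fun ε hε y1 y2 => ?_⟩
  have hD1 := DD_nonneg hp ht0 h1 h2 y1
  have hD2 := DD_nonneg hp ht0 h1 h2 y2
  have hC2 : 0 ≤ L ^ 2 / (2 * c0) * ε ^ 2 := by positivity
  have hle : ε * GG p (kk p t) y1 y2 ≤ |ε| * |GG p (kk p t) y1 y2| := by
    rw [← abs_mul]; exact le_abs_self _
  refine hle.trans ?_
  by_cases hsmall : |y1| ≤ Y ∧ |y2| ≤ Y
  · have g := GG_small hp ht0 ht1 hsmall.1 hsmall.2 htY hTY hY1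
    have l1 := DD_lower hp ht0 h1 h2 y1
    have l2 := DD_lower hp ht0 h1 h2 y2
    have q1 := young_sq (x := |y1 - cc t y1|) (y := |ε| * L) hc0pos
    have q2 := young_sq (x := |y2 - cc t y2|) (y := |ε| * L) hc0pos
    rw [sq_abs] at q1 q2
    have e1 : (|ε| * L) ^ 2 / (4 * c0) + (|ε| * L) ^ 2 / (4 * c0) = L ^ 2 / (2 * c0) * ε ^ 2 := by
      rw [mul_pow, sq_abs]; field_simp; ring
    calc |ε| * |GG p (kk p t) y1 y2| ≤ |ε| * (L * (|y1 - cc t y1| + |y2 - cc t y2|)) := by gcongr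
      _ = |y1 - cc t y1| * (|ε| * L) + |y2 - cc t y2| * (|ε| * L) := by ring
      _ ≤ _ := by linarith
  · -- one of them is large
    set m := max |y1| |y2| with hm
    have hmY : Y < m := by
      by_contra hcon
      push Not at hcon
      exact hsmall ⟨(le_max_left _ _).trans hcon, (le_max_right _ _).trans hcon⟩
    have hm0 : 0 < m := by linarith
    have g := GG_bound (p := p) (κ := kk p t) (by linarith) (by linarith) (le_max_left |y1| |y2|) (le_max_right |y1| |y2|) hm0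
    have hDm : Mp p / 2 * m ^ p ≤ DD p y1 + DD p y2 := by
      rcases max_choice |y1| |y2| with h | h
      · have : 1 + 2 / Mp p ≤ |y1| := by rw [← h]; linarith
        have := DD_large hp y1 this
        rw [hm, h]; linarith
      · have : 1 + 2 / Mp p ≤ |y2| := by rw [← h]; linarith
        have := DD_large hp y2 this
        rw [hm, h]; linarith
    have hmp : 0 < m ^ p := by positivity
    have e2 : |ε| * |GG p (kk p t) y1 y2| ≤ Mp p / 2 * m ^ p := by
      calc |ε| * |GG p (kk p t) y1 y2| ≤ (Mp p / (2 * (2 + 2 * kk p t))) * ((2 + 2 * kk p t) * m ^ p) := by gcongr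
        _ = _ := by field_simp
    linarith

end data

end Pool.Agent.Work.MP_95d40a_an
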