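import Pool.Agent.Work.MP_95d40a_an.Cplx

set_option autoImplicit false

open MeasureTheory Filter Topology
open scoped ENNReal RealInnerProductSpace

namespace Pool.Agent.Work.MP_95d40a_an

variable {Ω : Type*} [MeasurableSpace Ω] {μ : Measure Ω} {p : ℝ≥0∞}

lemma jj_eq_inner (r x y : ℝ) : ‖x‖ ^ (r - 2) * ⟪x, y⟫ = jj r x * y := by
  unfold jj
  rw [Real.norm_eq_abs]
  have : ⟪x, y⟫ = y * x := by simp [mul_comm]
  rw [this]; ring

/-! ### the norming functional, real scalars -/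

lemma real_norming [Fact (1 ≤ p)] (h1 : 1 < p) (h2 : p ≠ ∞) (x y : Lp ℝ p μ) (φ : Lp ℝ p μ →L[ℝ] ℝ)
    (hx : ‖x‖ = 1) (hφ : ‖φ‖ = 1) (hφx : φ x = 1) :
    φ y = ∫ a, jj p.toReal (x a) * y a ∂μ := by
  have h5 : φ y = ∫ a, ‖x a‖ ^ (p.toReal - 2) * ⟪x a, y a⟫ ∂μ := by
    apply norming_eq h1 h2 x y hx
    intro t
    have h4 : φ (x + t • y) = 1 + t * φ y := by
      rw [map_add, hφx, map_smul, smul_eq_mul]
    rw [← h4]
    calc φ (x + t • y) ≤ ‖φ (x + t • y)‖ := le_abs_self _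
      _ ≤ ‖φ‖ * ‖x + t • y‖ := φ.le_opNorm _
      _ = ‖x + t • y‖ := by rw [hφ, one_mul]
  rw [h5]
  exact integral_congr_ae (Eventually.of_forall fun a => jj_eq_inner _ _ _)

lemma real_norming_proj [Fact (1 ≤ p)] (h1 : 1 < p) (h2 : p ≠ ∞) (x : Lp ℝ p μ) (φ : Lp ℝ p μ →L[ℝ] ℝ)
    (hx : ‖x‖ = 1) (hφ : ‖φ‖ = 1) (hφx : φ x = 1) {A : Set Ω} (hA : MeasurableSet A)
    {P : Lp ℝ p μ →L[ℝ] Lp ℝ p μ} (hP : ∀ x : Lp ℝ p μ, (P x : Ω → ℝ) =ᵐ[μ] A.indicator x) :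
    φ (P x) = ∫ ω in A, ‖x ω‖ ^ p.toReal ∂μ := by
  have hpr := toReal_gt_one h1 h2
  rw [real_norming h1 h2 x (P x) φ hx hφ hφx, ← integral_indicator hA]
  apply integral_congr_ae
  filter_upwards [hP x] with ω hω
  rw [hω]
  by_cases h : ω ∈ A
  · rw [Set.indicator_of_mem h, Set.indicator_of_mem h, jj_mul_self hpr, Real.norm_eq_abs]
  · rw [Set.indicator_of_notMem h, Set.indicator_of_notMem h, mul_zero]

lemma real_norming_ee [Fact (1 ≤ p)] (h1 : 1 < p) (h2 : p ≠ ∞) (x : Lp ℝ p μ) (φ : Lp ℝ p μ →L[ℝ] ℝ)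
    (hx : ‖x‖ = 1) (hφ : ‖φ‖ = 1) (hφx : φ x = 1) {A : Set Ω} (hA : MeasurableSet A) (hμA : μ A ≠ ∞) :
    φ (ee ℝ p hA hμA) = (μ.real A) ^ (-(1 / p.toReal)) * ∫ ω in A, jj p.toReal (x ω) ∂μ := by
  rw [real_norming h1 h2 x _ φ hx hφ hφx, ← integral_const_mul, ← integral_indicator hA]
  apply integral_congr_ae
  filter_upwards [ee_coeFn (𝕜 := ℝ) (p := p) hA hμA] with ω hω
  rw [hω]
  by_cases h : ω ∈ A
  · rw [Set.indicator_of_mem h, Set.indicator_of_mem h, mul_comm]; rfl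
  · rw [Set.indicator_of_notMem h, Set.indicator_of_notMem h, mul_zero]

lemma measurable_jj (r : ℝ) : Measurable (jj r) := by
  unfold jj
  exact ((measurable_norm (α := ℝ)).pow_const (r - 2)).mul measurable_id

lemma avg3 [Fact (1 ≤ p)] (h1 : 1 < p) (h2 : p ≠ ∞) (x : Lp ℝ p μ) {A : Set Ω} (hμA : μ A ≠ ∞) (h0 : μ A ≠ 0)
    (c0 c1 c2 c3 : ℝ) (h : ∀ X : ℝ, 0 ≤ c0 + c1 * X + c2 * jj p.toReal X + c3 * |X| ^ p.toReal) :
    0 ≤ c0 + c1 * ((μ.real A) ^ (1 / p.toReal - 1) * ∫ ω in A, x ω ∂μ) +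
      c2 * ((μ.real A) ^ (-(1 / p.toReal)) * ∫ ω in A, jj p.toReal (x ω) ∂μ) +
      c3 * ∫ ω in A, ‖x ω‖ ^ p.toReal ∂μ := by
  have hpr := toReal_gt_one h1 h2
  set r := p.toReal with hr
  have hm : 0 < μ.real A := ENNReal.toReal_pos h0 hμA
  have hxm : AEStronglyMeasurable (fun ω => x ω) (μ.restrict A) := (Lp.memLp x).1.restrict
  have i1 : IntegrableOn (fun ω => x ω) A μ := by
    have := intOn_rpow h1 h2 x (s := 1) (by linarith) hpr.le hμA
    simp only [Real.rpow_one] at this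
    exact Integrable.mono' this hxm (Eventually.of_forall fun ω => le_rfl)
  have i2 : IntegrableOn (fun ω => jj r (x ω)) A μ := by
    have := intOn_rpow h1 h2 x (s := r - 1) (by linarith) (by linarith) hμA
    refine Integrable.mono' this ((measurable_jj r).comp_aemeasurable hxm.aemeasurable).aestronglyMeasurable ?_
    exact Eventually.of_forall fun ω => by rw [Real.norm_eq_abs, abs_jj hpr, Real.norm_eq_abs]
  have i3 := intOn_rpow h1 h2 x (s := r) (by linarith) le_rfl hμA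
  have e0 : (μ.real A ^ (1 / r)) ^ r = μ.real A := by
    rw [← Real.rpow_mul hm.le]
    have : 1 / r * r = 1 := by field_simp
    rw [this, Real.rpow_one]
  have ej : jj r (μ.real A ^ (1 / r)) = (μ.real A) ^ ((r - 1) / r) := by
    rw [jj_nonneg_eq hpr (by positivity), ← Real.rpow_mul hm.le]; congr 1; ring
  have := avg_nonneg (μ := μ) hμA h0 (g1 := fun ω => (μ.real A) ^ (1 / r) * x ω)
    (g2 := fun ω => (μ.real A) ^ ((r - 1) / r) * jj r (x ω)) (g3 := fun ω => μ.real A * ‖x ω‖ ^ r)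
    (i1.const_mul _) (i2.const_mul _) (i3.const_mul _) c0 c1 c2 c3 (fun ω => by
      have := h ((μ.real A) ^ (1 / r) * x ω)
      rw [jj_mul, ej, abs_mul, Real.mul_rpow (abs_nonneg _) (abs_nonneg _), abs_of_nonneg (by positivity), e0] at this
      rw [Real.norm_eq_abs]
      exact this)
  rw [integral_const_mul, integral_const_mul, integral_const_mul] at this
  have e1 : (μ.real A)⁻¹ * ((μ.real A) ^ (1 / r) * ∫ ω in A, x ω ∂μ) = (μ.real A) ^ (1 / r - 1) * ∫ ω in A, x ω ∂μ := by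
    rw [← mul_assoc, ← Real.rpow_neg_one, ← Real.rpow_add hm]; congr 2; ring
  have e2 : (μ.real A)⁻¹ * ((μ.real A) ^ ((r - 1) / r) * ∫ ω in A, jj r (x ω) ∂μ) =
      (μ.real A) ^ (-(1 / r)) * ∫ ω in A, jj r (x ω) ∂μ := by
    rw [← mul_assoc, ← Real.rpow_neg_one, ← Real.rpow_add hm]; congr 2; field_simp; ring
  have e3 : (μ.real A)⁻¹ * (μ.real A * ∫ ω in A, ‖x ω‖ ^ r ∂μ) = ∫ ω in A, ‖x ω‖ ^ r ∂μ := by
    rw [← mul_assoc, inv_mul_cancel₀ hm.ne', one_mul]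
  rw [e1, e2, e3] at this
  exact this

theorem real_main [Fact (1 ≤ p)] (h1 : 1 < p) (h2 : p ≠ ∞) (h3 : p ≠ 2) {A B D : Set Ω}
    (hA : MeasurableSet A) (hμA : μ A ≠ ∞) (hA0 : μ A ≠ 0)
    (hB : MeasurableSet B) (hμB : μ B ≠ ∞) (hB0 : μ B ≠ 0)
    (hD : MeasurableSet D) (hμD : μ D ≠ ∞) (hD0 : μ D ≠ 0)
    (hAB : Disjoint A B) (hAD : Disjoint A D) (hBD : Disjoint B D) :
    numIndex ℝ (Lp ℝ p μ) < Mp p.toReal := by
  have hpr := toReal_gt_one h1 h2
  have hr2 : p.toReal ≠ 2 := by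
    intro h; apply h3
    rw [← ENNReal.ofReal_toReal h2, h]; simp
  obtain ⟨κ, hκ1, hκ2, C, hC, ε0, hε0, hkey⟩ := key_all hpr hr2
  have hM := Mp_pos hpr hr2
  obtain ⟨aA, haA⟩ := exists_alpha (𝕜 := ℝ) (p := p) hA hμA
  obtain ⟨aB, haB⟩ := exists_alpha (𝕜 := ℝ) (p := p) hB hμB
  obtain ⟨aD, haD⟩ := exists_alpha (𝕜 := ℝ) (p := p) hD hμD
  obtain ⟨PA, hPA⟩ := exists_proj (𝕜 := ℝ) (p := p) hA hμA
  obtain ⟨PB, hPB⟩ := exists_proj (𝕜 := ℝ) (p := p) hB hμB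
  set r := p.toReal with hr
  set c : ℝ := (2 : ℝ) ^ (1 / r) with hc
  have hc0 : 0 < c := by positivity
  have hcr : c ^ r = 2 := by
    rw [hc, ← Real.rpow_mul (by norm_num)]
    have : 1 / r * r = 1 := by field_simp
    rw [this, Real.rpow_one]
  set eA := ee ℝ p hA hμA with heA
  set eB := ee ℝ p hB hμB with heB
  set eD := ee ℝ p hD hμD with heD
  set T : ℝ → (Lp ℝ p μ →L[ℝ] Lp ℝ p μ) := fun ε =>
    (c / 2) • (aA + aB).smulRight eD - c⁻¹ • aD.smulRight (eA + eB) +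
      ε • (PA - PB + κ • (aB.smulRight eA - aA.smulRight eB)) with hT
  have hTapp : ∀ ε x, T ε x = (c / 2) • ((aA x + aB x) • eD) - c⁻¹ • (aD x • (eA + eB)) +
      ε • (PA x - PB x + κ • (aB x • eA - aA x • eB)) := fun ε x => rfl
  -- the numerical radius
  have hrad : ∀ ε : ℝ, |ε| ≤ ε0 → numIndex ℝ (Lp ℝ p μ) * ‖T ε‖ ≤ Mp r + C * ε ^ 2 := by
    intro ε hε
    apply numIndex_mul_norm_le _ _ (by positivity)
    intro x φ hx hφ hφx
    have eA' := real_norming_ee h1 h2 x φ hx hφ hφx hA hμA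
    have eB' := real_norming_ee h1 h2 x φ hx hφ hφx hB hμB
    have eD' := real_norming_ee h1 h2 x φ hx hφ hφx hD hμD
    have nA := real_norming_proj h1 h2 x φ hx hφ hφx hA hPA
    have nB := real_norming_proj h1 h2 x φ hx hφ hφx hB hPB
    have vA := haA x
    have vB := haB x
    have vD := haD x
    simp only [RCLike.ofReal_real_eq_id, id] at vA vB vD
    have sA := fun c0 c1 c2 c3 h => avg3 h1 h2 x hμA hA0 c0 c1 c2 c3 h
    have sB := fun c0 c1 c2 c3 h => avg3 h1 h2 x hμB hB0 c0 c1 c2 c3 h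
    have sD := fun c0 c1 c2 c3 h => avg3 h1 h2 x hμD hD0 c0 c1 c2 c3 h
    rw [← hr, ← heA] at eA'
    rw [← hr, ← heB] at eB'
    rw [← hr, ← heD] at eD'
    rw [← hr] at nA nB
    simp only [← hr] at sA sB sD
    simp only [← vA, ← eA', ← nA] at sA
    simp only [← vB, ← eB', ← nB] at sB
    set ND := ∫ ω in D, ‖x ω‖ ^ r ∂μ with hND
    simp only [← vD, ← eD'] at sD
    set K := Mp r + C * ε ^ 2 with hK
    have hK0 : 0 ≤ K := by positivity
    -- integrate the scalar inequality three times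
    have hstep : ∀ s : ℝ, (s = 1 ∨ s = -1) →
        s * (c / 2 * (aA x + aB x) * φ eD - c⁻¹ * aD x * (φ eA + φ eB) +
          ε * (φ (PA x) - φ (PB x) + κ * (φ eA * aB x - φ eB * aA x))) ≤ K * (φ (PA x) + φ (PB x) + ND) := by
      intro s hs
      have g0 : ∀ X Y Z : ℝ, s * (c / 2 * (X + Y) * jj r Z - c⁻¹ * Z * (jj r X + jj r Y) +
          ε * (|X| ^ r - |Y| ^ r + κ * (jj r X * Y - jj r Y * X))) ≤ K * (|X| ^ r + |Y| ^ r + |Z| ^ r) := by
        intro X Y Z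
        have hk := abs_le.1 (hkey ε hε X Y Z)
        unfold FF GG at hk
        rw [← hc] at hk
        rcases hs with rfl | rfl
        · linarith [hk.2]
        · linarith [hk.1]
      have g1 : ∀ Y Z : ℝ, s * (c / 2 * (aA x + Y) * jj r Z - c⁻¹ * Z * (φ eA + jj r Y) +
          ε * (φ (PA x) - |Y| ^ r + κ * (φ eA * Y - jj r Y * aA x))) ≤ K * (φ (PA x) + |Y| ^ r + |Z| ^ r) := by
        intro Y Z
        have := sA (K * (|Y| ^ r + |Z| ^ r) - s * (c / 2 * Y * jj r Z - c⁻¹ * Z * jj r Y - ε * |Y| ^ r))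
          (-s * (c / 2 * jj r Z - ε * κ * jj r Y)) (-s * (-c⁻¹ * Z + ε * κ * Y)) (K - s * ε)
          (fun X => by linarith [g0 X Y Z])
        linarith
      have g2 : ∀ Z : ℝ, s * (c / 2 * (aA x + aB x) * jj r Z - c⁻¹ * Z * (φ eA + φ eB) +
          ε * (φ (PA x) - φ (PB x) + κ * (φ eA * aB x - φ eB * aA x))) ≤ K * (φ (PA x) + φ (PB x) + |Z| ^ r) := by
        intro Z
        have := sB (K * (φ (PA x) + |Z| ^ r) - s * (c / 2 * aA x * jj r Z - c⁻¹ * Z * φ eA + ε * φ (PA x)))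
          (-s * (c / 2 * jj r Z + ε * κ * φ eA)) (-s * (-c⁻¹ * Z - ε * κ * aA x)) (K + s * ε)
          (fun Y => by linarith [g1 Y Z])
        linarith
      have := sD (K * (φ (PA x) + φ (PB x)) - s * (ε * (φ (PA x) - φ (PB x) + κ * (φ eA * aB x - φ eB * aA x))))
          (s * (c⁻¹ * (φ eA + φ eB))) (-s * (c / 2 * (aA x + aB x))) K
          (fun Z => by linarith [g2 Z])
      linarith
    have hsum : φ (PA x) + φ (PB x) + ND ≤ 1 := by
      rw [nA, nB, hND]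
      have hi := integrable_rpow h1 h2 x
      have hu : ∫ ω in A ∪ B, ‖x ω‖ ^ r ∂μ = (∫ ω in A, ‖x ω‖ ^ r ∂μ) + ∫ ω in B, ‖x ω‖ ^ r ∂μ :=
        setIntegral_union hAB hB hi.integrableOn hi.integrableOn
      rw [← hu]
      exact sum_mass_le h1 h2 x hx hD (Set.disjoint_union_left.2 ⟨hAD, hBD⟩)
    have hval : φ (T ε x) = c / 2 * (aA x + aB x) * φ eD - c⁻¹ * aD x * (φ eA + φ eB) +
          ε * (φ (PA x) - φ (PB x) + κ * (φ eA * aB x - φ eB * aA x)) := by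
      rw [hTapp]
      simp only [map_add, map_sub, map_smul, smul_eq_mul]
      ring
    have hle : K * (φ (PA x) + φ (PB x) + ND) ≤ K := by nlinarith
    rw [hval, Real.norm_eq_abs, abs_le]
    have p1 := hstep 1 (Or.inl rfl)
    have p2 := hstep (-1) (Or.inr rfl)
    constructor <;> linarith
  -- contradiction
  by_contra hcon
  push Not at hcon
  have hnorm : ∀ ε : ℝ, |ε| ≤ ε0 → ‖T ε‖ ≤ 1 + C / Mp r * ε ^ 2 := by
    intro ε hε
    have h4 := hrad ε hε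
    have h5 : Mp r * ‖T ε‖ ≤ numIndex ℝ (Lp ℝ p μ) * ‖T ε‖ := by gcongr
    have h6 : Mp r * ‖T ε‖ ≤ Mp r * (1 + C / Mp r * ε ^ 2) := by
      calc _ ≤ _ := h5.trans h4
        _ = _ := by field_simp
    exact le_of_mul_le_mul_left h6 hM
  have hC' : 0 ≤ C / Mp r := by positivity
  have v1 : aA eA = 1 := by rw [haA]; exact alpha_ee_self (𝕜 := ℝ) (p := p) hA hμA hA0
  have v2 : aB eB = 1 := by rw [haB]; exact alpha_ee_self (𝕜 := ℝ) (p := p) hB hμB hB0
  have v3 : aD eD = 1 := by rw [haD]; exact alpha_ee_self (𝕜 := ℝ) (p := p) hD hμD hD0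
  have v4 : aA eB = 0 := by rw [haA, heB, alpha_ee_disj (𝕜 := ℝ) (p := p) hB hA hμB hAB.symm, mul_zero]
  have v5 : aA eD = 0 := by rw [haA, heD, alpha_ee_disj (𝕜 := ℝ) (p := p) hD hA hμD hAD.symm, mul_zero]
  have v6 : aB eA = 0 := by rw [haB, heA, alpha_ee_disj (𝕜 := ℝ) (p := p) hA hB hμA hAB, mul_zero]
  have v7 : aB eD = 0 := by rw [haB, heD, alpha_ee_disj (𝕜 := ℝ) (p := p) hD hB hμD hBD.symm, mul_zero]
  have v8 : aD eA = 0 := by rw [haD, heA, alpha_ee_disj (𝕜 := ℝ) (p := p) hA hD hμA hAD, mul_zero]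
  have v9 : aD eB = 0 := by rw [haD, heB, alpha_ee_disj (𝕜 := ℝ) (p := p) hB hD hμB hBD, mul_zero]
  have w1 : PA eA = eA := proj_ee_self hA hμA hPA
  have w2 : PB eB = eB := proj_ee_self hB hμB hPB
  have w3 : PA eB = 0 := proj_ee_disj hB hμB hAB.symm hPA
  have w4 : PB eA = 0 := proj_ee_disj hA hμA hAB hPB
  have w5 : PA eD = 0 := proj_ee_disj hD hμD hAD.symm hPA
  have w6 : PB eD = 0 := proj_ee_disj hD hμD hBD.symm hPB
  have hn3 : ∀ a b d : ℝ, ‖a • eA + b • eB + d • eD‖ ^ r = ‖a‖ ^ r + ‖b‖ ^ r + ‖d‖ ^ r := fun a b d =>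
    norm_three h1 h2 hA hμA hA0 hB hμB hB0 hD hμD hD0 hAB hAD hBD a b d
  rcases lt_or_gt_of_ne hr2 with hlt | hgt
  · -- exponent below two
    have hκ := hκ2 hlt
    have hk0 : 0 < |1 + κ| := abs_pos.2 (fun h => hκ (by linarith))
    apply no_small_lt hpr hlt (c := |1 + κ| ^ r) (C := C / Mp r) (ε0 := ε0) (by positivity) hC' hε0
    intro ε hε hεle
    set u := c⁻¹ • eA + c⁻¹ • eB + (0 : ℝ) • eD with hu
    have hun : ‖u‖ = 1 := by
      have h4 : ‖u‖ ^ r = 1 := by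
        rw [hu, hn3, norm_zero, Real.zero_rpow (by linarith), Real.norm_of_nonneg (by positivity), Real.inv_rpow hc0.le, hcr]
        norm_num
      have h5 : ‖u‖ ^ r = (1 : ℝ) ^ r := by rw [h4, Real.one_rpow]
      exact (Real.rpow_left_inj (norm_nonneg _) zero_le_one (by linarith)).1 h5
    have e1 : T ε u = (ε * (1 + κ) * c⁻¹) • eA + (-(ε * (1 + κ) * c⁻¹)) • eB + (1 : ℝ) • eD := by
      rw [hTapp, hu]
      simp only [map_add, map_smul, v1, v2, v4, v6, v8, v9, w1, w2, w3, w4, smul_zero, smul_eq_mul,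
        mul_zero, add_zero, zero_add, mul_one, zero_smul]
      have : c / 2 * (c⁻¹ + c⁻¹) = 1 := by field_simp; norm_num
      rw [smul_smul, this]
      module
    have e2 : ‖T ε u‖ ^ r = 1 + |1 + κ| ^ r * ε ^ r := by
      rw [e1, hn3, norm_neg, norm_one, Real.one_rpow, norm_mul, norm_mul, Real.norm_of_nonneg hε.le,
        Real.norm_of_nonneg (by positivity : (0:ℝ) ≤ c⁻¹), Real.norm_eq_abs,
        Real.mul_rpow (by positivity) (by positivity), Real.mul_rpow (by positivity) (by positivity),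
        Real.inv_rpow hc0.le, hcr]
      ring
    rw [← e2]
    have e3 : ‖T ε u‖ ≤ 1 + C / Mp r * ε ^ 2 := by
      calc _ ≤ ‖T ε‖ * ‖u‖ := (T ε).le_opNorm _
        _ = ‖T ε‖ := by rw [hun, mul_one]
        _ ≤ _ := hnorm ε (by rwa [abs_of_pos hε])
    exact Real.rpow_le_rpow (norm_nonneg _) e3 (by linarith)
  · -- exponent above two
    have hκ := hκ1 hgt
    have hk0 : 0 < |κ - 1| := abs_pos.2 (fun h => hκ (by linarith))
    -- choose δ0 with δ0^(r/2) ≤ ε0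
    obtain ⟨δ0, hδ0, hδ1⟩ : ∃ δ0 : ℝ, 0 < δ0 ∧ ∀ δ, 0 < δ → δ ≤ δ0 → δ ^ (r / 2) ≤ ε0 := by
      refine ⟨ε0 ^ (2 / r), by positivity, fun δ hδ hle => ?_⟩
      have h4 := Real.rpow_le_rpow hδ.le hle (by linarith : 0 ≤ r / 2)
      rw [← Real.rpow_mul hε0.le] at h4
      have : 2 / r * (r / 2) = 1 := by field_simp
      rwa [this, Real.rpow_one] at h4
    apply no_small_gt (r := r) (c := c * |κ - 1|) (C := C / Mp r) (K := 2) (δ0 := δ0) hgt (by positivity) hC' (by norm_num) hδ0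
    intro δ hδ hδle
    set ε := δ ^ (r / 2) with hε
    have hεpos : 0 < ε := by positivity
    have hεle : ε ≤ ε0 := hδ1 δ hδ hδle
    -- sign
    obtain ⟨s, hs, hsκ⟩ : ∃ s : ℝ, |s| = 1 ∧ s * (κ - 1) = |κ - 1| := by
      rcases abs_cases (κ - 1) with ⟨h, _⟩ | ⟨h, _⟩
      · exact ⟨1, by simp, by rw [h]; ring⟩
      · exact ⟨-1, by simp, by rw [h]; ring⟩
    set x := (s * δ) • eA + (-(s * δ)) • eB + (1 : ℝ) • eD with hx
    have hsδ : ‖s * δ‖ = δ := by rw [norm_mul, Real.norm_eq_abs, hs, Real.norm_of_nonneg hδ.le, one_mul]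
    have e1 : T ε x = (-(c⁻¹ + ε * δ * |κ - 1|)) • eA + (-(c⁻¹ + ε * δ * |κ - 1|)) • eB + (0 : ℝ) • eD := by
      rw [hTapp, hx, ← hsκ]
      simp only [map_add, map_smul, v1, v2, v4, v5, v6, v7, v8, v9, v3, w1, w2, w3, w4, w5, w6, smul_zero, smul_eq_mul,
        mul_zero, add_zero, zero_add, mul_one, zero_smul]
      module
    have e2 : ‖T ε x‖ = 1 + c * |κ - 1| * ε * δ := by
      have h4 : ‖T ε x‖ ^ r = (1 + c * |κ - 1| * ε * δ) ^ r := by
        rw [e1, hn3, norm_zero, Real.zero_rpow (by linarith), norm_neg, Real.norm_of_nonneg (by positivity)]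
        have : 1 + c * |κ - 1| * ε * δ = c * (c⁻¹ + ε * δ * |κ - 1|) := by field_simp
        rw [this, Real.mul_rpow hc0.le (by positivity), hcr]
        ring
      exact (Real.rpow_left_inj (norm_nonneg _) (by positivity) (by linarith)).1 h4
    have e4 : ‖x‖ ≤ 1 + 2 * δ ^ r := by
      have h4 : ‖x‖ ^ r = 1 + 2 * δ ^ r := by
        rw [hx, hn3, norm_neg, hsδ, norm_one, Real.one_rpow]; ring
      by_contra hh
      push Not at hh
      have h5 : (1 + 2 * δ ^ r) ^ r < ‖x‖ ^ r := Real.rpow_lt_rpow (by positivity) hh (by linarith)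
      have h6 : 1 + 2 * δ ^ r ≤ (1 + 2 * δ ^ r) ^ r := by
        have h8 : 1 ≤ 1 + 2 * δ ^ r := by
          have : 0 ≤ δ ^ r := by positivity
          linarith
        calc 1 + 2 * δ ^ r = (1 + 2 * δ ^ r) ^ (1 : ℝ) := (Real.rpow_one _).symm
          _ ≤ _ := Real.rpow_le_rpow_of_exponent_le h8 (by linarith)
      linarith
    calc 1 + c * |κ - 1| * ε * δ = ‖T ε x‖ := e2.symm
      _ ≤ ‖T ε‖ * ‖x‖ := (T ε).le_opNorm _
      _ ≤ (1 + C / Mp r * ε ^ 2) * (1 + 2 * δ ^ r) := by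
        have := hnorm ε (by rwa [abs_of_pos hεpos])
        gcongr

end Pool.Agent.Work.MP_95d40a_an
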