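import Pool.Agent.Work.MP_95d40a_an.Defs

set_option autoImplicit false

open MeasureTheory Filter Topology

namespace Pool.Agent.Work.MP_95d40a_an

/-! ### elementary inequalities -/

lemma bern1 {r y t : ℝ} (hr : 1 ≤ r) (hy : 0 ≤ y) (ht : 0 < t) :
    t ^ r + r * t ^ (r - 1) * (y - t) ≤ y ^ r := by
  have h1 := one_add_mul_self_le_rpow_one_add (s := y / t - 1) (by
    have : 0 ≤ y / t := by positivity
    linarith) hr
  have h2 : 1 + (y / t - 1) = y / t := by ring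
  rw [h2, Real.div_rpow hy ht.le] at h1
  have h3 : 0 < t ^ r := by positivity
  have h4 : t ^ (r - 1) = t ^ r / t := by rw [Real.rpow_sub_one ht.ne']
  have h5 := mul_le_mul_of_nonneg_left h1 h3.le
  calc t ^ r + r * t ^ (r - 1) * (y - t) = t ^ r * (1 + r * (y / t - 1)) := by
        rw [h4]; field_simp
    _ ≤ t ^ r * (y ^ r / t ^ r) := h5
    _ = y ^ r := by field_simp

lemma sq_rpow_half {y p : ℝ} (hy : 0 ≤ y) : (y ^ 2) ^ (p / 2) = y ^ p := by
  rw [← Real.rpow_natCast, ← Real.rpow_mul hy]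
  congr 1; push_cast; ring

lemma bern2 {p y t : ℝ} (hp : 2 ≤ p) (hy : 0 ≤ y) (ht : 0 < t) :
    t ^ p + p * t ^ (p - 1) * (y - t) + p / 2 * t ^ (p - 2) * (y - t) ^ 2 ≤ y ^ p := by
  have h1 := bern1 (r := p / 2) (y := y ^ 2) (t := t ^ 2) (by linarith) (by positivity) (by positivity)
  rw [sq_rpow_half hy, sq_rpow_half ht.le] at h1
  have h2 : (t ^ 2) ^ (p / 2 - 1) = t ^ (p - 2) := by
    rw [show p / 2 - 1 = (p - 2) / 2 by ring, sq_rpow_half ht.le]
  rw [h2] at h1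
  have h3 : t ^ (p - 1) = t ^ (p - 2) * t := by
    rw [← Real.rpow_add_one ht.ne']; congr 1; ring
  rw [h3]
  calc _ = t ^ p + p / 2 * t ^ (p - 2) * (y ^ 2 - t ^ 2) := by ring
    _ ≤ _ := h1

/-- `1 - τ^θ ≥ θ τ^θ (1 - τ)` -/
lemma star_ineq {τ θ : ℝ} (hτ : 0 < τ) (hθ : 0 ≤ θ) : θ * τ ^ θ * (1 - τ) ≤ 1 - τ ^ θ := by
  have h1 : 1 + θ * (1 - τ) ≤ τ ^ (-θ) := by
    rw [Real.rpow_def_of_pos hτ]
    have h2 := Real.add_one_le_exp (Real.log τ * -θ)
    have h3 : Real.log τ ≤ τ - 1 := Real.log_le_sub_one_of_pos hτ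
    nlinarith
  have h4 : 0 < τ ^ θ := by positivity
  have h5 := mul_le_mul_of_nonneg_left h1 h4.le
  rw [← Real.rpow_add hτ, add_neg_cancel, Real.rpow_zero] at h5
  linarith

lemma young1 {r τ : ℝ} (hr : 1 ≤ r) (hτ : 0 ≤ τ) : 0 ≤ 1 + (r - 1) * τ ^ r - r * τ ^ (r - 1) := by
  rcases hτ.eq_or_lt with rfl | hτ
  · rcases hr.eq_or_lt with rfl | hr
    · simp
    · rw [Real.zero_rpow (by linarith), Real.zero_rpow (by linarith)]; simp
  · have h1 := bern1 hr (zero_le_one) hτ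
    rw [Real.one_rpow] at h1
    have h3 : τ ^ r = τ ^ (r - 1) * τ := by
      rw [← Real.rpow_add_one hτ.ne']; congr 1; ring
    rw [h3] at h1 ⊢
    linarith

lemma young2 {p τ : ℝ} (hp : 2 ≤ p) (hτ : 0 ≤ τ) :
    (1 - τ) ^ 2 ≤ 1 + (p - 1) * τ ^ p - p * τ ^ (p - 1) := by
  rcases hτ.eq_or_lt with rfl | hτ
  · rw [Real.zero_rpow (by linarith), Real.zero_rpow (by linarith)]; simp
  · obtain ⟨θ, rfl⟩ : ∃ θ, p = θ + 2 := ⟨p - 2, by ring⟩
    have hθ : 0 ≤ θ := by linarith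
    have h1 := star_ineq hτ hθ
    have e1 : τ ^ (θ + 2 - 1) = τ ^ θ * τ := by
      rw [← Real.rpow_add_one hτ.ne']; congr 1; ring
    have e2 : τ ^ (θ + 2) = τ ^ θ * τ ^ 2 := by
      rw [Real.rpow_add hτ]; norm_num
    rw [e1, e2]
    set s := τ ^ θ with hs
    have hs0 : 0 < s := by positivity
    have key : 0 ≤ (2 - τ) * (1 - s) - θ * s * (1 - τ) := by
      rcases le_total τ 1 with h | h
      · have hs1 : s ≤ 1 := Real.rpow_le_one hτ.le h hθ
        nlinarith [mul_nonneg (sub_nonneg.2 h) (sub_nonneg.2 hs1)]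
      · have hs1 : 1 ≤ s := Real.one_le_rpow h hθ
        rcases le_total τ 2 with h2 | h2
        · nlinarith [mul_nonneg (sub_nonneg.2 h) (sub_nonneg.2 hs1)]
        · have a1 : 0 ≤ (τ - 2) * (s - 1) := mul_nonneg (by linarith) (by linarith)
          have a2 : 0 ≤ θ * s * (τ - 1) := mul_nonneg (by positivity) (by linarith)
          nlinarith
    nlinarith [mul_nonneg hτ.le key]

lemma pow_lip {r a b Y : ℝ} (hr : 1 ≤ r) (ha : 0 ≤ a) (hb : 0 ≤ b) (haY : a ≤ Y) (hbY : b ≤ Y) :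
    |a ^ r - b ^ r| ≤ r * Y ^ (r - 1) * |a - b| := by
  wlog h : b ≤ a generalizing a b
  · rw [abs_sub_comm, abs_sub_comm a b]
    exact this hb ha hbY haY (le_of_not_ge h)
  rcases ha.eq_or_lt with rfl | ha
  · have : b = 0 := le_antisymm h hb
    subst this; simp
  have h1 := bern1 hr hb ha
  have h2 : b ^ r ≤ a ^ r := Real.rpow_le_rpow hb h (by linarith)
  rw [abs_of_nonneg (by linarith), abs_of_nonneg (by linarith)]
  have h3 : a ^ (r - 1) ≤ Y ^ (r - 1) := Real.rpow_le_rpow ha.le haY (by linarith)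
  have h4 : r * a ^ (r - 1) * (a - b) ≤ r * Y ^ (r - 1) * (a - b) := by
    have : 0 ≤ a - b := by linarith
    gcongr
  linarith

/-- deficit in the weighted arithmetic-geometric mean inequality -/
lemma amgm_deficit {α β U V : ℝ} (hβ : 0 ≤ β) (h : α + β = 1) (hle : β ≤ α)
    (hU : 0 ≤ U) (hV : 0 ≤ V) :
    U ^ α * V ^ β ≤ α * U + β * V - β * (Real.sqrt U - Real.sqrt V) ^ 2 := by
  have hS : 0 ≤ Real.sqrt U * Real.sqrt V := by positivity
  have h1 := Real.geom_mean_le_arith_mean2_weighted (w₁ := α - β) (w₂ := 2 * β) (p₁ := U)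
    (p₂ := Real.sqrt U * Real.sqrt V) (by linarith) (by linarith) hU hS (by linarith)
  have hsq : ∀ W : ℝ, 0 ≤ W → Real.sqrt W ^ (2 * β) = W ^ β := by
    intro W hW
    rw [Real.rpow_mul (Real.sqrt_nonneg _), Real.rpow_two, Real.sq_sqrt hW]
  have h2 : (Real.sqrt U * Real.sqrt V) ^ (2 * β) = U ^ β * V ^ β := by
    rw [Real.mul_rpow (Real.sqrt_nonneg _) (Real.sqrt_nonneg _), hsq U hU, hsq V hV]
  have h3 : U ^ (α - β) * U ^ β = U ^ α := by
    rcases hU.eq_or_lt with rfl | hU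
    · rcases hβ.eq_or_lt with rfl | hβ
      · simp
      · rw [Real.zero_rpow hβ.ne', Real.zero_rpow (show α ≠ 0 by linarith), mul_zero]
    · rw [← Real.rpow_add hU]; congr 1; ring
  rw [h2, ← mul_assoc, h3] at h1
  have h4 : Real.sqrt U ^ 2 = U := Real.sq_sqrt hU
  have h5 : Real.sqrt V ^ 2 = V := Real.sq_sqrt hV
  calc U ^ α * V ^ β ≤ (α - β) * U + 2 * β * (Real.sqrt U * Real.sqrt V) := h1
    _ = α * U + β * V - β * (Real.sqrt U ^ 2 - 2 * (Real.sqrt U * Real.sqrt V) + Real.sqrt V ^ 2) := by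
      rw [h4, h5]; ring
    _ = _ := by ring

end Pool.Agent.Work.MP_95d40a_an
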