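import Pool.Agent.Work.MP_95d40a_an.DimTwo

set_option autoImplicit false

open MeasureTheory Filter Topology
open scoped ENNReal

namespace Pool.Agent.Work.MP_95d40a_an

variable {Ω : Type*} [MeasurableSpace Ω] {μ : Measure Ω} {p : ℝ≥0∞}

/-- The absolute numerical radius `|v|(T) = sup {∫ |x|^{p-1} |Tx| : ‖x‖ = 1}`. -/
noncomputable def absRadius [Fact (1 ≤ p)] (T : Lp ℝ p μ →L[ℝ] Lp ℝ p μ) : ℝ :=
  sSup {s : ℝ | ∃ x : Lp ℝ p μ, ‖x‖ = 1 ∧ s = ∫ ω, ‖x ω‖ ^ (p.toReal - 1) * ‖T x ω‖ ∂μ}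

theorem Mp_absRadius_le [Fact (1 ≤ p)] (h1 : 1 < p) (h2 : p ≠ ∞) (h3 : p ≠ 2) (T : Lp ℝ p μ →L[ℝ] Lp ℝ p μ) :
    Mp p.toReal * absRadius T ≤ numRadius T := by
  have hpr := toReal_gt_one h1 h2
  have hr2 : p.toReal ≠ 2 := by
    intro h; apply h3
    rw [← ENNReal.ofReal_toReal h2, h]; simp
  have hM := Mp_pos hpr hr2
  have : absRadius T ≤ numRadius T / Mp p.toReal := by
    apply Real.sSup_le _ (by have := numRadius_nonneg T; positivity)
    rintro _ ⟨x, hx, rfl⟩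
    have := abs_radius_le h1 h2 h3 T x
    rw [hx, Real.one_rpow, mul_one] at this
    rwa [le_div_iff₀' hM]
  rwa [le_div_iff₀' hM] at this

theorem absRadius_sharp [Fact (1 ≤ p)] (h1 : 1 < p) (h2 : p ≠ ∞) (h3 : p ≠ 2) {A B : Set Ω}
    (hA : MeasurableSet A) (hμA : μ A ≠ ∞) (hA0 : μ A ≠ 0)
    (hB : MeasurableSet B) (hμB : μ B ≠ ∞) (hB0 : μ B ≠ 0) (hAB : Disjoint A B) :
    ∃ T : Lp ℝ p μ →L[ℝ] Lp ℝ p μ, 0 < absRadius T ∧ numRadius T = Mp p.toReal * absRadius T := by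
  have hpr := toReal_gt_one h1 h2
  have hr2 : p.toReal ≠ 2 := by
    intro h; apply h3
    rw [← ENNReal.ofReal_toReal h2, h]; simp
  have hM := Mp_pos hpr hr2
  obtain ⟨aA, haA⟩ := exists_alpha (𝕜 := ℝ) (p := p) hA hμA
  obtain ⟨aB, haB⟩ := exists_alpha (𝕜 := ℝ) (p := p) hB hμB
  obtain ⟨PA, hPA⟩ := exists_proj (𝕜 := ℝ) (p := p) hA hμA
  obtain ⟨PB, hPB⟩ := exists_proj (𝕜 := ℝ) (p := p) hB hμB
  obtain ⟨r, hr⟩ : ∃ r, r = p.toReal := ⟨_, rfl⟩
  rw [← hr] at hpr hr2 hM ⊢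
  set eA := ee ℝ p hA hμA with heA
  set eB := ee ℝ p hB hμB with heB
  obtain ⟨T, hT⟩ : ∃ T : Lp ℝ p μ →L[ℝ] Lp ℝ p μ, T = aB.smulRight eA - aA.smulRight eB := ⟨_, rfl⟩
  have hTapp : ∀ x, T x = aB x • eA - aA x • eB := fun x => by rw [hT]; rfl
  have v1 : aA eA = 1 := by rw [haA]; exact alpha_ee_self (𝕜 := ℝ) (p := p) hA hμA hA0
  have v2 : aB eB = 1 := by rw [haB]; exact alpha_ee_self (𝕜 := ℝ) (p := p) hB hμB hB0
  have v4 : aA eB = 0 := by rw [haA, heB, alpha_ee_disj (𝕜 := ℝ) (p := p) hB hA hμB hAB.symm, mul_zero]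
  have v6 : aB eA = 0 := by rw [haB, heA, alpha_ee_disj (𝕜 := ℝ) (p := p) hA hB hμA hAB, mul_zero]
  have hnA : ‖eA‖ = 1 := norm_ee h1 h2 hA hμA hA0
  -- upper bound for the numerical radius
  have hrad : numRadius T ≤ Mp r := by
    apply Real.sSup_le _ hM.le
    rintro _ ⟨x, φ, hx, hφ, hφx, rfl⟩
    have eA' := real_norming_ee h1 h2 x φ hx hφ hφx hA hμA
    have eB' := real_norming_ee h1 h2 x φ hx hφ hφx hB hμB
    have nA := real_norming_proj h1 h2 x φ hx hφ hφx hA hPA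
    have nB := real_norming_proj h1 h2 x φ hx hφ hφx hB hPB
    have vA := haA x
    have vB := haB x
    simp only [RCLike.ofReal_real_eq_id, id] at vA vB
    rw [← hr] at vA vB
    have sA := fun c0 c1 c2 c3 h => avg3 h1 h2 x hμA hA0 c0 c1 c2 c3 h
    have sB := fun c0 c1 c2 c3 h => avg3 h1 h2 x hμB hB0 c0 c1 c2 c3 h
    rw [← hr, ← heA] at eA'
    rw [← hr, ← heB] at eB'
    rw [← hr] at nA nB
    simp only [← hr] at sA sB
    simp only [← vA, ← eA', ← nA] at sA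
    simp only [← vB, ← eB', ← nB] at sB
    have hstep : ∀ s : ℝ, (s = 1 ∨ s = -1) →
        s * (φ eA * aB x - φ eB * aA x) ≤ Mp r * (φ (PA x) + φ (PB x)) := by
      intro s hs
      have g0 : ∀ X Y : ℝ, s * (jj r X * Y - jj r Y * X) ≤ Mp r * (|X| ^ r + |Y| ^ r) := by
        intro X Y
        have hk := abs_le.1 (rot_bound hpr X Y)
        rcases hs with rfl | rfl
        · linarith [hk.2]
        · linarith [hk.1]
      have g1 : ∀ Y : ℝ, s * (φ eA * Y - jj r Y * aA x) ≤ Mp r * (φ (PA x) + |Y| ^ r) := by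
        intro Y
        have := sA (Mp r * |Y| ^ r) (s * jj r Y) (-s * Y) (Mp r) (fun X => by linarith [g0 X Y])
        linarith
      have := sB (Mp r * φ (PA x)) (-s * φ eA) (s * aA x) (Mp r) (fun Y => by linarith [g1 Y])
      linarith
    have hsum : φ (PA x) + φ (PB x) ≤ 1 := by
      rw [nA, nB, hr]
      exact sum_mass_le h1 h2 x hx hB hAB
    have hval : φ (T x) = φ eA * aB x - φ eB * aA x := by
      rw [hTapp]
      simp only [map_sub, map_smul, smul_eq_mul]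
      ring
    have hle : Mp r * (φ (PA x) + φ (PB x)) ≤ Mp r := by nlinarith
    rw [hval, Real.norm_eq_abs, abs_le]
    have p1 := hstep 1 (Or.inl rfl)
    have p2 := hstep (-1) (Or.inr rfl)
    constructor <;> linarith
  -- lower bound for the absolute radius
  have hlow := Mp_absRadius_le h1 h2 h3 T
  rw [← hr] at hlow
  have habs : 1 ≤ absRadius T := by
    have hn2 : ∀ X Y : ℝ, ‖X • eA + Y • eB‖ ^ r = |X| ^ r + |Y| ^ r := fun X Y => by
      rw [hr]; exact norm_two h1 h2 hA hμA hA0 hB hμB hB0 hAB X Y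
    obtain ⟨c, hc⟩ : ∃ c : ℝ, c = ((2 : ℝ) ^ (1 / r))⁻¹ := ⟨_, rfl⟩
    have hc0 : 0 < c := by rw [hc]; positivity
    have hcr : c ^ r = 1 / 2 := by
      rw [hc, Real.inv_rpow (by positivity), ← Real.rpow_mul (by norm_num), one_div_mul_cancel (by linarith), Real.rpow_one]
      norm_num
    obtain ⟨x, hx⟩ : ∃ x : Lp ℝ p μ, x = c • eA + c • eB := ⟨_, rfl⟩
    have hxn : ‖x‖ = 1 := by
      have h4 : ‖x‖ ^ r = (1 : ℝ) ^ r := by
        rw [hx, hn2, abs_of_pos hc0, hcr, Real.one_rpow]; norm_num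
      exact (Real.rpow_left_inj (norm_nonneg _) zero_le_one (by linarith)).1 h4
    have hTx : T x = c • eA - c • eB := by
      rw [hTapp, hx]
      simp only [map_add, map_smul, v1, v2, v4, v6, smul_eq_mul, mul_zero, mul_one, add_zero, zero_add]
    have hdis : ∀ᵐ ω ∂μ, (eA : Ω → ℝ) ω = 0 ∨ (eB : Ω → ℝ) ω = 0 := ee_disj hA hμA hB hμB hAB
    have hval : ∫ ω, ‖x ω‖ ^ (p.toReal - 1) * ‖T x ω‖ ∂μ = 1 := by
      have : ∫ ω, ‖x ω‖ ^ (p.toReal - 1) * ‖T x ω‖ ∂μ = ∫ ω, ‖x ω‖ ^ p.toReal ∂μ := by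
        apply integral_congr_ae
        have f1 := Lp.coeFn_add (c • eA) (c • eB)
        have f2 := Lp.coeFn_sub (c • eA) (c • eB)
        rw [← hx] at f1
        rw [← hTx] at f2
        filter_upwards [hdis, f1, f2, Lp.coeFn_smul c eA, Lp.coeFn_smul c eB] with ω e1 e2 e3 e4 e5
        have hxT : ‖T x ω‖ = ‖x ω‖ := by
          rw [e2, e3, Pi.add_apply, Pi.sub_apply, e4, e5, Pi.smul_apply, Pi.smul_apply]
          rcases e1 with h | h
          · rw [h, smul_zero, zero_add, zero_sub, norm_neg]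
          · rw [h, smul_zero, add_zero, sub_zero]
        rw [hxT]
        rcases eq_or_ne ‖x ω‖ 0 with h0 | h0
        · rw [h0, mul_zero, Real.zero_rpow (by rw [← hr]; linarith)]
        · rw [← Real.rpow_add_one h0, sub_add_cancel]
      rw [this, ← norm_rpow_eq h1 h2, hxn, Real.one_rpow]
    unfold absRadius
    apply le_csSup
    · refine ⟨numRadius T / Mp r, ?_⟩
      rintro _ ⟨y, hy, rfl⟩
      have := abs_radius_le h1 h2 h3 T y
      rw [hy, Real.one_rpow, mul_one, ← hr] at this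
      rw [← hr]
      rwa [le_div_iff₀' hM]
    · exact ⟨x, hxn, hval.symm⟩
  refine ⟨T, by linarith, le_antisymm ?_ hlow⟩
  calc numRadius T ≤ Mp r := hrad
    _ = Mp r * 1 := by ring
    _ ≤ Mp r * absRadius T := by gcongr

end Pool.Agent.Work.MP_95d40a_an
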