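import Pool.Agent.Work.MP_95d40a_an.RealKey3

set_option autoImplicit false

namespace Pool.Agent.Work.MP_95d40a_an

/-! ### two by two matrices -/

/-- The polytope lemma: six values of the numerical range control all entries. -/
lemma two_core {a b c d v t r N X11 X12 X21 X22 : ℝ} (hr : 0 < r) (hrt : r < t) (ht : t < 1)
    (ha0 : 0 ≤ a) (hb : |b| ≤ a) (ha : a ≤ v)
    (h3 : |a + b * (t * r)| + |c * t + d * r| ≤ v * (1 + t * r))
    (h4 : |a * (t * r) + b| + |c * r + d * t| ≤ v * (1 + t * r))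
    (x11 : 0 ≤ X11) (x12 : 0 ≤ X12) (x21 : 0 ≤ X21) (x22 : 0 ≤ X22) (hN : 0 ≤ N)
    (s1 : (t - r) / (1 + t * r) * X11 + r * (1 + t ^ 2) / (t + r) * X12 +
      t * (1 + r ^ 2) / (t + r) * X21 + (t - r) / (1 + t * r) * (t * r) * X22 ≤ N)
    (s3 : X12 + X21 ≤ N) (s4 : X11 + X22 ≤ N) :
    (t - r) / (1 + t * r) * (a * X11 + |c| * X12 + |d| * X21 + |b| * X22) ≤ v * N := by
  have ht0 : 0 < t := hr.trans hrt
  have htr : 0 < t * r := mul_pos ht0 hr
  have htr1 : t * r < 1 := by nlinarith
  set K := 1 + t * r with hK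
  have hK0 : 0 < K := by positivity
  set M := (t - r) / K with hM
  have hM0 : 0 < M := div_pos (by linarith) hK0
  have hM1 : M ≤ 1 := by
    rw [hM, div_le_one hK0, hK]; nlinarith
  have hMK : M * K = t - r := by rw [hM]; field_simp
  set A := r * (1 + t ^ 2) / (t + r) with hA
  set B := t * (1 + r ^ 2) / (t + r) with hB
  have hs : 0 < t + r := by positivity
  have hA0 : 0 ≤ A := by positivity
  have hB0 : 0 ≤ B := by positivity
  have hAe : A * (t + r) = r * (1 + t ^ 2) := by rw [hA]; field_simp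
  have hBe : B * (t + r) = t * (1 + r ^ 2) := by rw [hB]; field_simp
  obtain ⟨hb1, hb2⟩ := abs_le.1 hb
  set P := c * t + d * r with hP
  set Q := c * r + d * t with hQ
  have hd2 : 0 < t ^ 2 - r ^ 2 := by nlinarith
  -- entries from P and Q
  have hc : |c| * (t ^ 2 - r ^ 2) ≤ t * |P| + r * |Q| := by
    have e : c * (t ^ 2 - r ^ 2) = t * P - r * Q := by rw [hP, hQ]; ring
    have e2 : |c| * (t ^ 2 - r ^ 2) = |c * (t ^ 2 - r ^ 2)| := by
      rw [abs_mul, abs_of_pos hd2]
    rw [e2, e]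
    calc |t * P - r * Q| ≤ |t * P| + |r * Q| := abs_sub _ _
      _ = t * |P| + r * |Q| := by rw [abs_mul, abs_mul, abs_of_pos ht0, abs_of_pos hr]
  have hd : |d| * (t ^ 2 - r ^ 2) ≤ t * |Q| + r * |P| := by
    have e : d * (t ^ 2 - r ^ 2) = t * Q - r * P := by rw [hP, hQ]; ring
    have e2 : |d| * (t ^ 2 - r ^ 2) = |d * (t ^ 2 - r ^ 2)| := by
      rw [abs_mul, abs_of_pos hd2]
    rw [e2, e]
    calc |t * Q - r * P| ≤ |t * Q| + |r * P| := abs_sub _ _
      _ = t * |Q| + r * |P| := by rw [abs_mul, abs_mul, abs_of_pos ht0, abs_of_pos hr]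
  have hu : 0 ≤ a + b * (t * r) := by nlinarith
  rw [abs_of_nonneg hu] at h3
  -- from bounds on P, Q of the form K * (…) get bounds on M |c|, M |d|
  have key : ∀ l0 l1 l4 : ℝ, |P| ≤ K * l0 + K * (t * r) * l1 + 2 * (t * r) * l4 →
      |Q| ≤ K * l0 + K * l1 + 2 * (t * r) * l4 →
      M * |c| ≤ l0 + l1 * A + l4 * (2 * (t * r) / K) ∧ M * |d| ≤ l0 + l1 * B + l4 * (2 * (t * r) / K) := by
    intro l0 l1 l4 k1 k2
    have e2 : K * (2 * (t * r) / K) = 2 * (t * r) := by field_simp
    have hfac : t ^ 2 - r ^ 2 = M * K * (t + r) := by rw [hMK]; ring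
    constructor
    · have h5 : M * |c| * (K * (t + r)) ≤ (l0 + l1 * A + l4 * (2 * (t * r) / K)) * (K * (t + r)) := by
        have h6 : (l0 + l1 * A + l4 * (2 * (t * r) / K)) * (K * (t + r)) =
            t * (K * l0 + K * (t * r) * l1 + 2 * (t * r) * l4) + r * (K * l0 + K * l1 + 2 * (t * r) * l4) := by
          have : (l0 + l1 * A + l4 * (2 * (t * r) / K)) * (K * (t + r)) =
            l0 * K * (t + r) + l1 * K * (A * (t + r)) + l4 * (t + r) * (K * (2 * (t * r) / K)) := by ring
          rw [this, hAe, e2]; ring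
        rw [h6]
        have h7 : M * |c| * (K * (t + r)) = |c| * (t ^ 2 - r ^ 2) := by rw [hfac]; ring
        rw [h7]
        refine hc.trans ?_
        gcongr
      exact le_of_mul_le_mul_right h5 (by positivity)
    · have h5 : M * |d| * (K * (t + r)) ≤ (l0 + l1 * B + l4 * (2 * (t * r) / K)) * (K * (t + r)) := by
        have h6 : (l0 + l1 * B + l4 * (2 * (t * r) / K)) * (K * (t + r)) =
            t * (K * l0 + K * l1 + 2 * (t * r) * l4) + r * (K * l0 + K * (t * r) * l1 + 2 * (t * r) * l4) := by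
          have : (l0 + l1 * B + l4 * (2 * (t * r) / K)) * (K * (t + r)) =
            l0 * K * (t + r) + l1 * K * (B * (t + r)) + l4 * (t + r) * (K * (2 * (t * r) / K)) := by ring
          rw [this, hBe, e2]; ring
        rw [h6]
        have h7 : M * |d| * (K * (t + r)) = |d| * (t ^ 2 - r ^ 2) := by rw [hfac]; ring
        rw [h7]
        refine hd.trans ?_
        gcongr
      exact le_of_mul_le_mul_right h5 (by positivity)
  rcases le_total (-(t * r * a)) b with hcase | hcase
  · -- first sector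
    have hw : 0 ≤ a * (t * r) + b := by nlinarith
    rw [abs_of_nonneg hw] at h4
    set l0 := v - a with hl0
    set l1 := (a - b) / K with hl1
    set l3 := (a * (t * r) + b) / K with hl3
    have hl0' : 0 ≤ l0 := by linarith
    have hl1' : 0 ≤ l1 := div_nonneg (by linarith) hK0.le
    have hl3' : 0 ≤ l3 := div_nonneg hw hK0.le
    have e1 : K * l1 = a - b := by rw [hl1]; field_simp
    have e3 : K * l3 = a * (t * r) + b := by rw [hl3]; field_simp
    have ea : l1 + l3 = a := by
      have : K * (l1 + l3) = K * a := by rw [mul_add, e1, e3, hK]; ring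
      exact mul_left_cancel₀ hK0.ne' this
    have eb : b = l3 - t * r * l1 := by
      have : K * b = K * (l3 - t * r * l1) := by
        rw [mul_sub, e3]
        have : K * (t * r * l1) = t * r * (K * l1) := by ring
        rw [this, e1, hK]; ring
      exact mul_left_cancel₀ hK0.ne' this
    have habs : |b| ≤ l3 + t * r * l1 := by
      rw [eb]
      have h5 : 0 ≤ t * r * l1 := by positivity
      rw [abs_le]; constructor <;> linarith
    obtain ⟨k1, k2⟩ := key l0 l1 0 (by
      have : K * (t * r) * l1 = t * r * (K * l1) := by ring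
      rw [this, e1, hl0, hK]; rw [hK] at h3; linarith) (by
      rw [e1, hl0, hK]; rw [hK] at h4; linarith)
    have g1 : M * (a * X11) = l1 * (M * X11) + l3 * M * X11 := by rw [← ea]; ring
    have g2 : M * (|c| * X12) ≤ (l0 + l1 * A) * X12 := by
      have := mul_le_mul_of_nonneg_right k1 x12
      linarith
    have g3 : M * (|d| * X21) ≤ (l0 + l1 * B) * X21 := by
      have := mul_le_mul_of_nonneg_right k2 x21
      linarith
    have g4 : M * (|b| * X22) ≤ M * ((l3 + t * r * l1) * X22) := by gcongr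
    have f1 : l1 * (M * X11 + A * X12 + B * X21 + M * (t * r) * X22) ≤ l1 * N := by gcongr
    have f3 : l3 * (M * (X11 + X22)) ≤ l3 * (1 * N) := by gcongr
    have f0 : l0 * (X12 + X21) ≤ l0 * N := by gcongr
    have fin : v * N = l0 * N + l1 * N + l3 * (1 * N) := by
      have : v = l0 + (l1 + l3) := by rw [ea, hl0]; ring
      rw [this]; ring
    rw [fin]
    linarith
  · -- second sector
    have hb0 : b ≤ 0 := by nlinarith
    have hw : a * (t * r) + b ≤ 0 := by nlinarith
    rw [abs_of_nonpos hw] at h4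
    have hK'0 : 0 < 1 - t * r := by linarith
    set K' := 1 - t * r with hK'
    set l0 := v - a with hl0
    set l1 := (a + b) / K' with hl1
    set l4 := (-b - t * r * a) / K' with hl4
    have hl0' : 0 ≤ l0 := by linarith
    have hl1' : 0 ≤ l1 := div_nonneg (by linarith) hK'0.le
    have hl4' : 0 ≤ l4 := div_nonneg (by linarith) hK'0.le
    have e1 : K' * l1 = a + b := by rw [hl1]; field_simp
    have e4 : K' * l4 = -b - t * r * a := by rw [hl4]; field_simp
    have ea : l1 + l4 = a := by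
      have : K' * (l1 + l4) = K' * a := by rw [mul_add, e1, e4, hK']; ring
      exact mul_left_cancel₀ hK'0.ne' this
    have eb : -b = t * r * l1 + l4 := by
      have : K' * (-b) = K' * (t * r * l1 + l4) := by
        have h5 : K' * (t * r * l1 + l4) = t * r * (K' * l1) + K' * l4 := by ring
        rw [h5, e1, e4, hK']; ring
      exact mul_left_cancel₀ hK'0.ne' this
    have habs : |b| = t * r * l1 + l4 := by rw [abs_of_nonpos hb0, eb]
    obtain ⟨k1, k2⟩ := key l0 l1 l4 (by
      have h5 : K * l0 + K * (t * r) * l1 + 2 * (t * r) * l4 = v * K - (a + b * (t * r)) := by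
        have hb' : b = -(t * r * l1 + l4) := by linarith
        rw [hl0, hb', ← ea, hK]; ring
      rw [h5]; linarith) (by
      have h5 : K * l0 + K * l1 + 2 * (t * r) * l4 = v * K + (a * (t * r) + b) := by
        have hb' : b = -(t * r * l1 + l4) := by linarith
        rw [hl0, hb', ← ea, hK]; ring
      rw [h5]; linarith)
    have g1 : M * (a * X11) = l1 * (M * X11) + l4 * M * X11 := by rw [← ea]; ring
    have g2 : M * (|c| * X12) ≤ (l0 + l1 * A + l4 * (2 * (t * r) / K)) * X12 := by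
      have := mul_le_mul_of_nonneg_right k1 x12
      linarith
    have g3 : M * (|d| * X21) ≤ (l0 + l1 * B + l4 * (2 * (t * r) / K)) * X21 := by
      have := mul_le_mul_of_nonneg_right k2 x21
      linarith
    have g4 : M * (|b| * X22) = M * ((t * r * l1 + l4) * X22) := by rw [habs]
    have f1 : l1 * (M * X11 + A * X12 + B * X21 + M * (t * r) * X22) ≤ l1 * N := by gcongr
    have hg : M + 2 * (t * r) / K ≤ 1 := by
      rw [hM, ← add_div, div_le_one hK0, hK]; nlinarith
    have f4 : l4 * (M * (X11 + X22) + 2 * (t * r) / K * (X12 + X21)) ≤ l4 * N := by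
      apply mul_le_mul_of_nonneg_left _ hl4'
      have h5 : 0 ≤ 2 * (t * r) / K := by positivity
      calc M * (X11 + X22) + 2 * (t * r) / K * (X12 + X21) ≤ M * N + 2 * (t * r) / K * N := by gcongr
        _ = (M + 2 * (t * r) / K) * N := by ring
        _ ≤ 1 * N := by gcongr
        _ = N := one_mul _
    have f0 : l0 * (X12 + X21) ≤ l0 * N := by gcongr
    have fin : v * N = l0 * N + l1 * N + l4 * N := by
      have : v = l0 + (l1 + l4) := by rw [ea, hl0]; ring
      rw [this]; ring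
    rw [fin]
    linarith

/-- The same without sign and order assumptions. -/
lemma two_core' {a b c d v t r N X11 X12 X21 X22 : ℝ} (hr : 0 < r) (hrt : r < t) (ht : t < 1)
    (ha : |a| ≤ v) (hb : |b| ≤ v)
    (h3 : |a + b * (t * r)| + |c * t + d * r| ≤ v * (1 + t * r))
    (h4 : |a * (t * r) + b| + |c * r + d * t| ≤ v * (1 + t * r))
    (x11 : 0 ≤ X11) (x12 : 0 ≤ X12) (x21 : 0 ≤ X21) (x22 : 0 ≤ X22) (hN : 0 ≤ N)
    (s1 : (t - r) / (1 + t * r) * X11 + r * (1 + t ^ 2) / (t + r) * X12 +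
      t * (1 + r ^ 2) / (t + r) * X21 + (t - r) / (1 + t * r) * (t * r) * X22 ≤ N)
    (s2 : (t - r) / (1 + t * r) * (t * r) * X11 + t * (1 + r ^ 2) / (t + r) * X12 +
      r * (1 + t ^ 2) / (t + r) * X21 + (t - r) / (1 + t * r) * X22 ≤ N)
    (s3 : X12 + X21 ≤ N) (s4 : X11 + X22 ≤ N) :
    (t - r) / (1 + t * r) * (|a| * X11 + |c| * X12 + |d| * X21 + |b| * X22) ≤ v * N := by
  wlog hab : |b| ≤ |a| generalizing a b c d X11 X12 X21 X22
  · have := this (a := b) (b := a) (c := d) (d := c) (X11 := X22) (X12 := X21) (X21 := X12) (X22 := X11)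
      hb ha (by rw [add_comm b, add_comm (d * t)]; exact h4) (by rw [add_comm (b * (t * r)), add_comm (d * r)]; exact h3)
      x22 x21 x12 x11 (by linarith) (by linarith) (by linarith) (by linarith) (le_of_not_ge hab)
    calc _ = (t - r) / (1 + t * r) * (|b| * X22 + |d| * X21 + |c| * X12 + |a| * X11) := by ring
      _ ≤ _ := this
  rcases le_total 0 a with h | h
  · rw [abs_of_nonneg h] at ha hab ⊢
    exact two_core hr hrt ht h hab ha h3 h4 x11 x12 x21 x22 hN s1 s3 s4
  · have := two_core (a := -a) (b := -b) (c := -c) (d := -d) (v := v) (t := t) (r := r) (N := N) (X11 := X11)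
      (X12 := X12) (X21 := X21) (X22 := X22) hr hrt ht (by linarith)
      (by rw [abs_neg]; rwa [abs_of_nonpos h] at hab) (by rwa [abs_of_nonpos h] at ha)
      (by
        have e1 : -a + -b * (t * r) = -(a + b * (t * r)) := by ring
        have e2 : -c * t + -d * r = -(c * t + d * r) := by ring
        rw [e1, e2, abs_neg, abs_neg]; exact h3)
      (by
        have e1 : -a * (t * r) + -b = -(a * (t * r) + b) := by ring
        have e2 : -c * r + -d * t = -(c * r + d * t) := by ring
        rw [e1, e2, abs_neg, abs_neg]; exact h4)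
      x11 x12 x21 x22 hN s1 s3 s4
    rw [abs_neg, abs_neg, abs_neg] at this
    rw [abs_of_nonpos h]
    exact this

/-- The Schur test for the extreme matrix. -/
lemma schur {p q l X1 X2 Y1 Y2 : ℝ} (hpq : p.HolderConjugate q) (hl0 : 0 < l) (hl1 : l ≤ 1)
    (hX1 : 0 ≤ X1) (hX2 : 0 ≤ X2) (hY1 : 0 ≤ Y1) (hY2 : 0 ≤ Y2) (hrt : l ^ p ≤ l ^ q) :
    (l ^ q - l ^ p) / (1 + l ^ q * l ^ p) * (Y1 * X1) + l ^ p * (1 + (l ^ q) ^ 2) / (l ^ q + l ^ p) * (Y1 * X2) +
      l ^ q * (1 + (l ^ p) ^ 2) / (l ^ q + l ^ p) * (Y2 * X1) +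
      (l ^ q - l ^ p) / (1 + l ^ q * l ^ p) * (l ^ q * l ^ p) * (Y2 * X2) ≤
    (X1 ^ p + X2 ^ p) / p + (Y1 ^ q + Y2 ^ q) / q := by
  have hp := hpq.pos
  have hq := hpq.symm.pos
  have y1 := Real.young_inequality_of_nonneg (mul_nonneg hX1 hl0.le) (div_nonneg hY1 hl0.le) hpq
  have y2 := Real.young_inequality_of_nonneg hX2 hY1 hpq
  have y3 := Real.young_inequality_of_nonneg hX1 hY2 hpq
  have y4 := Real.young_inequality_of_nonneg (div_nonneg hX2 hl0.le) (mul_nonneg hY2 hl0.le) hpq
  rw [Real.mul_rpow hX1 hl0.le, Real.div_rpow hY1 hl0.le] at y1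
  rw [Real.div_rpow hX2 hl0.le, Real.mul_rpow hY2 hl0.le] at y4
  have z1 : X1 * l * (Y1 / l) = Y1 * X1 := by field_simp
  have z4 : X2 / l * (Y2 * l) = Y2 * X2 := by field_simp
  rw [z1] at y1
  rw [z4] at y4
  set t := l ^ q with ht
  set r := l ^ p with hr
  have ht0 : 0 < t := by positivity
  have hr0 : 0 < r := by positivity
  have ht1 : t ≤ 1 := Real.rpow_le_one hl0.le hl1 hq.le
  have hr1 : r ≤ 1 := Real.rpow_le_one hl0.le hl1 hp.le
  set C := (t - r) / (1 + t * r) with hC
  have hC0 : 0 ≤ C := div_nonneg (by linarith) (by positivity)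
  set A := r * (1 + t ^ 2) / (t + r) with hA
  set B := t * (1 + r ^ 2) / (t + r) with hB
  have hA0 : 0 ≤ A := by positivity
  have hB0 : 0 ≤ B := by positivity
  have i1 : C / t + A ≤ 1 := by
    rw [hC, hA, div_div, div_add_div _ _ (by positivity) (by positivity), div_le_one (by positivity)]
    have : 0 ≤ r ^ 2 * (1 - t ^ 4) := by
      have : t ^ 4 ≤ 1 := pow_le_one₀ ht0.le ht1
      have : 0 ≤ 1 - t ^ 4 := by linarith
      positivity
    nlinarith [this]
  have i2 : B + C * (t * r) * t ≤ 1 := by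
    have e : B + C * (t * r) * t = (t * (1 + r ^ 2) * (1 + t * r) + t ^ 2 * r * (t - r) * (t + r)) / ((t + r) * (1 + t * r)) := by
      rw [hC, hB]; field_simp
    rw [e, div_le_one (by positivity)]
    have : 0 ≤ r * (1 - t ^ 4) := by
      have : t ^ 4 ≤ 1 := pow_le_one₀ ht0.le ht1
      have : 0 ≤ 1 - t ^ 4 := by linarith
      positivity
    nlinarith [this]
  have i3 : C * r + B ≤ 1 := by
    have e : C * r + B = ((t - r) * r * (t + r) + t * (1 + r ^ 2) * (1 + t * r)) / ((1 + t * r) * (t + r)) := by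
      rw [hC, hB]; field_simp
    rw [e, div_le_one (by positivity)]
    have : 0 ≤ r * (1 - t ^ 2) * (1 + r ^ 2) := by
      have : t ^ 2 ≤ 1 := pow_le_one₀ ht0.le ht1
      have : 0 ≤ 1 - t ^ 2 := by linarith
      positivity
    nlinarith [this]
  have i4 : A + C * (t * r) / r ≤ 1 := by
    have e : A + C * (t * r) / r = (r * (1 + t ^ 2) * (1 + t * r) + t * (t - r) * (t + r)) / ((t + r) * (1 + t * r)) := by
      rw [hC, hA]; field_simp
    rw [e, div_le_one (by positivity)]
    have : 0 ≤ t * (1 + r ^ 2) * (1 - t ^ 2) := by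
      have : t ^ 2 ≤ 1 := pow_le_one₀ ht0.le ht1
      have : 0 ≤ 1 - t ^ 2 := by linarith
      positivity
    nlinarith [this]
  have hX1p : 0 ≤ X1 ^ p := by positivity
  have hX2p : 0 ≤ X2 ^ p := by positivity
  have hY1q : 0 ≤ Y1 ^ q := by positivity
  have hY2q : 0 ≤ Y2 ^ q := by positivity
  have w1 := mul_le_mul_of_nonneg_left y1 hC0
  have w2 := mul_le_mul_of_nonneg_left y2 hA0
  have w3 := mul_le_mul_of_nonneg_left y3 hB0
  have w4 := mul_le_mul_of_nonneg_left y4 (by positivity : 0 ≤ C * (t * r))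
  have v1 : (C * r + B) * (X1 ^ p / p) ≤ 1 * (X1 ^ p / p) := by gcongr
  have v2 : (A + C * (t * r) / r) * (X2 ^ p / p) ≤ 1 * (X2 ^ p / p) := by gcongr
  have v3 : (C / t + A) * (Y1 ^ q / q) ≤ 1 * (Y1 ^ q / q) := by gcongr
  have v4 : (B + C * (t * r) * t) * (Y2 ^ q / q) ≤ 1 * (Y2 ^ q / q) := by gcongr
  have e1 : C * (X1 ^ p * r / p + Y1 ^ q / t / q) + A * (X2 ^ p / p + Y1 ^ q / q) + B * (X1 ^ p / p + Y2 ^ q / q) +
      C * (t * r) * (X2 ^ p / r / p + Y2 ^ q * t / q) =
      (C * r + B) * (X1 ^ p / p) + (A + C * (t * r) / r) * (X2 ^ p / p) + (C / t + A) * (Y1 ^ q / q) +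
      (B + C * (t * r) * t) * (Y2 ^ q / q) := by ring
  have e2 : (X1 ^ p + X2 ^ p) / p + (Y1 ^ q + Y2 ^ q) / q = X1 ^ p / p + X2 ^ p / p + (Y1 ^ q / q + Y2 ^ q / q) := by ring
  rw [e2]
  rw [mul_comm X2 Y1] at w2
  rw [mul_comm X1 Y2] at w3
  linarith

end Pool.Agent.Work.MP_95d40a_an
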